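import Pool.Agent.P.MP_c51580_gt.Defs

namespace Pool.Agent.P.MP_c51580_gt

open Set Metric Filter Topology
open scoped RealInnerProductSpace

namespace CircA

/-- The rational parametrisation of the unit circle. -/
noncomputable def p0 (t : ℝ) : E3 := !₂[(1 - t ^ 2) / (1 + t ^ 2), 2 * t / (1 + t ^ 2), 0]

/-- The parametrisation of the unit circle near `(-1, 0, 0)`. -/
noncomputable def q0 (s : ℝ) : E3 := !₂[(s ^ 2 - 1) / (1 + s ^ 2), 2 * s / (1 + s ^ 2), 0]

theorem pos (t : ℝ) : 0 < 1 + t ^ 2 := by positivity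

@[simp] theorem p0_0 (t : ℝ) : p0 t 0 = (1 - t ^ 2) / (1 + t ^ 2) := by simp [p0]
@[simp] theorem p0_1 (t : ℝ) : p0 t 1 = 2 * t / (1 + t ^ 2) := by simp [p0]
@[simp] theorem p0_2 (t : ℝ) : p0 t 2 = 0 := by simp [p0]
@[simp] theorem q0_0 (t : ℝ) : q0 t 0 = (t ^ 2 - 1) / (1 + t ^ 2) := by simp [q0]
@[simp] theorem q0_1 (t : ℝ) : q0 t 1 = 2 * t / (1 + t ^ 2) := by simp [q0]
@[simp] theorem q0_2 (t : ℝ) : q0 t 2 = 0 := by simp [q0]

theorem ext3 {p q : E3} (h0 : p 0 = q 0) (h1 : p 1 = q 1) (h2 : p 2 = q 2) : p = q := by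
  ext i
  fin_cases i
  · exact h0
  · exact h1
  · exact h2

theorem norm_sq3 (p : E3) : ‖p‖ ^ 2 = p 0 ^ 2 + p 1 ^ 2 + p 2 ^ 2 := by
  rw [EuclideanSpace.real_norm_sq_eq, Fin.sum_univ_three]

theorem p0_mem (t : ℝ) : p0 t ∈ S0 := by
  refine ⟨p0_2 t, ?_⟩
  have := pos t
  rw [p0_0, p0_1]
  field_simp
  ring

theorem p0_key (t : ℝ) : p0 t 1 = t * (1 + p0 t 0) := by
  have := pos t
  rw [p0_0, p0_1]
  field_simp
  ring

theorem p0_gt (t : ℝ) : 0 < 1 + p0 t 0 := by
  have h := pos t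
  have : 1 + p0 t 0 = 2 / (1 + t ^ 2) := by
    rw [p0_0]
    field_simp
    ring
  rw [this]
  positivity

theorem p0_injective : Function.Injective p0 := by
  intro s t h
  have h1 := p0_key s
  have h2 := p0_key t
  have h3 := p0_gt t
  rw [h] at h1
  rw [h1] at h2
  exact mul_right_cancel₀ h3.ne' h2

theorem contDiff_p0 : ContDiff ℝ 1 p0 := by
  rw [contDiff_euclidean]
  intro i
  fin_cases i
  · simp only [Fin.zero_eta, p0_0]
    exact ContDiff.div (by fun_prop) (by fun_prop) (fun t => (pos t).ne')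
  · simp only [Fin.mk_one, p0_1]
    exact ContDiff.div (by fun_prop) (by fun_prop) (fun t => (pos t).ne')
  · simp only [Fin.reduceFinMk, p0_2]
    exact contDiff_const

theorem continuous_q0 : Continuous q0 := by
  have : ContDiff ℝ 0 q0 := by
    rw [contDiff_euclidean]
    intro i
    fin_cases i
    · simp only [Fin.zero_eta, q0_0]
      exact ContDiff.div (by fun_prop) (by fun_prop) (fun t => (pos t).ne')
    · simp only [Fin.mk_one, q0_1]
      exact ContDiff.div (by fun_prop) (by fun_prop) (fun t => (pos t).ne')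
    · simp only [Fin.reduceFinMk, q0_2]
      exact contDiff_const
  exact this.continuous

theorem q0_zero : q0 0 = !₂[-1, 0, 0] := by
  apply ext3 <;> simp

theorem q0_inv {t : ℝ} (ht : t ≠ 0) : q0 t⁻¹ = p0 t := by
  have := pos t
  apply ext3
  · rw [q0_0, p0_0]
    field_simp
    ring
  · rw [q0_1, p0_1]
    field_simp
    ring
  · simp

theorem mem_S0 {p : E3} (hp : p ∈ S0) : p = !₂[-1, 0, 0] ∨ ∃ t, p = p0 t := by
  obtain ⟨h2, h⟩ := hp
  by_cases h0 : 1 + p 0 = 0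
  · left
    have e0 : p 0 = -1 := by linarith
    have e1 : p 1 = 0 := by
      rw [e0] at h
      have : p 1 ^ 2 = 0 := by linarith
      exact pow_eq_zero_iff (two_ne_zero) |>.mp this
    apply ext3 <;> simp [e0, e1, h2]
  · right
    refine ⟨p 1 / (1 + p 0), ?_⟩
    have e1 : p 1 ^ 2 = (1 - p 0) * (1 + p 0) := by linarith
    have e2 : (p 1 / (1 + p 0)) ^ 2 = (1 - p 0) / (1 + p 0) := by
      rw [div_pow, e1]
      field_simp
    have e3 : 1 + (p 1 / (1 + p 0)) ^ 2 = 2 / (1 + p 0) := by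
      rw [e2]
      field_simp
      ring
    apply ext3
    · rw [p0_0, e3, e2]
      field_simp
      ring
    · rw [p0_1, e3]
      field_simp
    · rw [p0_2, h2]

theorem isCompact_S0 : IsCompact S0 := by
  apply Metric.isCompact_of_isClosed_isBounded
  · have h1 : IsClosed {p : E3 | p 2 = 0} := isClosed_eq (by fun_prop) continuous_const
    have h2 : IsClosed {p : E3 | p 0 ^ 2 + p 1 ^ 2 = 1} :=
      isClosed_eq (by fun_prop) continuous_const
    exact h1.inter h2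
  · refine (Metric.isBounded_closedBall (x := (0 : E3)) (r := 1)).subset ?_
    rintro p ⟨h2, h⟩
    rw [mem_closedBall_zero_iff]
    have := norm_sq3 p
    rw [h2, h] at this
    nlinarith [norm_nonneg p]

theorem convex_D0 : Convex ℝ D0 := by
  rintro p ⟨hp2, hp⟩ q ⟨hq2, hq⟩ a b ha hb hab
  refine ⟨by simp [hp2, hq2], ?_⟩
  simp only [PiLp.add_apply, PiLp.smul_apply, smul_eq_mul]
  have hb' : b = 1 - a := by linarith
  subst hb'
  nlinarith [mul_nonneg ha hb, sq_nonneg (p 0 - q 0), sq_nonneg (p 1 - q 1),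
    mul_nonneg (mul_nonneg ha hb) (add_nonneg (sq_nonneg (p 0 - q 0)) (sq_nonneg (p 1 - q 1))),
    mul_le_mul_of_nonneg_left hp ha, mul_le_mul_of_nonneg_left hq hb]

/-- The affine function vanishing on the chord from `p0 a` to `p0 b`. -/
noncomputable def aff (a b : ℝ) (p : E3) : ℝ :=
  (1 - p 0) / 2 - (a + b) * p 1 / 2 + a * b * (1 + p 0) / 2

theorem aff_p0 (a b t : ℝ) : aff a b (p0 t) = (t - a) * (t - b) / (1 + t ^ 2) := by
  have := pos t
  rw [aff, p0_0, p0_1]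
  field_simp
  ring

theorem aff_combo (a b : ℝ) (p q : E3) (t : ℝ) :
    aff a b ((1 - t) • p + t • q) = (1 - t) * aff a b p + t * aff a b q := by
  simp only [aff, PiLp.add_apply, PiLp.smul_apply, smul_eq_mul]
  ring

end CircA

open CircA

theorem Sim.inv_map (σ : Sim) (p : E3) : σ.inv (σ.map p) = p := by
  simp [Sim.inv, Sim.map, smul_smul, inv_mul_cancel₀ σ.hr.ne']

theorem Sim.map_inv (σ : Sim) (p : E3) : σ.map (σ.inv p) = p := by
  simp only [Sim.inv, Sim.map, LinearIsometryEquiv.apply_symm_apply, smul_smul,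
    mul_inv_cancel₀ σ.hr.ne', one_smul]
  abel

theorem Sim.continuous_map (σ : Sim) : Continuous σ.map := by
  unfold Sim.map
  fun_prop

theorem Sim.continuous_inv (σ : Sim) : Continuous σ.inv := by
  unfold Sim.inv
  fun_prop

theorem Sim.dist_map (σ : Sim) (p q : E3) : dist (σ.map p) (σ.map q) = σ.r * dist p q := by
  rw [Sim.map, Sim.map, dist_add_left, dist_smul₀, LinearIsometryEquiv.dist_map,
    Real.norm_of_nonneg σ.hr.le]

theorem Sim.map_combo (σ : Sim) (p q : E3) (t : ℝ) :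
    σ.map ((1 - t) • p + t • q) = (1 - t) • σ.map p + t • σ.map q := by
  simp only [Sim.map, map_add, map_smul]
  module

private theorem Sim.map_injective (σ : Sim) : Function.Injective σ.map :=
  Function.LeftInverse.injective σ.inv_map

private theorem Sim.pt_eq (σ : Sim) (t : ℝ) : σ.pt t = σ.map (p0 t) := rfl

theorem continuous_G0 : Continuous G0 := by
  have : G0 = fun p : E3 => ((1 - ‖p‖ ^ 2 : ℝ) : ℂ) + ((2 * p 2 : ℝ) : ℂ) * Complex.I := by
    funext p
    rw [G0, Complex.mk_eq_add_mul_I]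
  rw [this]
  fun_prop

theorem G0_eq_zero (p : E3) : G0 p = 0 ↔ p ∈ S0 := by
  rw [G0, Complex.ext_iff, norm_sq3]
  simp only [Complex.zero_re, Complex.zero_im, S0, mem_ofPred_eq]
  constructor
  · rintro ⟨h1, h2⟩
    have h : p 2 = 0 := by linarith
    rw [h] at h1
    exact ⟨h, by linarith⟩
  · rintro ⟨h1, h2⟩
    rw [h1, h2]
    norm_num

theorem Sim.continuous_G (σ : Sim) : Continuous σ.G :=
  continuous_G0.comp σ.continuous_inv

theorem Sim.G_eq_zero (σ : Sim) (p : E3) : σ.G p = 0 ↔ p ∈ σ.circ := by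
  rw [Sim.G, G0_eq_zero]
  constructor
  · intro h
    exact ⟨_, h, σ.map_inv p⟩
  · rintro ⟨q, hq, rfl⟩
    rwa [σ.inv_map]

theorem Sim.contDiff_pt (σ : Sim) : ContDiff ℝ 1 σ.pt := by
  have h : σ.pt = fun t => σ.c + σ.r • σ.L (p0 t) := rfl
  rw [h]
  exact contDiff_const.add ((σ.L.contDiff.comp contDiff_p0).const_smul σ.r)

theorem Sim.deriv_pt_ne (σ : Sim) (t : ℝ) : deriv σ.pt t ≠ 0 := by
  intro h
  have hd : HasDerivAt σ.pt 0 t := by
    rw [← h]
    exact (σ.contDiff_pt.differentiable one_ne_zero t).hasDerivAt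
  have h1 : HasDerivAt (fun s => σ.r⁻¹ • (σ.pt s - σ.c)) (σ.r⁻¹ • (0 : E3)) t :=
    (hd.sub_const σ.c).const_smul σ.r⁻¹
  have h2 := (σ.L.symm.toContinuousLinearEquiv.toContinuousLinearMap.hasFDerivAt).comp_hasDerivAt
    t h1
  have h3 : HasDerivAt p0 0 t := by
    have e : p0 = fun s => σ.L.symm (σ.r⁻¹ • (σ.pt s - σ.c)) :=
      funext fun s => (σ.inv_map (p0 s)).symm
    rw [smul_zero, map_zero] at h2
    rw [e]
    exact h2
  have c0 : HasDerivAt (fun s => p0 s 0) 0 t := by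
    have := ((EuclideanSpace.proj (0 : Fin 3) : E3 →L[ℝ] ℝ).hasFDerivAt).comp_hasDerivAt t h3
    rw [map_zero] at this
    exact this
  have c1 : HasDerivAt (fun s => p0 s 1) 0 t := by
    have := ((EuclideanSpace.proj (1 : Fin 3) : E3 →L[ℝ] ℝ).hasFDerivAt).comp_hasDerivAt t h3
    rw [map_zero] at this
    exact this
  have c2 : HasDerivAt (fun s => s * (1 + p0 s 0)) (1 * (1 + p0 t 0) + t * 0) t :=
    (hasDerivAt_id t).mul (c0.const_add 1)
  have c3 : (fun s => p0 s 1) = fun s => s * (1 + p0 s 0) := funext p0_key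
  rw [c3] at c1
  have := c1.unique c2
  have := p0_gt t
  linarith

theorem Sim.pt_injective (σ : Sim) : Function.Injective σ.pt :=
  σ.map_injective.comp p0_injective

theorem Sim.pt_mem (σ : Sim) (t : ℝ) : σ.pt t ∈ σ.circ := ⟨p0 t, p0_mem t, rfl⟩

theorem Sim.ptInf_mem (σ : Sim) : σ.ptInf ∈ σ.circ :=
  ⟨!₂[-1, 0, 0], ⟨by simp, by simp⟩, rfl⟩

theorem Sim.pt_ne_ptInf (σ : Sim) (t : ℝ) : σ.pt t ≠ σ.ptInf := by
  intro h
  have h1 : p0 t = !₂[-1, 0, 0] := σ.map_injective h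
  have h2 := p0_gt t
  rw [h1] at h2
  simp at h2

theorem Sim.mem_circ (σ : Sim) {p : E3} (hp : p ∈ σ.circ) : p = σ.ptInf ∨ ∃ t, p = σ.pt t := by
  obtain ⟨q, hq, rfl⟩ := hp
  rcases mem_S0 hq with rfl | ⟨t, rfl⟩
  · exact Or.inl rfl
  · exact Or.inr ⟨t, rfl⟩

private theorem Sim.farArc_eq (σ : Sim) {a : ℝ} (ha : 0 < a) :
    ({σ.ptInf} ∪ σ.pt '' {t | a ≤ |t|}) = (fun s => σ.map (q0 s)) '' Icc (-a⁻¹) a⁻¹ := by
  have ha' : 0 < a⁻¹ := inv_pos.mpr ha
  ext p
  constructor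
  · rintro (rfl | ⟨t, ht, rfl⟩)
    · exact ⟨0, ⟨by linarith, ha'.le⟩, by simp only [q0_zero]; rfl⟩
    · have ht' : a ≤ |t| := ht
      have h0 : t ≠ 0 := by
        rintro rfl
        simp at ht'
        linarith
      refine ⟨t⁻¹, abs_le.mp ?_, by simp only [q0_inv h0]; rfl⟩
      rw [abs_inv]
      exact inv_anti₀ ha ht'
  · rintro ⟨s, hs, rfl⟩
    by_cases h0 : s = 0
    · left
      subst h0
      simp only [q0_zero]
      rfl
    · right
      refine ⟨s⁻¹, ?_, ?_⟩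
      · have h1 : |s| ≤ a⁻¹ := abs_le.mpr hs
        show a ≤ |s⁻¹|
        rw [abs_inv]
        exact (le_inv_comm₀ ha (abs_pos.mpr h0)).mpr h1
      · have := q0_inv (inv_ne_zero h0)
        rw [inv_inv] at this
        simp only [this]
        rfl

/-- The arc through `ptInf` is closed. -/
theorem Sim.isClosed_farArc (σ : Sim) {a : ℝ} (ha : 0 < a) :
    IsClosed ({σ.ptInf} ∪ σ.pt '' {t | a ≤ |t|}) := by
  rw [σ.farArc_eq ha]
  exact (isCompact_Icc.image (σ.continuous_map.comp continuous_q0)).isClosed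

theorem Sim.isPreconnected_farArc (σ : Sim) {a : ℝ} (ha : 0 < a) :
    IsPreconnected ({σ.ptInf} ∪ σ.pt '' {t | a ≤ |t|}) := by
  rw [σ.farArc_eq ha]
  exact isPreconnected_Icc.image _ (σ.continuous_map.comp continuous_q0).continuousOn

theorem Sim.circ_subset_disc (σ : Sim) : σ.circ ⊆ σ.disc :=
  image_mono fun _ hp => ⟨hp.1, hp.2.le⟩

theorem Sim.convex_disc (σ : Sim) : Convex ℝ σ.disc := by
  rintro _ ⟨p, hp, rfl⟩ _ ⟨q, hq, rfl⟩ a b ha hb hab
  have ha' : a = 1 - b := by linarith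
  subst ha'
  exact ⟨_, convex_D0 hp hq ha hb hab, σ.map_combo p q b⟩

theorem Sim.isCompact_circ (σ : Sim) : IsCompact σ.circ :=
  isCompact_S0.image σ.continuous_map

theorem Sim.isConnected_circ (σ : Sim) : IsConnected σ.circ := by
  refine ⟨⟨_, σ.ptInf_mem⟩, ?_⟩
  have h : σ.circ = ({σ.ptInf} ∪ σ.pt '' {t | 1 ≤ |t|}) ∪ range σ.pt := by
    apply Subset.antisymm
    · intro p hp
      rcases σ.mem_circ hp with rfl | ⟨t, rfl⟩
      · exact Or.inl (Or.inl rfl)
      · exact Or.inr ⟨t, rfl⟩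
    · rintro p ((rfl | ⟨t, -, rfl⟩) | ⟨t, rfl⟩)
      · exact σ.ptInf_mem
      · exact σ.pt_mem t
      · exact σ.pt_mem t
  rw [h]
  exact IsPreconnected.union (σ.pt 1) (Or.inr ⟨1, by simp, rfl⟩) ⟨1, rfl⟩
    (σ.isPreconnected_farArc one_pos) (isPreconnected_range σ.contDiff_pt.continuous)

/-- A chord meets the circle only in its end points. -/
theorem Sim.chord_inter (σ : Sim) {p q z : E3} (hp : p ∈ σ.circ) (hq : q ∈ σ.circ)
    (hz : z ∈ segment ℝ p q) (hzc : z ∈ σ.circ) : z = p ∨ z = q := by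
  obtain ⟨p, ⟨hp2, hp⟩, rfl⟩ := hp
  obtain ⟨q, ⟨hq2, hq⟩, rfl⟩ := hq
  obtain ⟨z, ⟨-, hz'⟩, rfl⟩ := hzc
  obtain ⟨a, b, ha, hb, hab, h⟩ := hz
  have ha' : a = 1 - b := by linarith
  subst ha'
  rw [← σ.map_combo] at h
  have h1 := σ.map_injective h
  subst h1
  simp only [PiLp.add_apply, PiLp.smul_apply, smul_eq_mul] at hz'
  have h2 : b * (1 - b) * ((p 0 - q 0) ^ 2 + (p 1 - q 1) ^ 2) = 0 := by
    linear_combination (1 - b) * hp + b * hq - hz'
  rcases mul_eq_zero.mp h2 with h3 | h3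
  · rcases mul_eq_zero.mp h3 with h4 | h4
    · left
      simp [h4]
    · right
      have : b = 1 := by linarith
      simp [this]
  · left
    have e0 : p 0 = q 0 := by nlinarith [sq_nonneg (p 0 - q 0), sq_nonneg (p 1 - q 1)]
    have e1 : p 1 = q 1 := by nlinarith [sq_nonneg (p 0 - q 0), sq_nonneg (p 1 - q 1)]
    have e : p = q := ext3 e0 e1 (by rw [hp2, hq2])
    subst e
    congr 1
    module

/-- Nested chords are disjoint. -/
theorem Sim.chord_disjoint (σ : Sim) {α α' β' β : ℝ} (h₁ : α < α') (h₂ : α' < β') (h₃ : β' < β) :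
    Disjoint (segment ℝ (σ.pt α) (σ.pt β)) (segment ℝ (σ.pt α') (σ.pt β')) := by
  rw [Set.disjoint_left]
  rintro z ⟨a, b, ha, hb, hab, h⟩ ⟨a', b', ha', hb', hab', h'⟩
  have e : a = 1 - b := by linarith
  have e' : a' = 1 - b' := by linarith
  subst e e'
  rw [σ.pt_eq, σ.pt_eq, ← σ.map_combo] at h h'
  have h1 := congrArg (aff α β) (σ.map_injective (h.trans h'.symm))
  rw [aff_combo, aff_combo, aff_p0, aff_p0, aff_p0, aff_p0] at h1
  have n1 : (α' - α) * (α' - β) / (1 + α' ^ 2) < 0 :=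
    div_neg_of_neg_of_pos (mul_neg_of_pos_of_neg (by linarith) (by linarith)) (pos _)
  have n2 : (β' - α) * (β' - β) / (1 + β' ^ 2) < 0 :=
    div_neg_of_neg_of_pos (mul_neg_of_pos_of_neg (by linarith) (by linarith)) (pos _)
  simp only [sub_self, zero_mul, mul_zero, zero_div, add_zero] at h1
  generalize (α' - α) * (α' - β) / (1 + α' ^ 2) = u at h1 n1
  generalize (β' - α) * (β' - β) / (1 + β' ^ 2) = v at h1 n2
  rcases eq_or_lt_of_le hb' with h0 | h0
  · subst h0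
    linarith
  · nlinarith [mul_nonneg ha' (neg_pos.mpr n1).le, mul_pos h0 (neg_pos.mpr n2)]

theorem exists_arg {E : Type*} [NormedAddCommGroup E] [NormedSpace ℝ E] {V : Set E}
    (hV : Convex ℝ V) {f : E → ℂ} (hf : ContinuousOn f V) (h0 : ∀ p ∈ V, f p ≠ 0) :
    ∃ θ : E → ℝ, ContinuousOn θ V ∧ ∀ p ∈ V, IsArg (f p) (θ p) := by
  classical
  rcases V.eq_empty_or_nonempty with rfl | hne
  · exact ⟨fun _ => 0, continuousOn_empty _, fun p hp => hp.elim⟩
  have := hV.contractibleSpace hne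
  have := hV.locallyPathConnectedSpace
  obtain ⟨x₀, hx₀⟩ := hne
  have hx := h0 x₀ hx₀
  lift x₀ to V using hx₀
  rcases Complex.isCoveringMapOn_exp.existsUnique_continuousMap_lifts
    ⟨V.domRestrict f, continuousOn_iff_continuous_domRestrict.mp hf⟩ (Complex.exp_log hx)
    (fun x => h0 x x.2) with ⟨g, ⟨-, hg⟩, -⟩
  obtain ⟨θ, hθ⟩ : ∃ θ : E → ℝ, ∀ z : V, θ z = (g z).im :=
    ⟨fun z => if hz : z ∈ V then (g ⟨z, hz⟩).im else 0, by simp⟩
  refine ⟨θ, ?_, ?_⟩
  · rw [continuousOn_iff_continuous_domRestrict]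
    have : V.domRestrict θ = fun z => (g z).im := funext hθ
    rw [this]
    fun_prop
  · intro p hp
    refine ⟨h0 p hp, ?_⟩
    lift p to V using hp
    have h1 : Complex.exp (g p) = f p := by simpa using congr($hg p)
    rw [hθ, ← h1, Complex.norm_exp, Complex.ofReal_exp, ← Complex.exp_add, Complex.re_add_im]

theorem IsArg.exists_int {z : ℂ} {a b : ℝ} (ha : IsArg z a) (hb : IsArg z b) :
    ∃ n : ℤ, a = b + n * (2 * Real.pi) := by
  have hz : (‖z‖ : ℂ) ≠ 0 := by exact_mod_cast norm_ne_zero_iff.mpr ha.1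
  have h := mul_left_cancel₀ hz (ha.2.symm.trans hb.2)
  obtain ⟨n, hn⟩ := Complex.exp_eq_exp_iff_exists_int.mp h
  refine ⟨n, ?_⟩
  simpa using congrArg Complex.im hn

theorem IsArg.add_sub {z w : ℂ} {θ a b : ℝ} (h : IsArg z θ) (ha : IsArg w a) (hb : IsArg w b) :
    IsArg z (θ + (a - b)) := by
  obtain ⟨n, hn⟩ := ha.exists_int hb
  refine ⟨h.1, ?_⟩
  have e : ((θ + (a - b) : ℝ) : ℂ) * Complex.I = θ * Complex.I + n * (2 * Real.pi * Complex.I) := by
    rw [hn]
    push_cast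
    ring
  rw [e, Complex.exp_add, Complex.exp_int_mul_two_pi_mul_I, mul_one]
  exact h.2

theorem arg_sub_const {X : Type*} [TopologicalSpace X] {V : Set X} (hV : IsPreconnected V)
    {f : X → ℂ} {θ θ' : X → ℝ} (hθ : ContinuousOn θ V) (hθ' : ContinuousOn θ' V)
    (ha : ∀ p ∈ V, IsArg (f p) (θ p)) (ha' : ∀ p ∈ V, IsArg (f p) (θ' p)) {x y : X}
    (hx : x ∈ V) (hy : y ∈ V) : θ x - θ' x = θ y - θ' y := by
  have hpi : 0 < 2 * Real.pi := by positivity
  have hc : IsPreconnected ((fun p => θ p - θ' p) '' V) := hV.image _ (hθ.sub hθ')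
  have hint : ∀ p ∈ V, ∃ n : ℤ, θ p - θ' p = n * (2 * Real.pi) := by
    intro p hp
    obtain ⟨n, hn⟩ := (ha p hp).exists_int (ha' p hp)
    exact ⟨n, by linarith⟩
  have key : ∀ x ∈ V, ∀ y ∈ V, ¬ θ x - θ' x < θ y - θ' y := by
    intro x hx y hy hlt
    obtain ⟨m, hm⟩ := hint x hx
    obtain ⟨n, hn⟩ := hint y hy
    have hmn : m < n := by
      rw [hm, hn] at hlt
      exact_mod_cast lt_of_mul_lt_mul_right hlt hpi.le
    have hmn' : (m : ℝ) + 1 ≤ n := by exact_mod_cast hmn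
    have hmem : ((m : ℝ) + 1 / 2) * (2 * Real.pi) ∈ Icc (θ x - θ' x) (θ y - θ' y) := by
      rw [hm, hn]
      constructor <;> nlinarith
    obtain ⟨p, hp, hpe⟩ := hc.Icc_subset ⟨x, hx, rfl⟩ ⟨y, hy, rfl⟩ hmem
    obtain ⟨k, hk⟩ := hint p hp
    have h1 : (k : ℝ) = m + 1 / 2 := mul_right_cancel₀ hpi.ne' (hk.symm.trans hpe)
    have h2 : (2 * k : ℝ) = 2 * m + 1 := by linarith
    have h3 : (2 * k : ℤ) = 2 * m + 1 := by exact_mod_cast h2
    omega
  exact le_antisymm (not_lt.mp (key y hy x hx)) (not_lt.mp (key x hx y hy))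

end Pool.Agent.P.MP_c51580_gt
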