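import Pool.Agent.P.MP_c51580_gt.ConnB
import Pool.Agent.P.MP_c51580_gt.CircA

namespace Pool.Agent.P.MP_c51580_gt

open Set Metric Filter Topology
open scoped RealInnerProductSpace

namespace Cover

/-- The denominator of the projection. -/
noncomputable def den (ξ : ℝ × ℂ) : ℝ := √(1 + ξ.2.re ^ 2 + ξ.2.im ^ 2) + Real.cos ξ.1

/-- The projection to the complement of the unit circle (junk value `0` where `den = 0`). -/
noncomputable def pr (ξ : ℝ × ℂ) : E3 :=
  !₂[ξ.2.re / den ξ, ξ.2.im / den ξ, Real.sin ξ.1 / den ξ]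

/-- The fibre coordinate. -/
noncomputable def fib (p : E3) : ℂ := ⟨2 * p 0 / ‖G0 p‖, 2 * p 1 / ‖G0 p‖⟩

theorem normsq (p : E3) : ‖p‖ ^ 2 = p 0 ^ 2 + p 1 ^ 2 + p 2 ^ 2 := by
  rw [EuclideanSpace.norm_sq_eq]
  simp [Fin.sum_univ_three]

theorem arg_re {z : ℂ} {θ : ℝ} (h : IsArg z θ) : z.re = ‖z‖ * Real.cos θ := by
  have := congrArg Complex.re h.2
  rw [this]
  simp [Complex.exp_ofReal_mul_I_re]

theorem arg_im {z : ℂ} {θ : ℝ} (h : IsArg z θ) : z.im = ‖z‖ * Real.sin θ := by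
  have := congrArg Complex.im h.2
  rw [this]
  simp [Complex.exp_ofReal_mul_I_im]

theorem isArg_of {z : ℂ} {θ r : ℝ} (hr : 0 < r) (h1 : z.re = r * Real.cos θ)
    (h2 : z.im = r * Real.sin θ) : ‖z‖ = r ∧ IsArg z θ := by
  have hz : z = (r : ℂ) * Complex.exp (θ * Complex.I) := by
    apply Complex.ext
    · rw [h1]; simp [Complex.exp_ofReal_mul_I_re]
    · rw [h2]; simp [Complex.exp_ofReal_mul_I_im]
  have hn : ‖z‖ = r := by
    rw [hz, norm_mul, Complex.norm_exp_ofReal_mul_I, Complex.norm_real, Real.norm_eq_abs,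
      abs_of_pos hr, mul_one]
  refine ⟨hn, ?_, ?_⟩
  · intro h0
    rw [h0, norm_zero] at hn
    exact hr.ne hn
  · rw [hn]; exact hz

theorem one_le_rho (ξ : ℝ × ℂ) : 1 ≤ √(1 + ξ.2.re ^ 2 + ξ.2.im ^ 2) := by
  rw [Real.one_le_sqrt]
  nlinarith [sq_nonneg ξ.2.re, sq_nonneg ξ.2.im]

theorem den_nonneg (ξ : ℝ × ℂ) : 0 ≤ den ξ := by
  have h1 := one_le_rho ξ
  have h2 := Real.neg_one_le_cos ξ.1
  unfold den
  linarith

theorem continuous_den : Continuous den := by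
  unfold den
  fun_prop

/-- The projection of the lift of a point is the point. -/
theorem pr_lift {p : E3} {θ : ℝ} (h : IsArg (G0 p) θ) : pr (θ, fib p) = p := by
  have hN : 0 < ‖G0 p‖ := norm_pos_iff.2 h.1
  have h1 : 1 - ‖p‖ ^ 2 = ‖G0 p‖ * Real.cos θ := arg_re h
  have h2 : 2 * p 2 = ‖G0 p‖ * Real.sin θ := arg_im h
  have hs := normsq p
  set N := ‖G0 p‖ with hNdef
  have hN2 : N ^ 2 = (1 - ‖p‖ ^ 2) ^ 2 + (2 * p 2) ^ 2 := by
    rw [h1, h2]
    nlinarith [Real.sin_sq_add_cos_sq θ]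
  have hrho : √(1 + (2 * p 0 / N) ^ 2 + (2 * p 1 / N) ^ 2) = (1 + ‖p‖ ^ 2) / N := by
    rw [Real.sqrt_eq_iff_mul_self_eq (by positivity) (by positivity)]
    field_simp
    rw [hN2, hs]
    ring
  have hden : den (θ, fib p) = 2 / N := by
    unfold den fib
    simp only
    rw [← hNdef, hrho]
    field_simp
    linarith
  unfold pr
  rw [hden]
  ext i
  fin_cases i
  · simp only [fib]
    rw [← hNdef]
    simp
    field_simp
  · simp only [fib]
    rw [← hNdef]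
    simp
    field_simp
  · simp
    field_simp
    linarith

theorem G0_pr {ξ : ℝ × ℂ} (h : den ξ ≠ 0) :
    ‖G0 (pr ξ)‖ = 2 / den ξ ∧ IsArg (G0 (pr ξ)) ξ.1 := by
  have hpos : 0 < den ξ := lt_of_le_of_ne (den_nonneg ξ) (Ne.symm h)
  have hsq : √(1 + ξ.2.re ^ 2 + ξ.2.im ^ 2) ^ 2 = 1 + ξ.2.re ^ 2 + ξ.2.im ^ 2 :=
    Real.sq_sqrt (by positivity)
  have hd : den ξ = √(1 + ξ.2.re ^ 2 + ξ.2.im ^ 2) + Real.cos ξ.1 := rfl
  apply isArg_of (by positivity)
  · show 1 - ‖pr ξ‖ ^ 2 = 2 / den ξ * Real.cos ξ.1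
    rw [normsq]
    simp only [pr]
    simp
    field_simp
    have := Real.sin_sq_add_cos_sq ξ.1
    set ρ := √(1 + ξ.2.re ^ 2 + ξ.2.im ^ 2)
    rw [hd]
    nlinarith
  · show 2 * pr ξ 2 = 2 / den ξ * Real.sin ξ.1
    simp only [pr]
    simp
    field_simp

theorem fib_pr {ξ : ℝ × ℂ} (h : den ξ ≠ 0) : fib (pr ξ) = ξ.2 := by
  unfold fib
  rw [(G0_pr h).1]
  apply Complex.ext
  · simp only [pr]
    simp
    field_simp
  · simp only [pr]
    simp
    field_simp

/-- The junk values are never on a sheet. -/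
theorem den_ne {ξ : ℝ × ℂ} (h : IsArg (G0 (pr ξ)) ξ.1) : den ξ ≠ 0 := by
  intro h0
  have hp : pr ξ = 0 := by
    unfold pr
    rw [h0]
    ext i
    fin_cases i <;> simp
  have h1 := arg_re h
  rw [hp] at h1
  have hG : G0 0 = 1 := by
    apply Complex.ext <;> simp [G0]
  rw [hG] at h1
  simp at h1
  have h2 := one_le_rho ξ
  unfold den at h0
  linarith

theorem continuousAt_pr {ξ : ℝ × ℂ} (h : den ξ ≠ 0) : ContinuousAt pr ξ := by
  have hd := continuous_den.continuousAt (x := ξ)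
  unfold pr
  refine (PiLp.continuous_toLp 2 _).continuousAt.comp ?_
  rw [continuousAt_pi]
  intro i
  fin_cases i
  · exact ContinuousAt.div (by fun_prop) hd h
  · exact ContinuousAt.div (by fun_prop) hd h
  · exact ContinuousAt.div (f := fun ξ : ℝ × ℂ => Real.sin ξ.1) (by fun_prop) hd h

theorem continuousAt_fib {p : E3} (h : G0 p ≠ 0) : ContinuousAt fib p := by
  have hn : ContinuousAt (fun p : E3 => ‖G0 p‖) p := continuous_G0.norm.continuousAt
  have h0 : ‖G0 p‖ ≠ 0 := norm_ne_zero_iff.2 h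
  have e : fib = fun p : E3 => ((2 * p 0 / ‖G0 p‖ : ℝ) : ℂ) +
      ((2 * p 1 / ‖G0 p‖ : ℝ) : ℂ) * Complex.I := by
    funext q
    apply Complex.ext <;> simp [fib, -Complex.ofReal_div, -Complex.ofReal_mul]
  rw [e]
  have h1 : ContinuousAt (fun p : E3 => 2 * p 0 / ‖G0 p‖) p :=
    ContinuousAt.div (by fun_prop) hn h0
  have h2 : ContinuousAt (fun p : E3 => 2 * p 1 / ‖G0 p‖) p :=
    ContinuousAt.div (by fun_prop) hn h0
  exact (Complex.continuous_ofReal.continuousAt.comp h1).add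
    ((Complex.continuous_ofReal.continuousAt.comp h2).mul continuousAt_const)

end Cover

open Cover in
/-- Paper, C5: the infinite cyclic cover of the complement of a round circle, with its sheets. -/
theorem exists_cover (τ : Sim) : ∃ (Ω : Set (ℝ × ℂ)) (proj : ℝ × ℂ → E3), IsOpen Ω ∧
    (∀ c : ℝ × ℂ → ℝ × ℂ → D3, Flat c Ω → ∃ s, Sec c Ω s) ∧
    ∀ (ψ : E3 ≃ₜ E3) (W : Set E3) (θ : E3 → ℝ), IsOpen W → ContinuousOn θ (ψ '' W) →
      (∀ p ∈ ψ '' W, IsArg (τ.G p) (θ p)) →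
      ∃ e : OpenPartialHomeomorph (ℝ × ℂ) E3, e.target = W ∧
        e.source = {ξ | ξ ∈ Ω ∧ proj ξ ∈ ψ '' W ∧ ξ.1 = θ (proj ξ)} ∧
        ∀ ξ ∈ e.source, ψ (e ξ) = proj ξ := by
  refine ⟨univ, fun ξ => τ.map (pr ξ), isOpen_univ, fun c hc => ?_, fun ψ W θ hW hθ harg => ?_⟩
  · exact exists_sec_convex (f := id) convex_univ continuousOn_id (mapsTo_univ _ _) hc
  have hO : IsOpen (ψ '' W) := ψ.isOpenMap W hW
  have hG : ∀ ξ, τ.G (τ.map (pr ξ)) = G0 (pr ξ) := fun ξ => by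
    unfold Sim.G
    rw [τ.inv_map]
  have hden : ∀ ξ : ℝ × ℂ, τ.map (pr ξ) ∈ ψ '' W → ξ.1 = θ (τ.map (pr ξ)) → den ξ ≠ 0 := by
    intro ξ h1 h2
    apply den_ne
    rw [← hG, h2]
    exact harg _ h1
  have hlift : ∀ p ∈ W, τ.map (pr (θ (ψ p), fib (τ.inv (ψ p)))) = ψ p := by
    intro p hp
    have h1 : IsArg (G0 (τ.inv (ψ p))) (θ (ψ p)) := harg _ ⟨p, hp, rfl⟩
    rw [pr_lift h1, τ.map_inv]
  refine ⟨{ toFun := fun ξ => ψ.symm (τ.map (pr ξ))
            invFun := fun p => (θ (ψ p), fib (τ.inv (ψ p)))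
            source := {ξ | ξ ∈ univ ∧ τ.map (pr ξ) ∈ ψ '' W ∧ ξ.1 = θ (τ.map (pr ξ))}
            target := W
            map_source' := ?_
            map_target' := ?_
            left_inv' := ?_
            right_inv' := ?_
            open_source := ?_
            open_target := hW
            continuousOn_toFun := ?_
            continuousOn_invFun := ?_ }, rfl, rfl, ?_⟩
  · rintro ξ ⟨-, ⟨p, hp, he⟩, -⟩
    rw [← he, ψ.symm_apply_apply]
    exact hp
  · intro p hp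
    refine ⟨mem_univ _, ?_, ?_⟩
    · rw [hlift p hp]; exact ⟨p, hp, rfl⟩
    · rw [hlift p hp]
  · rintro ξ ⟨-, h1, h2⟩
    rw [ψ.apply_symm_apply, τ.inv_map, fib_pr (hden ξ h1 h2), ← h2]
  · intro p hp
    rw [hlift p hp, ψ.symm_apply_apply]
  · rintro ξ ⟨-, h1, h2⟩
    exact (ψ.symm.continuous.continuousAt.comp
      (τ.continuous_map.continuousAt.comp (continuousAt_pr (hden ξ h1 h2)))).continuousWithinAt
  · intro p hp
    have h1 : ψ p ∈ ψ '' W := ⟨p, hp, rfl⟩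
    refine (ContinuousAt.prodMk ?_ ?_).continuousWithinAt
    · exact ContinuousAt.comp (f := ψ) (hθ.continuousAt (hO.mem_nhds h1))
        ψ.continuous.continuousAt
    · exact ContinuousAt.comp (f := fun p => τ.inv (ψ p)) (continuousAt_fib (harg _ h1).1)
        (τ.continuous_inv.comp ψ.continuous).continuousAt
  · rw [isOpen_iff_mem_nhds]
    rintro ξ ⟨-, h1, h2⟩
    have hd := hden ξ h1 h2
    have hc : ContinuousAt (fun ξ => τ.map (pr ξ)) ξ :=
      τ.continuous_map.continuousAt.comp (continuousAt_pr hd)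
    have e1 : ∀ᶠ η in 𝓝 ξ, τ.map (pr η) ∈ ψ '' W := hc (hO.mem_nhds h1)
    have e2 : ∀ᶠ η in 𝓝 ξ, den η ≠ 0 := continuous_den.continuousAt.eventually_ne hd
    have hc2 : ContinuousAt (fun η : ℝ × ℂ => |η.1 - θ (τ.map (pr η))|) ξ :=
      (continuousAt_fst.sub
        (ContinuousAt.comp (f := fun ξ => τ.map (pr ξ))
          (hθ.continuousAt (hO.mem_nhds h1)) hc)).abs
    have e3 : ∀ᶠ η in 𝓝 ξ, |η.1 - θ (τ.map (pr η))| < 2 * Real.pi := by
      apply hc2.eventually_lt continuousAt_const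
      rw [← h2, sub_self, abs_zero]
      positivity
    filter_upwards [e1, e2, e3] with η k1 k2 k3
    refine ⟨mem_univ _, k1, ?_⟩
    have a1 : IsArg (τ.G (τ.map (pr η))) η.1 := by rw [hG]; exact (G0_pr k2).2
    obtain ⟨n, hn⟩ := a1.exists_int (harg _ k1)
    have hn0 : n = 0 := by
      have k4 : η.1 - θ (τ.map (pr η)) = n * (2 * Real.pi) := by linarith
      rw [k4, abs_mul, abs_of_pos (by positivity : (0 : ℝ) < 2 * Real.pi)] at k3
      have k5 : |(n : ℝ)| < 1 := by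
        by_contra k6
        push Not at k6
        nlinarith [Real.pi_pos]
      have k7 : |n| < 1 := by exact_mod_cast k5
      exact Int.abs_lt_one_iff.1 k7
    rw [hn0] at hn
    simpa using hn
  · intro ξ _
    exact ψ.apply_symm_apply _

end Pool.Agent.P.MP_c51580_gt
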