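import Pool.Agent.P.MP_c51580_gt.ObsB
import Pool.Agent.P.MP_c51580_gt.Cover

namespace Pool.Agent.P.MP_c51580_gt

open Set Metric Filter Topology
open scoped RealInnerProductSpace

namespace Bal

theorem isOpen_Neps (ε : ℝ) : IsOpen (Neps ε) := by
  have h1 : IsOpen {p : E3 | p 0 ^ 2 + p 1 ^ 2 < (1 + ε) ^ 2} :=
    isOpen_lt (by fun_prop) continuous_const
  have h2 : IsOpen {p : E3 | |p 2| < ε} := isOpen_lt (by fun_prop) continuous_const
  exact h1.inter h2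

theorem convex_Neps (ε : ℝ) : Convex ℝ (Neps ε) := by
  rintro p ⟨hp, hp'⟩ q ⟨hq, hq'⟩ a b ha hb hab
  have hb' : b = 1 - a := by linarith
  subst hb'
  simp only [Neps, mem_ofPred_eq, PiLp.add_apply, PiLp.smul_apply, smul_eq_mul]
  constructor
  · have h1 : (a * p 0 + (1 - a) * q 0) ^ 2 + (a * p 1 + (1 - a) * q 1) ^ 2 ≤
        a * (p 0 ^ 2 + p 1 ^ 2) + (1 - a) * (q 0 ^ 2 + q 1 ^ 2) := by
      nlinarith [mul_nonneg (mul_nonneg ha hb) (sq_nonneg (p 0 - q 0)),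
        mul_nonneg (mul_nonneg ha hb) (sq_nonneg (p 1 - q 1))]
    have h2 := (convex_Iio ((1 + ε) ^ 2)) hp hq ha hb hab
    simp only [smul_eq_mul, mem_Iio] at h2
    linarith
  · rw [abs_lt] at hp' hq' ⊢
    have h2 := (convex_Ioo (-ε) ε) hp' hq' ha hb hab
    simpa only [smul_eq_mul, mem_Ioo] using h2

theorem S0_subset {ε : ℝ} (hε : 0 < ε) : S0 ⊆ Neps ε := by
  rintro p ⟨h1, h2⟩
  refine ⟨by rw [h2]; nlinarith, by rw [h1]; simpa using hε⟩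

theorem exists_eps {J : Set E3} (hJ : IsCompact J) (hd : Disjoint J D0) :
    ∃ ε, 0 < ε ∧ Disjoint J (Neps ε) := by
  rcases J.eq_empty_or_nonempty with rfl | hne
  · exact ⟨1, one_pos, empty_disjoint _⟩
  have hf : Continuous fun p : E3 => max (√(p 0 ^ 2 + p 1 ^ 2) - 1) |p 2| := by fun_prop
  obtain ⟨p, hp, hmin⟩ := hJ.exists_isMinOn hne hf.continuousOn
  refine ⟨max (√(p 0 ^ 2 + p 1 ^ 2) - 1) |p 2|, ?_, ?_⟩
  · by_contra h
    rw [not_lt, max_le_iff] at h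
    refine disjoint_left.1 hd hp ⟨abs_nonpos_iff.1 h.2, ?_⟩
    have h1 : √(p 0 ^ 2 + p 1 ^ 2) ≤ 1 := by linarith [h.1]
    simpa using (Real.sqrt_le_left zero_le_one).1 h1
  · refine disjoint_left.2 fun q hq hN => ?_
    have h1 := hmin hq
    set ε := max (√(p 0 ^ 2 + p 1 ^ 2) - 1) |p 2| with hε
    have h0 : 0 ≤ ε := le_max_of_le_right (abs_nonneg _)
    have h2 : √(q 0 ^ 2 + q 1 ^ 2) < 1 + ε := (Real.sqrt_lt' (by linarith)).2 hN.1
    have h3 : max (√(q 0 ^ 2 + q 1 ^ 2) - 1) |q 2| < ε := max_lt (by linarith) hN.2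
    exact absurd h1 (not_le.2 h3)

end Bal

open Bal

/-- Paper, section 5, balanced lemma. -/
theorem balanced (τ : Sim) {K : Set E3} (h' : E3 ≃ₜ E3) (hK : h' '' K = S0)
    (hJ : Disjoint (h' '' τ.circ) D0) :
    ∃ t : E3 → ℝ, ContinuousOn t K ∧ (∀ p ∈ K, IsArg (τ.G p) (t p)) ∧
      ∀ (T : E3 ≃ₜ E3) (θ : E3 → ℝ), ContinuousOn θ (T '' Obox) →
        (∀ p ∈ T '' Obox, IsArg (τ.G p) (θ p)) →
        (∀ p ∈ kn ∩ Obox, T p ∈ K ∧ t (T p) = θ (T p)) →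
        ∃ p ∈ Obox, p ∉ kn ∧ T p ∈ K ∧ t (T p) = θ (T p) := by
  obtain ⟨ε, hε, hd⟩ := exists_eps (τ.isCompact_circ.image h'.continuous) hJ
  obtain ⟨θN, hθN, haN⟩ := exists_arg (convex_Neps ε) (f := fun q => τ.G (h'.symm q))
    (τ.continuous_G.comp h'.symm.continuous).continuousOn (fun q hq h0 =>
      disjoint_left.1 hd ⟨_, (τ.G_eq_zero _).1 h0, h'.apply_symm_apply q⟩ hq)
  have hKN : ∀ p ∈ K, h' p ∈ S0 := fun p hp => hK ▸ mem_image_of_mem _ hp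
  have hKN' : ∀ p, h' p ∈ S0 → p ∈ K := fun p hp => by
    rw [← hK] at hp
    obtain ⟨q, hq, e⟩ := hp
    exact h'.injective e ▸ hq
  have hm : MapsTo h' (h'.symm '' Neps ε) (Neps ε) := by
    rintro _ ⟨q, hq, rfl⟩
    rwa [h'.apply_symm_apply]
  have hc : ContinuousOn (fun p => θN (h' p)) (h'.symm '' Neps ε) :=
    hθN.comp h'.continuous.continuousOn hm
  have ha : ∀ p ∈ h'.symm '' Neps ε, IsArg (τ.G p) (θN (h' p)) := fun p hp => by
    simpa only [h'.symm_apply_apply] using haN _ (hm hp)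
  have hsub : K ⊆ h'.symm '' Neps ε := fun p hp =>
    ⟨h' p, S0_subset hε (hKN p hp), h'.symm_apply_apply p⟩
  refine ⟨fun p => θN (h' p), hc.mono hsub, fun p hp => ha p (hsub hp), ?_⟩
  intro T θ hθ haθ hkn
  by_contra hcon
  obtain ⟨Ω, proj, hΩ, hsc, hsheet⟩ := exists_cover τ
  obtain ⟨eN, hNt, hNs, hNp⟩ := hsheet h'.symm (Neps ε) _ (isOpen_Neps ε) hc ha
  obtain ⟨eB, hBt, hBs, hBp⟩ := hsheet T Obox θ isOpen_Obox hθ haθ
  refine obs hΩ hsc hε eN eB (by rw [hNs]; exact fun _ h => h.1) hNt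
    (by rw [hBs]; exact fun _ h => h.1) hBt fun ξ hξ => ?_
  have hO : eB ξ ∈ Obox := hBt ▸ eB.map_source hξ
  have hp := hBp ξ hξ
  have hξ' := hξ
  rw [hBs] at hξ'
  constructor
  · rintro ⟨h1, h2⟩
    have hq := hNp ξ h1
    rw [hNs] at h1
    by_contra hn
    refine hcon ⟨eB ξ, hO, hn, ?_, ?_⟩
    · refine hKN' _ ?_
      rw [hp, ← hq, h'.apply_symm_apply]; exact h2
    · rw [hp, ← hξ'.2.2]; exact h1.2.2.symm
  · intro hn
    obtain ⟨h1, h2⟩ := hkn _ ⟨hn, hO⟩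
    rw [hp] at h1 h2
    have h3 : ξ ∈ eN.source := by
      rw [hNs]; exact ⟨hξ'.1, hsub h1, hξ'.2.2.trans h2.symm⟩
    refine ⟨h3, ?_⟩
    have h4 := hKN _ h1
    rwa [← hNp ξ h3, h'.apply_symm_apply] at h4

end Pool.Agent.P.MP_c51580_gt
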