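import Pool.Agent.P.MP_c51580_gt.CircA

namespace Pool.Agent.P.MP_c51580_gt

open Set Metric Filter Topology
open scoped RealInnerProductSpace

namespace CircB

theorem normsq (p : E3) : ‖p‖ ^ 2 = p 0 ^ 2 + p 1 ^ 2 + p 2 ^ 2 := by
  rw [EuclideanSpace.real_norm_sq_eq, Fin.sum_univ_three]

theorem lin_form (l : E3 →ₗ[ℝ] ℝ) : ∃ a b c : ℝ, ∀ p : E3, l p = p 0 * a + p 1 * b + p 2 * c := by
  refine ⟨l !₂[1, 0, 0], l !₂[0, 1, 0], l !₂[0, 0, 1], fun p => ?_⟩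
  have h : p = p 0 • (!₂[1, 0, 0] : E3) + p 1 • (!₂[0, 1, 0] : E3) + p 2 • (!₂[0, 0, 1] : E3) := by
    ext i
    fin_cases i <;> simp
  conv_lhs => rw [h]
  simp only [map_add, map_smul, smul_eq_mul]

/-- the angle function of one circle in the coordinates of another one -/
theorem G_form (σ τ : Sim) : ∃ A B D E F : ℂ, ∀ p : E3, σ.G (τ.map p) =
    A + (p 0 : ℂ) * B + (p 1 : ℂ) * D + (p 2 : ℂ) * E + ((‖p‖ ^ 2 : ℝ) : ℂ) * F := by
  set w : E3 := σ.inv τ.c with hw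
  set ρ : ℝ := σ.r⁻¹ * τ.r with hρ
  let M : E3 ≃ₗᵢ[ℝ] E3 := τ.L.trans σ.L.symm
  have h1 : ∀ p, σ.inv (τ.map p) = w + ρ • M p := fun p => by
    rw [hw, hρ]
    simp only [Sim.inv, Sim.map, M, LinearIsometryEquiv.trans_apply]
    rw [← σ.L.symm.map_smul, ← map_add]
    congr 1
    rw [mul_smul, ← smul_add]
    congr 1
    abel
  obtain ⟨a, b, c, h2⟩ := lin_form ((innerₛₗ ℝ w).comp M.toLinearEquiv.toLinearMap)
  obtain ⟨a', b', c', h3⟩ := lin_form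
    ((EuclideanSpace.projₗ (2 : Fin 3) : E3 →ₗ[ℝ] ℝ).comp M.toLinearEquiv.toLinearMap)
  refine ⟨⟨1 - ‖w‖ ^ 2, 2 * w 2⟩, ⟨-2 * ρ * a, 2 * ρ * a'⟩, ⟨-2 * ρ * b, 2 * ρ * b'⟩,
    ⟨-2 * ρ * c, 2 * ρ * c'⟩, ⟨-ρ ^ 2, 0⟩, fun p => ?_⟩
  have h4 : ⟪w, M p⟫ = p 0 * a + p 1 * b + p 2 * c := h2 p
  have h5 : M p 2 = p 0 * a' + p 1 * b' + p 2 * c' := h3 p
  have h6 : ‖w + ρ • M p‖ ^ 2 = ‖w‖ ^ 2 + 2 * ρ * ⟪w, M p⟫ + ρ ^ 2 * ‖p‖ ^ 2 := by
    rw [norm_add_sq_real, real_inner_smul_right, norm_smul, mul_pow, Real.norm_eq_abs, sq_abs,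
      LinearIsometryEquiv.norm_map]
    ring
  have h7 : (w + ρ • M p) 2 = w 2 + ρ * M p 2 := by simp
  rw [Sim.G, h1, G0, h6, h7, h4, h5]
  generalize ‖p‖ ^ 2 = s
  apply Complex.ext
  · simp only [Complex.add_re, Complex.re_ofReal_mul]
    ring
  · simp only [Complex.add_im, Complex.im_ofReal_mul]
    ring

theorem mem_S0 {x y : ℝ} (h : x ^ 2 + y ^ 2 = 1) : (!₂[x, y, 0] : E3) ∈ S0 := by
  simpa [S0] using h

theorem pos_all {a b c : ℝ} (h : ∀ x y : ℝ, x ^ 2 + y ^ 2 = 1 → 0 < 2 * a + x * b + y * c)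
    (x y z : ℝ) : 0 < a * (1 + (x ^ 2 + y ^ 2 + z ^ 2)) + x * b + y * c := by
  have h1 := h 1 0 (by norm_num)
  have h2 := h (-1) 0 (by norm_num)
  have ha : 0 < a := by linarith
  have hs0 : 0 ≤ x ^ 2 + y ^ 2 := by positivity
  have hs := Real.sq_sqrt hs0
  have hs1 := Real.sqrt_nonneg (x ^ 2 + y ^ 2)
  generalize √(x ^ 2 + y ^ 2) = s at hs hs1
  rcases hs1.eq_or_lt with h0 | h0
  · subst h0
    have hx : x = 0 := by nlinarith
    have hy : y = 0 := by nlinarith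
    subst hx hy
    have : 0 < a * (1 + (0 ^ 2 + 0 ^ 2 + z ^ 2)) := by positivity
    linarith
  · have h3 := h (x / s) (y / s) (by field_simp; linarith)
    have h4 : 0 < s * (2 * a + x / s * b + y / s * c) := mul_pos h0 h3
    have h5 : s * (2 * a + x / s * b + y / s * c) = 2 * a * s + x * b + y * c := by field_simp
    have h6 : 0 ≤ a * ((1 - s) ^ 2 + z ^ 2) := by positivity
    rw [← hs]
    nlinarith

theorem isArg_arg {z : ℂ} (hz : z ≠ 0) : IsArg z z.arg :=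
  ⟨hz, (Complex.norm_mul_exp_arg_mul_I z).symm⟩

theorem isArg_mul {z w : ℂ} {a b : ℝ} (ha : IsArg z a) (hb : IsArg w b) :
    IsArg (z * w) (a + b) := by
  refine ⟨mul_ne_zero ha.1 hb.1, ?_⟩
  rw [norm_mul]
  push_cast
  rw [add_mul, Complex.exp_add]
  calc z * w = ((‖z‖ : ℂ) * Complex.exp (a * Complex.I)) *
      ((‖w‖ : ℂ) * Complex.exp (b * Complex.I)) := by rw [← ha.2, ← hb.2]
    _ = _ := by ring

theorem isArg_neg {z : ℂ} {a : ℝ} (ha : IsArg z a) : IsArg (-z) (a + Real.pi) := by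
  have h : IsArg (-1) Real.pi := ⟨by norm_num, by simp⟩
  simpa using isArg_mul ha h

theorem exists_angle {x y : ℝ} (h : x ^ 2 + y ^ 2 = 1) :
    ∃ φ : ℝ, Real.cos φ = x ∧ Real.sin φ = y := by
  have h1 : ‖(⟨x, y⟩ : ℂ)‖ = 1 := by
    rw [Complex.norm_eq_sqrt_sq_add_sq]
    simp [h]
  have h2 : (⟨x, y⟩ : ℂ) ≠ 0 := by
    intro h0
    rw [h0] at h1
    simp at h1
  refine ⟨Complex.arg ⟨x, y⟩, ?_, ?_⟩
  · rw [Complex.cos_arg h2, h1, div_one]
  · rw [Complex.sin_arg, h1, div_one]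

/-- a line through a point of the closed disc meets the circle -/
theorem line_meets {x y a b : ℝ} (h : x ^ 2 + y ^ 2 ≤ 1) (hn : 0 < a ^ 2 + b ^ 2) :
    ∃ t : ℝ, (x + t * a) ^ 2 + (y + t * b) ^ 2 = 1 := by
  have h0 : 0 ≤ (x * a + y * b) ^ 2 + (a ^ 2 + b ^ 2) * (1 - (x ^ 2 + y ^ 2)) :=
    add_nonneg (sq_nonneg _) (mul_nonneg hn.le (by linarith))
  have hs := Real.sq_sqrt h0
  generalize √((x * a + y * b) ^ 2 + (a ^ 2 + b ^ 2) * (1 - (x ^ 2 + y ^ 2))) = s at hs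
  obtain ⟨t, ht⟩ : ∃ t : ℝ, t * (a ^ 2 + b ^ 2) = s - (x * a + y * b) :=
    ⟨(s - (x * a + y * b)) / (a ^ 2 + b ^ 2), div_mul_cancel₀ _ hn.ne'⟩
  refine ⟨t, mul_left_cancel₀ hn.ne' ?_⟩
  linear_combination hs + (t * (a ^ 2 + b ^ 2) + s + (x * a + y * b)) * ht

/-- an odd loop has no periodic continuous argument -/
theorem no_odd {f : ℝ → ℂ} {θ : ℝ → ℝ} (hθ : Continuous θ) (ha : ∀ φ, IsArg (f φ) (θ φ))
    (hf : ∀ φ, f (φ + Real.pi) = -f φ) (hp : θ (Real.pi + Real.pi) = θ 0) : False := by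
  have h1 := arg_sub_const (V := univ) (f := fun φ => f (φ + Real.pi))
    (θ := fun φ => θ (φ + Real.pi)) (θ' := fun φ => θ φ + Real.pi) isPreconnected_univ
    (by fun_prop) (by fun_prop) (fun φ _ => ha _)
    (fun φ _ => by rw [hf]; exact isArg_neg (ha φ)) (mem_univ 0) (mem_univ Real.pi)
  simp only [zero_add] at h1
  have h2 : θ Real.pi = θ 0 := by linarith
  have h3 := ha Real.pi
  have h4 := hf 0
  rw [zero_add] at h4
  rw [h4, h2] at h3
  have h5 := h3.2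
  rw [norm_neg, ← (ha 0).2] at h5
  exact (ha 0).1 (by linear_combination (-1 / 2 : ℂ) * h5)

theorem separate {A B D : ℂ}
    (h : ∀ x y : ℝ, x ^ 2 + y ^ 2 ≤ 1 → A + (x : ℂ) * B + (y : ℂ) * D ≠ 0) :
    ∃ u : ℂ, ∀ x y : ℝ, x ^ 2 + y ^ 2 ≤ 1 → 0 < u.re * (A + (x : ℂ) * B + (y : ℂ) * D).re +
      u.im * (A + (x : ℂ) * B + (y : ℂ) * D).im := by
  let g : ℂ → ℂ := fun z => A + (z.re : ℂ) * B + (z.im : ℂ) * D
  have hg : Continuous g := by fun_prop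
  have hm : ∀ z : ℂ, z ∈ closedBall (0 : ℂ) 1 ↔ z.re ^ 2 + z.im ^ 2 ≤ 1 := fun z => by
    rw [mem_closedBall_zero_iff, Complex.norm_eq_sqrt_sq_add_sq, Real.sqrt_le_left zero_le_one, one_pow]
  have hc : Convex ℝ (g '' closedBall 0 1) := by
    rintro _ ⟨z, hz, rfl⟩ _ ⟨w, hw, rfl⟩ a b ha hb hab
    refine ⟨a • z + b • w, convex_closedBall _ _ hz hw ha hb hab, ?_⟩
    have hab' : (a : ℂ) + b = 1 := by exact_mod_cast hab
    simp only [g, Complex.add_re, Complex.add_im, Complex.real_smul, Complex.re_ofReal_mul,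
      Complex.im_ofReal_mul]
    push_cast
    linear_combination (-A) * hab'
  have hk : IsClosed (g '' closedBall 0 1) := ((isCompact_closedBall _ _).image hg).isClosed
  have h0 : (0 : ℂ) ∉ g '' closedBall 0 1 := by
    rintro ⟨z, hz, h1⟩
    exact h _ _ ((hm z).1 hz) h1
  obtain ⟨l, c, h1, h2⟩ := geometric_hahn_banach_point_closed hc hk h0
  refine ⟨⟨l 1, l Complex.I⟩, fun x y hxy => ?_⟩
  have h3 := h2 _ ⟨⟨x, y⟩, (hm _).2 hxy, rfl⟩
  rw [map_zero] at h1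
  change c < l (A + (x : ℂ) * B + (y : ℂ) * D) at h3
  generalize A + (x : ℂ) * B + (y : ℂ) * D = z at h3 ⊢
  have h4 : z = z.re • (1 : ℂ) + z.im • Complex.I := by
    apply Complex.ext <;> simp
  rw [h4, map_add, map_smul, map_smul, smul_eq_mul, smul_eq_mul] at h3
  change 0 < l 1 * z.re + l Complex.I * z.im
  linarith

theorem ne_on_disc {A B D : ℂ} {θ : ℝ → ℝ} (hθ : Continuous θ)
    (ha : ∀ φ, IsArg (A + (Real.cos φ : ℂ) * B + (Real.sin φ : ℂ) * D) (θ φ))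
    (hp : θ (Real.pi + Real.pi) = θ 0) (x y : ℝ) (hxy : x ^ 2 + y ^ 2 ≤ 1) :
    A + (x : ℂ) * B + (y : ℂ) * D ≠ 0 := by
  intro h0
  have hind : ∀ a b : ℝ, (a : ℂ) * B + (b : ℂ) * D = 0 → a = 0 ∧ b = 0 := fun a b hab => by
    by_contra hne
    have hn : 0 < a ^ 2 + b ^ 2 := by
      by_contra hle
      exact hne ⟨by nlinarith [sq_nonneg a, sq_nonneg b], by nlinarith [sq_nonneg a, sq_nonneg b]⟩
    obtain ⟨t, ht⟩ := line_meets hxy hn
    obtain ⟨φ, h1, h2⟩ := exists_angle ht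
    refine (ha φ).1 ?_
    rw [h1, h2]
    push_cast
    linear_combination h0 + (t : ℂ) * hab
  let f : ℝ → ℂ := fun φ => A + (Real.cos φ : ℂ) * B + (Real.sin φ : ℂ) * D
  let f0 : ℝ → ℂ := fun φ => (Real.cos φ : ℂ) * B + (Real.sin φ : ℂ) * D
  have hf : ∀ φ, f φ ≠ 0 := fun φ => (ha φ).1
  have hsl : ∀ φ, f0 φ / f φ ∈ Complex.slitPlane := fun φ => by
    by_contra hn
    rw [Complex.mem_slitPlane_iff, not_or, not_lt, not_not] at hn
    have h1 : f0 φ / f φ = ((f0 φ / f φ).re : ℝ) := by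
      apply Complex.ext <;> simp [hn.2]
    have h2 := hn.1
    generalize (f0 φ / f φ).re = c at h1 h2
    rw [div_eq_iff (hf φ)] at h1
    obtain ⟨h3, h4⟩ := hind ((1 - c) * Real.cos φ + c * x) ((1 - c) * Real.sin φ + c * y) (by
      simp only [f, f0] at h1
      generalize Real.cos φ = p at h1 ⊢
      generalize Real.sin φ = q at h1 ⊢
      push_cast
      linear_combination h1 + (c : ℂ) * h0)
    have h5 := Real.cos_sq_add_sin_sq φ
    have h6 : (1 - c) ^ 2 = c ^ 2 * (x ^ 2 + y ^ 2) := by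
      linear_combination (-(1 - c) ^ 2) * h5 + ((1 - c) * Real.cos φ - c * x) * h3 +
        ((1 - c) * Real.sin φ - c * y) * h4
    have h7 : c ^ 2 * (x ^ 2 + y ^ 2) ≤ c ^ 2 * 1 := mul_le_mul_of_nonneg_left hxy (sq_nonneg c)
    nlinarith
  have hcf : Continuous f := by fun_prop
  have hcf0 : Continuous f0 := by fun_prop
  have hq : Continuous fun φ => (f0 φ / f φ).arg := continuous_iff_continuousAt.2 fun φ =>
    ContinuousAt.comp (f := fun φ => f0 φ / f φ) (Complex.continuousAt_arg (hsl φ))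
      (hcf0.div hcf hf).continuousAt
  refine no_odd (f := f0) (θ := fun φ => θ φ + (f0 φ / f φ).arg) (hθ.add hq) (fun φ => ?_)
    (fun φ => ?_) ?_
  · have := isArg_mul (ha φ) (isArg_arg (Complex.slitPlane_ne_zero (hsl φ)))
    rwa [show (A + (Real.cos φ : ℂ) * B + (Real.sin φ : ℂ) * D) * (f0 φ / f φ) = f0 φ from
      mul_div_cancel₀ _ (hf φ)] at this
  · simp only [f0, Real.cos_add_pi, Real.sin_add_pi]
    push_cast
    ring
  · simp only [f, f0, hp, Real.cos_add_pi, Real.sin_add_pi, Real.cos_pi, Real.sin_pi,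
      Real.cos_zero, Real.sin_zero, neg_neg, neg_zero]

theorem exists_dir_aux (u v : ℂ) (hv : 0 < v.re) : ∃ c s : ℝ, c ^ 2 + s ^ 2 = 1 ∧ -1 < c ∧
    u.re * c + u.im * s ≤ 0 ∧ v.re * c + v.im * s ≤ 0 := by
  have h0 : 0 < v.re ^ 2 + v.im ^ 2 := by positivity
  have hs := Real.sq_sqrt h0.le
  have hr := Real.sqrt_pos.2 h0
  generalize √(v.re ^ 2 + v.im ^ 2) = r at hs hr
  have key : ∀ e : ℝ, e ^ 2 = 1 → (e * -v.im / r) ^ 2 + (e * v.re / r) ^ 2 = 1 ∧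
      -1 < e * -v.im / r ∧ v.re * (e * -v.im / r) + v.im * (e * v.re / r) ≤ 0 := fun e he => by
    have h1 : (e * -v.im / r) ^ 2 + (e * v.re / r) ^ 2 = 1 := by
      field_simp
      rw [he, hs]; ring
    refine ⟨h1, ?_, le_of_eq (by ring)⟩
    have h2 : 0 < (e * v.re / r) ^ 2 := by
      rw [div_pow, mul_pow, he]; positivity
    nlinarith
  rcases le_total (u.re * (1 * -v.im / r) + u.im * (1 * v.re / r)) 0 with h | h
  · obtain ⟨h1, h2, h3⟩ := key 1 (by norm_num)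
    exact ⟨_, _, h1, h2, h, h3⟩
  · obtain ⟨h1, h2, h3⟩ := key (-1) (by norm_num)
    refine ⟨_, _, h1, h2, ?_, h3⟩
    have : u.re * (-1 * -v.im / r) + u.im * (-1 * v.re / r) =
        -(u.re * (1 * -v.im / r) + u.im * (1 * v.re / r)) := by ring
    linarith

theorem exists_dir (u v : ℂ) : ∃ c s : ℝ, c ^ 2 + s ^ 2 = 1 ∧ -1 < c ∧
    u.re * c + u.im * s ≤ 0 ∧ v.re * c + v.im * s ≤ 0 := by
  rcases lt_or_ge 0 v.re with hv | hv
  · exact exists_dir_aux u v hv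
  rcases lt_or_ge 0 u.re with hu | hu
  · obtain ⟨c, s, h1, h2, h3, h4⟩ := exists_dir_aux v u hu
    exact ⟨c, s, h1, h2, h4, h3⟩
  exact ⟨1, 0, by norm_num, by norm_num, by simpa using hu, by simpa using hv⟩

/-- denominator of the cap map -/
def dn (c : ℝ) (p : E3) : ℝ := 1 + c + (p 0 ^ 2 + p 1 ^ 2) * (1 - c)

/-- the cap map -/
noncomputable def cap (c s : ℝ) (p : E3) : E3 :=
  !₂[2 * p 0 / dn c p, 2 * p 1 / dn c p, (1 - (p 0 ^ 2 + p 1 ^ 2)) * s / dn c p]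

theorem dn_pos {c s : ℝ} (h : c ^ 2 + s ^ 2 = 1) (hc : -1 < c) (p : E3) : 0 < dn c p := by
  have h1 : 0 ≤ 1 - c := by nlinarith [sq_nonneg s]
  have h2 : 0 ≤ (p 0 ^ 2 + p 1 ^ 2) * (1 - c) := by positivity
  rw [dn]
  linarith

theorem continuous_cap {c s : ℝ} (h : c ^ 2 + s ^ 2 = 1) (hc : -1 < c) :
    Continuous (cap c s) := by
  have hd : Continuous (dn c) := by unfold dn; fun_prop
  have h0 := fun p => (dn_pos h hc p).ne'
  refine (PiLp.continuous_toLp 2 _).comp (continuous_pi fun i => ?_)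
  fin_cases i
  · exact Continuous.div (f := fun p : E3 => 2 * p 0) (by fun_prop) hd h0
  · exact Continuous.div (f := fun p : E3 => 2 * p 1) (by fun_prop) hd h0
  · exact Continuous.div (f := fun p : E3 => (1 - (p 0 ^ 2 + p 1 ^ 2)) * s) (by fun_prop) hd h0

theorem G0_cap {c s : ℝ} (h : c ^ 2 + s ^ 2 = 1) (hc : -1 < c) (p : E3) :
    (G0 (cap c s p)).re = 2 * (1 - (p 0 ^ 2 + p 1 ^ 2)) / dn c p * c ∧
      (G0 (cap c s p)).im = 2 * (1 - (p 0 ^ 2 + p 1 ^ 2)) / dn c p * s := by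
  have h0 := (dn_pos h hc p).ne'
  have e0 : cap c s p 0 = 2 * p 0 / dn c p := rfl
  have e1 : cap c s p 1 = 2 * p 1 / dn c p := rfl
  have e2 : cap c s p 2 = (1 - (p 0 ^ 2 + p 1 ^ 2)) * s / dn c p := rfl
  constructor
  · change 1 - ‖cap c s p‖ ^ 2 = _
    rw [normsq, e0, e1, e2]
    have hd : dn c p = 1 + c + (p 0 ^ 2 + p 1 ^ 2) * (1 - c) := rfl
    generalize dn c p = d at h0 hd
    field_simp
    rw [hd]
    linear_combination (-(1 - (p 0 ^ 2 + p 1 ^ 2)) ^ 2) * h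
  · change 2 * cap c s p 2 = _
    rw [e2]
    ring

theorem cap_fix (c s : ℝ) {p : E3} (hp : p ∈ S0) : cap c s p = p := by
  have hd : dn c p = 2 := by rw [dn, hp.2]; ring
  ext i
  fin_cases i
  · change 2 * p 0 / dn c p = p 0
    rw [hd]; ring
  · change 2 * p 1 / dn c p = p 1
    rw [hd]; ring
  · change (1 - (p 0 ^ 2 + p 1 ^ 2)) * s / dn c p = p 2
    rw [hp.2, hp.1]; ring

end CircB

open CircB

/-- Paper, C1. -/
theorem U_symm (σ τ : Sim) (h : U σ τ.circ) : U τ σ.circ := by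
  obtain ⟨u, hu⟩ := h
  obtain ⟨A, B, D, E, F, hG⟩ := G_form σ τ
  have hF : ∀ p : E3, u.re * (σ.G (τ.map p)).re + u.im * (σ.G (τ.map p)).im =
      (u.re * A.re + u.im * A.im) + p 0 * (u.re * B.re + u.im * B.im) +
        p 1 * (u.re * D.re + u.im * D.im) + p 2 * (u.re * E.re + u.im * E.im) +
        ‖p‖ ^ 2 * (u.re * F.re + u.im * F.im) := fun p => by
    rw [hG]
    simp only [Complex.add_re, Complex.add_im, Complex.re_ofReal_mul, Complex.im_ofReal_mul]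
    ring
  generalize u.re * A.re + u.im * A.im = γ at hF
  generalize u.re * B.re + u.im * B.im = b at hF
  generalize u.re * D.re + u.im * D.im = d at hF
  generalize u.re * E.re + u.im * E.im = e at hF
  generalize u.re * F.re + u.im * F.im = α at hF
  have h1 : ∀ x y : ℝ, x ^ 2 + y ^ 2 = 1 → 0 < 2 * ((γ + α) / 2) + x * b + y * d :=
    fun x y hxy => by
      have h2 := hu _ ⟨_, mem_S0 hxy, rfl⟩
      rw [hF, normsq] at h2
      change 0 < γ + x * b + y * d + 0 * e + (x ^ 2 + y ^ 2 + 0 ^ 2) * α at h2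
      rw [hxy] at h2
      linarith
  refine ⟨⟨-((γ - α) / 2), -(e / 2)⟩, fun q hq => ?_⟩
  have h2 := hF (τ.inv q)
  rw [τ.map_inv, (σ.G_eq_zero q).2 hq] at h2
  have h3 := pos_all h1 (τ.inv q 0) (τ.inv q 1) (τ.inv q 2)
  rw [← normsq] at h3
  change 0 < -((γ - α) / 2) * (1 - ‖τ.inv q‖ ^ 2) + -(e / 2) * (2 * τ.inv q 2)
  simp only [Complex.zero_re, Complex.zero_im] at h2
  linarith

/-- Paper, C2. -/
theorem U_of_arg (σ τ : Sim) {θ : E3 → ℝ} (hθ : ContinuousOn θ τ.circ)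
    (ha : ∀ p ∈ τ.circ, IsArg (σ.G p) (θ p)) : U σ τ.circ := by
  obtain ⟨A, B, D, E, F, hG⟩ := G_form σ τ
  have h1 : ∀ p ∈ S0, σ.G (τ.map p) = (A + F) + (p 0 : ℂ) * B + (p 1 : ℂ) * D := fun p hp => by
    rw [hG, normsq, hp.2, hp.1]
    push_cast
    ring
  let e : ℝ → E3 := fun φ => !₂[Real.cos φ, Real.sin φ, 0]
  have he : ∀ φ, e φ ∈ S0 := fun φ => mem_S0 (Real.cos_sq_add_sin_sq φ)
  have hc : Continuous e := by
    refine (PiLp.continuous_toLp 2 _).comp (continuous_pi fun i => ?_)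
    fin_cases i
    · exact Real.continuous_cos
    · exact Real.continuous_sin
    · exact continuous_const
  have hm : ∀ φ, τ.map (e φ) ∈ τ.circ := fun φ => ⟨_, he φ, rfl⟩
  obtain ⟨u, hu⟩ := separate (ne_on_disc (A := A + F) (B := B) (D := D)
    (θ := fun φ => θ (τ.map (e φ))) (hθ.comp_continuous (τ.continuous_map.comp hc) hm)
    (fun φ => by
      have := ha _ (hm φ)
      rw [h1 _ (he φ)] at this
      exact this)
    (by simp only [e, Real.cos_add_pi, Real.sin_add_pi, Real.cos_pi, Real.sin_pi,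
      Real.cos_zero, Real.sin_zero, neg_neg, neg_zero]))
  refine ⟨u, ?_⟩
  rintro _ ⟨p, hp, rfl⟩
  rw [h1 p hp]
  exact hu _ _ hp.2.le

/-- Paper, C3. -/
theorem exists_cap (σ : Sim) {J₁ J₂ : Set E3} (h₁ : U σ J₁) (h₂ : U σ J₂) :
    ∃ κ : E3 → E3, Continuous κ ∧ (∀ p ∈ σ.disc, κ p ∉ J₁ ∪ J₂) ∧ ∀ p ∈ σ.circ, κ p = p := by
  obtain ⟨u, hu⟩ := h₁
  obtain ⟨v, hv⟩ := h₂
  obtain ⟨c, s, h1, h2, h3, h4⟩ := exists_dir u v
  refine ⟨fun p => σ.map (cap c s (σ.inv p)),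
    σ.continuous_map.comp ((continuous_cap h1 h2).comp σ.continuous_inv), ?_, ?_⟩
  · rintro _ ⟨p, hp, rfl⟩
    have h5 : 0 ≤ 2 * (1 - (p 0 ^ 2 + p 1 ^ 2)) / dn c p :=
      div_nonneg (by linarith [hp.2]) (dn_pos h1 h2 p).le
    have h6 : ∀ w : ℂ, w.re * c + w.im * s ≤ 0 →
        ¬ 0 < w.re * (σ.G (σ.map (cap c s p))).re + w.im * (σ.G (σ.map (cap c s p))).im := by
      intro w hw
      rw [Sim.G, σ.inv_map, (G0_cap h1 h2 p).1, (G0_cap h1 h2 p).2, not_lt]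
      have := mul_nonpos_of_nonneg_of_nonpos h5 hw
      linarith
    simp only [σ.inv_map]
    rintro (h | h)
    · exact h6 u h3 (hu _ h)
    · exact h6 v h4 (hv _ h)
  · rintro _ ⟨p, hp, rfl⟩
    simp only [σ.inv_map, cap_fix c s hp]

end Pool.Agent.P.MP_c51580_gt
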