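import Pool.Agent.P.MP_c51580_gt.CircA

namespace Pool.Agent.P.MP_c51580_gt

open Set Metric Filter Topology
open scoped RealInnerProductSpace

namespace CircC

theorem norm_sq3 (p : E3) : ‖p‖ ^ 2 = p 0 ^ 2 + p 1 ^ 2 + p 2 ^ 2 := by
  rw [EuclideanSpace.norm_sq_eq, Fin.sum_univ_three]
  simp only [Real.norm_eq_abs, sq_abs]

theorem norm_one {p : E3} (h : p 0 ^ 2 + p 1 ^ 2 + p 2 ^ 2 = 1) : ‖p‖ = 1 := by
  have h1 := norm_sq3 p
  rw [h] at h1
  exact (pow_eq_one_iff_of_nonneg (norm_nonneg p) two_ne_zero).1 h1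

theorem inner_e3 (p : E3) : ⟪p, (!₂[0, 0, 1] : E3)⟫ = p 2 := by
  simp [PiLp.inner_apply, Fin.sum_univ_three]

theorem nrm_norm (σ : Sim) : ‖σ.nrm‖ = 1 := by
  rw [Sim.nrm, LinearIsometryEquiv.norm_map]
  exact norm_one (by simp)

theorem G_re (σ : Sim) (q : E3) : (σ.G q).re = 1 - (‖q - σ.c‖ / σ.r) ^ 2 := by
  simp only [Sim.G, G0, Sim.inv, LinearIsometryEquiv.norm_map, norm_smul, norm_inv,
    Real.norm_eq_abs, abs_of_pos σ.hr]
  ring

theorem G_im (σ : Sim) (q : E3) : (σ.G q).im = 2 * (⟪q - σ.c, σ.nrm⟫ / σ.r) := by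
  have h : (σ.inv q) 2 = ⟪q - σ.c, σ.nrm⟫ / σ.r := by
    rw [← inner_e3, ← σ.L.inner_map_map, Sim.inv, LinearIsometryEquiv.apply_symm_apply,
      real_inner_smul_left, Sim.nrm]
    ring
  simp only [Sim.G, G0, h]

theorem circ_prop (σ : Sim) {o : E3} (ho : o ∈ σ.circ) :
    ‖o - σ.c‖ = σ.r ∧ ⟪o - σ.c, σ.nrm⟫ = 0 := by
  obtain ⟨s, hs, rfl⟩ := ho
  have h1 : σ.map s - σ.c = σ.r • σ.L s := by simp [Sim.map]
  have h2 : ‖s‖ = 1 := norm_one (by rw [hs.1, hs.2]; norm_num)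
  rw [h1]
  refine ⟨?_, ?_⟩
  · rw [norm_smul, LinearIsometryEquiv.norm_map, h2, Real.norm_eq_abs, abs_of_pos σ.hr, mul_one]
  · rw [real_inner_smul_left, Sim.nrm, σ.L.inner_map_map, inner_e3, hs.1, mul_zero]

/-- A circle near one of its points. -/
theorem frame (τ : Sim) {p : E3} (hp : p ∈ τ.circ) : ∃ v : E3, ‖v‖ = 1 ∧
    (∀ s : ℝ, |s| ≤ τ.r → ∃ q ∈ τ.circ, ‖q - (p + s • v)‖ ≤ s ^ 2 / τ.r) ∧
    ∀ q ∈ τ.circ, ∃ s : ℝ, ‖q - (p + s • v)‖ = ‖q - p‖ ^ 2 / (2 * τ.r) := by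
  obtain ⟨e, ⟨he2, he⟩, rfl⟩ := hp
  have hr := τ.hr
  have hn : ‖e‖ = 1 := norm_one (by rw [he2, he]; norm_num)
  have key : ∀ (w : E3) (s ζ : ℝ), τ.r • w = τ.r • e + s • !₂[-e 1, e 0, 0] - ζ • e →
      ‖τ.map w - (τ.map e + s • τ.L !₂[-e 1, e 0, 0])‖ = |ζ| := by
    intro w s ζ h
    have h1 : τ.map w - (τ.map e + s • τ.L !₂[-e 1, e 0, 0]) =
        τ.L (τ.r • w - (τ.r • e + s • !₂[-e 1, e 0, 0])) := by
      simp only [Sim.map, map_sub, map_add, map_smul]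
      abel
    have h2 : τ.r • w - (τ.r • e + s • !₂[-e 1, e 0, 0]) = -(ζ • e) := by rw [h]; abel
    rw [h1, h2, LinearIsometryEquiv.norm_map, norm_neg, norm_smul, hn, mul_one, Real.norm_eq_abs]
  refine ⟨τ.L !₂[-e 1, e 0, 0], ?_, fun s hs => ?_, ?_⟩
  · rw [LinearIsometryEquiv.norm_map]
    exact norm_one (by simp; linarith)
  · have h1 : s ^ 2 ≤ τ.r ^ 2 := sq_le_sq' (abs_le.1 hs).1 (abs_le.1 hs).2
    obtain ⟨α, hα0, hα⟩ : ∃ α : ℝ, 0 ≤ α ∧ α ^ 2 = τ.r ^ 2 - s ^ 2 :=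
      ⟨√(τ.r ^ 2 - s ^ 2), Real.sqrt_nonneg _, Real.sq_sqrt (by linarith)⟩
    have hαr : α ≤ τ.r := by nlinarith [sq_nonneg s]
    refine ⟨τ.map !₂[(α * e 0 - s * e 1) / τ.r, (α * e 1 + s * e 0) / τ.r, 0],
      ⟨_, ⟨by simp, ?_⟩, rfl⟩, ?_⟩
    · simp only [Matrix.cons_val_zero, Matrix.cons_val_one]
      field_simp
      linear_combination (α ^ 2 + s ^ 2) * he + hα
    · rw [key _ s (τ.r - α), abs_of_nonneg (by linarith), le_div_iff₀ hr]
      · nlinarith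
      · ext i
        fin_cases i
        · simp; field_simp; ring
        · simp; field_simp; ring
        · simp [he2]
  · rintro q ⟨w, ⟨hw2, hw⟩, rfl⟩
    refine ⟨τ.r * (w 1 * e 0 - w 0 * e 1), ?_⟩
    have h1 : ‖τ.map w - τ.map e‖ ^ 2 = 2 * τ.r ^ 2 * (1 - (w 0 * e 0 + w 1 * e 1)) := by
      rw [← dist_eq_norm, τ.dist_map, dist_eq_norm, mul_pow, norm_sq3]
      simp only [PiLp.sub_apply, hw2, he2]
      linear_combination τ.r ^ 2 * hw + τ.r ^ 2 * he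
    have h2 : 0 ≤ 1 - (w 0 * e 0 + w 1 * e 1) := by
      nlinarith [sq_nonneg (w 0 - e 0), sq_nonneg (w 1 - e 1)]
    rw [key _ _ (τ.r * (1 - (w 0 * e 0 + w 1 * e 1))), abs_of_nonneg (by positivity), h1]
    · field_simp
    · ext i
      fin_cases i
      · simp; linear_combination (-τ.r * w 0) * he
      · simp; linear_combination (-τ.r * w 1) * he
      · simp [he2, hw2]

/-- The crossing point of the line with the plane of the circle. -/
theorem cross (σ : Sim) {x v : E3} (hv : ‖v‖ = 1) (hm : Margin σ x v (1 / 50)) :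
    ∃ s₀ : ℝ, ⟪x + s₀ • v - σ.c, σ.nrm⟫ = 0 ∧ 0 < |⟪v, σ.nrm⟫| ∧ |⟪v, σ.nrm⟫| ≤ 1 ∧
      1 / 50 + |⟪v, σ.nrm⟫| * ‖x + s₀ • v - σ.c‖ ≤ σ.r * |⟪v, σ.nrm⟫| := by
  unfold Margin at hm
  rw [hv, mul_one] at hm
  have h1 : |⟪v, σ.nrm⟫| ≤ 1 := by
    simpa [hv, nrm_norm] using abs_real_inner_le_norm v σ.nrm
  have h2 : ⟪v, σ.nrm⟫ ≠ 0 := fun h => by
    have := norm_nonneg (⟪v, σ.nrm⟫ • (x - σ.c) + ⟪σ.c - x, σ.nrm⟫ • v)
    rw [h] at hm this
    simp only [abs_zero, mul_zero] at hm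
    linarith
  refine ⟨⟪σ.c - x, σ.nrm⟫ / ⟪v, σ.nrm⟫, ?_, abs_pos.2 h2, h1, ?_⟩
  · simp only [inner_sub_left, inner_add_left, real_inner_smul_left]
    field_simp
    ring
  · have h3 : ⟪v, σ.nrm⟫ • (x - σ.c) + ⟪σ.c - x, σ.nrm⟫ • v =
        ⟪v, σ.nrm⟫ • (x + (⟪σ.c - x, σ.nrm⟫ / ⟪v, σ.nrm⟫) • v - σ.c) := by
      rw [smul_sub, smul_sub, smul_add, smul_smul, mul_div_cancel₀ _ h2]
      abel
    rwa [h3, norm_smul, Real.norm_eq_abs] at hm

theorem not_U (σ : Sim) (J : Set E3)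
    (h : ∀ e : ℝ, e = 1 ∨ e = -1 → (∃ q ∈ J, ‖q - σ.c‖ ≤ σ.r ∧ 0 ≤ e * ⟪q - σ.c, σ.nrm⟫) ∧
      ∃ q ∈ J, σ.r ≤ ‖q - σ.c‖ ∧ 0 ≤ e * ⟪q - σ.c, σ.nrm⟫) : ¬ U σ J := by
  rintro ⟨u, hu⟩
  have hr := σ.hr
  obtain ⟨e, he, he'⟩ : ∃ e : ℝ, (e = 1 ∨ e = -1) ∧ ∀ a : ℝ, 0 ≤ e * a → u.im * a ≤ 0 := by
    rcases le_total u.im 0 with h1 | h1
    · exact ⟨1, Or.inl rfl, fun a ha => by nlinarith⟩
    · exact ⟨-1, Or.inr rfl, fun a ha => by nlinarith⟩
  have him : ∀ q, 0 ≤ e * ⟪q - σ.c, σ.nrm⟫ → u.im * (σ.G q).im ≤ 0 := fun q hq => by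
    rw [G_im]
    refine he' _ ?_
    have : e * (2 * (⟪q - σ.c, σ.nrm⟫ / σ.r)) = 2 * (e * ⟪q - σ.c, σ.nrm⟫) / σ.r := by ring
    rw [this]
    positivity
  obtain ⟨⟨q₁, h1, h2, h3⟩, q₂, h4, h5, h6⟩ := h e he
  rcases le_total u.re 0 with h7 | h7
  · have h8 : 0 ≤ (σ.G q₁).re := by
      rw [G_re, sub_nonneg]
      exact pow_le_one₀ (by positivity) ((div_le_one hr).2 h2)
    have := hu q₁ h1
    have := him q₁ h3
    nlinarith
  · have h8 : (σ.G q₂).re ≤ 0 := by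
      rw [G_re, sub_nonpos]
      exact one_le_pow₀ ((one_le_div hr).2 h5)
    have := hu q₂ h4
    have := him q₂ h6
    nlinarith

theorem inner_le (σ : Sim) (z : E3) : |⟪z, σ.nrm⟫| ≤ ‖z‖ := by
  simpa [nrm_norm] using abs_real_inner_le_norm z σ.nrm

end CircC

open CircC in
/-- Paper, C4. -/
theorem hide (τ : Sim) (x p : E3) (hτ : τ.r = 10 ^ 7) (hp : p ∈ τ.circ)
    (hpx : p ∈ ball x (1 / 500)) : ∃ v : E3, ‖v‖ = 1 ∧ ∀ σ : Sim, σ.r ≤ 25 → dist x σ.c ≤ 25 →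
      Margin σ x v (1 / 50) → ¬ U σ τ.circ ∧
        ∀ y o, o ∈ σ.circ → o ∈ ball y (1 / 500) → Disjoint τ.circ (ball y (1 / 500)) := by
  obtain ⟨v, hv, hA, hB⟩ := frame τ hp
  refine ⟨v, hv, fun σ hr hx hm => ?_⟩
  obtain ⟨s₀, h0, hw0, hw1, hy⟩ := cross σ hv hm
  rw [hτ] at hA hB
  rw [mem_ball, dist_eq_norm] at hpx
  rw [dist_eq_norm] at hx
  have hr0 := σ.hr
  have hvs : ∀ t : ℝ, ‖t • v‖ = |t| := fun t => by rw [norm_smul, hv, mul_one, Real.norm_eq_abs]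
  obtain ⟨y₀, hy₀⟩ : ∃ y₀, y₀ = x + s₀ • v - σ.c := ⟨_, rfl⟩
  rw [← hy₀] at h0 hy
  have hy1 : ‖y₀‖ ≤ σ.r := by
    by_contra h
    push Not at h
    nlinarith
  have hs₀ : |s₀| ≤ 50 := by
    have h1 : s₀ • v = y₀ - (x - σ.c) := by rw [hy₀]; abel
    have h2 := norm_sub_le y₀ (x - σ.c)
    rw [← h1, hvs] at h2
    linarith
  refine ⟨not_U σ _ fun e he => ?_, fun y o ho hoy => ?_⟩
  · have he1 : |e| = 1 := by rcases he with rfl | rfl <;> simp
    have he2 : e * e = 1 := by rcases he with rfl | rfl <;> simp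
    have near : ∀ t : ℝ, |t| ≤ 51 → 1 / 100 ≤ e * (t * ⟪v, σ.nrm⟫) → ∃ q ∈ τ.circ,
        ‖q - σ.c - (y₀ + t • v)‖ ≤ 1 / 250 ∧ 0 ≤ e * ⟪q - σ.c, σ.nrm⟫ := by
      intro t ht ht'
      have h1 : |s₀ + t| ≤ 101 := (abs_add_le _ _).trans (by linarith)
      obtain ⟨q, hq, h2⟩ := hA (s₀ + t) (h1.trans (by norm_num))
      have h3 : (s₀ + t) ^ 2 ≤ 101 ^ 2 := sq_le_sq' (abs_le.1 h1).1 (abs_le.1 h1).2
      have h4 : q - σ.c - (y₀ + t • v) = (q - (p + (s₀ + t) • v)) + (p - x) := by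
        rw [hy₀, add_smul]; abel
      have h5 : ‖q - σ.c - (y₀ + t • v)‖ ≤ 1 / 250 := by
        rw [h4]
        refine (norm_add_le _ _).trans ?_
        have : (s₀ + t) ^ 2 / 10 ^ 7 ≤ 101 ^ 2 / 10 ^ 7 := by gcongr
        norm_num at this h2 ⊢
        linarith
      refine ⟨q, hq, h5, ?_⟩
      have h6 := (inner_le σ _).trans h5
      rw [inner_sub_left, inner_add_left, real_inner_smul_left, h0, zero_add] at h6
      have h7 : |e * (⟪q - σ.c, σ.nrm⟫ - t * ⟪v, σ.nrm⟫)| ≤ 1 / 250 := by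
        rwa [abs_mul, he1, one_mul]
      have h8 := (abs_le.1 h7).1
      linarith
    have hw : ⟪v, σ.nrm⟫ ≠ 0 := abs_pos.1 hw0
    constructor
    · have h1 : |e / (100 * ⟪v, σ.nrm⟫)| * |⟪v, σ.nrm⟫| = 1 / 100 := by
        rw [abs_div, he1, abs_mul, abs_of_pos (by norm_num : (0 : ℝ) < 100)]
        field_simp
      have h2 : 1 / 100 ≤ |e / (100 * ⟪v, σ.nrm⟫)| := by
        nlinarith [abs_nonneg (e / (100 * ⟪v, σ.nrm⟫))]
      have h3 : ‖y₀‖ + 2 * |e / (100 * ⟪v, σ.nrm⟫)| ≤ σ.r := by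
        by_contra h
        push Not at h
        nlinarith
      obtain ⟨q, hq, h4, h5⟩ := near (e / (100 * ⟪v, σ.nrm⟫)) (by linarith [norm_nonneg y₀])
        (le_of_eq (by field_simp; linarith))
      refine ⟨q, hq, ?_, h5⟩
      have h6 := norm_add_le (q - σ.c - (y₀ + (e / (100 * ⟪v, σ.nrm⟫)) • v))
        (y₀ + (e / (100 * ⟪v, σ.nrm⟫)) • v)
      have h7 := norm_add_le y₀ ((e / (100 * ⟪v, σ.nrm⟫)) • v)
      rw [sub_add_cancel] at h6
      rw [hvs] at h7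
      linarith
    · have h1 : |51 * e * (|⟪v, σ.nrm⟫| / ⟪v, σ.nrm⟫)| = 51 := by
        rw [abs_mul, abs_mul, he1, abs_div, abs_abs, div_self hw0.ne']
        norm_num
      have h2 : e * (51 * e * (|⟪v, σ.nrm⟫| / ⟪v, σ.nrm⟫) * ⟪v, σ.nrm⟫) =
          51 * |⟪v, σ.nrm⟫| := by
        field_simp
        linarith
      obtain ⟨q, hq, h4, h5⟩ := near _ h1.le (by
        rw [h2]
        nlinarith [mul_nonneg hw0.le (norm_nonneg y₀)])
      refine ⟨q, hq, ?_, h5⟩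
      generalize 51 * e * (|⟪v, σ.nrm⟫| / ⟪v, σ.nrm⟫) = t at h1 h4
      have h6 : t • v = (q - σ.c) - (q - σ.c - (y₀ + t • v)) - y₀ := by abel
      have h7 := norm_sub_le ((q - σ.c) - (q - σ.c - (y₀ + t • v))) y₀
      have h8 := norm_sub_le (q - σ.c) (q - σ.c - (y₀ + t • v))
      rw [← h6, hvs] at h7
      linarith
  · rw [Set.disjoint_left]
    intro q hq hqy
    obtain ⟨ho1, ho2⟩ := circ_prop σ ho
    have h1 : ‖o - q‖ < 1 / 250 := by
      have := dist_triangle_right o q y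
      rw [mem_ball] at hoy hqy
      rw [← dist_eq_norm]
      linarith
    have h2 : ‖q - p‖ ≤ 51 := by
      have e1 : q - p = (o - σ.c) - (o - q) - (x - σ.c) - (p - x) := by abel
      have h3 := norm_sub_le ((o - σ.c) - (o - q) - (x - σ.c)) (p - x)
      have h4 := norm_sub_le ((o - σ.c) - (o - q)) (x - σ.c)
      have h5 := norm_sub_le (o - σ.c) (o - q)
      rw [← e1] at h3
      linarith
    obtain ⟨s, hs⟩ := hB q hq
    have h3 : ‖q - (p + s • v)‖ ≤ 1 / 1000 := by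
      have : ‖q - p‖ ^ 2 / (2 * 10 ^ 7) ≤ 51 ^ 2 / (2 * 10 ^ 7) := by gcongr
      rw [hs]
      exact this.trans (by norm_num)
    have e2 : o - σ.c - (y₀ + (s - s₀) • v) = (o - q) + (q - (p + s • v)) + (p - x) := by
      rw [hy₀, sub_smul]; abel
    have h4 : ‖o - σ.c - (y₀ + (s - s₀) • v)‖ < 1 / 100 := by
      rw [e2]
      have := norm_add₃_le (a := o - q) (b := q - (p + s • v)) (c := p - x)
      linarith
    generalize s - s₀ = t at h4
    have h5 := inner_le σ (o - σ.c - (y₀ + t • v))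
    rw [inner_sub_left, inner_add_left, real_inner_smul_left, h0, ho2, zero_add, zero_sub,
      abs_neg, abs_mul] at h5
    have h6 := norm_add_le (o - σ.c - (y₀ + t • v)) (y₀ + t • v)
    have h7 := norm_add_le y₀ (t • v)
    rw [sub_add_cancel, ho1] at h6
    rw [hvs] at h7
    have h8 : σ.r ≤ 1 / 100 + ‖y₀‖ + |t| := by linarith
    nlinarith [mul_le_mul_of_nonneg_right h8 hw0.le]

theorem isometry_circle (g : E3 ≃ᵢ E3) {R : ℝ} (hR : 0 < R) :
    ∃ τ : Sim, τ.r = R ∧ g '' bigCircle R = τ.circ := by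
  refine ⟨⟨g 0, R, hR, g.toRealLinearIsometryEquiv⟩, rfl, ?_⟩
  have h1 : ∀ p : E3, Sim.map ⟨g 0, R, hR, g.toRealLinearIsometryEquiv⟩ p = g (R • p) := by
    intro p
    simp only [Sim.map]
    rw [← map_smul, IsometryEquiv.toRealLinearIsometryEquiv_apply]
    abel
  ext q
  constructor
  · rintro ⟨p, ⟨h2, h3⟩, rfl⟩
    refine ⟨R⁻¹ • p, ⟨by simp [h2], ?_⟩, by rw [h1, smul_inv_smul₀ hR.ne']⟩
    simp only [PiLp.smul_apply, smul_eq_mul]
    field_simp
    exact h3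
  · rintro ⟨p, ⟨h2, h3⟩, rfl⟩
    refine ⟨R • p, ⟨by simp [h2], ?_⟩, (h1 p).symm⟩
    simp only [PiLp.smul_apply, smul_eq_mul]
    linear_combination R ^ 2 * h3

theorem isCurve_bigCircle {R : ℝ} (hR : 0 < R) : IsCurve (bigCircle R) := by
  have hpi := Real.pi_pos
  let γ : ℝ → E3 := fun t => !₂[R * Real.cos (2 * Real.pi * t), R * Real.sin (2 * Real.pi * t), 0]
  have hc : ContDiff ℝ 1 γ := by
    rw [contDiff_euclidean]
    intro i
    fin_cases i
    · simp only [γ]; simp; fun_prop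
    · simp only [γ]; simp; fun_prop
    · simp only [γ]; simp; fun_prop
  refine ⟨γ, 1, fun i => i, one_pos, by simp, by simp, fun i _ => by simp,
    hc.continuous.continuousOn, by simp [γ], fun s hs t ht h => ?_, ?_, fun i hi => ?_⟩
  · have h0 : R * Real.cos (2 * Real.pi * s) = R * Real.cos (2 * Real.pi * t) := congrArg (· 0) h
    have h1 : R * Real.sin (2 * Real.pi * s) = R * Real.sin (2 * Real.pi * t) := congrArg (· 1) h
    have h2 := mul_left_cancel₀ hR.ne' h0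
    have h3 := mul_left_cancel₀ hR.ne' h1
    have h4 : Real.cos (2 * Real.pi * s - 2 * Real.pi * t) = 1 := by
      rw [Real.cos_sub, h2, h3]
      linear_combination Real.cos_sq_add_sin_sq (2 * Real.pi * t)
    have h5 := (Real.cos_eq_one_iff_of_lt_of_lt (by nlinarith [hs.1, ht.2])
      (by nlinarith [hs.2, ht.1])).1 h4
    have h6 : 2 * Real.pi * (s - t) = 0 := by linarith
    exact sub_eq_zero.1 ((mul_eq_zero.1 h6).resolve_left (by positivity))
  · ext q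
    constructor
    · rintro ⟨t, -, rfl⟩
      refine ⟨by simp [γ], ?_⟩
      change (R * Real.cos (2 * Real.pi * t)) ^ 2 + (R * Real.sin (2 * Real.pi * t)) ^ 2 = R ^ 2
      linear_combination R ^ 2 * Real.cos_sq_add_sin_sq (2 * Real.pi * t)
    · rintro ⟨h2, h3⟩
      obtain ⟨θ, h4, h5, h6, h7⟩ : ∃ θ : ℝ, 0 ≤ θ ∧ θ ≤ 2 * Real.pi ∧ R * Real.cos θ = q 0 ∧
          R * Real.sin θ = q 1 := by
        have ha : -1 ≤ q 0 / R := by rw [le_div_iff₀ hR]; nlinarith [sq_nonneg (q 1)]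
        have hb : q 0 / R ≤ 1 := by rw [div_le_one hR]; nlinarith [sq_nonneg (q 1)]
        have h8 : R * Real.cos (Real.arccos (q 0 / R)) = q 0 := by
          rw [Real.cos_arccos ha hb]; field_simp
        have h9 : 0 ≤ R * Real.sin (Real.arccos (q 0 / R)) :=
          mul_nonneg hR.le (Real.sin_nonneg_of_nonneg_of_le_pi (Real.arccos_nonneg _)
            (Real.arccos_le_pi _))
        have h10 : (R * Real.sin (Real.arccos (q 0 / R))) ^ 2 = q 1 ^ 2 := by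
          linear_combination R ^ 2 * Real.cos_sq_add_sin_sq (Real.arccos (q 0 / R)) - h3 -
            (R * Real.cos (Real.arccos (q 0 / R)) + q 0) * h8
        have h11 := Real.arccos_nonneg (q 0 / R)
        have h12 := Real.arccos_le_pi (q 0 / R)
        rcases sq_eq_sq_iff_eq_or_eq_neg.1 h10 with h13 | h13
        · exact ⟨_, h11, by linarith, h8, h13⟩
        · refine ⟨2 * Real.pi - Real.arccos (q 0 / R), by linarith, by linarith, ?_, ?_⟩
          · rw [Real.cos_two_pi_sub, h8]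
          · rw [Real.sin_two_pi_sub]; linarith
      refine ⟨θ / (2 * Real.pi), ⟨by positivity, (div_le_one (by positivity)).2 h5⟩, ?_⟩
      have h8 : 2 * Real.pi * (θ / (2 * Real.pi)) = θ := by field_simp
      ext i
      fin_cases i
      · simp only [γ, h8]; simpa using h6
      · simp only [γ, h8]; simpa using h7
      · simp only [γ]; simpa using h2.symm
  · obtain rfl : i = 0 := by omega
    refine ⟨hc.contDiffOn, fun s hs h => ?_⟩
    have hd := (hc.differentiable one_ne_zero s).hasDerivAt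
    have hu : UniqueDiffWithinAt ℝ (Icc ((0 : ℕ) : ℝ) ((0 + 1 : ℕ) : ℝ)) s :=
      uniqueDiffOn_Icc (by simp) s hs
    rw [hd.hasDerivWithinAt.derivWithin hu] at h
    rw [h] at hd
    have hl : HasDerivAt (fun t : ℝ => 2 * Real.pi * t) (2 * Real.pi) s := by
      simpa using (hasDerivAt_id s).const_mul (2 * Real.pi)
    have h0 := (EuclideanSpace.proj (𝕜 := ℝ) (0 : Fin 3)).hasFDerivAt.comp_hasDerivAt s hd
    have h1 := (EuclideanSpace.proj (𝕜 := ℝ) (1 : Fin 3)).hasFDerivAt.comp_hasDerivAt s hd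
    have h2 := h0.unique (hl.cos.const_mul R)
    have h3 := h1.unique (hl.sin.const_mul R)
    simp only [map_zero] at h2 h3
    have h4 : Real.sin (2 * Real.pi * s) = 0 := by
      have : R * (2 * Real.pi) * Real.sin (2 * Real.pi * s) = 0 := by linarith
      exact (mul_eq_zero.1 this).resolve_left (by positivity)
    have h5 : Real.cos (2 * Real.pi * s) = 0 := by
      have : R * (2 * Real.pi) * Real.cos (2 * Real.pi * s) = 0 := by linarith
      exact (mul_eq_zero.1 this).resolve_left (by positivity)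
    have h6 := Real.cos_sq_add_sin_sq (2 * Real.pi * s)
    rw [h4, h5] at h6
    norm_num at h6

theorem unknotted_bigCircle {R : ℝ} (hR : 0 < R) : Unknotted (bigCircle R) := by
  have hn : ∀ z : EuclideanSpace ℝ (Fin 2), z ∈ sphere 0 1 ↔ z 0 ^ 2 + z 1 ^ 2 = 1 := by
    intro z
    rw [mem_sphere_zero_iff_norm, ← pow_eq_one_iff_of_nonneg (norm_nonneg z) two_ne_zero,
      EuclideanSpace.norm_sq_eq, Fin.sum_univ_two]
    simp only [Real.norm_eq_abs, sq_abs]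
  refine ⟨fun z => !₂[R * z 0, R * z 1, 0], Continuous.continuousOn (by fun_prop),
    fun z _ w _ h => ?_, ?_⟩
  · have h0 : R * z 0 = R * w 0 := congrArg (· 0) h
    have h1 : R * z 1 = R * w 1 := congrArg (· 1) h
    ext i
    fin_cases i
    · exact mul_left_cancel₀ hR.ne' h0
    · exact mul_left_cancel₀ hR.ne' h1
  · ext q
    constructor
    · rintro ⟨z, hz, rfl⟩
      refine ⟨by simp, ?_⟩
      change (R * z 0) ^ 2 + (R * z 1) ^ 2 = R ^ 2
      linear_combination R ^ 2 * (hn z).1 hz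
    · rintro ⟨h2, h3⟩
      refine ⟨!₂[q 0 / R, q 1 / R], (hn _).2 ?_, ?_⟩
      · change (q 0 / R) ^ 2 + (q 1 / R) ^ 2 = 1
        field_simp
        exact h3
      · ext i
        fin_cases i
        · simp; field_simp
        · simp; field_simp
        · simpa using h2.symm

end Pool.Agent.P.MP_c51580_gt
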