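import Pool.Agent.P.MP_c51580_gt.Defs

namespace Pool.Agent.P.MP_c51580_gt

open Set Metric Filter Topology
open scoped RealInnerProductSpace

variable {X Y : Type*} [TopologicalSpace X] [TopologicalSpace Y] {G : Type*} [Group G]
  {c c' c₁ c₂ : X → X → G} {V W W₁ W₂ : Set X} {s s' s₁ s₂ : X → G} {x y : X}

theorem Flat.mono (h : Flat c W) (hV : V ⊆ W) : Flat c V := fun x hx => h x (hV hx)

theorem Sec.mono (h : Sec c W s) (hV : V ⊆ W) : Sec c V s :=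
  fun x hx => (h x (hV hx)).filter_mono (nhdsWithin_mono x hV)

theorem Sec.congr (h : Sec c W s) (hs : EqOn s s' W) : Sec c W s' := by
  intro x hx
  filter_upwards [h x hx, self_mem_nhdsWithin] with y hy hyW
  rw [← hs hx, ← hs hyW, hy]

theorem Sec.mul_const (h : Sec c W s) (g : G) : Sec c W (fun x => s x * g) := by
  intro x hx
  filter_upwards [h x hx] with y hy
  rw [hy, mul_assoc]

theorem Flat.self (h : Flat c W) (hx : x ∈ W) : c x x = 1 := by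
  have h1 := (h x hx).self_of_nhds.self_of_nhds
  exact mul_left_cancel (a := c x x) (by rw [← h1, mul_one])

theorem Flat.comp {f : Y → X} {V : Set Y} (h : Flat c W) (hV : IsOpen V) (hf : ContinuousOn f V)
    (hm : MapsTo f V W) : Flat (fun a b => c (f a) (f b)) V := by
  intro a ha
  have hc : ∀ b ∈ V, ContinuousAt f b := fun b hb => hf.continuousAt (hV.mem_nhds hb)
  filter_upwards [(hc a ha).eventually (h _ (hm ha)), hV.mem_nhds ha] with b hb hbV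
  exact (hc b hbV).eventually hb

theorem Sec.comp {f : Y → X} {V : Set Y} (h : Sec c W s) (hf : ContinuousOn f V)
    (hm : MapsTo f V W) : Sec (fun a b => c (f a) (f b)) V (fun a => s (f a)) := by
  intro a ha
  exact ((hf a ha).tendsto_nhdsWithin hm).eventually (h _ (hm ha))

theorem Flat.congr (h : Flat c W) (hW : IsOpen W) (he : ∀ x ∈ W, c x =ᶠ[𝓝 x] c' x) :
    Flat c' W := by
  intro x hx
  filter_upwards [h x hx, hW.mem_nhds hx, (he x hx).eventually_nhds] with y hy hyW hxy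
  filter_upwards [hy, hxy, he y hyW] with z hz h1 h2
  rw [← h1, ← h2, ← hxy.self_of_nhds, hz]

theorem Sec.congr_conn (h : Sec c W s) (he : ∀ x ∈ W, c x =ᶠ[𝓝[W] x] c' x) : Sec c' W s := by
  intro x hx
  filter_upwards [h x hx, he x hx] with y hy h1
  rw [← h1, hy]

theorem const_of_eventually {α : Type*} {f : X → α} (hW : IsPreconnected W)
    (h : ∀ x ∈ W, ∀ᶠ y in 𝓝[W] x, f y = f x) (hx : x ∈ W) (hy : y ∈ W) : f x = f y := by
  let _ : TopologicalSpace α := ⊥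
  have : DiscreteTopology α := ⟨rfl⟩
  refine hW.constant (f := f) (fun z hz => ?_) hx hy
  rw [ContinuousWithinAt, nhds_discrete, tendsto_pure]
  exact h z hz

theorem Sec.unique (hW : IsPreconnected W) (h : Sec c W s) (h' : Sec c W s') (hx : x ∈ W)
    (hy : y ∈ W) : (s x)⁻¹ * s' x = (s y)⁻¹ * s' y := by
  refine const_of_eventually (f := fun z => (s z)⁻¹ * s' z) hW (fun z hz => ?_) hx hy
  filter_upwards [h z hz, h' z hz] with w h1 h2
  rw [h1, h2]; group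

theorem Sec.union_open (o₁ : IsOpen W₁) (o₂ : IsOpen W₂) (h₁ : Sec c W₁ s) (h₂ : Sec c W₂ s) :
    Sec c (W₁ ∪ W₂) s := by
  intro x hx
  rcases hx with hx | hx
  · have := h₁ x hx
    rw [o₁.nhdsWithin_eq hx] at this
    exact this.filter_mono nhdsWithin_le_nhds
  · have := h₂ x hx
    rw [o₂.nhdsWithin_eq hx] at this
    exact this.filter_mono nhdsWithin_le_nhds

theorem Sec.union_closed (o₁ : IsClosed W₁) (o₂ : IsClosed W₂) (h₁ : Sec c W₁ s)
    (h₂ : Sec c W₂ s) : Sec c (W₁ ∪ W₂) s := by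
  intro x _
  have key : ∀ W : Set X, IsClosed W → Sec c W s → ∀ᶠ y in 𝓝[W] x, s y = c x y * s x := by
    intro W hW h
    by_cases hx : x ∈ W
    · exact h x hx
    · have : 𝓝[W] x = ⊥ := by
        rw [← notMem_closure_iff_nhdsWithin_eq_bot, hW.closure_eq]; exact hx
      rw [this]; exact eventually_bot
  rw [nhdsWithin_union, eventually_sup]
  exact ⟨key _ o₁ h₁, key _ o₂ h₂⟩

omit [TopologicalSpace X] [Group G] in
theorem exists_piece (he : EqOn s₁ s₂ (W₁ ∩ W₂)) :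
    ∃ s : X → G, EqOn s s₁ W₁ ∧ EqOn s s₂ W₂ := by
  classical
  refine ⟨fun x => if x ∈ W₁ then s₁ x else s₂ x, fun x hx => if_pos hx, fun x hx => ?_⟩
  by_cases h : x ∈ W₁
  · simp only [if_pos h]; exact he ⟨h, hx⟩
  · simp only [if_neg h]

theorem exists_sec_union_open (o₁ : IsOpen W₁) (o₂ : IsOpen W₂) (h₁ : Sec c W₁ s₁)
    (h₂ : Sec c W₂ s₂) (he : EqOn s₁ s₂ (W₁ ∩ W₂)) :
    ∃ s, Sec c (W₁ ∪ W₂) s ∧ EqOn s s₁ W₁ ∧ EqOn s s₂ W₂ := by
  obtain ⟨s, e₁, e₂⟩ := exists_piece he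
  exact ⟨s, Sec.union_open o₁ o₂ (h₁.congr e₁.symm) (h₂.congr e₂.symm), e₁, e₂⟩

theorem exists_sec_union_closed (o₁ : IsClosed W₁) (o₂ : IsClosed W₂) (h₁ : Sec c W₁ s₁)
    (h₂ : Sec c W₂ s₂) (he : EqOn s₁ s₂ (W₁ ∩ W₂)) :
    ∃ s, Sec c (W₁ ∪ W₂) s ∧ EqOn s s₁ W₁ ∧ EqOn s s₂ W₂ := by
  obtain ⟨s, e₁, e₂⟩ := exists_piece he
  exact ⟨s, Sec.union_closed o₁ o₂ (h₁.congr e₁.symm) (h₂.congr e₂.symm), e₁, e₂⟩

theorem exists_sec_union_of_preconnected (o₁ : IsOpen W₁) (o₂ : IsOpen W₂)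
    (hc : IsPreconnected (W₁ ∩ W₂)) (h₁ : ∃ s, Sec c W₁ s) (h₂ : ∃ s, Sec c W₂ s) :
    ∃ s, Sec c (W₁ ∪ W₂) s := by
  obtain ⟨s₁, h₁⟩ := h₁
  obtain ⟨s₂, h₂⟩ := h₂
  rcases (W₁ ∩ W₂).eq_empty_or_nonempty with h0 | ⟨x, hx⟩
  · obtain ⟨s, hs, -⟩ := exists_sec_union_open o₁ o₂ h₁ h₂ (by rw [h0]; exact eqOn_empty _ _)
    exact ⟨s, hs⟩
  · obtain ⟨s, hs, -⟩ := exists_sec_union_open o₁ o₂ (h₁.mul_const ((s₁ x)⁻¹ * s₂ x)) h₂ (by
      intro y hy
      have := Sec.unique hc (h₁.mono inter_subset_left) (h₂.mono inter_subset_right) hx hy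
      simp only [this]; group)
    exact ⟨s, hs⟩

theorem flat_of_fun (σ : X → G) (W : Set X) : Flat (fun x y => σ y * (σ x)⁻¹) W := by
  intro x _
  refine Eventually.of_forall fun y => Eventually.of_forall fun z => ?_
  group

theorem Sec.germ (hW : IsOpen W) (h : Sec c W s) (hx : x ∈ W) :
    c x =ᶠ[𝓝 x] fun y => s y * (s x)⁻¹ := by
  have := h x hx
  rw [hW.nhdsWithin_eq hx] at this
  filter_upwards [this] with y hy
  rw [hy]; group

theorem Sec.of_germ (h : ∀ x ∈ W, c x =ᶠ[𝓝 x] fun y => s y * (s x)⁻¹) : Sec c W s := by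
  intro x hx
  filter_upwards [(h x hx).filter_mono nhdsWithin_le_nhds] with y hy
  rw [hy]; group

theorem Flat.gauge (h : Flat c W) (φ : X → G) :
    Flat (fun x y => φ y * c x y * (φ x)⁻¹) W := by
  intro x hx
  filter_upwards [h x hx] with y hy
  filter_upwards [hy] with z hz
  rw [hz]; group

theorem Flat.union (h₁ : Flat c W₁) (h₂ : Flat c W₂) :
    Flat c (W₁ ∪ W₂) := fun x hx => hx.elim (h₁ x) (h₂ x)

theorem Flat.glue (o₁ : IsOpen W₁) (o₂ : IsOpen W₂) (h₁ : Flat c₁ W₁) (h₂ : Flat c₂ W₂)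
    (he : ∀ x ∈ W₁ ∩ W₂, c₁ x =ᶠ[𝓝 x] c₂ x) :
    ∃ c : X → X → G, Flat c (W₁ ∪ W₂) ∧ (∀ x ∈ W₁, c x = c₁ x) ∧
      ∀ x ∈ W₂, c x =ᶠ[𝓝 x] c₂ x := by
  classical
  have e₁ : ∀ x ∈ W₁, (if x ∈ W₁ then c₁ x else c₂ x) = c₁ x := fun x hx => if_pos hx
  have e₂ : ∀ x ∈ W₂, (if x ∈ W₁ then c₁ x else c₂ x) =ᶠ[𝓝 x] c₂ x := by
    intro x hx
    by_cases h : x ∈ W₁
    · rw [if_pos h]; exact he x ⟨h, hx⟩
    · rw [if_neg h]
  refine ⟨fun x => if x ∈ W₁ then c₁ x else c₂ x, fun x hx => ?_, e₁, e₂⟩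
  rcases hx with hx | hx
  · exact h₁.congr (c' := fun x => if x ∈ W₁ then c₁ x else c₂ x) o₁
      (fun x hx => (e₁ x hx).symm.eventuallyEq) x hx
  · exact h₂.congr (c' := fun x => if x ∈ W₁ then c₁ x else c₂ x) o₂
      (fun x hx => (e₂ x hx).symm) x hx

theorem flat_wall (σ : X → G) (Wl W : Set X)
    (hcl : ∀ x ∈ W, x ∉ Wl → ∀ᶠ y in 𝓝 x, y ∉ Wl)
    (hσ : ∀ x ∈ W, x ∈ Wl → ∀ᶠ y in 𝓝 x, y ∉ Wl → ∀ᶠ z in 𝓝 y, σ z = σ y) :
    Flat (wall σ Wl) W := by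
  intro x hx
  by_cases h : x ∈ Wl
  · filter_upwards [hσ x hx h] with y hy
    by_cases h' : y ∈ Wl
    · refine Eventually.of_forall fun z => ?_
      simp only [wall, if_pos h, if_pos h']; group
    · filter_upwards [hy h'] with z hz
      simp only [wall, if_pos h, if_neg h', hz, one_mul]
  · filter_upwards [hcl x hx h] with y hy
    refine Eventually.of_forall fun z => ?_
    simp only [wall, if_neg h, if_neg hy, one_mul]

theorem Sec.mem_subgroup (H : Subgroup G) (hW : IsPreconnected W)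
    (hc : ∀ x ∈ W, ∀ᶠ y in 𝓝[W] x, c x y ∈ H) (h : Sec c W s) (hx : x ∈ W) (hy : y ∈ W) :
    s y * (s x)⁻¹ ∈ H := by
  have key := const_of_eventually (f := fun z => s z * (s x)⁻¹ ∈ H) hW (fun z hz => by
    filter_upwards [h z hz, hc z hz] with w h1 h2
    rw [h1, mul_assoc]
    exact propext (H.mul_mem_cancel_left h2)) hx hy
  rw [← key]; simp

end Pool.Agent.P.MP_c51580_gt
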