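import Pool.Agent.P.MP_c51580_gt.ConnA

set_option linter.unusedSectionVars false

namespace Pool.Agent.P.MP_c51580_gt

open Set Metric Filter Topology
open scoped RealInnerProductSpace

variable {X Y : Type*} [TopologicalSpace X] [TopologicalSpace Y] {G : Type*} [Group G]
  {E : Type*} [NormedAddCommGroup E] [NormedSpace ℝ E]

section Extra

variable {c : X → X → G} {W W₁ W₂ : Set X} {s s' s₁ s₂ : X → G} {x y : X}

/-- A function that is locally constant within a preconnected set is constant. -/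
theorem const_of_ev {α : Type*} (hW : IsPreconnected W) {f : X → α}
    (h : ∀ x ∈ W, ∀ᶠ y in 𝓝[W] x, f y = f x) (hx : x ∈ W) (hy : y ∈ W) : f x = f y :=
  hW.induction₂' (fun a b => f a = f b)
    (fun a ha => (h a ha).mono fun _ e => ⟨e.symm, e⟩)
    (fun _ _ _ _ _ _ h1 h2 => h1.trans h2) hx hy

theorem Sec.ratio_ev (h : Sec c W s) (h' : Sec c W s') :
    ∀ x ∈ W, ∀ᶠ y in 𝓝[W] x, (s y)⁻¹ * s' y = (s x)⁻¹ * s' x := by
  intro x hx
  filter_upwards [h x hx, h' x hx] with y e e'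
  rw [e, e']; group

theorem Sec.exists_const (hW : IsPreconnected W) (h : Sec c W s) (h' : Sec c W s') :
    ∃ k, ∀ x ∈ W, s' x = s x * k := by
  rcases W.eq_empty_or_nonempty with rfl | ⟨x₀, h₀⟩
  · exact ⟨1, by simp⟩
  refine ⟨(s x₀)⁻¹ * s' x₀, fun x hx => ?_⟩
  rw [← Sec.unique hW h h' hx h₀]; group

theorem Sec.eq_of_eq (hW : IsPreconnected W) (h : Sec c W s) (h' : Sec c W s') (h₀ : x ∈ W)
    (e : s x = s' x) : EqOn s s' W := by
  intro y hy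
  have := Sec.unique hW h h' hy h₀
  rw [e, inv_mul_cancel, inv_mul_eq_one] at this
  exact this

/-- A function that is a section near each point is a section. -/
theorem sec_of_local (h : ∀ x ∈ W, ∃ V ∈ 𝓝[W] x, x ∈ V ∧ Sec c V s) : Sec c W s := by
  intro x hx
  obtain ⟨V, hV, hxV, hs⟩ := h x hx
  exact (hs x hxV).filter_mono (nhdsWithin_le_of_mem hV)

/-- Union of two sets each of which is relatively closed in the union. -/
theorem Sec.union_rel (hA : Sec c W₁ s) (hB : Sec c W₂ s)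
    (cA : ∀ x ∈ W₂, x ∈ closure W₁ → x ∈ W₁) (cB : ∀ x ∈ W₁, x ∈ closure W₂ → x ∈ W₂) :
    Sec c (W₁ ∪ W₂) s := by
  intro x hx
  rw [nhdsWithin_union, eventually_sup]
  constructor
  · by_cases h : x ∈ W₁
    · exact hA x h
    · have : x ∉ closure W₁ := fun h' => h (cA x (hx.resolve_left h) h')
      rw [mem_closure_iff_nhdsWithin_neBot, not_neBot] at this
      simp [this]
  · by_cases h : x ∈ W₂
    · exact hB x h
    · have : x ∉ closure W₂ := fun h' => h (cB x (hx.resolve_right h) h')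
      rw [mem_closure_iff_nhdsWithin_neBot, not_neBot] at this
      simp [this]

theorem exists_glue_fun (he : EqOn s₁ s₂ (W₁ ∩ W₂)) :
    ∃ u : X → G, EqOn u s₁ W₁ ∧ EqOn u s₂ W₂ := by
  classical
  refine ⟨fun x => if x ∈ W₁ then s₁ x else s₂ x, fun x hx => by simp [hx], fun x hx => ?_⟩
  by_cases h' : x ∈ W₁
  · simp [h', he ⟨h', hx⟩]
  · simp [h']

theorem exists_sec_union_rel (h₁ : Sec c W₁ s₁) (h₂ : Sec c W₂ s₂)
    (cA : ∀ x ∈ W₂, x ∈ closure W₁ → x ∈ W₁) (cB : ∀ x ∈ W₁, x ∈ closure W₂ → x ∈ W₂)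
    (he : EqOn s₁ s₂ (W₁ ∩ W₂)) :
    ∃ s, Sec c (W₁ ∪ W₂) s ∧ EqOn s s₁ W₁ ∧ EqOn s s₂ W₂ := by
  obtain ⟨u, h1, h2⟩ := exists_glue_fun he
  exact ⟨u, (h₁.congr h1.symm).union_rel (h₂.congr h2.symm) cA cB, h1, h2⟩

theorem wall_of_mem {Wl : Set X} (σ : X → G) (hx : x ∈ Wl) (y : X) :
    wall σ Wl x y = σ y * (σ x)⁻¹ := by simp [wall, hx]

theorem wall_of_not_mem {Wl : Set X} (σ : X → G) (hx : x ∉ Wl) (y : X) :
    wall σ Wl x y = 1 := by simp [wall, hx]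

/-- Local sections. -/
theorem Flat.local (h : Flat c W) (hx : x ∈ W) : ∃ V ∈ 𝓝 x, Sec c V (c x) :=
  ⟨_, h x hx, fun _ hy => nhdsWithin_le_nhds hy⟩

end Extra

theorem exists_sec_tube {c : X × ℝ → X × ℝ → G} (h : Flat c univ) (a : X) :
    ∃ N ∈ 𝓝 a, ∃ S, Sec c (N ×ˢ Icc (0 : ℝ) 1) S := by
  let P : ℝ → Prop := fun t => ∃ N ∈ 𝓝 a, ∃ S, Sec c (N ×ˢ Icc (0 : ℝ) t) S
  have key : ∀ t₀ : ℝ, ∃ ε > 0, ∀ t t', 0 ≤ t → t ∈ Ioo (t₀ - ε) (t₀ + ε) →
      t' ∈ Ioo (t₀ - ε) (t₀ + ε) → P t → P t' := by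
    intro t₀
    obtain ⟨V, hV, hs⟩ := h.local (mem_univ (a, t₀))
    obtain ⟨N₀, hN₀, J, hJ, hsub⟩ := mem_nhds_prod_iff.1 hV
    obtain ⟨ε, hε, hJ'⟩ := Metric.mem_nhds_iff.1 hJ
    rw [Real.ball_eq_Ioo] at hJ'
    refine ⟨ε, hε, fun t t' h0 ht ht' ⟨N, hN, S, hS⟩ => ?_⟩
    rcases le_total t' t with hle | hle
    · exact ⟨N, hN, S, hS.mono (prod_mono_right (Icc_subset_Icc_right hle))⟩
    set L := c (a, t₀)
    have hL : Sec c (N₀ ×ˢ Icc t t') L := hs.mono fun p hp =>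
      hsub ⟨hp.1, hJ' ⟨ht.1.trans_le hp.2.1, hp.2.2.trans_lt ht'.2⟩⟩
    have hA : Sec c ((N ∩ N₀) ×ˢ {t}) L := hL.mono fun p hp =>
      ⟨hp.1.2, by rw [mem_singleton_iff.1 hp.2]; exact ⟨le_rfl, hle⟩⟩
    have hB : Sec c ((N ∩ N₀) ×ˢ {t}) S := hS.mono fun p hp =>
      ⟨hp.1.1, by rw [mem_singleton_iff.1 hp.2]; exact ⟨h0, le_rfl⟩⟩
    have haN : a ∈ N ∩ N₀ := mem_of_mem_nhds (inter_mem hN hN₀)
    have hev := hA.ratio_ev hB (a, t) ⟨haN, rfl⟩
    have hten : Tendsto (fun b : X => (b, t)) (𝓝 a) (𝓝[(N ∩ N₀) ×ˢ {t}] (a, t)) := by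
      refine tendsto_nhdsWithin_iff.2 ⟨(Continuous.prodMk_left t).tendsto a, ?_⟩
      filter_upwards [inter_mem hN hN₀] with b hb using ⟨hb, rfl⟩
    have hev' := (hten.eventually hev).and (inter_mem hN hN₀)
    set k := (L (a, t))⁻¹ * S (a, t)
    let N₁ := {b : X | (L (b, t))⁻¹ * S (b, t) = k ∧ b ∈ N ∩ N₀}
    have h1 : Sec c (N₁ ×ˢ Icc 0 t) S := hS.mono fun p hp => ⟨hp.1.2.1, hp.2⟩
    have h2 : Sec c (N₁ ×ˢ Icc t t') (fun p => L p * k) :=
      (hL.mono fun p hp => ⟨hp.1.2.2, hp.2⟩).mul_const k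
    have hcl : ∀ (u v : ℝ) (p : X × ℝ), p ∈ closure (N₁ ×ˢ Icc u v) → p.2 ∈ Icc u v := by
      intro u v p hp
      rw [closure_prod_eq, closure_Icc] at hp
      exact hp.2
    obtain ⟨u, hu, -⟩ := exists_sec_union_rel h1 h2 (fun p hp hc => ⟨hp.1, hcl _ _ p hc⟩)
      (fun p hp hc => ⟨hp.1, hcl _ _ p hc⟩) (by
        rintro ⟨b, τ⟩ ⟨hp, hq⟩
        have : τ = t := le_antisymm hp.2.2 hq.2.1
        subst this
        have := hp.1.1
        simp only at this ⊢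
        rw [← this]; group)
    refine ⟨N₁, hev', u, hu.mono fun p hp => ?_⟩
    rcases le_total p.2 t with h' | h'
    · exact Or.inl ⟨hp.1, hp.2.1, h'⟩
    · exact Or.inr ⟨hp.1, h', hp.2.2⟩
  have hP : P 0 → P 1 := by
    refine (isPreconnected_Icc (a := (0 : ℝ)) (b := 1)).induction₂' (fun t t' => P t → P t')
      (fun t₀ h₀ => ?_) (fun _ _ _ _ _ _ h1 h2 => h2 ∘ h1) ⟨le_rfl, zero_le_one⟩ ⟨zero_le_one, le_rfl⟩
    obtain ⟨ε, hε, hk⟩ := key t₀
    have hm : t₀ ∈ Ioo (t₀ - ε) (t₀ + ε) := ⟨by linarith, by linarith⟩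
    filter_upwards [self_mem_nhdsWithin, mem_nhdsWithin_of_mem_nhds (isOpen_Ioo.mem_nhds hm)]
      with t ht ht'
    exact ⟨hk _ _ h₀.1 hm ht', hk _ _ ht.1 ht' hm⟩
  apply hP
  obtain ⟨V, hV, hs⟩ := h.local (mem_univ (a, (0 : ℝ)))
  obtain ⟨N₀, hN₀, J, hJ, hsub⟩ := mem_nhds_prod_iff.1 hV
  refine ⟨N₀, hN₀, _, hs.mono fun p hp => hsub ⟨hp.1, ?_⟩⟩
  rw [le_antisymm hp.2.2 hp.2.1]; exact mem_of_mem_nhds hJ

theorem exists_sec_cyl {c : X × ℝ → X × ℝ → G} (h : Flat c univ) {s₀ : X → G}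
    (h₀ : Sec (fun a b => c (a, 0) (b, 0)) univ s₀) :
    ∃ s₁, Sec (fun a b => c (a, 1) (b, 1)) univ s₁ := by
  choose N hN S hS using exists_sec_tube h
  refine ⟨fun a => S a (a, 1) * (S a (a, 0))⁻¹ * s₀ a, fun a _ => ?_⟩
  rw [nhdsWithin_univ]
  have hsl : ∀ t ∈ Icc (0 : ℝ) 1, ∀ᶠ b in 𝓝 a, S a (b, t) = c (a, t) (b, t) * S a (a, t) := by
    intro t ht
    have hten : Tendsto (fun b : X => (b, t)) (𝓝 a) (𝓝[N a ×ˢ Icc 0 1] (a, t)) := by
      refine tendsto_nhdsWithin_iff.2 ⟨(Continuous.prodMk_left t).tendsto a, ?_⟩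
      filter_upwards [hN a] with b hb using ⟨hb, ht⟩
    exact hten.eventually (hS a (a, t) ⟨mem_of_mem_nhds (hN a), ht⟩)
  have h₀' := h₀ a trivial
  rw [nhdsWithin_univ] at h₀'
  filter_upwards [hN a, hsl 0 ⟨le_rfl, zero_le_one⟩, hsl 1 ⟨zero_le_one, le_rfl⟩, h₀']
    with b hb e0 e1 e2
  have hpc : IsPreconnected (({b} : Set X) ×ˢ Icc (0 : ℝ) 1) :=
    isPreconnected_singleton.prod isPreconnected_Icc
  have r := Sec.unique hpc ((hS a).mono (V := {b} ×ˢ Icc (0 : ℝ) 1) fun p hp =>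
      ⟨by rw [mem_singleton_iff.1 hp.1]; exact hb, hp.2⟩)
    ((hS b).mono fun p hp =>
      ⟨by rw [mem_singleton_iff.1 hp.1]; exact mem_of_mem_nhds (hN b), hp.2⟩)
    (x := (b, 0)) (y := (b, 1)) ⟨rfl, le_rfl, zero_le_one⟩ ⟨rfl, zero_le_one, le_rfl⟩
  have e3 : S b (b, 1) = S a (b, 1) * ((S a (b, 0))⁻¹ * S b (b, 0)) := by rw [r]; group
  rw [e3, e2, e0, e1]; group

theorem Sec.homotopy {c : X → X → G} {W : Set X} {A : Set Y} {H : Y × ℝ → X} (hc : Flat c W)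
    (hH : ContinuousOn H (A ×ˢ Icc 0 1)) (hm : MapsTo H (A ×ˢ Icc 0 1) W)
    (h0 : ∃ s, Sec (fun a b => c (H (a, 0)) (H (b, 0))) A s) :
    ∃ s, Sec (fun a b => c (H (a, 1)) (H (b, 1))) A s := by
  classical
  obtain ⟨s₀, h₀⟩ := h0
  let H' : A × ℝ → X := fun p => H (p.1, projIcc (0 : ℝ) 1 zero_le_one p.2)
  have hcont : Continuous H' := by
    have : Continuous fun p : A × ℝ => ((p.1 : Y), ((projIcc (0 : ℝ) 1 zero_le_one p.2 : _) : ℝ)) :=
      (continuous_subtype_val.comp continuous_fst).prodMk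
        (continuous_subtype_val.comp (continuous_projIcc.comp continuous_snd))
    exact hH.comp_continuous this fun p => ⟨p.1.2, (projIcc (0 : ℝ) 1 zero_le_one p.2).2⟩
  have hf := hc.comp isOpen_univ hcont.continuousOn fun p _ =>
    hm ⟨p.1.2, (projIcc (0 : ℝ) 1 zero_le_one p.2).2⟩
  have h₀' := h₀.comp (V := (univ : Set A)) continuous_subtype_val.continuousOn fun a _ => a.2
  obtain ⟨s₁, hs₁⟩ := exists_sec_cyl hf (s₀ := fun a : A => s₀ a) (by simpa [H'] using h₀')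
  refine ⟨fun y => if hy : y ∈ A then s₁ ⟨y, hy⟩ else 1, fun a ha => ?_⟩
  have := hs₁ ⟨a, ha⟩ trivial
  rw [nhdsWithin_univ] at this
  rw [← map_nhds_subtype_val (⟨a, ha⟩ : A), eventually_map]
  filter_upwards [this] with b e
  simpa [H', ha, b.2] using e

theorem exists_sec_convex {c : X → X → G} {W : Set X} {V : Set E} (hV : Convex ℝ V) {f : E → X}
    (hf : ContinuousOn f V) (hm : MapsTo f V W) (hc : Flat c W) :
    ∃ s, Sec (fun a b => c (f a) (f b)) V s := by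
  rcases V.eq_empty_or_nonempty with rfl | ⟨x₀, h₀⟩
  · exact ⟨fun _ => 1, fun _ h => h.elim⟩
  have hmV : MapsTo (fun p : E × ℝ => (1 - p.2) • x₀ + p.2 • p.1) (V ×ˢ Icc 0 1) V :=
    fun p hp => hV h₀ hp.1 (by linarith [hp.2.2]) hp.2.1 (by ring)
  have := Sec.homotopy (A := V) (H := fun p : E × ℝ => f ((1 - p.2) • x₀ + p.2 • p.1)) hc
    (hf.comp (by fun_prop) hmV) (hm.comp hmV) ⟨fun _ => 1, fun x _ => by simp [hc.self (hm h₀)]⟩
  simpa using this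

theorem exists_sec_retract {c : E → E → G} {P C : Set E} {π : E → E} (hπ : ContinuousOn π P)
    (hseg : ∀ p ∈ P, segment ℝ p (π p) ⊆ P) (hC : Convex ℝ C) (hCP : C ⊆ P)
    (hm : MapsTo π P C) (hc : Flat c P) : ∃ s, Sec c P s := by
  obtain ⟨s, hs⟩ := exists_sec_convex (f := id) hC continuousOn_id hCP hc
  have := Sec.homotopy (A := P) (H := fun p : E × ℝ => (1 - p.2) • π p.1 + p.2 • p.1) hc ?_ ?_
    ⟨_, by simpa using hs.comp hπ hm⟩
  · simpa using this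
  · have h1 : ContinuousOn (fun p : E × ℝ => π p.1) (P ×ˢ Icc 0 1) :=
      hπ.comp continuous_fst.continuousOn fun p hp => hp.1
    exact ((continuous_const.sub continuous_snd).continuousOn.smul h1).add
      (continuous_snd.smul continuous_fst).continuousOn
  · intro a ha
    exact hseg a.1 ha.1 ⟨a.2, 1 - a.2, ha.2.1, by linarith [ha.2.2], by ring, add_comm _ _⟩

theorem isPreconnected_retract {P C : Set E} {π : E → E}
    (hseg : ∀ p ∈ P, segment ℝ p (π p) ⊆ P) (hC : IsPreconnected C) (hCP : C ⊆ P)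
    (hm : MapsTo π P C) : IsPreconnected P := by
  refine isPreconnected_of_forall_pair fun x hx y hy => ?_
  refine ⟨(segment ℝ x (π x) ∪ C) ∪ segment ℝ y (π y),
    union_subset (union_subset (hseg x hx) hCP) (hseg y hy),
    Or.inl (Or.inl (left_mem_segment _ _ _)), Or.inr (left_mem_segment _ _ _), ?_⟩
  refine IsPreconnected.union (π y) (Or.inr (hm hy)) (right_mem_segment _ _ _) ?_
    (convex_segment _ _).isPreconnected
  exact IsPreconnected.union (π x) (right_mem_segment _ _ _) (hm hx)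
    (convex_segment _ _).isPreconnected hC

end Pool.Agent.P.MP_c51580_gt
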