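import Pool.Agent.P.MP_c51580_gt.Defs

namespace Pool.Agent.P.MP_c51580_gt

open Set Metric Filter Topology
open scoped RealInnerProductSpace

namespace ModelA

/-- Integer coordinates of the vertices. -/
def co (k : ℕ) (i : Fin 3) : ℤ :=
  match i with
  | 0 => (vtx k).1
  | 1 => (vtx k).2.1
  | 2 => (vtx k).2.2

theorem toE_vtx (k : ℕ) (i : Fin 3) : toE (vtx k) i = (co k i : ℝ) := by
  fin_cases i <;> simp [toE, co]

theorem step_fin : ∀ j < 38, ∃ i : Fin 3, (∀ l : Fin 3, l ≠ i → co (j + 1) l = co j l) ∧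
    (co (j + 1) i - co j i = 1 ∨ co (j + 1) i - co j i = -1) := by decide +kernel

theorem sep_fin : ∀ k < 38, ∀ j < 38, j + 2 ≤ k → ∃ i : Fin 3,
    (max (co j i) (co (j + 1) i) < min (co k i) (co (k + 1) i)) ∨
    (max (co k i) (co (k + 1) i) < min (co j i) (co (j + 1) i)) := by decide +kernel

theorem adj_fin : ∀ j < 37, ∃ i : Fin 3,
    (co (j + 1) i - co j i = 1 ∧ 0 ≤ co (j + 2) i - co (j + 1) i) ∨
    (co (j + 1) i - co j i = -1 ∧ co (j + 2) i - co (j + 1) i ≤ 0) := by decide +kernel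

theorem bnd_fin : ∀ j < 39, -4 ≤ co j 0 - co j 2 ∧ co j 0 - co j 2 ≤ 6 ∧ 0 ≤ co j 1 ∧
    co j 1 ≤ 4 ∧ 0 ≤ co j 2 ∧ co j 2 ≤ 1 := by decide +kernel

theorem lo_fin : ∀ j < 38, -3 ≤ co j 0 - co j 2 := by decide +kernel

theorem hi_fin : ∀ j < 38, co (j + 1) 0 - co (j + 1) 2 ≤ 5 := by decide +kernel

theorem shell_fin : ∀ j < 37, (0 ≤ co j 0 ∧ co j 0 ≤ 4 ∧ 0 ≤ co (j + 1) 0 ∧ co (j + 1) 0 ≤ 4) ∨
    (co j 1 = 0 ∧ co j 2 = 0 ∧ co (j + 1) 1 = 0 ∧ co (j + 1) 2 = 0) := by decide +kernel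

theorem third_fin : ∀ i i' : Fin 3, ∃ l : Fin 3, l ≠ i ∧ l ≠ i' := by decide

theorem exists_piece {n : ℕ} (hn : 0 < n) {u : ℝ} (hu : u ∈ Icc (0 : ℝ) n) :
    ∃ j < n, u ∈ Icc (j : ℝ) (j + 1) := by
  rcases lt_or_eq_of_le hu.2 with h | h
  · refine ⟨⌊u⌋₊, (Nat.floor_lt hu.1).2 h, Nat.floor_le hu.1, (Nat.lt_floor_add_one u).le⟩
  · obtain ⟨m, rfl⟩ : ∃ m, n = m + 1 := ⟨n - 1, by omega⟩
    refine ⟨m, by omega, ?_, ?_⟩
    · rw [h]; push_cast; linarith
    · rw [h]; push_cast; exact le_rfl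

end ModelA

open ModelA

theorem mf_piece {j : ℕ} {u : ℝ} (hu : u ∈ Icc (j : ℝ) (j + 1)) :
    mf u = toE (vtx j) + (u - j) • (toE (vtx (j + 1)) - toE (vtx j)) := by
  have h0 : (0 : ℝ) ≤ u := le_trans (Nat.cast_nonneg j) hu.1
  rcases lt_or_eq_of_le hu.2 with h | h
  · have : ⌊u⌋₊ = j := (Nat.floor_eq_iff h0).2 ⟨hu.1, h⟩
    rw [mf, this]
  · have : ⌊u⌋₊ = j + 1 := by
      rw [h]; exact_mod_cast Nat.floor_natCast (R := ℝ) (j + 1)
    rw [mf, this, h]
    push_cast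
    simp

theorem ModelA.mf_co {j : ℕ} {u : ℝ} (hu : u ∈ Icc (j : ℝ) (j + 1)) (i : Fin 3) :
    mf u i = co j i + (u - j) * (co (j + 1) i - co j i) := by
  rw [mf_piece hu]
  simp [toE_vtx]

theorem continuous_mf : Continuous mf := by
  have h1 : ∀ n : ℕ, ContinuousOn mf (Iic (n : ℝ)) := by
    intro n
    induction n with
    | zero =>
      have hc : Continuous fun u : ℝ =>
          toE (vtx 0) + (u - (0 : ℕ)) • (toE (vtx (0 + 1)) - toE (vtx 0)) := by fun_prop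
      refine hc.continuousOn.congr fun u hu => ?_
      have : ⌊u⌋₊ = 0 := Nat.floor_of_nonpos (by simpa using hu)
      rw [mf, this]
    | succ n ih =>
      have hc : Continuous fun u : ℝ =>
          toE (vtx n) + (u - n) • (toE (vtx (n + 1)) - toE (vtx n)) := by fun_prop
      have h2 : ContinuousOn mf (Icc (n : ℝ) (n + 1)) :=
        hc.continuousOn.congr fun u hu => mf_piece hu
      have h3 := ih.union_of_isClosed h2 isClosed_Iic isClosed_Icc
      rw [Iic_union_Icc_eq_Iic (by linarith)] at h3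
      push_cast
      exact h3
  rw [continuous_iff_continuousAt]
  intro u
  obtain ⟨n, hn⟩ := exists_nat_gt u
  exact (h1 n).continuousAt (Iic_mem_nhds hn)

theorem continuous_mg : Continuous mg := by
  have := continuous_mf
  unfold mg
  fun_prop

theorem mf_zero : mf 0 = !₂[6, 0, 0] := by
  have h := mf_piece (j := 0) (u := 0) (by simp)
  rw [h]
  have : vtx 0 = (6, 0, 0) := by decide
  simp [this, toE]

theorem mf_38 : mf 38 = !₂[-4, 0, 0] := by
  have h := mf_piece (j := 38) (u := 38) (by norm_num)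
  rw [h]
  have : vtx 38 = (-4, 0, 0) := by decide
  simp [this, toE]

theorem mg_zero : mg 0 = mf 0 + dd := by
  have : max (0 : ℝ) (0 - 37) = 0 := by norm_num
  rw [mg, this]
  simp

theorem mg_38 : mg 38 = mf 38 + dd' := by
  have : max (0 : ℝ) (38 - 37) = 1 := by norm_num
  rw [mg, this]
  simp

theorem mf_affine {j : ℕ} (hj : j < 38) :
    ∃ A B : E3, B ≠ 0 ∧ ∀ u ∈ Icc (j : ℝ) (j + 1), mf u = A + u • B := by
  refine ⟨toE (vtx j) - (j : ℝ) • (toE (vtx (j + 1)) - toE (vtx j)),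
    toE (vtx (j + 1)) - toE (vtx j), ?_, fun u hu => ?_⟩
  · intro h
    obtain ⟨i, -, hi⟩ := step_fin j hj
    have h1 : (toE (vtx (j + 1)) - toE (vtx j)) i = 0 := by rw [h]; rfl
    rw [PiLp.sub_apply, toE_vtx, toE_vtx] at h1
    have h2 : co (j + 1) i - co j i = 0 := by exact_mod_cast h1
    omega
  · rw [mf_piece hu, sub_smul]
    abel

theorem ModelA.mf_last {u : ℝ} (hu : u ∈ Icc (37 : ℝ) 38) :
    mf u 0 = 34 - u ∧ mf u 1 = 0 ∧ mf u 2 = 0 := by
  have hu' : u ∈ Icc ((37 : ℕ) : ℝ) ((37 : ℕ) + 1) := by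
    constructor
    · exact_mod_cast hu.1
    · have := hu.2; push_cast; linarith
  have a0 : co 37 0 = -3 := by decide
  have a1 : co 37 1 = 0 := by decide
  have a2 : co 37 2 = 0 := by decide
  have b0 : co (37 + 1) 0 = -4 := by decide
  have b1 : co (37 + 1) 1 = 0 := by decide
  have b2 : co (37 + 1) 2 = 0 := by decide
  rw [mf_co hu', mf_co hu', mf_co hu', a0, a1, a2, b0, b1, b2]
  push_cast
  refine ⟨by ring, by ring, by ring⟩

theorem mg_affine {j : ℕ} (hj : j < 38) :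
    ∃ A B : E3, B ≠ 0 ∧ ∀ u ∈ Icc (j : ℝ) (j + 1), mg u = A + u • B := by
  rcases Nat.lt_or_ge j 37 with h | h
  · obtain ⟨A, B, hB, hAB⟩ := mf_affine hj
    refine ⟨A + dd, B, hB, fun u hu => ?_⟩
    have h1 : (j : ℝ) + 1 ≤ 37 := by exact_mod_cast h
    have : max (0 : ℝ) (u - 37) = 0 := max_eq_left (by linarith [hu.2])
    rw [mg, this, hAB u hu]
    simp only [sub_zero, one_smul, zero_smul, add_zero]
    abel
  · obtain rfl : j = 37 := by omega
    refine ⟨!₂[53, 1 / 2, 19], !₂[-3 / 2, 0, -1 / 2], ?_, fun u hu => ?_⟩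
    · intro h0
      have h1 : (!₂[-3 / 2, 0, -1 / 2] : E3) 0 = 0 := by rw [h0]; rfl
      norm_num at h1
    · have hu' : u ∈ Icc (37 : ℝ) 38 := by
        constructor
        · exact_mod_cast hu.1
        · have := hu.2; push_cast at this; linarith
      obtain ⟨m0, m1, m2⟩ := mf_last hu'
      have : max (0 : ℝ) (u - 37) = u - 37 := max_eq_right (by linarith [hu'.1])
      ext i
      fin_cases i
      · simp [mg, this, m0, dd, dd']; ring
      · simp [mg, this, m1, dd, dd']; ring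
      · simp [mg, this, m2, dd, dd']; ring

theorem ModelA.band_co (u t : ℝ) :
    ((1 - t) • mf u + t • mg u) 0 = mf u 0 + t * (1 - max 0 (u - 37)) / 2 ∧
    ((1 - t) • mf u + t • mg u) 1 = mf u 1 + t / 2 ∧
    ((1 - t) • mf u + t • mg u) 2 = mf u 2 + t * (1 - max 0 (u - 37)) / 2 := by
  refine ⟨?_, ?_, ?_⟩
  · simp [mg, dd, dd']; ring
  · simp [mg, dd, dd']; ring
  · simp [mg, dd, dd']; ring

theorem ell_band (u t : ℝ) : ell ((1 - t) • mf u + t • mg u) = ell (mf u) := by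
  obtain ⟨h0, -, h2⟩ := band_co u t
  rw [ell, ell, h0, h2]
  ring

theorem ModelA.ell_piece {j : ℕ} {u : ℝ} (hu : u ∈ Icc (j : ℝ) (j + 1)) :
    ell (mf u) = (1 - (u - j)) * ((co j 0 - co j 2 : ℤ) : ℝ) +
      (u - j) * ((co (j + 1) 0 - co (j + 1) 2 : ℤ) : ℝ) := by
  rw [ell, mf_co hu, mf_co hu]
  push_cast
  ring

theorem ModelA.mf_co' {j : ℕ} {u : ℝ} (hu : u ∈ Icc (j : ℝ) (j + 1)) (i : Fin 3) :
    mf u i = (1 - (u - j)) * (co j i : ℝ) + (u - j) * (co (j + 1) i : ℝ) := by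
  rw [mf_co hu]
  ring

theorem ModelA.le_combo {s x y c : ℝ} (h0 : 0 ≤ s) (h1 : s ≤ 1) (hx : c ≤ x) (hy : c ≤ y) :
    c ≤ (1 - s) * x + s * y := by
  nlinarith [mul_nonneg h0 (sub_nonneg.2 hy), mul_nonneg (sub_nonneg.2 h1) (sub_nonneg.2 hx)]

theorem ModelA.combo_le {s x y c : ℝ} (h0 : 0 ≤ s) (h1 : s ≤ 1) (hx : x ≤ c) (hy : y ≤ c) :
    (1 - s) * x + s * y ≤ c := by
  nlinarith [mul_nonneg h0 (sub_nonneg.2 hy), mul_nonneg (sub_nonneg.2 h1) (sub_nonneg.2 hx)]

theorem ModelA.le_mf {j : ℕ} {u : ℝ} (hu : u ∈ Icc (j : ℝ) (j + 1)) {i : Fin 3} {c : ℤ}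
    (hx : c ≤ co j i) (hy : c ≤ co (j + 1) i) : (c : ℝ) ≤ mf u i := by
  rw [mf_co' hu]
  exact le_combo (by linarith [hu.1]) (by linarith [hu.2]) (by exact_mod_cast hx)
    (by exact_mod_cast hy)

theorem ModelA.mf_le {j : ℕ} {u : ℝ} (hu : u ∈ Icc (j : ℝ) (j + 1)) {i : Fin 3} {c : ℤ}
    (hx : co j i ≤ c) (hy : co (j + 1) i ≤ c) : mf u i ≤ (c : ℝ) := by
  rw [mf_co' hu]
  exact combo_le (by linarith [hu.1]) (by linarith [hu.2]) (by exact_mod_cast hx)
    (by exact_mod_cast hy)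

theorem ModelA.ell_ge {u : ℝ} (hu : u ∈ Icc (0 : ℝ) 37) : -3 ≤ ell (mf u) := by
  obtain ⟨j, hj, hu'⟩ := exists_piece (n := 37) (by norm_num) (by exact_mod_cast hu)
  rw [ell_piece hu']
  exact le_combo (by linarith [hu'.1]) (by linarith [hu'.2])
    (by exact_mod_cast lo_fin j (by omega)) (by exact_mod_cast lo_fin (j + 1) (by omega))

theorem ModelA.inj_lt {j k : ℕ} (hk : k < 38) (hjk : j < k) {u v : ℝ}
    (hu : u ∈ Icc (j : ℝ) (j + 1)) (hv : v ∈ Icc (k : ℝ) (k + 1)) (h : mf u = mf v) : u = v := by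
  rcases Nat.lt_or_ge (j + 1) k with h2 | h2
  · exfalso
    obtain ⟨i, hi | hi⟩ := sep_fin k hk j (by omega) h2
    · have a := mf_le hu (i := i) (le_max_left _ _) (le_max_right _ _)
      have b := le_mf hv (i := i) (min_le_left _ _) (min_le_right _ _)
      have c : ((max (co j i) (co (j + 1) i) : ℤ) : ℝ) < ((min (co k i) (co (k + 1) i) : ℤ) : ℝ) := by
        exact_mod_cast hi
      rw [h] at a
      linarith
    · have a := mf_le hv (i := i) (le_max_left _ _) (le_max_right _ _)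
      have b := le_mf hu (i := i) (min_le_left _ _) (min_le_right _ _)
      have c : ((max (co k i) (co (k + 1) i) : ℤ) : ℝ) < ((min (co j i) (co (j + 1) i) : ℤ) : ℝ) := by
        exact_mod_cast hi
      rw [h] at b
      linarith
  · obtain rfl : k = j + 1 := by omega
    have hu1 : u = j + 1 := by
      obtain ⟨i, hi⟩ := adj_fin j (by omega)
      have a := mf_co hu i
      have b := mf_co hv i
      rw [h, b] at a
      have hv1 : (0 : ℝ) ≤ v - ((j + 1 : ℕ) : ℝ) := by linarith [hv.1]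
      rcases hi with ⟨h1, h3⟩ | ⟨h1, h3⟩
      · have h1' : (co (j + 1) i : ℝ) - co j i = 1 := by exact_mod_cast h1
        have h3' : (0 : ℝ) ≤ (co (j + 1 + 1) i : ℝ) - co (j + 1) i := by exact_mod_cast h3
        rw [h1'] at a
        have := mul_nonneg hv1 h3'
        linarith [hu.2]
      · have h1' : (co (j + 1) i : ℝ) - co j i = -1 := by exact_mod_cast h1
        have h3' : (co (j + 1 + 1) i : ℝ) - co (j + 1) i ≤ 0 := by exact_mod_cast h3
        rw [h1'] at a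
        have := mul_nonpos_of_nonneg_of_nonpos hv1 h3'
        linarith [hu.2]
    obtain ⟨A, B, hB, hAB⟩ := mf_affine hk
    have hu2 : u ∈ Icc ((j + 1 : ℕ) : ℝ) ((j + 1 : ℕ) + 1) := by
      rw [hu1]; push_cast; constructor <;> linarith
    rw [hAB u hu2, hAB v hv] at h
    exact smul_left_injective ℝ hB (add_left_cancel h)

theorem ModelA.mf_injOn : InjOn mf (Icc 0 38) := by
  intro u hu v hv h
  obtain ⟨j, hj, hu'⟩ := exists_piece (n := 38) (by norm_num) (by exact_mod_cast hu)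
  obtain ⟨k, hk, hv'⟩ := exists_piece (n := 38) (by norm_num) (by exact_mod_cast hv)
  rcases lt_trichotomy j k with hjk | rfl | hjk
  · exact inj_lt hk hjk hu' hv' h
  · obtain ⟨A, B, hB, hAB⟩ := mf_affine hj
    rw [hAB u hu', hAB v hv'] at h
    exact smul_left_injective ℝ hB (add_left_cancel h)
  · exact (inj_lt hj hjk hv' hu' h.symm).symm

theorem ModelA.two_int {u : ℝ} (hu : u ∈ Icc (0 : ℝ) 38) :
    ∃ i : Fin 3, ∀ l : Fin 3, l ≠ i → ∃ z : ℤ, mf u l = z := by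
  obtain ⟨j, hj, hu'⟩ := exists_piece (n := 38) (by norm_num) (by exact_mod_cast hu)
  obtain ⟨i, hi, -⟩ := step_fin j hj
  refine ⟨i, fun l hl => ⟨co j l, ?_⟩⟩
  rw [mf_co hu', hi l hl]
  ring

theorem band_injOn : InjOn (fun q : ℝ × ℝ => (1 - q.2) • mf q.1 + q.2 • mg q.1)
    (Icc 0 38 ×ˢ Icc 0 1) := by
  rintro ⟨u, t⟩ ⟨hu, ht⟩ ⟨v, s⟩ ⟨hv, hs⟩ h
  simp only at hu ht hv hs h
  have hell : ell (mf u) = ell (mf v) := by rw [← ell_band u t, h, ell_band]
  obtain ⟨a0, a1, a2⟩ := band_co u t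
  obtain ⟨b0, b1, b2⟩ := band_co v s
  rw [h, b0] at a0
  rw [h, b1] at a1
  rw [h, b2] at a2
  have huv : u = v := by
    rcases le_or_gt u 37 with hu7 | hu7 <;> rcases le_or_gt v 37 with hv7 | hv7
    · have mu : max (0 : ℝ) (u - 37) = 0 := max_eq_left (by linarith)
      have mv : max (0 : ℝ) (v - 37) = 0 := max_eq_left (by linarith)
      rw [mu, mv] at a0 a2
      have hall : ∀ l : Fin 3, mf u l - mf v l = (s - t) / 2 := by
        intro l
        fin_cases l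
        · show mf u 0 - mf v 0 = _
          linarith
        · show mf u 1 - mf v 1 = _
          linarith
        · show mf u 2 - mf v 2 = _
          linarith
      obtain ⟨i, hi⟩ := two_int hu
      obtain ⟨i', hi'⟩ := two_int hv
      obtain ⟨l, hl, hl'⟩ := third_fin i i'
      obtain ⟨z, hz⟩ := hi l hl
      obtain ⟨z', hz'⟩ := hi' l hl'
      have e := hall l
      rw [hz, hz'] at e
      have e1 : ((z - z' : ℤ) : ℝ) < 1 := by push_cast; linarith [hs.2, ht.1]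
      have e2 : (-1 : ℝ) < ((z - z' : ℤ) : ℝ) := by push_cast; linarith [hs.1, ht.2]
      have e1' : z - z' < 1 := by exact_mod_cast e1
      have e2' : -1 < z - z' := by exact_mod_cast e2
      have e3 : z = z' := by omega
      rw [e3, sub_self] at e
      refine mf_injOn hu hv ?_
      ext l
      have := hall l
      linarith
    · exfalso
      obtain ⟨m0, -, m2⟩ := mf_last ⟨hv7.le, hv.2⟩
      have := ell_ge ⟨hu.1, hu7⟩
      rw [hell, ell, m0, m2] at this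
      linarith
    · exfalso
      obtain ⟨m0, -, m2⟩ := mf_last ⟨hu7.le, hu.2⟩
      have := ell_ge ⟨hv.1, hv7⟩
      rw [← hell, ell, m0, m2] at this
      linarith
    · obtain ⟨m0, -, m2⟩ := mf_last ⟨hu7.le, hu.2⟩
      obtain ⟨n0, -, n2⟩ := mf_last ⟨hv7.le, hv.2⟩
      rw [ell, ell, m0, m2, n0, n2] at hell
      linarith
  subst huv
  have : t = s := by linarith
  rw [this]

theorem band_mem {u t : ℝ} (hu : u ∈ Icc (0 : ℝ) 38) (ht : t ∈ Icc (0 : ℝ) 1) :
    (1 - t) • mf u + t • mg u ∈ Mbox := by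
  obtain ⟨j, hj, hu'⟩ := exists_piece (n := 38) (by norm_num) (by exact_mod_cast hu)
  obtain ⟨p1, p2, p3, p4, p5, p6⟩ := bnd_fin j (by omega)
  obtain ⟨q1, q2, q3, q4, q5, q6⟩ := bnd_fin (j + 1) (by omega)
  obtain ⟨-, a1, a2⟩ := band_co u t
  have y0 := le_mf hu' p3 q3
  have y1 := mf_le hu' p4 q4
  have z0 := le_mf hu' p5 q5
  have z1 := mf_le hu' p6 q6
  push_cast at y0 y1 z0 z1
  have m0 : 0 ≤ max (0 : ℝ) (u - 37) := le_max_left _ _
  have m1 : max (0 : ℝ) (u - 37) ≤ 1 := max_le (by norm_num) (by linarith [hu.2])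
  have w0 : 0 ≤ t * (1 - max 0 (u - 37)) := mul_nonneg ht.1 (by linarith)
  have w1 : t * (1 - max 0 (u - 37)) ≤ 1 := mul_le_one₀ ht.2 (by linarith) (by linarith)
  refine ⟨?_, ?_, ?_, ?_⟩
  · rw [ell_band, ell_piece hu']
    exact le_combo (by linarith [hu'.1]) (by linarith [hu'.2]) (by exact_mod_cast p1)
      (by exact_mod_cast q1)
  · rw [ell_band, ell_piece hu']
    exact combo_le (by linarith [hu'.1]) (by linarith [hu'.2]) (by exact_mod_cast p2)
      (by exact_mod_cast q2)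
  · rw [a1, abs_le]
    constructor <;> linarith [ht.1, ht.2]
  · rw [a2, abs_le]
    constructor <;> linarith

theorem ell_mf_lt {u : ℝ} (hu : u ∈ Ioc (0 : ℝ) 38) : ell (mf u) < 6 := by
  obtain ⟨j, hj, hu'⟩ := exists_piece (n := 38) (u := u) (by norm_num)
    ⟨hu.1.le, by exact_mod_cast hu.2⟩
  have q : ((co (j + 1) 0 - co (j + 1) 2 : ℤ) : ℝ) ≤ 5 := by exact_mod_cast hi_fin j hj
  rw [ell_piece hu']
  rcases Nat.eq_zero_or_pos j with rfl | hj0
  · have p : ((co 0 0 - co 0 2 : ℤ) : ℝ) ≤ 6 := by exact_mod_cast (bnd_fin 0 (by omega)).2.1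
    have h1 := hu'.2
    have h0 := hu.1
    simp only [Nat.cast_zero, sub_zero, zero_add] at h1 q ⊢
    nlinarith [mul_nonneg (sub_nonneg.2 h1) (sub_nonneg.2 p), mul_nonneg h0.le (sub_nonneg.2 q)]
  · obtain ⟨m, rfl⟩ : ∃ m, j = m + 1 := ⟨j - 1, by omega⟩
    have p : ((co (m + 1) 0 - co (m + 1) 2 : ℤ) : ℝ) ≤ 5 := by
      exact_mod_cast hi_fin m (by omega)
    have := combo_le (s := u - ((m + 1 : ℕ) : ℝ)) (by linarith [hu'.1]) (by linarith [hu'.2]) p q
    linarith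

theorem lt_ell_mf {u : ℝ} (hu : u ∈ Ico (0 : ℝ) 38) : -4 < ell (mf u) := by
  rcases le_or_gt u 37 with h | h
  · linarith [ell_ge ⟨hu.1, h⟩]
  · obtain ⟨m0, -, m2⟩ := mf_last ⟨h.le, hu.2.le⟩
    rw [ell, m0, m2]
    linarith [hu.2]

theorem ell_combo (p q : E3) (t : ℝ) :
    ell ((1 - t) • p + t • q) = (1 - t) * ell p + t * ell q := by
  simp [ell]
  ring

theorem ell_Obox {p : E3} (hp : p ∈ Obox) : -3 < ell p ∧ ell p < 6 := by
  obtain ⟨h1, h2, -, -, h5, h6⟩ := hp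
  rw [ell]
  constructor <;> linarith

theorem Obox_subset : Obox ⊆ Mbox := by
  intro p hp
  obtain ⟨e1, e2⟩ := ell_Obox hp
  obtain ⟨-, -, h3, h4, h5, h6⟩ := hp
  refine ⟨by linarith, e2.le, ?_, ?_⟩ <;> rw [abs_le] <;> constructor <;> linarith

theorem mf_mem_kn {u : ℝ} (hu : u ∈ Icc (0 : ℝ) 38) (ho : mf u ∈ Obox) : mf u ∈ kn := by
  rcases le_or_gt u 37 with h | h
  · exact ⟨u, ⟨hu.1, h⟩, rfl⟩
  · exfalso
    obtain ⟨m0, -, -⟩ := mf_last ⟨h.le, hu.2⟩
    have := ho.1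
    rw [m0] at this
    linarith

theorem isCompact_kn : IsCompact kn := isCompact_Icc.image continuous_mf

theorem kn_shell {p : E3} (hp : p ∈ Obox) (hI : p ∉ Ibox) : p ∈ kn ↔ p 1 = 0 ∧ p 2 = 0 := by
  constructor
  · rintro ⟨u, hu, rfl⟩
    obtain ⟨j, hj, hu'⟩ := exists_piece (n := 37) (by norm_num) (by exact_mod_cast hu)
    rcases shell_fin j hj with ⟨h1, h2, h3, h4⟩ | ⟨h1, h2, h3, h4⟩
    · exfalso
      obtain ⟨-, -, p3, p4, p5, p6⟩ := bnd_fin j (by omega)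
      obtain ⟨-, -, q3, q4, q5, q6⟩ := bnd_fin (j + 1) (by omega)
      refine hI ⟨?_, ?_, ?_, ?_, ?_, ?_⟩
      · simpa using le_mf hu' h1 h3
      · simpa using mf_le hu' h2 h4
      · simpa using le_mf hu' p3 q3
      · simpa using mf_le hu' p4 q4
      · simpa using le_mf hu' p5 q5
      · simpa using mf_le hu' p6 q6
    · rw [mf_co hu', mf_co hu', h1, h2, h3, h4]
      simp
  · rintro ⟨h1, h2⟩
    obtain ⟨o1, o2, -⟩ := hp
    rcases lt_or_ge (p 0) 0 with h | h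
    · have hu : 34 - p 0 ∈ Icc ((34 : ℕ) : ℝ) ((34 : ℕ) + 1) := by
        push_cast; constructor <;> linarith
      refine ⟨34 - p 0, ⟨by linarith, by linarith⟩, ?_⟩
      have a0 : co 34 0 = 0 := by decide
      have a1 : co 34 1 = 0 := by decide
      have a2 : co 34 2 = 0 := by decide
      have b0 : co (34 + 1) 0 = -1 := by decide
      have b1 : co (34 + 1) 1 = 0 := by decide
      have b2 : co (34 + 1) 2 = 0 := by decide
      ext i
      fin_cases i
      · show mf (34 - p 0) 0 = p 0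
        rw [mf_co hu, a0, b0]; push_cast; ring
      · show mf (34 - p 0) 1 = p 1
        rw [mf_co hu, a1, b1, h1]; push_cast; ring
      · show mf (34 - p 0) 2 = p 2
        rw [mf_co hu, a2, b2, h2]; push_cast; ring
    · have h4 : 4 < p 0 := by
        by_contra hc
        exact hI ⟨h, not_lt.1 hc, h1.ge, by rw [h1]; norm_num, h2.ge, by rw [h2]; norm_num⟩
      have hu : 6 - p 0 ∈ Icc ((1 : ℕ) : ℝ) ((1 : ℕ) + 1) := by
        push_cast; constructor <;> linarith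
      refine ⟨6 - p 0, ⟨by linarith, by linarith⟩, ?_⟩
      have a0 : co 1 0 = 5 := by decide
      have a1 : co 1 1 = 0 := by decide
      have a2 : co 1 2 = 0 := by decide
      have b0 : co (1 + 1) 0 = 4 := by decide
      have b1 : co (1 + 1) 1 = 0 := by decide
      have b2 : co (1 + 1) 2 = 0 := by decide
      ext i
      fin_cases i
      · show mf (6 - p 0) 0 = p 0
        rw [mf_co hu, a0, b0]; push_cast; ring
      · show mf (6 - p 0) 1 = p 1
        rw [mf_co hu, a1, b1, h1]; push_cast; ring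
      · show mf (6 - p 0) 2 = p 2
        rw [mf_co hu, a2, b2, h2]; push_cast; ring

theorem ModelA.cc (i : Fin 3) : Continuous fun p : E3 => p i := by fun_prop

theorem isOpen_Obox : IsOpen Obox :=
  (isOpen_lt continuous_const (cc 0)).and <| (isOpen_lt (cc 0) continuous_const).and <|
  (isOpen_lt continuous_const (cc 1)).and <| (isOpen_lt (cc 1) continuous_const).and <|
  (isOpen_lt continuous_const (cc 2)).and (isOpen_lt (cc 2) continuous_const)

theorem convex_Obox : Convex ℝ Obox := by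
  intro p hp q hq a b ha hb hab
  obtain ⟨p1, p2, p3, p4, p5, p6⟩ := hp
  obtain ⟨q1, q2, q3, q4, q5, q6⟩ := hq
  have lo : ∀ {c x y : ℝ}, c < x → c < y → c < a * x + b * y := fun {c x y} hx hy =>
    convex_Ioi c (x := x) hx (y := y) hy ha hb hab
  have hi : ∀ {c x y : ℝ}, x < c → y < c → a * x + b * y < c := fun {c x y} hx hy =>
    convex_Iio c (x := x) hx (y := y) hy ha hb hab
  exact ⟨lo p1 q1, hi p2 q2, lo p3 q3, hi p4 q4, lo p5 q5, hi p6 q6⟩

theorem ModelA.isClosed_Ibox : IsClosed Ibox :=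
  (isClosed_le continuous_const (cc 0)).and <| (isClosed_le (cc 0) continuous_const).and <|
  (isClosed_le continuous_const (cc 1)).and <| (isClosed_le (cc 1) continuous_const).and <|
  (isClosed_le continuous_const (cc 2)).and (isClosed_le (cc 2) continuous_const)

theorem isCompact_Ibox : IsCompact Ibox := by
  refine (isCompact_closedBall (0 : E3) 6).of_isClosed_subset isClosed_Ibox fun p hp => ?_
  obtain ⟨p1, p2, p3, p4, p5, p6⟩ := hp
  rw [mem_closedBall_zero_iff]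
  refine abs_le_of_sq_le_sq' ?_ (by norm_num) |>.2
  rw [EuclideanSpace.real_norm_sq_eq, Fin.sum_univ_three]
  nlinarith

theorem Ibox_subset : Ibox ⊆ Obox := by
  rintro p ⟨p1, p2, p3, p4, p5, p6⟩
  exact ⟨by linarith, by linarith, by linarith, by linarith, by linarith, by linarith⟩

theorem isOpen_Shell : IsOpen Shell :=
  (isOpen_Obox.sdiff isClosed_Ibox).sdiff
    ((isClosed_eq (cc 1) continuous_const).and (isClosed_eq (cc 2) continuous_const))

theorem isOpen_Pp : IsOpen Pp := isOpen_Shell.inter (isOpen_lt continuous_const (cc 2))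

theorem isOpen_Pm : IsOpen Pm :=
  isOpen_Shell.inter ((isOpen_lt (cc 2) continuous_const).union
    ((isOpen_ne_fun (cc 1) continuous_const).inter (isOpen_lt (cc 2) continuous_const)))

theorem Pp_union_Pm : Pp ∪ Pm = Shell := by
  ext p
  constructor
  · rintro (h | h) <;> exact h.1
  · intro h
    rcases lt_trichotomy (p 2) 0 with h2 | h2 | h2
    · exact Or.inr ⟨h, Or.inl h2⟩
    · exact Or.inr ⟨h, Or.inr ⟨fun h1 => h.2 ⟨h1, h2⟩, by rw [h2]; norm_num⟩⟩
    · exact Or.inl ⟨h, h2⟩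

theorem Pp_inter_Pm : Pp ∩ Pm = QN ∪ QS := by
  ext p
  constructor
  · rintro ⟨⟨h, h2⟩, -, h3 | ⟨h3, h4⟩⟩
    · exact absurd (lt_trans h2 h3) (lt_irrefl _)
    · rcases lt_or_gt_of_ne h3 with h5 | h5
      · exact Or.inr ⟨h, h2, h4, h5⟩
      · exact Or.inl ⟨h, h2, h4, h5⟩
  · rintro (⟨h, h2, h3, h4⟩ | ⟨h, h2, h3, h4⟩)
    · exact ⟨⟨h, h2⟩, h, Or.inr ⟨h4.ne', h3⟩⟩
    · exact ⟨⟨h, h2⟩, h, Or.inr ⟨h4.ne, h3⟩⟩

theorem Shell_eq : Shell = (Obox \ kn) \ Ibox := by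
  ext p
  constructor
  · rintro ⟨⟨h1, h2⟩, h3⟩
    exact ⟨⟨h1, fun hk => h3 ((kn_shell h1 h2).1 hk)⟩, h2⟩
  · rintro ⟨⟨h1, h2⟩, h3⟩
    exact ⟨⟨h1, h3⟩, fun hk => h2 ((kn_shell h1 h3).2 hk)⟩

end Pool.Agent.P.MP_c51580_gt
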