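import Pool.Agent.P.MP_c51580_gt.CircC
import Pool.Agent.P.MP_c51580_gt.ModelA

namespace Pool.Agent.P.MP_c51580_gt

open Set Metric Filter Topology
open scoped RealInnerProductSpace

namespace DataA

/-- The linear part of the affine map carrying the model band to its place. -/
noncomputable def lin (w ua ub : E3) : E3 →ₗ[ℝ] E3 where
  toFun p := ((p 0 - p 2) / 10) • w + (2 * p 2) • ua + (2 * (p 1 - p 2)) • ub
  map_add' p q := by
    simp only [PiLp.add_apply]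
    module
  map_smul' c p := by
    simp only [PiLp.smul_apply, smul_eq_mul, RingHom.id_apply]
    module

theorem lin_apply (w ua ub p : E3) :
    lin w ua ub p = ((p 0 - p 2) / 10) • w + (2 * p 2) • ua + (2 * (p 1 - p 2)) • ub := rfl

theorem lin_injective {w ua ub : E3} (h : det3 w ua ub ≠ 0) :
    Function.Injective (lin w ua ub) := by
  rw [injective_iff_map_eq_zero]
  intro p hp
  have h1 : det3 (lin w ua ub p) ua ub = ((p 0 - p 2) / 10) * det3 w ua ub := by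
    simp only [lin_apply, det3, PiLp.add_apply, PiLp.smul_apply, smul_eq_mul]; ring
  have h2 : det3 w (lin w ua ub p) ub = (2 * p 2) * det3 w ua ub := by
    simp only [lin_apply, det3, PiLp.add_apply, PiLp.smul_apply, smul_eq_mul]; ring
  have h3 : det3 w ua (lin w ua ub p) = (2 * (p 1 - p 2)) * det3 w ua ub := by
    simp only [lin_apply, det3, PiLp.add_apply, PiLp.smul_apply, smul_eq_mul]; ring
  rw [hp] at h1 h2 h3
  have z1 : det3 0 ua ub = 0 := by simp [det3]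
  have z2 : det3 w 0 ub = 0 := by simp [det3]
  have z3 : det3 w ua 0 = 0 := by simp [det3]
  rw [z1] at h1
  rw [z2] at h2
  rw [z3] at h3
  have e1 := (mul_eq_zero.1 h1.symm).resolve_right h
  have e2 := (mul_eq_zero.1 h2.symm).resolve_right h
  have e3 := (mul_eq_zero.1 h3.symm).resolve_right h
  ext i
  fin_cases i
  · change p 0 = 0
    linarith
  · change p 1 = 0
    linarith
  · change p 2 = 0
    linarith

theorem exists_T (qa qb ua ub : E3) (h : det3 (qa - qb) ua ub ≠ 0) :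
    ∃ T : E3 ≃ᵃ[ℝ] E3,
      (∀ p, T p = qb + ((ell p + 4) / 10) • (qa - qb) + (2 * p 2) • ua + (2 * (p 1 - p 2)) • ub) ∧
      ∀ q, ell (T.symm q) = 10 * (det3 (q - qb) ua ub / det3 (qa - qb) ua ub) - 4 := by
  let L : E3 ≃ₗ[ℝ] E3 := LinearEquiv.ofInjectiveEndo _ (lin_injective h)
  let T : E3 ≃ᵃ[ℝ] E3 :=
    L.toAffineEquiv.trans (AffineEquiv.constVAdd ℝ E3 (qb + (4 / 10 : ℝ) • (qa - qb)))
  have hT : ∀ p, T p =
      qb + ((ell p + 4) / 10) • (qa - qb) + (2 * p 2) • ua + (2 * (p 1 - p 2)) • ub := by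
    intro p
    change (qb + (4 / 10 : ℝ) • (qa - qb)) + lin (qa - qb) ua ub p = _
    rw [lin_apply, ell]
    module
  refine ⟨T, hT, fun q => ?_⟩
  obtain ⟨p, rfl⟩ := T.surjective q
  rw [AffineEquiv.symm_apply_apply, hT]
  have : det3 (qb + ((ell p + 4) / 10) • (qa - qb) + (2 * p 2) • ua + (2 * (p 1 - p 2)) • ub - qb)
      ua ub = ((ell p + 4) / 10) * det3 (qa - qb) ua ub := by
    simp only [det3, PiLp.add_apply, PiLp.sub_apply, PiLp.smul_apply, smul_eq_mul]; ring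
  rw [this, mul_div_assoc, div_self h]
  ring

theorem map_plane (σ : Sim) (x y : ℝ) :
    σ.map !₂[x, y, 0] = σ.c + (σ.r * x) • σ.L !₂[1, 0, 0] + (σ.r * y) • σ.L !₂[0, 1, 0] := by
  have : (!₂[x, y, 0] : E3) = x • !₂[1, 0, 0] + y • !₂[0, 1, 0] := by
    ext i
    fin_cases i <;> simp
  rw [Sim.map, this, map_add, map_smul, map_smul]
  module

theorem mem_disc (σ : Sim) {p : E3} (hp : p ∈ σ.disc) :
    ∃ x y : ℝ, x ^ 2 + y ^ 2 ≤ 1 ∧ p = σ.map !₂[x, y, 0] := by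
  obtain ⟨q, ⟨h2, h⟩, rfl⟩ := hp
  refine ⟨q 0, q 1, h, ?_⟩
  congr 1
  ext i
  fin_cases i
  · rfl
  · rfl
  · exact h2

theorem dist_plane (σ : Sim) (x y x' y' : ℝ) :
    dist (σ.map !₂[x, y, 0]) (σ.map !₂[x', y', 0]) ^ 2 =
      σ.r ^ 2 * ((x - x') ^ 2 + (y - y') ^ 2) := by
  rw [Sim.dist_map, mul_pow, EuclideanSpace.dist_sq_eq]
  simp [Fin.sum_univ_three, Real.dist_eq, sq_abs]

theorem dist_pt_le (σ : Sim) (s t : ℝ) : dist (σ.pt s) (σ.pt t) ≤ 2 * σ.r * |s - t| := by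
  have hr := σ.hr
  refine abs_le_abs_of_sq ?_
  rw [Sim.pt, Sim.pt, dist_plane]
  have hs : 0 < 1 + s ^ 2 := by positivity
  have ht : 0 < 1 + t ^ 2 := by positivity
  have e : ((1 - s ^ 2) / (1 + s ^ 2) - (1 - t ^ 2) / (1 + t ^ 2)) ^ 2 +
      (2 * s / (1 + s ^ 2) - 2 * t / (1 + t ^ 2)) ^ 2 =
      4 * (s - t) ^ 2 / ((1 + s ^ 2) * (1 + t ^ 2)) := by
    field_simp
    ring
  rw [e, mul_pow, mul_pow, sq_abs]
  have h1 : 1 ≤ (1 + s ^ 2) * (1 + t ^ 2) := by nlinarith [sq_nonneg s, sq_nonneg t, sq_nonneg (s * t)]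
  have h2 : 4 * (s - t) ^ 2 / ((1 + s ^ 2) * (1 + t ^ 2)) ≤ 4 * (s - t) ^ 2 :=
    div_le_self (by positivity) h1
  nlinarith [sq_nonneg σ.r]
where
  abs_le_abs_of_sq {a : ℝ} (h : a ^ 2 ≤ (2 * σ.r * |s - t|) ^ 2) : a ≤ 2 * σ.r * |s - t| :=
    le_of_sq_le_sq_of_nonneg h (by have := σ.hr; positivity)
  le_of_sq_le_sq_of_nonneg {a b : ℝ} (h : a ^ 2 ≤ b ^ 2) (hb : 0 ≤ b) : a ≤ b :=
    (abs_le_of_sq_le_sq' h hb).2

theorem dist_pt_inf (σ : Sim) {a t : ℝ} (ha : 0 < a) (ht : a ≤ |t|) :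
    dist (σ.pt t) σ.ptInf ≤ 2 * σ.r / a := by
  have hr := σ.hr
  refine (abs_le_of_sq_le_sq' ?_ (by positivity)).2
  rw [Sim.pt, Sim.ptInf, dist_plane]
  have h0 : 0 < 1 + t ^ 2 := by positivity
  have e : ((1 - t ^ 2) / (1 + t ^ 2) - -1) ^ 2 + (2 * t / (1 + t ^ 2) - 0) ^ 2 =
      4 / (1 + t ^ 2) := by
    field_simp
    ring
  rw [e]
  have h1 : a ^ 2 ≤ 1 + t ^ 2 := by
    have := pow_le_pow_left₀ ha.le ht 2
    rw [sq_abs] at this
    linarith
  have h2 : 4 / (1 + t ^ 2) ≤ 4 / a ^ 2 :=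
    div_le_div_of_nonneg_left (by norm_num) (by positivity) h1
  calc σ.r ^ 2 * (4 / (1 + t ^ 2)) ≤ σ.r ^ 2 * (4 / a ^ 2) :=
        mul_le_mul_of_nonneg_left h2 (sq_nonneg _)
    _ = (2 * σ.r / a) ^ 2 := by ring

/-- An affine function on a circle in terms of the rational parameter. -/
theorem det_pt (σ : Sim) (qb ua ub : E3) (Δ : ℝ) : ∃ A B C : ℝ,
    (∀ t, (1 + t ^ 2) * (det3 (σ.pt t - qb) ua ub / Δ) = (A - B) * t ^ 2 + 2 * C * t + (A + B)) ∧
      det3 (σ.ptInf - qb) ua ub / Δ = A - B := by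
  have key : ∀ x y : ℝ, det3 (σ.map !₂[x, y, 0] - qb) ua ub =
      det3 (σ.c - qb) ua ub + x * (σ.r * det3 (σ.L !₂[1, 0, 0]) ua ub) +
        y * (σ.r * det3 (σ.L !₂[0, 1, 0]) ua ub) := by
    intro x y
    rw [map_plane]
    simp only [det3, PiLp.add_apply, PiLp.sub_apply, PiLp.smul_apply, smul_eq_mul]
    ring
  refine ⟨det3 (σ.c - qb) ua ub / Δ, σ.r * det3 (σ.L !₂[1, 0, 0]) ua ub / Δ,
    σ.r * det3 (σ.L !₂[0, 1, 0]) ua ub / Δ, fun t => ?_, ?_⟩
  · rw [Sim.pt, key]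
    have h0 : (1 + t ^ 2) ≠ 0 := by positivity
    generalize det3 (σ.c - qb) ua ub = u
    generalize σ.r * det3 (σ.L !₂[1, 0, 0]) ua ub = v
    generalize σ.r * det3 (σ.L !₂[0, 1, 0]) ua ub = w
    have : (1 + t ^ 2) * (u + (1 - t ^ 2) / (1 + t ^ 2) * v + 2 * t / (1 + t ^ 2) * w) =
        (u - v) * t ^ 2 + 2 * w * t + (u + v) := by
      field_simp
      ring
    rw [← mul_div_assoc, this]
    ring
  · rw [Sim.ptInf, key]
    ring

theorem quad_roots {P Q S b b' : ℝ} (hb : b ≠ b') (h1 : P * b ^ 2 + Q * b + S = 0)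
    (h2 : P * b' ^ 2 + Q * b' + S = 0) (t : ℝ) :
    P * t ^ 2 + Q * t + S = P * ((t - b) * (t - b')) := by
  have h3 : (b - b') * (P * (b + b') + Q) = 0 := by linarith
  have h4 : Q = -(P * (b + b')) := by
    have := (mul_eq_zero.1 h3).resolve_left (sub_ne_zero.2 hb)
    linarith
  have h5 : S = P * (b * b') := by
    rw [h4] at h1
    linarith
  rw [h4, h5]
  ring

theorem slabR (σ : Sim) {qb ua ub : E3} {Δ b b' : ℝ} (hb : b < b')
    (h1 : det3 (σ.pt b - qb) ua ub / Δ = 1) (h2 : det3 (σ.pt b' - qb) ua ub / Δ = 1)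
    (h3 : 1 < det3 (σ.ptInf - qb) ua ub / Δ) {t : ℝ} (ht : t < b ∨ b' < t) :
    1 < det3 (σ.pt t - qb) ua ub / Δ := by
  obtain ⟨A, B, C, h, hi⟩ := det_pt σ qb ua ub Δ
  have e1 := h b
  have e2 := h b'
  have e3 := h t
  rw [h1] at e1
  rw [h2] at e2
  rw [hi] at h3
  have q := quad_roots (P := A - B - 1) (Q := 2 * C) (S := A + B - 1) hb.ne (by linarith)
    (by linarith) t
  have hpos : 0 < (t - b) * (t - b') := by
    rcases ht with ht | ht
    · exact mul_pos_of_neg_of_neg (by linarith) (by linarith)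
    · exact mul_pos (by linarith) (by linarith)
  have h4 : 0 < (A - B - 1) * ((t - b) * (t - b')) := mul_pos (by linarith) hpos
  have h5 : 0 < (1 + t ^ 2) * (det3 (σ.pt t - qb) ua ub / Δ - 1) := by linarith
  have h6 := (mul_pos_iff_of_pos_left (by positivity : (0 : ℝ) < 1 + t ^ 2)).1 h5
  linarith

theorem slabL (σ : Sim) {qb ua ub : E3} {Δ a : ℝ} (ha : 0 < a)
    (h1 : det3 (σ.pt (-a) - qb) ua ub / Δ = 0) (h2 : det3 (σ.pt a - qb) ua ub / Δ = 0)
    (h3 : det3 (σ.pt 0 - qb) ua ub / Δ < 0) {t : ℝ} (ht : -a < t) (ht' : t < a) :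
    det3 (σ.pt t - qb) ua ub / Δ < 0 := by
  obtain ⟨A, B, C, h, -⟩ := det_pt σ qb ua ub Δ
  have e1 := h (-a)
  have e2 := h a
  have e3 := h t
  have e0 := h 0
  rw [h1] at e1
  rw [h2] at e2
  have q := quad_roots (P := A - B) (Q := 2 * C) (S := A + B) (b := -a) (b' := a)
    (by linarith) (by linarith) (by linarith)
  have q0 := q 0
  have hP : 0 < A - B := by
    by_contra hn
    have : (A - B) * (a * a) ≤ 0 := mul_nonpos_of_nonpos_of_nonneg (not_lt.1 hn) (by positivity)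
    linarith
  have hneg : (t - -a) * (t - a) < 0 := mul_neg_of_pos_of_neg (by linarith) (by linarith)
  have h4 : (A - B) * ((t - -a) * (t - a)) < 0 := mul_neg_of_pos_of_neg hP hneg
  have h5 : (1 + t ^ 2) * (det3 (σ.pt t - qb) ua ub / Δ) < 0 := by
    rw [e3, q t]
    exact h4
  by_contra hn
  have := mul_nonneg (by positivity : (0 : ℝ) ≤ 1 + t ^ 2) (not_lt.1 hn)
  linarith

theorem inner_disc (σ : Sim) (m : E3) {p : E3} (hp : p ∈ σ.disc) :
    (⟪m, p⟫ - ⟪m, σ.c⟫) ^ 2 ≤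
      σ.r ^ 2 * (⟪m, σ.L !₂[1, 0, 0]⟫ ^ 2 + ⟪m, σ.L !₂[0, 1, 0]⟫ ^ 2) := by
  obtain ⟨x, y, h, rfl⟩ := mem_disc σ hp
  rw [map_plane, inner_add_right, inner_add_right, real_inner_smul_right, real_inner_smul_right]
  generalize ⟪m, σ.L !₂[1, 0, 0]⟫ = u
  generalize ⟪m, σ.L !₂[0, 1, 0]⟫ = v
  generalize ⟪m, σ.c⟫ = w
  have h1 : (x * u + y * v) ^ 2 ≤ u ^ 2 + v ^ 2 := by
    nlinarith [sq_nonneg (x * v - y * u), mul_le_mul_of_nonneg_right h
      (by positivity : (0 : ℝ) ≤ u ^ 2 + v ^ 2)]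
  calc (w + σ.r * x * u + σ.r * y * v - w) ^ 2 = σ.r ^ 2 * (x * u + y * v) ^ 2 := by ring
    _ ≤ _ := mul_le_mul_of_nonneg_left h1 (sq_nonneg _)

theorem disc_disjoint {σ τ : Sim} {m : E3} {lam : ℝ} (h1 : ⟪m, σ.c⟫ < lam) (h2 : lam < ⟪m, τ.c⟫)
    (h3 : σ.r ^ 2 * (⟪m, σ.L !₂[1, 0, 0]⟫ ^ 2 + ⟪m, σ.L !₂[0, 1, 0]⟫ ^ 2) < (lam - ⟪m, σ.c⟫) ^ 2)
    (h4 : τ.r ^ 2 * (⟪m, τ.L !₂[1, 0, 0]⟫ ^ 2 + ⟪m, τ.L !₂[0, 1, 0]⟫ ^ 2) <
      (⟪m, τ.c⟫ - lam) ^ 2) : Disjoint σ.disc τ.disc := by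
  rw [Set.disjoint_left]
  intro p hp hq
  have e1 := (abs_lt_of_sq_lt_sq' ((inner_disc σ m hp).trans_lt h3) (by linarith)).2
  have e2 := (abs_lt_of_sq_lt_sq' ((inner_disc τ m hq).trans_lt h4) (by linarith)).1
  linarith

theorem norm_nrm (σ : Sim) : ‖σ.nrm‖ = 1 := by
  rw [Sim.nrm, LinearIsometryEquiv.norm_map, EuclideanSpace.norm_eq]
  simp [Fin.sum_univ_three]

theorem disc_facts (σ : Sim) {p : E3} (hp : p ∈ σ.disc) :
    ⟪p - σ.c, σ.nrm⟫ = 0 ∧ ‖p - σ.c‖ ≤ σ.r := by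
  obtain ⟨x, y, h, rfl⟩ := mem_disc σ hp
  have e : σ.map !₂[x, y, 0] - σ.c = σ.r • σ.L !₂[x, y, 0] := by
    rw [Sim.map, add_sub_cancel_left]
  rw [e]
  constructor
  · rw [Sim.nrm, real_inner_smul_left, LinearIsometryEquiv.inner_map_map]
    simp [PiLp.inner_apply, Fin.sum_univ_three]
  · rw [norm_smul, LinearIsometryEquiv.norm_map, Real.norm_of_nonneg σ.hr.le]
    refine mul_le_of_le_one_right σ.hr.le ?_
    refine (abs_le_of_sq_le_sq' ?_ zero_le_one).2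
    rw [EuclideanSpace.norm_sq_eq]
    simpa [Fin.sum_univ_three, sq_abs] using h

theorem ball_disc (σ : Sim) {x : E3} {δ : ℝ}
    (h : δ ^ 2 < ⟪x - σ.c, σ.nrm⟫ ^ 2 ∨
      (σ.r + δ) ^ 2 < ‖x - σ.c‖ ^ 2 - ⟪x - σ.c, σ.nrm⟫ ^ 2) : Disjoint (ball x δ) σ.disc := by
  rw [Set.disjoint_left]
  intro p hp hq
  obtain ⟨h0, hr⟩ := disc_facts σ hq
  rw [mem_ball, dist_comm, dist_eq_norm] at hp
  have e : x - σ.c = (x - p) + (p - σ.c) := by abel
  rcases h with h | h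
  · rw [e, inner_add_left, h0, add_zero] at h
    have h1 := abs_real_inner_le_norm (x - p) σ.nrm
    rw [norm_nrm, mul_one] at h1
    have h2 := pow_le_pow_left₀ (abs_nonneg _) (h1.trans hp.le) 2
    rw [sq_abs] at h2
    linarith
  · have h1 : ‖x - σ.c‖ ≤ σ.r + δ := by
      rw [e]
      refine (norm_add_le _ _).trans ?_
      linarith
    have h2 := pow_le_pow_left₀ (norm_nonneg _) h1 2
    nlinarith [sq_nonneg ⟪x - σ.c, σ.nrm⟫]

theorem box_mem {qa qb ua ub x : E3} (ha : dist qa x ≤ 1 / 1000) (hb : dist qb x ≤ 1 / 1000)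
    (hua : ‖ua‖ ≤ 1 / 50000) (hub : ‖ub‖ ≤ 1 / 50000) {p : E3} (hp : p ∈ Mbox) :
    qb + ((ell p + 4) / 10) • (qa - qb) + (2 * p 2) • ua + (2 * (p 1 - p 2)) • ub ∈
      ball x (1 / 500) := by
  obtain ⟨h1, h2, h3, h4⟩ := hp
  rw [mem_ball, dist_eq_norm]
  rw [dist_eq_norm] at ha hb
  set α := (ell p + 4) / 10 with hα
  have a0 : 0 ≤ α := by rw [hα]; linarith
  have a1 : α ≤ 1 := by rw [hα]; linarith
  have e : qb + α • (qa - qb) + (2 * p 2) • ua + (2 * (p 1 - p 2)) • ub - x =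
      (1 - α) • (qb - x) + α • (qa - x) + (2 * p 2) • ua + (2 * (p 1 - p 2)) • ub := by module
  rw [e]
  have n1 : ‖(1 - α) • (qb - x)‖ ≤ (1 - α) * (1 / 1000) := by
    rw [norm_smul, Real.norm_of_nonneg (by linarith)]
    exact mul_le_mul_of_nonneg_left hb (by linarith)
  have n2 : ‖α • (qa - x)‖ ≤ α * (1 / 1000) := by
    rw [norm_smul, Real.norm_of_nonneg a0]
    exact mul_le_mul_of_nonneg_left ha a0
  have n3 : ‖(2 * p 2) • ua‖ ≤ 4 * (1 / 50000) := by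
    rw [norm_smul, Real.norm_eq_abs]
    refine mul_le_mul ?_ hua (norm_nonneg _) (by norm_num)
    rw [abs_le] at h4 ⊢
    constructor <;> linarith [h4.1, h4.2]
  have n4 : ‖(2 * (p 1 - p 2)) • ub‖ ≤ 14 * (1 / 50000) := by
    rw [norm_smul, Real.norm_eq_abs]
    refine mul_le_mul ?_ hub (norm_nonneg _) (by norm_num)
    rw [abs_le] at h3 h4 ⊢
    constructor <;> linarith [h3.1, h3.2, h4.1, h4.2]
  have t1 := norm_add_le ((1 - α) • (qb - x) + α • (qa - x) + (2 * p 2) • ua)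
    ((2 * (p 1 - p 2)) • ub)
  have t2 := norm_add_le ((1 - α) • (qb - x) + α • (qa - x)) ((2 * p 2) • ua)
  have t3 := norm_add_le ((1 - α) • (qb - x)) (α • (qa - x))
  linarith

theorem far_inf (P : Prim) {k : ℕ} (hk : k < P.N) {t : ℝ} (ht : P.a ≤ |t|) :
    dist ((P.σ k).pt t) (P.σ k).ptInf ≤ 1 / 100000 := by
  refine (dist_pt_inf _ P.ha ht).trans ?_
  rw [div_le_iff₀ P.ha]
  have := (P.hr k hk).2.2
  linarith

theorem far_neg (P : Prim) {k : ℕ} (hk : k < P.N) :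
    dist ((P.σ k).pt (-P.a)) (P.σ k).ptInf ≤ 1 / 100000 :=
  far_inf P hk (by rw [abs_neg]; exact le_abs_self _)

theorem near_b (P : Prim) {k : ℕ} (hk : k < P.N) {t : ℝ} (h1 : P.b k ≤ t) (h2 : t ≤ P.b k + P.η) :
    dist ((P.σ k).pt t) ((P.σ k).pt (P.b k)) ≤ 1 / 50000 := by
  refine (dist_pt_le _ _ _).trans (le_trans ?_ (P.hr k hk).2.1)
  have := (P.σ k).hr
  refine mul_le_mul_of_nonneg_left ?_ (by positivity)
  rw [abs_of_nonneg (by linarith)]
  linarith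

end DataA

open DataA in
/-- Paper, section 4: D1 to D6 give a design. -/
theorem design_of_prim (P : Prim) : Nonempty Design := by
  have hT : ∀ k, ∃ T : E3 ≃ᵃ[ℝ] E3, k + 1 < P.N → ∀ qa qb ua ub : E3, qa = (P.σ k).pt (P.b k) →
      qb = (P.σ (k + 1)).pt (-P.a) → ua = (P.σ k).pt (P.b k + P.η) - qa →
      ub = (P.σ (k + 1)).pt P.a - qb →
      (∀ p, T p = qb + ((ell p + 4) / 10) • (qa - qb) + (2 * p 2) • ua + (2 * (p 1 - p 2)) • ub) ∧
      ∀ q, ell (T.symm q) = 10 * (det3 (q - qb) ua ub / det3 (qa - qb) ua ub) - 4 := by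
    intro k
    by_cases hk : k + 1 < P.N
    · obtain ⟨T, h⟩ := exists_T _ _ _ _ (P.hslab k hk _ _ _ _ rfl rfl rfl rfl).1
      refine ⟨T, fun _ qa qb ua ub h1 h2 h3 h4 => ?_⟩
      subst h1 h2
      subst h3 h4
      exact h
    · exact ⟨AffineEquiv.refl ℝ E3, fun h => absurd h hk⟩
  choose T hT using hT
  have hη := P.hη
  have inL : ∀ k < P.N, (P.σ k).pt (-P.a) ∈ ball (P.x k) (1 / 500) := fun k hk =>
    mem_ball.2 ((P.hroot k hk).1.trans_lt (by norm_num))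
  have inR : ∀ k < P.N, (P.σ k).pt (P.b k) ∈ ball (P.x (k + 1)) (1 / 500) := fun k hk =>
    mem_ball.2 ((P.hroot k hk).2.trans_lt (by norm_num))
  refine ⟨{ N := P.N, hN := P.hN, σ := P.σ, a := P.a, b := P.b, b' := fun k => P.b k + P.η
            x := P.x, δ := 1 / 500, R := 10 ^ 7, hR := by norm_num, T := T
            hab := fun k hk => ⟨(P.hab k hk).1, by linarith, (P.hab k hk).2⟩
            hT := ?_, hbox := ?_, hslabR := ?_, hslabL := ?_, hdisc := ?_, hball := ?_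
            hballs := ?_, harcR := ?_, harcL := ?_, hhide := ?_ }⟩
  · intro k hk
    obtain ⟨h, -⟩ := hT k hk _ _ _ _ rfl rfl rfl rfl
    rw [mg_zero, mg_38, mf_zero, mf_38, h, h, h, h]
    refine ⟨?_, ?_, ?_, ?_⟩
    · have e1 : ell !₂[6, 0, 0] = 6 := by simp [ell]
      have e2 : (!₂[6, 0, 0] : E3) 1 = 0 := by simp
      have e3 : (!₂[6, 0, 0] : E3) 2 = 0 := by simp
      rw [e1, e2, e3]
      module
    · have e1 : ell (!₂[6, 0, 0] + dd) = 6 := by simp [ell, dd]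
      have e2 : (!₂[6, 0, 0] + dd : E3) 1 = 1 / 2 := by simp [dd]
      have e3 : (!₂[6, 0, 0] + dd : E3) 2 = 1 / 2 := by simp [dd]
      rw [e1, e2, e3]
      module
    · have e1 : ell !₂[-4, 0, 0] = -4 := by simp [ell]
      have e2 : (!₂[-4, 0, 0] : E3) 1 = 0 := by simp
      have e3 : (!₂[-4, 0, 0] : E3) 2 = 0 := by simp
      rw [e1, e2, e3]
      module
    · have e1 : ell (!₂[-4, 0, 0] + dd') = -4 := by simp [ell, dd']
      have e2 : (!₂[-4, 0, 0] + dd' : E3) 1 = 1 / 2 := by simp [dd']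
      have e3 : (!₂[-4, 0, 0] + dd' : E3) 2 = 0 := by simp [dd']
      rw [e1, e2, e3]
      module
  · intro k hk p hp
    obtain ⟨h, -⟩ := hT k hk _ _ _ _ rfl rfl rfl rfl
    rw [h]
    have hk' : k < P.N := by omega
    refine box_mem (P.hroot k hk').2 (P.hroot (k + 1) hk).1 ?_ ?_ hp
    · rw [← dist_eq_norm]
      exact near_b P hk' (by linarith) le_rfl
    · rw [← dist_eq_norm]
      have h1 := far_inf P hk (le_abs_self P.a)
      have h2 := far_neg P hk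
      have h3 := dist_triangle_right ((P.σ (k + 1)).pt P.a) ((P.σ (k + 1)).pt (-P.a))
        (P.σ (k + 1)).ptInf
      linarith
  · intro k hk t ht
    obtain ⟨-, h⟩ := hT k hk _ _ _ _ rfl rfl rfl rfl
    obtain ⟨h0, h1, -⟩ := P.hslab k hk _ _ _ _ rfl rfl rfl rfl
    rw [h]
    have := slabR (P.σ k) (b := P.b k) (b' := P.b k + P.η) (by linarith) (div_self h0) ?_ h1 ht
    · linarith
    · rw [div_eq_one_iff_eq h0]
      simp only [det3, PiLp.sub_apply]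
      ring
  · intro k hk t ht ht'
    obtain ⟨-, h⟩ := hT k hk _ _ _ _ rfl rfl rfl rfl
    obtain ⟨h0, -, h1⟩ := P.hslab k hk _ _ _ _ rfl rfl rfl rfl
    rw [h]
    have := slabL (P.σ (k + 1)) P.ha ?_ ?_ h1 ht ht'
    · linarith
    · rw [div_eq_zero_iff]
      left
      simp only [det3, PiLp.sub_apply]
      ring
    · rw [div_eq_zero_iff]
      left
      simp only [det3, PiLp.sub_apply]
      ring
  · intro k hk l hl hkl
    rcases lt_or_gt_of_ne hkl with h | h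
    · obtain ⟨m, lam, h1, h2, h3, h4⟩ := P.hsep k l h hl
      exact disc_disjoint h1 h2 h3 h4
    · obtain ⟨m, lam, h1, h2, h3, h4⟩ := P.hsep l k h hk
      exact (disc_disjoint h1 h2 h3 h4).symm
  · intro j h0 hj k hk h1 h2
    exact ball_disc _ (P.hball j h0 hj k hk h1 h2)
  · intro i j h0 hij hj
    refine ball_disjoint_ball ?_
    have := P.hballs i j h0 hij hj
    linarith
  · intro k hk t ht
    have h1 := near_b P hk ht.1 ht.2
    have h2 := (P.hroot k hk).2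
    have h3 := dist_triangle ((P.σ k).pt t) ((P.σ k).pt (P.b k)) (P.x (k + 1))
    rw [mem_ball]
    linarith
  · intro k hk
    have h1 := far_neg P hk
    have h2 := (P.hroot k hk).1
    have h3 := dist_triangle_left (P.σ k).ptInf (P.x k) ((P.σ k).pt (-P.a))
    refine ⟨mem_ball.2 (by linarith), fun t ht => ?_⟩
    have h4 := far_inf P hk ht
    have h5 := dist_triangle ((P.σ k).pt t) (P.σ k).ptInf (P.x k)
    rw [mem_ball]
    linarith
  · intro j hj τ hτ hd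
    obtain ⟨p, hp, hpx⟩ := Set.not_disjoint_iff.1 hd
    obtain ⟨v, -, hv⟩ := hide τ (P.x j) p hτ hp hpx
    obtain ⟨k, hk, hm⟩ := P.hm j hj v
    obtain ⟨h1, h2⟩ := hv (P.σ k) (P.hr k hk).1 (P.hS j hj k hk) hm
    exact ⟨k, hk, h2 _ _ ((P.σ k).pt_mem _) (inL k hk), h2 _ _ ((P.σ k).pt_mem _) (inR k hk), h1⟩

end Pool.Agent.P.MP_c51580_gt
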