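import Pool.Agent.P.MP_c51580_gt.Defs

namespace Pool.Agent.P.MP_c51580_gt

open Set Metric Filter Topology
open scoped RealInnerProductSpace

namespace DataB

/-- Rational vectors. -/
structure V where
  x : ℚ
  y : ℚ
  z : ℚ

def vadd (a b : V) : V := ⟨a.x + b.x, a.y + b.y, a.z + b.z⟩

def vsub (a b : V) : V := ⟨a.x - b.x, a.y - b.y, a.z - b.z⟩

def vsc (s : ℚ) (a : V) : V := ⟨s * a.x, s * a.y, s * a.z⟩

def dot (a b : V) : ℚ := a.x * b.x + a.y * b.y + a.z * b.z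

def det (u v w : V) : ℚ :=
  u.x * (v.y * w.z - v.z * w.y) - u.y * (v.x * w.z - v.z * w.x) + u.z * (v.x * w.y - v.y * w.x)

def d2 (a b : V) : ℚ := dot (vsub a b) (vsub a b)

noncomputable def toR (a : V) : E3 := !₂[(a.x : ℝ), (a.y : ℝ), (a.z : ℝ)]

@[simp] theorem toR_zero (a : V) : toR a 0 = a.x := rfl

@[simp] theorem toR_one (a : V) : toR a 1 = a.y := rfl

@[simp] theorem toR_two (a : V) : toR a 2 = a.z := rfl

theorem ext3 {p q : E3} (h0 : p 0 = q 0) (h1 : p 1 = q 1) (h2 : p 2 = q 2) : p = q := by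
  ext i
  fin_cases i
  · exact h0
  · exact h1
  · exact h2

theorem toR_add (a b : V) : toR a + toR b = toR (vadd a b) := by
  apply ext3 <;> simp [vadd]

theorem toR_sub (a b : V) : toR a - toR b = toR (vsub a b) := by
  apply ext3 <;> simp [vsub]

theorem toR_sc (s : ℚ) (a : V) : (s : ℝ) • toR a = toR (vsc s a) := by
  apply ext3 <;> simp [vsc]

theorem inner3 (p q : E3) : ⟪p, q⟫ = p 0 * q 0 + p 1 * q 1 + p 2 * q 2 := by
  simp only [PiLp.inner_apply, Fin.sum_univ_three, RCLike.inner_apply, conj_trivial]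
  ring

theorem normsq3 (p : E3) : ‖p‖ ^ 2 = p 0 ^ 2 + p 1 ^ 2 + p 2 ^ 2 := by
  rw [← real_inner_self_eq_norm_sq, inner3]
  ring

theorem inner_toR (a b : V) : ⟪toR a, toR b⟫ = (dot a b : ℝ) := by
  rw [inner3]
  simp [dot]

theorem normsq_toR (a : V) : ‖toR a‖ ^ 2 = (dot a a : ℝ) := by
  rw [← real_inner_self_eq_norm_sq, inner_toR]

theorem det3_toR (u v w : V) : det3 (toR u) (toR v) (toR w) = (det u v w : ℝ) := by
  simp [det3, det]

theorem norm_toR_le (a : V) (e : ℚ) (he : 0 ≤ e) (h : dot a a ≤ e * e) : ‖toR a‖ ≤ (e : ℝ) := by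
  have he' : (0 : ℝ) ≤ e := by exact_mod_cast he
  have h' : (dot a a : ℝ) ≤ (e : ℝ) * e := by exact_mod_cast h
  refine (abs_le_of_sq_le_sq' ?_ he').2
  rw [normsq_toR]
  linarith [sq (e : ℝ)]

theorem dist_toR_le (a b : V) (e : ℚ) (he : 0 ≤ e) (h : d2 a b ≤ e * e) :
    dist (toR a) (toR b) ≤ (e : ℝ) := by
  rw [dist_eq_norm, toR_sub]
  exact norm_toR_le _ e he h

theorem lt_dist_toR (a b : V) (e : ℚ) (h : e * e < d2 a b) :
    (e : ℝ) < dist (toR a) (toR b) := by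
  rw [dist_eq_norm, toR_sub]
  have h' : (e : ℝ) * e < (dot (vsub a b) (vsub a b) : ℝ) := by exact_mod_cast h
  apply lt_of_pow_lt_pow_left₀ 2 (norm_nonneg _)
  rw [normsq_toR]
  linarith [sq (e : ℝ)]

/-- Rational data of a plate. -/
structure Plate where
  c : V
  r : ℚ
  e1 : V
  e2 : V
  n : V
  b : ℚ

def Plate.ok (P : Plate) : Prop :=
  0 < P.r ∧ dot P.e1 P.e1 = 1 ∧ dot P.e2 P.e2 = 1 ∧ dot P.n P.n = 1 ∧ dot P.e1 P.e2 = 0 ∧
    dot P.e1 P.n = 0 ∧ dot P.e2 P.n = 0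

instance (P : Plate) : Decidable P.ok := by
  unfold Plate.ok
  infer_instance

noncomputable def Plate.lin (P : Plate) : E3 →ₗ[ℝ] E3 where
  toFun p := p 0 • toR P.e1 + p 1 • toR P.e2 + p 2 • toR P.n
  map_add' p q := by
    simp only [PiLp.add_apply, add_smul]
    abel
  map_smul' s p := by
    simp only [PiLp.smul_apply, smul_eq_mul, mul_smul, RingHom.id_apply, smul_add]

theorem Plate.lin_apply (P : Plate) (p : E3) :
    P.lin p = p 0 • toR P.e1 + p 1 • toR P.e2 + p 2 • toR P.n := rfl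

theorem Plate.norm_lin (P : Plate) (h : P.ok) (p : E3) : ‖P.lin p‖ = ‖p‖ := by
  obtain ⟨-, h1, h2, h3, h4, h5, h6⟩ := h
  have g1 : (dot P.e1 P.e1 : ℝ) = 1 := by exact_mod_cast h1
  have g2 : (dot P.e2 P.e2 : ℝ) = 1 := by exact_mod_cast h2
  have g3 : (dot P.n P.n : ℝ) = 1 := by exact_mod_cast h3
  have g4 : (dot P.e1 P.e2 : ℝ) = 0 := by exact_mod_cast h4
  have g5 : (dot P.e1 P.n : ℝ) = 0 := by exact_mod_cast h5
  have g6 : (dot P.e2 P.n : ℝ) = 0 := by exact_mod_cast h6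
  simp only [dot, Rat.cast_add, Rat.cast_mul] at g1 g2 g3 g4 g5 g6
  apply (pow_left_inj₀ (norm_nonneg _) (norm_nonneg _) two_ne_zero).1
  rw [normsq3, normsq3, Plate.lin_apply]
  simp only [PiLp.add_apply, PiLp.smul_apply, smul_eq_mul, toR_zero, toR_one, toR_two]
  linear_combination p 0 ^ 2 * g1 + p 1 ^ 2 * g2 + p 2 ^ 2 * g3 + 2 * p 0 * p 1 * g4 +
    2 * p 0 * p 2 * g5 + 2 * p 1 * p 2 * g6

noncomputable def Plate.sim (P : Plate) (h : P.ok) : Sim where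
  c := toR P.c
  r := P.r
  hr := by exact_mod_cast h.1
  L := LinearIsometry.toLinearIsometryEquiv ⟨P.lin, P.norm_lin h⟩ rfl

theorem Plate.sim_L (P : Plate) (h : P.ok) (u v w : ℝ) :
    (P.sim h).L !₂[u, v, w] = u • toR P.e1 + v • toR P.e2 + w • toR P.n := rfl

theorem Plate.sim_c (P : Plate) (h : P.ok) : (P.sim h).c = toR P.c := rfl

theorem Plate.sim_r (P : Plate) (h : P.ok) : (P.sim h).r = P.r := rfl

theorem Plate.sim_e1 (P : Plate) (h : P.ok) : (P.sim h).L !₂[1, 0, 0] = toR P.e1 := by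
  rw [Plate.sim_L]
  simp

theorem Plate.sim_e2 (P : Plate) (h : P.ok) : (P.sim h).L !₂[0, 1, 0] = toR P.e2 := by
  rw [Plate.sim_L]
  simp

theorem Plate.sim_nrm (P : Plate) (h : P.ok) : (P.sim h).nrm = toR P.n := by
  rw [Sim.nrm, Plate.sim_L]
  simp

def Plate.pt (P : Plate) (t : ℚ) : V :=
  vadd P.c (vsc P.r (vadd (vsc ((1 - t * t) / (1 + t * t)) P.e1) (vsc (2 * t / (1 + t * t)) P.e2)))

def Plate.ptInf (P : Plate) : V := vsub P.c (vsc P.r P.e1)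

theorem Plate.sim_pt (P : Plate) (h : P.ok) (t : ℚ) :
    (P.sim h).pt (t : ℝ) = toR (P.pt t) := by
  rw [Sim.pt, Sim.map, Plate.sim_L, Plate.sim_c, Plate.sim_r, Plate.pt, ← toR_add, ← toR_sc,
    ← toR_add, ← toR_sc, ← toR_sc]
  simp [sq]

theorem Plate.sim_ptInf (P : Plate) (h : P.ok) : (P.sim h).ptInf = toR P.ptInf := by
  rw [Sim.ptInf, Sim.map, Plate.sim_L, Plate.sim_c, Plate.sim_r, Plate.ptInf, ← toR_sub, ← toR_sc]
  simp [sub_eq_add_neg]

/-! ### The data -/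

def M (p : V) : V := ⟨-p.y, -p.z, -p.x⟩

def Mk : ℕ → V → V
  | 0, p => p
  | k + 1, p => Mk k (M p)

def base0 : Plate where
  c := ⟨-10756187 / 1000000, 13647081 / 1000000, 234891 / 40000⟩
  r := 3457883 / 200000
  e1 := ⟨-642879215625 / 999999808379, 729679167946 / 999999808379, 232968329910 / 999999808379⟩
  e2 := ⟨-765715494410 / 999999808379, -620019542535 / 999999808379,
    -171041413854 / 999999808379⟩
  n := ⟨19639564554 / 999999808379, -288346485150 / 999999808379, 957324505465 / 999999808379⟩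
  b := 1103909 / 50000

def base1 : Plate where
  c := ⟨-2038607 / 1000000, 11509 / 50000, -199743 / 500000⟩
  r := 1152999 / 500000
  e1 := ⟨-500939851547 / 1000000841823, 50602413706 / 1000000841823,
    -864002514178 / 1000000841823⟩
  e2 := ⟨309206825822 / 1000000841823, -921942283093 / 1000000841823,
    -233270763614 / 1000000841823⟩
  n := ⟨-808363833706 / 1000000841823, -384009773338 / 1000000841823,
    446190643093 / 1000000841823⟩
  b := 1332521 / 1000000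

def Plate.turn (P : Plate) (k : ℕ) : Plate :=
  ⟨Mk k P.c, P.r, Mk k P.e1, Mk k P.e2, Mk k P.n, P.b⟩

def pl (k : ℕ) : Plate := (if k % 2 = 0 then base0 else base1).turn (k % 12 / 2)

def xs (j : ℕ) : V :=
  Mk (j / 2) (if j % 2 = 0 then ⟨449 / 1250, 10309 / 10000, 18443 / 10000⟩
    else ⟨-8831 / 10000, 227 / 2000, 7967 / 5000⟩)

theorem ok_lt : ∀ k < 12, (pl k).ok := by decide +kernel

theorem pl_ok (k : ℕ) : (pl k).ok := by
  have h : pl k = pl (k % 12) := by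
    have h2 : k % 12 % 2 = k % 2 := by omega
    simp only [pl, h2, Nat.mod_mod]
  rw [h]
  exact ok_lt _ (Nat.mod_lt _ (by norm_num))

noncomputable def sm (k : ℕ) : Sim := (pl k).sim (pl_ok k)

def aq : ℚ := 10000000

def etq : ℚ := 1 / 10000000

theorem c_ab : ∀ k < 12, -aq < (pl k).b ∧ (pl k).b + etq < aq := by decide +kernel

theorem c_r : ∀ k < 12, (pl k).r ≤ 25 ∧ 2 * (pl k).r * etq ≤ 1 / 50000 ∧
    4 * (pl k).r ≤ aq / 50000 := by decide +kernel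

theorem c_root : ∀ k < 12, d2 ((pl k).pt (-aq)) (xs k) ≤ 1 / 1000 * (1 / 1000) ∧
    d2 ((pl k).pt (pl k).b) (xs (k + 1)) ≤ 1 / 1000 * (1 / 1000) := by decide +kernel

def slab (P Q : Plate) (w : V) : ℚ :=
  det (vsub w (Q.pt (-aq))) (vsub (P.pt (P.b + etq)) (P.pt P.b)) (vsub (Q.pt aq) (Q.pt (-aq)))

theorem c_slab : ∀ k < 11, slab (pl k) (pl (k + 1)) ((pl k).pt (pl k).b) ≠ 0 ∧
    1 < slab (pl k) (pl (k + 1)) (pl k).ptInf / slab (pl k) (pl (k + 1)) ((pl k).pt (pl k).b) ∧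
    slab (pl k) (pl (k + 1)) ((pl (k + 1)).pt 0) /
      slab (pl k) (pl (k + 1)) ((pl k).pt (pl k).b) < 0 := by decide +kernel

def sep0 : List (V × ℚ) :=
  [(⟨1, 25, -97⟩, -15257 / 100), (⟨3, -10, 0⟩, 9), (⟨29, -53, 80⟩, 106), (⟨6, -7, 5⟩, 9),
   (⟨4, -8, -4⟩, 2), (⟨3, -2, -9⟩, 0), (⟨6, -4, -7⟩, -11), (⟨7, -5, -6⟩, -9), (⟨0, 3, -10⟩, -3),
   (⟨0, 3, -10⟩, -9), (⟨24, -3, -97⟩, -3467 / 20)]

def sep1 : List (V × ℚ) :=
  [(⟨-3, -97, 24⟩, 3467 / 20), (⟨4, -4, 8⟩, 11), (⟨10, 0, -3⟩, 3), (⟨45, -81, -38⟩, 134),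
   (⟨6, -4, -7⟩, 11), (⟨8, 4, -4⟩, 0), (⟨8, 4, -4⟩, -2), (⟨81, 38, -45⟩, -134),
   (⟨80, 29, -53⟩, -106), (⟨8, 4, -4⟩, -11)]

def sepD (k l : ℕ) : V × ℚ :=
  (if k % 2 = 0 then sep0 else sep1).getD (l - k - 1) (⟨0, 0, 0⟩, 0)

def sepM (k l : ℕ) : V := Mk (k / 2) (sepD k l).1

def sepL (k l : ℕ) : ℚ := (sepD k l).2

theorem c_sep : ∀ l < 12, ∀ k < l, dot (sepM k l) (pl k).c < sepL k l ∧
    sepL k l < dot (sepM k l) (pl l).c ∧
    (pl k).r ^ 2 * (dot (sepM k l) (pl k).e1 ^ 2 + dot (sepM k l) (pl k).e2 ^ 2) <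
      (sepL k l - dot (sepM k l) (pl k).c) ^ 2 ∧
    (pl l).r ^ 2 * (dot (sepM k l) (pl l).e1 ^ 2 + dot (sepM k l) (pl l).e2 ^ 2) <
      (dot (sepM k l) (pl l).c - sepL k l) ^ 2 := by decide +kernel

theorem c_ball : ∀ j < 12, ∀ k < 12, (j = 0 ∨ k = j ∨ k + 1 = j) ∨
    (1 / 500) ^ 2 < dot (vsub (xs j) (pl k).c) (pl k).n ^ 2 ∨
    ((pl k).r + 1 / 500) ^ 2 < d2 (xs j) (pl k).c - dot (vsub (xs j) (pl k).c) (pl k).n ^ 2 := by
  decide +kernel

theorem c_balls : ∀ j < 12, ∀ i < j, 1 / 250 * (1 / 250) < d2 (xs i) (xs j) := by decide +kernel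

theorem c_S : ∀ j < 13, ∀ k < 12, d2 (xs j) (pl k).c ≤ 25 * 25 := by decide +kernel

/-! ### Covering all directions -/

/-- The margin condition with a sign. -/
def SM (σ : Sim) (x : E3) (s : ℝ) (v : E3) : Prop :=
  1 / 50 * ‖v‖ + ‖⟪v, σ.nrm⟫ • (x - σ.c) + ⟪σ.c - x, σ.nrm⟫ • v‖ ≤ s * σ.r * ⟪v, σ.nrm⟫

theorem SM.add {σ : Sim} {x : E3} {s : ℝ} {v w : E3} (hv : SM σ x s v) (hw : SM σ x s w) :
    SM σ x s (v + w) := by
  unfold SM at *
  have e : ⟪v + w, σ.nrm⟫ • (x - σ.c) + ⟪σ.c - x, σ.nrm⟫ • (v + w) =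
      (⟪v, σ.nrm⟫ • (x - σ.c) + ⟪σ.c - x, σ.nrm⟫ • v) +
        (⟪w, σ.nrm⟫ • (x - σ.c) + ⟪σ.c - x, σ.nrm⟫ • w) := by
    rw [inner_add_left, add_smul, smul_add]
    abel
  rw [e, inner_add_left]
  have h1 := norm_add_le v w
  have h2 := norm_add_le (⟪v, σ.nrm⟫ • (x - σ.c) + ⟪σ.c - x, σ.nrm⟫ • v)
    (⟪w, σ.nrm⟫ • (x - σ.c) + ⟪σ.c - x, σ.nrm⟫ • w)
  linarith

theorem SM.smul {σ : Sim} {x : E3} {s : ℝ} {v : E3} (hv : SM σ x s v) {t : ℝ} (ht : 0 ≤ t) :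
    SM σ x s (t • v) := by
  unfold SM at *
  have e : ⟪t • v, σ.nrm⟫ • (x - σ.c) + ⟪σ.c - x, σ.nrm⟫ • (t • v) =
      t • (⟪v, σ.nrm⟫ • (x - σ.c) + ⟪σ.c - x, σ.nrm⟫ • v) := by
    rw [real_inner_smul_left, mul_smul, smul_add, smul_comm _ t v]
  rw [e, real_inner_smul_left, norm_smul, norm_smul, Real.norm_of_nonneg ht]
  have := mul_le_mul_of_nonneg_left hv ht
  linarith

theorem SM.margin {σ : Sim} {x : E3} {s : ℝ} {v : E3} (hv : SM σ x s v) (hs : s = 1 ∨ s = -1) :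
    Margin σ x v (1 / 50) := by
  unfold SM at hv
  unfold Margin
  refine hv.trans ?_
  have hr := σ.hr
  rcases hs with rfl | rfl
  · rw [one_mul]
    exact mul_le_mul_of_nonneg_left (le_abs_self _) hr.le
  · have := mul_le_mul_of_nonneg_left (neg_le_abs ⟪v, σ.nrm⟫) hr.le
    linarith

theorem margin_neg {σ : Sim} {x v : E3} {μ : ℝ} (h : Margin σ x (-v) μ) : Margin σ x v μ := by
  unfold Margin at *
  have e : ⟪-v, σ.nrm⟫ • (x - σ.c) + ⟪σ.c - x, σ.nrm⟫ • (-v) =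
      -(⟪v, σ.nrm⟫ • (x - σ.c) + ⟪σ.c - x, σ.nrm⟫ • v) := by
    rw [inner_neg_left, neg_smul, smul_neg, neg_add]
  rwa [e, norm_neg, norm_neg, inner_neg_left, abs_neg] at h

def l1 (w : V) : ℚ := |w.x| + |w.y| + |w.z|

theorem norm_le_l1 (w : V) : ‖toR w‖ ≤ (l1 w : ℝ) := by
  have hx := abs_nonneg w.x
  have hy := abs_nonneg w.y
  have hz := abs_nonneg w.z
  apply norm_toR_le
  · unfold l1
    linarith
  · unfold l1 dot
    have ex := abs_mul_abs_self w.x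
    have ey := abs_mul_abs_self w.y
    have ez := abs_mul_abs_self w.z
    nlinarith [mul_nonneg hx hy, mul_nonneg hx hz, mul_nonneg hy hz]

def vy (P : Plate) (x w : V) : V :=
  vadd (vsc (dot w P.n) (vsub x P.c)) (vsc (dot (vsub P.c x) P.n) w)

def vm (P : Plate) (s : ℚ) (w : V) : ℚ := s * P.r * dot w P.n - 1 / 50 * l1 w

def vchk (P : Plate) (x : V) (s : ℚ) (w : V) : Bool :=
  decide (0 ≤ vm P s w) && decide (dot (vy P x w) (vy P x w) ≤ vm P s w * vm P s w)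

theorem vchk_sound (P : Plate) (h : P.ok) (x : V) (s : ℚ) (w : V) (hc : vchk P x s w = true) :
    SM (P.sim h) (toR x) s (toR w) := by
  simp only [vchk, Bool.and_eq_true, decide_eq_true_eq] at hc
  have h1 := norm_toR_le _ _ hc.1 hc.2
  have h2 := norm_le_l1 w
  unfold SM
  rw [Plate.sim_nrm, Plate.sim_c, Plate.sim_r, toR_sub, toR_sub, inner_toR, inner_toR, toR_sc,
    toR_sc, toR_add]
  have e : (vm P s w : ℝ) = s * P.r * (dot w P.n : ℝ) - 1 / 50 * (l1 w : ℝ) := by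
    simp [vm]
  rw [e] at h1
  unfold vy at h1
  linarith

/-- Subdivision certificates. -/
inductive T where
  | l : ℕ → T
  | s : T → T → T
  | r : T → T

def sgn (P : Plate) (a : V) : ℚ := if 0 ≤ dot a P.n then 1 else -1

def mid (a b : V) : V := vsc (1 / 2) (vadd a b)

def tchk (x : V) : T → V → V → V → Bool
  | .l k, a, b, c => decide (k < 12) && vchk (pl k) x (sgn (pl k) a) a &&
      vchk (pl k) x (sgn (pl k) a) b && vchk (pl k) x (sgn (pl k) a) c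
  | .s t u, a, b, c => tchk x t a (mid a b) c && tchk x u (mid a b) b c
  | .r t, a, b, c => tchk x t b c a

theorem tchk_sound (x : V) (t : T) : ∀ a b c : V, tchk x t a b c = true → ∀ α β γ : ℝ, 0 ≤ α →
    0 ≤ β → 0 ≤ γ → ∃ k < 12,
      Margin (sm k) (toR x) (α • toR a + β • toR b + γ • toR c) (1 / 50) := by
  induction t with
  | l k =>
    intro a b c h α β γ hα hβ hγ
    simp only [tchk, Bool.and_eq_true, decide_eq_true_eq] at h
    obtain ⟨⟨⟨hk, ha⟩, hb⟩, hc⟩ := h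
    refine ⟨k, hk, ?_⟩
    have ha' := (vchk_sound _ (pl_ok k) _ _ _ ha).smul hα
    have hb' := (vchk_sound _ (pl_ok k) _ _ _ hb).smul hβ
    have hc' := (vchk_sound _ (pl_ok k) _ _ _ hc).smul hγ
    refine ((ha'.add hb').add hc').margin ?_
    unfold sgn
    split_ifs <;> simp
  | s t u iht ihu =>
    intro a b c h α β γ hα hβ hγ
    simp only [tchk, Bool.and_eq_true] at h
    have hm : toR (mid a b) = (1 / 2 : ℝ) • (toR a + toR b) := by
      rw [mid, ← toR_sc, ← toR_add]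
      norm_num
    rcases le_total β α with hle | hle
    · have := iht _ _ _ h.1 (α - β) (2 * β) γ (by linarith) (by linarith) hγ
      have e : (α - β) • toR a + (2 * β) • toR (mid a b) + γ • toR c =
          α • toR a + β • toR b + γ • toR c := by
        rw [hm]
        module
      rwa [e] at this
    · have := ihu _ _ _ h.2 (2 * α) (β - α) γ (by linarith) (by linarith) hγ
      have e : (2 * α) • toR (mid a b) + (β - α) • toR b + γ • toR c =
          α • toR a + β • toR b + γ • toR c := by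
        rw [hm]
        module
      rwa [e] at this
  | r t ih =>
    intro a b c h α β γ hα hβ hγ
    simp only [tchk] at h
    have := ih _ _ _ h β γ α hβ hγ hα
    have e : β • toR b + γ • toR c + α • toR a = α • toR a + β • toR b + γ • toR c := by abel
    rwa [e] at this

def ochk (x : V) (t : T × T × T × T) : Bool :=
  tchk x t.1 ⟨1, 0, 0⟩ ⟨0, 1, 0⟩ ⟨0, 0, 1⟩ && tchk x t.2.1 ⟨1, 0, 0⟩ ⟨0, -1, 0⟩ ⟨0, 0, 1⟩ &&
    tchk x t.2.2.1 ⟨-1, 0, 0⟩ ⟨0, 1, 0⟩ ⟨0, 0, 1⟩ && tchk x t.2.2.2 ⟨-1, 0, 0⟩ ⟨0, -1, 0⟩ ⟨0, 0, 1⟩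

theorem ochk_up (x : V) (t : T × T × T × T) (h : ochk x t = true) (v : E3) (hv : 0 ≤ v 2) :
    ∃ k < 12, Margin (sm k) (toR x) v (1 / 50) := by
  simp only [ochk, Bool.and_eq_true] at h
  obtain ⟨⟨⟨h1, h2⟩, h3⟩, h4⟩ := h
  rcases le_total 0 (v 0) with hx | hx <;> rcases le_total 0 (v 1) with hy | hy
  · have := tchk_sound x _ _ _ _ h1 (v 0) (v 1) (v 2) hx hy hv
    convert this using 4
    apply ext3 <;> simp
  · have := tchk_sound x _ _ _ _ h2 (v 0) (-v 1) (v 2) hx (by linarith) hv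
    convert this using 4
    apply ext3 <;> simp
  · have := tchk_sound x _ _ _ _ h3 (-v 0) (v 1) (v 2) (by linarith) hy hv
    convert this using 4
    apply ext3 <;> simp
  · have := tchk_sound x _ _ _ _ h4 (-v 0) (-v 1) (v 2) (by linarith) (by linarith) hv
    convert this using 4
    apply ext3 <;> simp

theorem ochk_sound (x : V) (t : T × T × T × T) (h : ochk x t = true) (v : E3) :
    ∃ k < 12, Margin (sm k) (toR x) v (1 / 50) := by
  rcases le_total 0 (v 2) with hv | hv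
  · exact ochk_up x t h v hv
  · obtain ⟨k, hk, hm⟩ := ochk_up x t h (-v) (by simpa using hv)
    exact ⟨k, hk, margin_neg hm⟩

open T in
def tr0 : T × T × T × T :=
  (r (s (r (r (s (r (r (s (r (r (s (l 2) (r (s (l 5) (l 1)))))) (r (s (l 3) (r (s (r (r (s (r (r
  (s (l 2) (r (s (l 3) (l 2)))))) (l 2)))) (l 3)))))))) (r (r (s (l 5) (l 2))))))) (l 3)), l 3, r
  (r (s (r (r (s (r (r (s (l 6) (l 5)))) (l 3)))) (r (r (s (l 3) (r (r (s (l 7) (r (s (r (r (s (l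
  7) (l 6)))) (l 7))))))))))), r (s (r (r (s (r (r (s (l 2) (r (s (r (r (s (r (r (s (r (r (s (l 7)
  (r (s (s (l 3) (l 7)) (l 7)))))) (l 7)))) (l 3)))) (s (r (r (s (l 2) (r (s (l 8) (l 2)))))) (l
  2))))))) (l 2)))) (r (r (s (r (r (s (l 3) (l 7)))) (l 3))))))

open T in
def tr1 : T × T × T × T :=
  (r (s (r (r (s (r (r (s (s (r (r (s (l 2) (s (l 2) (l 3))))) (l 2)) (r (s (l 3) (s (r (s (r (s
  (l 2) (r (s (l 7) (l 2))))) (l 3))) (l 2))))))) (r (s (l 2) (r (s (s (l 5) (l 2)) (l 2))))))))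
  (l 3)), l 3, r (s (r (s (l 5) (r (s (l 4) (l 5))))) (r (s (l 3) (r (s (l 7) (l 6)))))), r (r (s
  (l 3) (r (r (s (r (r (s (r (r (s (l 2) (r (s (l 7) (s (s (l 7) (l 2)) (l 2))))))) (l 2)))) (r (r
  (s (l 7) (r (s (l 2) (l 7))))))))))))

open T in
def tr2 : T × T × T × T :=
  (s (r (r (s (r (r (s (r (r (s (l 4) (r (s (l 7) (l 3)))))) (r (s (l 5) (r (s (r (s (l 4) (r (s
  (s (l 5) (l 4)) (l 4))))) (l 5)))))))) (r (r (s (l 7) (l 4))))))) (l 5), r (s (l 5) (r (s (r (s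
  (r (r (s (r (r (s (r (r (s (s (r (r (s (l 9) (r (s (l 5) (l 9)))))) (l 9)) (l 9)))) (l 5)))) (r
  (r (s (l 4) (r (s (s (l 10) (l 4)) (l 4))))))))) (l 9))) (r (s (l 4) (r (s (l 5) (l 4)))))))), l
  5, s (r (r (s (r (r (s (r (r (s (l 5) (l 8)))) (l 5)))) (r (r (s (l 7) (l 5))))))) (r (s (l 5)
  (r (s (l 9) (l 8))))))

open T in
def tr3 : T × T × T × T :=
  (s (r (s (r (s (r (r (s (r (r (s (l 4) (r (s (l 7) (l 4)))))) (l 4)))) (r (s (l 4) (r (s (l 7)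
  (l 4))))))) (r (s (s (l 5) (r (r (s (l 4) (r (s (r (r (s (l 10) (r (s (l 9) (l 10)))))) (l
  4))))))) (l 4))))) (l 5), r (s (l 5) (r (r (s (r (r (s (r (r (s (l 4) (r (s (l 9) (s (s (l 9) (l
  4)) (l 4))))))) (l 4)))) (r (r (s (l 9) (r (s (l 4) (l 9)))))))))), l 5, s (r (s (l 7) (r (s (l
  6) (l 7))))) (r (s (l 5) (r (s (l 9) (l 8))))))

open T in
def tr4 : T × T × T × T :=
  (r (r (s (r (r (s (r (r (s (r (r (s (l 6) (r (s (l 9) (l 5)))))) (r (s (l 7) (s (r (s (r (s (l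
  6) (r (s (l 0) (l 6))))) (l 7))) (l 6))))))) (r (r (s (l 9) (l 6))))))) (l 7))), r (r (s (r (r
  (s (r (r (s (r (r (s (l 7) (l 10)))) (l 7)))) (r (r (s (l 9) (l 7))))))) (r (s (l 7) (r (s (l
  11) (l 10))))))), r (r (s (r (r (s (r (r (s (l 6) (r (s (r (r (s (r (r (s (r (r (s (l 11) (r (s
  (s (l 7) (l 11)) (l 11)))))) (l 11)))) (l 7)))) (s (r (r (s (l 6) (r (s (l 0) (l 6)))))) (l
  6))))))) (l 6)))) (r (r (s (r (r (s (l 7) (l 11)))) (l 7)))))), l 7)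

open T in
def tr5 : T × T × T × T :=
  (r (r (s (r (r (s (r (r (s (s (r (r (s (l 6) (s (l 6) (l 7))))) (l 6)) (r (s (l 7) (s (r (r (s
  (l 6) (r (s (r (r (s (l 0) (l 11)))) (l 0)))))) (l 6))))))) (r (r (s (r (r (s (l 6) (r (s (l 9)
  (l 6)))))) (l 6))))))) (l 7))), r (r (s (r (r (s (r (r (s (l 9) (l 8)))) (l 9)))) (r (s (l 7) (r
  (s (l 11) (l 10))))))), s (l 7) (r (r (s (r (r (s (r (r (s (l 6) (r (s (l 11) (s (s (l 11) (l
  0)) (l 6))))))) (l 6)))) (r (r (s (l 11) (r (s (l 6) (l 11))))))))), l 7)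

open T in
def tr6 : T × T × T × T :=
  (r (s (r (r (s (r (r (s (r (r (s (l 8) (r (s (l 11) (l 7)))))) (r (s (l 9) (r (s (r (r (s (r (r
  (s (l 8) (r (s (l 2) (l 8)))))) (l 8)))) (l 9)))))))) (r (r (s (l 11) (l 8))))))) (l 9)), l 9, r
  (r (s (r (r (s (r (r (s (l 0) (l 11)))) (l 9)))) (r (r (s (l 9) (r (r (s (l 1) (r (s (r (r (s (l
  1) (l 0)))) (l 1))))))))))), r (s (r (r (s (r (r (s (l 8) (r (s (r (r (s (r (r (s (r (r (s (l 1)
  (r (s (s (l 9) (l 1)) (l 1)))))) (l 1)))) (l 9)))) (s (r (r (s (l 8) (r (s (l 2) (l 8)))))) (l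
  8))))))) (l 8)))) (r (r (s (r (r (s (l 9) (l 1)))) (l 9))))))

open T in
def tr7 : T × T × T × T :=
  (r (s (r (r (s (r (r (s (s (r (r (s (l 8) (s (l 8) (l 9))))) (l 8)) (r (s (l 9) (s (r (s (r (s
  (l 2) (r (s (l 1) (l 2))))) (l 9))) (l 8))))))) (r (s (l 8) (r (s (s (l 11) (l 8)) (l 8))))))))
  (l 9)), l 9, r (s (r (s (l 11) (r (s (l 10) (l 11))))) (r (s (l 9) (r (s (l 1) (l 0)))))), r (r
  (s (l 9) (r (r (s (r (r (s (r (r (s (l 8) (r (s (l 1) (s (s (l 1) (l 2)) (l 8))))))) (l 8)))) (r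
  (r (s (l 1) (r (s (l 8) (l 1))))))))))))

open T in
def tr8 : T × T × T × T :=
  (s (r (r (s (r (r (s (r (r (s (l 10) (r (s (l 1) (l 9)))))) (r (s (l 11) (r (s (r (s (l 10) (r
  (s (s (l 4) (l 10)) (l 10))))) (l 11)))))))) (r (r (s (l 1) (l 10))))))) (l 11), r (s (l 11) (r
  (s (r (s (r (r (s (r (r (s (r (r (s (s (r (r (s (l 3) (r (s (l 11) (l 3)))))) (l 3)) (l 3)))) (l
  11)))) (r (r (s (l 10) (r (s (s (l 4) (l 10)) (l 10))))))))) (l 3))) (r (s (l 10) (r (s (l 11)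
  (l 10)))))))), l 11, s (r (r (s (r (r (s (r (r (s (l 0) (l 2)))) (l 0)))) (r (r (s (l 1) (l
  11))))))) (r (s (l 11) (r (s (l 3) (l 2))))))

open T in
def tr9 : T × T × T × T :=
  (s (r (s (r (s (r (r (s (r (r (s (l 10) (r (s (l 1) (l 10)))))) (l 10)))) (r (s (l 10) (r (s (l
  1) (l 10))))))) (r (s (s (l 11) (r (r (s (l 10) (r (s (r (r (s (l 4) (r (s (l 3) (l 4)))))) (l
  10))))))) (l 10))))) (l 11), r (s (l 11) (r (r (s (r (r (s (r (r (s (l 10) (r (s (l 3) (s (s (l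
  3) (l 4)) (l 10))))))) (l 10)))) (r (r (s (l 3) (r (s (l 10) (l 3)))))))))), l 11, s (r (s (l 1)
  (r (s (l 0) (l 1))))) (r (s (l 11) (r (s (l 3) (l 2))))))

open T in
def tr10 : T × T × T × T :=
  (r (r (s (r (r (s (r (r (s (r (r (s (l 0) (r (s (l 3) (l 11)))))) (r (s (l 1) (s (r (s (r (s (l
  0) (r (s (l 1) (l 0))))) (l 1))) (l 0))))))) (r (r (s (l 3) (l 0))))))) (l 1))), r (r (s (r (r
  (s (r (r (s (r (r (s (l 1) (l 4)))) (l 1)))) (r (r (s (l 3) (l 1))))))) (r (s (l 1) (r (s (l 5)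
  (l 4))))))), r (r (s (r (r (s (r (r (s (l 0) (r (s (r (r (s (r (r (s (r (r (s (l 5) (r (s (s (l
  1) (l 5)) (l 5)))))) (l 5)))) (l 1)))) (s (r (r (s (l 0) (r (s (l 6) (l 0)))))) (l 0))))))) (l
  0)))) (r (r (s (r (r (s (l 1) (l 5)))) (l 1)))))), l 1)

open T in
def tr11 : T × T × T × T :=
  (r (r (s (r (r (s (r (r (s (s (r (r (s (l 0) (s (l 0) (l 1))))) (l 0)) (r (s (l 1) (s (r (r (s
  (l 0) (r (s (r (r (s (l 6) (l 5)))) (l 0)))))) (l 0))))))) (r (r (s (r (r (s (l 0) (r (s (l 3)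
  (l 0)))))) (l 0))))))) (l 1))), r (r (s (r (r (s (r (r (s (l 3) (l 2)))) (l 3)))) (r (s (l 1) (r
  (s (l 5) (l 4))))))), s (l 1) (r (r (s (r (r (s (r (r (s (l 0) (r (s (l 5) (s (s (l 5) (l 0)) (l
  0))))))) (l 0)))) (r (r (s (l 5) (r (s (l 0) (l 5))))))))), l 1)

def trs (j : ℕ) : T × T × T × T :=
  [tr0, tr1, tr2, tr3, tr4, tr5, tr6, tr7, tr8, tr9, tr10, tr11].getD j tr0

theorem c_m : ∀ j < 13, ochk (xs j) (trs j) = true := by decide +kernel

end DataB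

open DataB in
/-- The explicit rational data. -/
theorem exists_prim : Nonempty Prim := by
  have hpt : ∀ (k : ℕ) (t : ℚ), (sm k).pt (t : ℝ) = toR ((pl k).pt t) := fun k t =>
    Plate.sim_pt _ _ t
  have hc : ∀ k, (sm k).c = toR (pl k).c := fun k => rfl
  have hrr : ∀ k, (sm k).r = ((pl k).r : ℝ) := fun k => rfl
  refine ⟨{
    N := 12
    hN := by norm_num
    σ := sm
    a := (aq : ℝ)
    η := (etq : ℝ)
    b := fun k => ((pl k).b : ℝ)
    x := fun j => toR (xs j)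
    ha := by norm_num [aq]
    hη := by norm_num [etq]
    hab := ?_
    hr := ?_
    hroot := ?_
    hslab := ?_
    hsep := ?_
    hball := ?_
    hballs := ?_
    hS := ?_
    hm := ?_ }⟩
  · intro k hk
    exact_mod_cast c_ab k hk
  · intro k hk
    obtain ⟨h1, h2, h3⟩ := c_r k hk
    rw [hrr]
    have g1 := (Rat.cast_le (K := ℝ)).2 h1
    have g2 := (Rat.cast_le (K := ℝ)).2 h2
    have g3 := (Rat.cast_le (K := ℝ)).2 h3
    push_cast at g1 g2 g3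
    exact ⟨g1, g2, g3⟩
  · intro k hk
    obtain ⟨h1, h2⟩ := c_root k hk
    have g1 := dist_toR_le _ _ _ (by norm_num) h1
    have g2 := dist_toR_le _ _ _ (by norm_num) h2
    rw [← hpt] at g1 g2
    push_cast at g1 g2
    exact ⟨g1, g2⟩
  · intro k hk qa qb ua ub ha hb hua hub
    obtain ⟨h1, h2, h3⟩ := c_slab k (by omega)
    have ea : qa = toR ((pl k).pt (pl k).b) := by rw [ha, hpt]
    have eb : qb = toR ((pl (k + 1)).pt (-aq)) := by
      rw [hb, ← hpt]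
      push_cast
      rfl
    have eu : ua = toR (vsub ((pl k).pt ((pl k).b + etq)) ((pl k).pt (pl k).b)) := by
      rw [hua, ea, ← toR_sub, ← hpt k ((pl k).b + etq)]
      push_cast
      rfl
    have ev : ub = toR (vsub ((pl (k + 1)).pt aq) ((pl (k + 1)).pt (-aq))) := by
      rw [hub, eb, ← toR_sub, ← hpt (k + 1) aq]
    have e0 : (sm (k + 1)).pt 0 = toR ((pl (k + 1)).pt 0) := by
      rw [← hpt]
      push_cast
      rfl
    have ei : (sm k).ptInf = toR (pl k).ptInf := Plate.sim_ptInf _ _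
    rw [e0, ei, eu, ev, ea, eb, toR_sub, toR_sub, toR_sub, det3_toR, det3_toR, det3_toR]
    unfold slab at h1 h2 h3
    exact ⟨by exact_mod_cast h1, by exact_mod_cast h2, by exact_mod_cast h3⟩
  · intro k l hkl hl
    obtain ⟨h1, h2, h3, h4⟩ := c_sep l hl k hkl
    have e1 : ∀ k, (sm k).L !₂[1, 0, 0] = toR (pl k).e1 := fun k => Plate.sim_e1 _ _
    have e2 : ∀ k, (sm k).L !₂[0, 1, 0] = toR (pl k).e2 := fun k => Plate.sim_e2 _ _
    refine ⟨toR (sepM k l), (sepL k l : ℝ), ?_⟩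
    simp only [hc, hrr, e1, e2, inner_toR]
    exact ⟨by exact_mod_cast h1, by exact_mod_cast h2, by exact_mod_cast h3, by exact_mod_cast h4⟩
  · intro j hj hj' k hk h1 h2
    have en : (sm k).nrm = toR (pl k).n := Plate.sim_nrm _ _
    simp only [hc, hrr, en, toR_sub, inner_toR, normsq_toR]
    rcases c_ball j hj' k hk with h | h | h
    · omega
    · left
      have g := (Rat.cast_lt (K := ℝ)).2 h
      push_cast at g
      exact g
    · right
      have g := (Rat.cast_lt (K := ℝ)).2 h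
      unfold d2 at g
      push_cast at g
      exact g
  · intro i j _ hij hj
    have g := lt_dist_toR _ _ _ (c_balls j hj i hij)
    push_cast at g
    exact g
  · intro j hj k hk
    have g := dist_toR_le _ _ _ (by norm_num) (c_S j (by omega) k hk)
    push_cast at g
    exact g
  · intro j hj v
    exact ochk_sound _ _ (c_m j (by omega)) v

end Pool.Agent.P.MP_c51580_gt
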