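import Pool.Agent.P.MP_c51580_gt.Stmt

/-!
Internal definitions: flat connections given by germs, similarities and angle functions of
circles, the model band, designs and the curve of a design.
-/

namespace Pool.Agent.P.MP_c51580_gt

open Set Metric Filter Topology
open scoped RealInnerProductSpace

abbrev D3 : Type := DihedralGroup 3

section Conn
variable {X : Type*} [TopologicalSpace X] {G : Type*} [Group G]

/-- The germs of `c x` at `x` form a flat connection on `W`. -/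
def Flat (c : X → X → G) (W : Set X) : Prop :=
  ∀ x ∈ W, ∀ᶠ y in 𝓝 x, ∀ᶠ z in 𝓝 y, c x z = c y z * c x y

/-- `s` is a horizontal section on `W`. -/
def Sec (c : X → X → G) (W : Set X) (s : X → G) : Prop :=
  ∀ x ∈ W, ∀ᶠ y in 𝓝[W] x, s y = c x y * s x

open Classical in
/-- The connection which jumps like `σ` across the wall `Wl` and is trivial elsewhere. -/
noncomputable def wall (σ : X → G) (Wl : Set X) (x y : X) : G :=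
  if x ∈ Wl then σ y * (σ x)⁻¹ else 1

end Conn

/-- The unit circle in the plane `z = 0`. -/
def S0 : Set E3 := {p | p 2 = 0 ∧ p 0 ^ 2 + p 1 ^ 2 = 1}

/-- The closed unit disc in the plane `z = 0`. -/
def D0 : Set E3 := {p | p 2 = 0 ∧ p 0 ^ 2 + p 1 ^ 2 ≤ 1}

/-- An open cylinder round the closed unit disc. -/
def Neps (ε : ℝ) : Set E3 := {p | p 0 ^ 2 + p 1 ^ 2 < (1 + ε) ^ 2 ∧ |p 2| < ε}

/-- The circle of radius `R` in the plane `z = 0`. -/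
def bigCircle (R : ℝ) : Set E3 := {p | p 2 = 0 ∧ p 0 ^ 2 + p 1 ^ 2 = R ^ 2}

/-- The angle function of the unit circle. -/
noncomputable def G0 (p : E3) : ℂ := ⟨1 - ‖p‖ ^ 2, 2 * p 2⟩

/-- `θ` is an argument of the nonzero number `z`. -/
def IsArg (z : ℂ) (θ : ℝ) : Prop := z ≠ 0 ∧ z = (‖z‖ : ℂ) * Complex.exp (θ * Complex.I)

/-- A similarity `p ↦ c + r L p`. -/
structure Sim where
  c : E3
  r : ℝ
  hr : 0 < r
  L : E3 ≃ₗᵢ[ℝ] E3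

namespace Sim
variable (σ : Sim)

noncomputable def map (p : E3) : E3 := σ.c + σ.r • σ.L p

noncomputable def inv (q : E3) : E3 := σ.L.symm (σ.r⁻¹ • (q - σ.c))

def circ : Set E3 := σ.map '' S0

def disc : Set E3 := σ.map '' D0

noncomputable def G (q : E3) : ℂ := G0 (σ.inv q)

/-- Rational parametrisation of the circle. -/
noncomputable def pt (t : ℝ) : E3 := σ.map !₂[(1 - t ^ 2) / (1 + t ^ 2), 2 * t / (1 + t ^ 2), 0]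

noncomputable def ptInf : E3 := σ.map !₂[-1, 0, 0]

/-- Unit normal of the plane of the circle. -/
noncomputable def nrm : E3 := σ.L !₂[0, 0, 1]

end Sim

/-- `J` lies on one side of a sphere or plane through the circle of `σ`. -/
def U (σ : Sim) (J : Set E3) : Prop :=
  ∃ u : ℂ, ∀ p ∈ J, 0 < u.re * (σ.G p).re + u.im * (σ.G p).im

/-- The line through `x` with direction `v` crosses the disc of `σ` with margin `μ`. -/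
def Margin (σ : Sim) (x v : E3) (μ : ℝ) : Prop :=
  μ * ‖v‖ + ‖⟪v, σ.nrm⟫ • (x - σ.c) + ⟪σ.c - x, σ.nrm⟫ • v‖ ≤ σ.r * |⟪v, σ.nrm⟫|

/-! ### The model band -/

def vlist : List (ℤ × ℤ × ℤ) :=
  [(6, 0, 0), (5, 0, 0), (4, 0, 0), (3, 0, 0), (3, 0, 1), (3, 1, 1), (3, 2, 1), (3, 3, 1),
   (3, 3, 0), (2, 3, 0), (1, 3, 0), (1, 3, 1), (1, 2, 1), (1, 1, 1), (1, 1, 0), (2, 1, 0),
   (3, 1, 0), (4, 1, 0), (4, 1, 1), (4, 2, 1), (4, 3, 1), (4, 4, 1), (4, 4, 0), (3, 4, 0),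
   (2, 4, 0), (2, 4, 1), (2, 3, 1), (2, 2, 1), (2, 2, 0), (1, 2, 0), (0, 2, 0), (0, 2, 1),
   (0, 1, 1), (0, 0, 1), (0, 0, 0), (-1, 0, 0), (-2, 0, 0), (-3, 0, 0), (-4, 0, 0)]

def vtx (k : ℕ) : ℤ × ℤ × ℤ := vlist.getD k (-4, 0, 0)

noncomputable def toE (v : ℤ × ℤ × ℤ) : E3 := !₂[(v.1 : ℝ), (v.2.1 : ℝ), (v.2.2 : ℝ)]

/-- The lattice path (a long trefoil), first edge of the band. -/
noncomputable def mf (u : ℝ) : E3 :=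
  toE (vtx ⌊u⌋₊) + (u - ⌊u⌋₊) • (toE (vtx (⌊u⌋₊ + 1)) - toE (vtx ⌊u⌋₊))

noncomputable def dd : E3 := !₂[1 / 2, 1 / 2, 1 / 2]

noncomputable def dd' : E3 := !₂[0, 1 / 2, 0]

/-- Second edge of the band. -/
noncomputable def mg (u : ℝ) : E3 :=
  mf u + (1 - max 0 (u - 37)) • dd + (max 0 (u - 37)) • dd'

/-- The height function of the band. -/
def ell (p : E3) : ℝ := p 0 - p 2

def kn : Set E3 := mf '' Icc 0 37

def Obox : Set E3 := {p | -1 < p 0 ∧ p 0 < 5 ∧ -1 < p 1 ∧ p 1 < 5 ∧ -1 < p 2 ∧ p 2 < 2}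

def Ibox : Set E3 := {p | 0 ≤ p 0 ∧ p 0 ≤ 4 ∧ 0 ≤ p 1 ∧ p 1 ≤ 4 ∧ 0 ≤ p 2 ∧ p 2 ≤ 1}

def Mbox : Set E3 := {p | -4 ≤ ell p ∧ ell p ≤ 6 ∧ |p 1| ≤ 5 ∧ |p 2| ≤ 2}

def Shell : Set E3 := (Obox \ Ibox) \ {p | p 1 = 0 ∧ p 2 = 0}

def Pp : Set E3 := Shell ∩ {p | 0 < p 2}

def Pm : Set E3 := Shell ∩ {p | p 2 < 0 ∨ (p 1 ≠ 0 ∧ p 2 < 1)}

def QN : Set E3 := Shell ∩ {p | 0 < p 2 ∧ p 2 < 1 ∧ 0 < p 1}

def QS : Set E3 := Shell ∩ {p | 0 < p 2 ∧ p 2 < 1 ∧ p 1 < 0}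

/-! ### Designs -/

/-- A chain of round plates `σ 0, …, σ (N-1)` with junction balls round `x 0, …, x N`. -/
structure Design where
  N : ℕ
  hN : 1 < N
  σ : ℕ → Sim
  a : ℝ
  b : ℕ → ℝ
  b' : ℕ → ℝ
  x : ℕ → E3
  δ : ℝ
  R : ℝ
  hR : 0 < R
  T : ℕ → E3 ≃ᵃ[ℝ] E3
  hab : ∀ k < N, -a < b k ∧ b k < b' k ∧ b' k < a
  hT : ∀ k, k + 1 < N → T k (mf 0) = (σ k).pt (b k) ∧ T k (mg 0) = (σ k).pt (b' k) ∧
    T k (mf 38) = (σ (k + 1)).pt (-a) ∧ T k (mg 38) = (σ (k + 1)).pt a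
  hbox : ∀ k, k + 1 < N → ∀ p ∈ Mbox, T k p ∈ ball (x (k + 1)) δ
  hslabR : ∀ k, k + 1 < N → ∀ t, t < b k ∨ b' k < t → 6 < ell ((T k).symm ((σ k).pt t))
  hslabL : ∀ k, k + 1 < N → ∀ t, -a < t → t < a → ell ((T k).symm ((σ (k + 1)).pt t)) < -4
  hdisc : ∀ k < N, ∀ l < N, k ≠ l → Disjoint (σ k).disc (σ l).disc
  hball : ∀ j, 0 < j → j < N → ∀ k < N, k ≠ j → k + 1 ≠ j →
    Disjoint (ball (x j) δ) (σ k).disc
  hballs : ∀ i j, 0 < i → i < j → j < N → Disjoint (ball (x i) δ) (ball (x j) δ)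
  harcR : ∀ k < N, ∀ t ∈ Icc (b k) (b' k), (σ k).pt t ∈ ball (x (k + 1)) δ
  harcL : ∀ k < N, (σ k).ptInf ∈ ball (x k) δ ∧ ∀ t, a ≤ |t| → (σ k).pt t ∈ ball (x k) δ
  hhide : ∀ j ≤ N, ∀ τ : Sim, τ.r = R → ¬ Disjoint τ.circ (ball (x j) δ) →
    ∃ k < N, Disjoint τ.circ (ball (x k) δ) ∧ Disjoint τ.circ (ball (x (k + 1)) δ) ∧
      ¬ U (σ k) τ.circ

namespace Design
variable (D : Design)

def arcF (k : ℕ) : Set E3 := (D.σ k).pt '' Icc (-D.a) (D.b k)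

def arcG (k : ℕ) : Set E3 := (D.σ k).pt '' Icc (D.b' k) D.a

def strF (k : ℕ) : Set E3 := D.T k '' (mf '' Icc 0 38)

def strG (k : ℕ) : Set E3 := D.T k '' (mg '' Icc 0 38)

def chL : Set E3 := segment ℝ ((D.σ 0).pt (-D.a)) ((D.σ 0).pt D.a)

def chR : Set E3 :=
  segment ℝ ((D.σ (D.N - 1)).pt (D.b (D.N - 1))) ((D.σ (D.N - 1)).pt (D.b' (D.N - 1)))

/-- The third curve. -/
def K : Set E3 :=
  D.chL ∪ D.chR ∪ {p | ∃ k < D.N, p ∈ D.arcF k ∪ D.arcG k} ∪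
    {p | ∃ k, k + 1 < D.N ∧ p ∈ D.strF k ∪ D.strG k}

end Design

/-- `F` agrees on `[j, j+1]` with a `C¹` map whose derivative never vanishes. -/
def RegOn (F : ℝ → E3) (j : ℕ) : Prop :=
  ∃ f : ℝ → E3, ContDiff ℝ 1 f ∧ (∀ u, deriv f u ≠ 0) ∧ EqOn F f (Icc (j : ℝ) (j + 1))

def det3 (u v w : E3) : ℝ :=
  u 0 * (v 1 * w 2 - v 2 * w 1) - u 1 * (v 0 * w 2 - v 2 * w 0) + u 2 * (v 0 * w 1 - v 1 * w 0)

/-- Algebraic conditions from which a design is built (`δ = 1/500`, `R = 10^7`). -/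
structure Prim where
  N : ℕ
  hN : 1 < N
  σ : ℕ → Sim
  a : ℝ
  η : ℝ
  b : ℕ → ℝ
  x : ℕ → E3
  ha : 0 < a
  hη : 0 < η
  hab : ∀ k < N, -a < b k ∧ b k + η < a
  hr : ∀ k < N, (σ k).r ≤ 25 ∧ 2 * (σ k).r * η ≤ 1 / 50000 ∧
    4 * (σ k).r ≤ a / 50000
  hroot : ∀ k < N, dist ((σ k).pt (-a)) (x k) ≤ 1 / 1000 ∧
    dist ((σ k).pt (b k)) (x (k + 1)) ≤ 1 / 1000
  hslab : ∀ k, k + 1 < N → ∀ qa qb ua ub : E3, qa = (σ k).pt (b k) →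
    qb = (σ (k + 1)).pt (-a) → ua = (σ k).pt (b k + η) - qa → ub = (σ (k + 1)).pt a - qb →
    det3 (qa - qb) ua ub ≠ 0 ∧ 1 < det3 ((σ k).ptInf - qb) ua ub / det3 (qa - qb) ua ub ∧
      det3 ((σ (k + 1)).pt 0 - qb) ua ub / det3 (qa - qb) ua ub < 0
  hsep : ∀ k l, k < l → l < N → ∃ (m : E3) (lam : ℝ), ⟪m, (σ k).c⟫ < lam ∧ lam < ⟪m, (σ l).c⟫ ∧
    (σ k).r ^ 2 * (⟪m, (σ k).L !₂[1, 0, 0]⟫ ^ 2 + ⟪m, (σ k).L !₂[0, 1, 0]⟫ ^ 2) <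
      (lam - ⟪m, (σ k).c⟫) ^ 2 ∧
    (σ l).r ^ 2 * (⟪m, (σ l).L !₂[1, 0, 0]⟫ ^ 2 + ⟪m, (σ l).L !₂[0, 1, 0]⟫ ^ 2) <
      (⟪m, (σ l).c⟫ - lam) ^ 2
  hball : ∀ j, 0 < j → j < N → ∀ k < N, k ≠ j → k + 1 ≠ j →
    (1 / 500) ^ 2 < ⟪x j - (σ k).c, (σ k).nrm⟫ ^ 2 ∨
    ((σ k).r + 1 / 500) ^ 2 < ‖x j - (σ k).c‖ ^ 2 - ⟪x j - (σ k).c, (σ k).nrm⟫ ^ 2
  hballs : ∀ i j, 0 < i → i < j → j < N → 1 / 250 < dist (x i) (x j)
  hS : ∀ j ≤ N, ∀ k < N, dist (x j) (σ k).c ≤ 25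
  hm : ∀ j ≤ N, ∀ v : E3, ∃ k < N, Margin (σ k) (x j) v (1 / 50)

end Pool.Agent.P.MP_c51580_gt
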