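import Pool.Agent.P.MP_c51580_gt.CircA
import Pool.Agent.P.MP_c51580_gt.ModelA

namespace Pool.Agent.P.MP_c51580_gt

open Set Metric Filter Topology
open scoped RealInnerProductSpace

namespace DiscA

/-- Concatenation by blocks of 39 units: one unit of `p k`, then 38 units of `q k`. -/
noncomputable def cat (p q : ℕ → ℝ → E3) (u : ℝ) : E3 :=
  if u - 39 * (⌊u / 39⌋₊ : ℝ) ≤ 1 then p ⌊u / 39⌋₊ (u - 39 * (⌊u / 39⌋₊ : ℝ))
  else q ⌊u / 39⌋₊ (u - 39 * (⌊u / 39⌋₊ : ℝ) - 1)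

theorem floor_block (k : ℕ) {v : ℝ} (h0 : 0 ≤ v) (h1 : v < 39) :
    ⌊(39 * (k : ℝ) + v) / 39⌋₊ = k := by
  have hk : (0 : ℝ) ≤ k := Nat.cast_nonneg k
  rw [Nat.floor_eq_iff (by positivity)]
  constructor
  · rw [le_div_iff₀ (by norm_num)]; linarith
  · rw [div_lt_iff₀ (by norm_num)]; linarith

theorem cat_plate (p q : ℕ → ℝ → E3) (k : ℕ) {v : ℝ} (hv : v ∈ Icc (0 : ℝ) 1) :
    cat p q (39 * (k : ℝ) + v) = p k v := by
  unfold cat
  rw [floor_block k hv.1 (by linarith [hv.2])]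
  have e : 39 * (k : ℝ) + v - 39 * (k : ℝ) = v := by ring
  rw [e, if_pos hv.2]

theorem cat_band (p q : ℕ → ℝ → E3) (k : ℕ) (h0 : q k 0 = p k 1) (h1 : q k 38 = p (k + 1) 0)
    {w : ℝ} (hw : w ∈ Icc (0 : ℝ) 38) : cat p q (39 * (k : ℝ) + 1 + w) = q k w := by
  rcases eq_or_lt_of_le hw.1 with h | h
  · rw [← h, add_zero, cat_plate p q k ⟨zero_le_one, le_rfl⟩, h0]
  rcases eq_or_lt_of_le hw.2 with h' | h'
  · have e : 39 * (k : ℝ) + 1 + w = 39 * ((k + 1 : ℕ) : ℝ) + 0 := by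
      rw [h']; push_cast; ring
    rw [e, cat_plate p q (k + 1) ⟨le_rfl, zero_le_one⟩, h', h1]
  unfold cat
  have e0 : 39 * (k : ℝ) + 1 + w = 39 * (k : ℝ) + (1 + w) := by ring
  rw [e0, floor_block k (by linarith) (by linarith)]
  have e : 39 * (k : ℝ) + (1 + w) - 39 * (k : ℝ) = 1 + w := by ring
  rw [e, if_neg (by linarith)]
  congr 1
  ring

theorem decomp {M : ℕ} {u : ℝ} (hu : u ∈ Icc (0 : ℝ) ((39 * M + 1 : ℕ) : ℝ)) :
    (∃ k ≤ M, ∃ v ∈ Icc (0 : ℝ) 1, u = 39 * (k : ℝ) + v) ∨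
      ∃ k < M, ∃ w ∈ Ioo (0 : ℝ) 38, u = 39 * (k : ℝ) + 1 + w := by
  obtain ⟨h0, h1⟩ := hu
  push_cast at h1
  have hd : 0 ≤ u / 39 := by positivity
  have a1 : ((⌊u / 39⌋₊ : ℕ) : ℝ) ≤ u / 39 := Nat.floor_le hd
  have a2 : u / 39 < (⌊u / 39⌋₊ : ℕ) + 1 := Nat.lt_floor_add_one _
  set k := ⌊u / 39⌋₊
  rw [le_div_iff₀ (by norm_num)] at a1
  rw [div_lt_iff₀ (by norm_num)] at a2
  by_cases h : u - 39 * (k : ℝ) ≤ 1
  · left
    refine ⟨k, ?_, u - 39 * k, ⟨by linarith, h⟩, by ring⟩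
    have : (k : ℝ) < M + 1 := by linarith
    have : k < M + 1 := by exact_mod_cast this
    omega
  · right
    push Not at h
    refine ⟨k, ?_, u - 39 * k - 1, ⟨by linarith, by linarith⟩, by ring⟩
    have : (k : ℝ) < M := by linarith
    exact_mod_cast this

theorem plate_mem {M k : ℕ} (hk : k ≤ M) {v : ℝ} (hv : v ∈ Icc (0 : ℝ) 1) :
    39 * (k : ℝ) + v ∈ Icc (0 : ℝ) ((39 * M + 1 : ℕ) : ℝ) := by
  have h1 : (k : ℝ) ≤ M := by exact_mod_cast hk
  have h0 : (0 : ℝ) ≤ k := Nat.cast_nonneg k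
  push_cast
  constructor <;> linarith [hv.1, hv.2]

theorem band_mem' {M k : ℕ} (hk : k < M) {w : ℝ} (hw : w ∈ Icc (0 : ℝ) 38) :
    39 * (k : ℝ) + 1 + w ∈ Icc (0 : ℝ) ((39 * M + 1 : ℕ) : ℝ) := by
  have h1 : ((k + 1 : ℕ) : ℝ) ≤ M := by exact_mod_cast hk
  have h0 : (0 : ℝ) ≤ k := Nat.cast_nonneg k
  push_cast at h1 ⊢
  constructor <;> linarith [hw.1, hw.2]

theorem cat_image (p q : ℕ → ℝ → E3) (M : ℕ) (h0 : ∀ k < M, q k 0 = p k 1)
    (h1 : ∀ k < M, q k 38 = p (k + 1) 0) (z : E3) :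
    z ∈ cat p q '' Icc (0 : ℝ) ((39 * M + 1 : ℕ) : ℝ) ↔
      (∃ k ≤ M, z ∈ p k '' Icc 0 1) ∨ ∃ k < M, z ∈ q k '' Icc 0 38 := by
  constructor
  · rintro ⟨u, hu, rfl⟩
    rcases decomp hu with ⟨k, hk, v, hv, rfl⟩ | ⟨k, hk, w, hw, rfl⟩
    · exact Or.inl ⟨k, hk, v, hv, (cat_plate p q k hv).symm⟩
    · exact Or.inr ⟨k, hk, w, Ioo_subset_Icc_self hw,
        (cat_band p q k (h0 k hk) (h1 k hk) (Ioo_subset_Icc_self hw)).symm⟩
  · rintro (⟨k, hk, v, hv, rfl⟩ | ⟨k, hk, w, hw, rfl⟩)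
    · exact ⟨_, plate_mem hk hv, cat_plate p q k hv⟩
    · exact ⟨_, band_mem' hk hw, cat_band p q k (h0 k hk) (h1 k hk) hw⟩

theorem cat_reg (p q : ℕ → ℝ → E3) (M : ℕ) (h0 : ∀ k < M, q k 0 = p k 1)
    (h1 : ∀ k < M, q k 38 = p (k + 1) 0)
    (hp : ∀ k ≤ M, ContDiff ℝ 1 (p k) ∧ ∀ v, deriv (p k) v ≠ 0)
    (hq : ∀ k < M, ∀ i < 38, ∃ A B : E3, B ≠ 0 ∧
      ∀ w ∈ Icc ((i : ℕ) : ℝ) (i + 1), q k w = A + w • B)
    {j : ℕ} (hj : j < 39 * M + 1) : RegOn (cat p q) j := by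
  obtain ⟨k, r, hr, rfl⟩ : ∃ k r, r < 39 ∧ j = 39 * k + r :=
    ⟨j / 39, j % 39, Nat.mod_lt _ (by norm_num), (Nat.div_add_mod j 39).symm⟩
  rcases Nat.eq_zero_or_pos r with rfl | hr0
  · have hk : k ≤ M := by omega
    obtain ⟨c1, c2⟩ := hp k hk
    refine ⟨fun u => p k (u - 39 * k), c1.comp (contDiff_id.sub contDiff_const), fun u => ?_,
      fun u hu => ?_⟩
    · rw [deriv_comp_sub_const (f := p k)]
      exact c2 _
    · push_cast at hu
      have hv : u - 39 * (k : ℝ) ∈ Icc (0 : ℝ) 1 := ⟨by linarith [hu.1], by linarith [hu.2]⟩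
      have := cat_plate p q k hv
      rw [show 39 * (k : ℝ) + (u - 39 * k) = u by ring] at this
      exact this
  · obtain ⟨i, rfl⟩ : ∃ i, r = i + 1 := ⟨r - 1, by omega⟩
    have hk : k < M := by omega
    have hi : i < 38 := by omega
    obtain ⟨A, B, hB, hAB⟩ := hq k hk i hi
    refine ⟨fun u => A + (u - (39 * k + 1)) • B,
      contDiff_const.add ((contDiff_id.sub contDiff_const).smul contDiff_const), fun u => ?_,
      fun u hu => ?_⟩
    · have : HasDerivAt (fun u : ℝ => A + (u - (39 * k + 1)) • B) ((1 : ℝ) • B) u :=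
        (((hasDerivAt_id u).sub_const _).smul_const B).const_add A
      rw [this.deriv, one_smul]
      exact hB
    · push_cast at hu
      have hi' : ((i + 1 : ℕ) : ℝ) ≤ 38 := by exact_mod_cast hi
      push_cast at hi'
      have hi0 : (0 : ℝ) ≤ i := Nat.cast_nonneg i
      have hw : u - (39 * (k : ℝ) + 1) ∈ Icc (0 : ℝ) 38 :=
        ⟨by linarith [hu.1], by linarith [hu.2]⟩
      have := cat_band p q k (h0 k hk) (h1 k hk) hw
      rw [show 39 * (k : ℝ) + 1 + (u - (39 * k + 1)) = u by ring] at this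
      rw [this]
      exact hAB _ ⟨by linarith [hu.1], by linarith [hu.2]⟩

theorem aff_combo (T : E3 ≃ᵃ[ℝ] E3) (p q : E3) (t : ℝ) :
    T ((1 - t) • p + t • q) = (1 - t) • T p + t • T q := by
  have h := AffineMap.apply_lineMap (T : E3 →ᵃ[ℝ] E3) p q t
  rw [AffineMap.lineMap_apply_module, AffineMap.lineMap_apply_module] at h
  exact h

theorem aff_line (T : E3 ≃ᵃ[ℝ] E3) (A B : E3) (w : ℝ) :
    T (A + w • B) = T A + w • T.linear B := by
  have h := T.map_vadd A (w • B)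
  rw [vadd_eq_add, vadd_eq_add, add_comm, map_smul, add_comm (w • T.linear B)] at h
  exact h

theorem reg_aff (σ : Sim) (c d : ℝ) (hd : d ≠ 0) :
    ContDiff ℝ 1 (fun v => σ.pt (c + v * d)) ∧ ∀ v, deriv (fun v => σ.pt (c + v * d)) v ≠ 0 := by
  refine ⟨σ.contDiff_pt.comp (contDiff_const.add (contDiff_id.mul contDiff_const)), fun v => ?_⟩
  have h1 : HasDerivAt σ.pt (deriv σ.pt (c + v * d)) (c + v * d) :=
    ((σ.contDiff_pt.differentiable one_ne_zero) _).hasDerivAt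
  have h2 : HasDerivAt (fun v : ℝ => c + v * d) (1 * d) v :=
    ((hasDerivAt_id v).mul_const d).const_add c
  have h3 := h1.scomp v h2
  have h4 : deriv (fun v => σ.pt (c + v * d)) v = (1 * d) • deriv σ.pt (c + v * d) := h3.deriv
  rw [h4]
  exact smul_ne_zero (by rwa [one_mul]) (σ.deriv_pt_ne _)

theorem ell_mf0 : ell (mf 0) = 6 := by
  rw [mf_zero]; simp [ell]

theorem ell_mf38 : ell (mf 38) = -4 := by
  rw [mf_38]; simp [ell]

theorem ell_mg (u : ℝ) : ell (mg u) = ell (mf u) := by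
  have := ell_band u 1
  rwa [sub_self, zero_smul, zero_add, one_smul] at this

theorem combo_inj {p q : E3} (h : p ≠ q) {s t : ℝ}
    (e : (1 - s) • p + s • q = (1 - t) • p + t • q) : s = t := by
  have h1 : (s - t) • (q - p) = ((1 - s) • p + s • q) - ((1 - t) • p + t • q) := by module
  rw [e, sub_self, smul_eq_zero] at h1
  rcases h1 with h1 | h1
  · linarith
  · exact absurd (sub_eq_zero.1 h1).symm h

variable (D : Design)

noncomputable def pf (k : ℕ) (v : ℝ) : E3 := (D.σ k).pt (-D.a + v * (D.b k + D.a))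

noncomputable def pg (k : ℕ) (v : ℝ) : E3 := (D.σ k).pt (D.a + v * (D.b' k - D.a))

noncomputable def qf (k : ℕ) (w : ℝ) : E3 := D.T k (mf w)

noncomputable def qg (k : ℕ) (w : ℝ) : E3 := D.T k (mg w)

theorem pf_zero (k : ℕ) : pf D k 0 = (D.σ k).pt (-D.a) := by simp [pf]

theorem pf_one (k : ℕ) : pf D k 1 = (D.σ k).pt (D.b k) := by simp [pf]

theorem pg_zero (k : ℕ) : pg D k 0 = (D.σ k).pt D.a := by simp [pg]

theorem pg_one (k : ℕ) : pg D k 1 = (D.σ k).pt (D.b' k) := by simp [pg]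

theorem pf_image {k : ℕ} (hk : k < D.N) : pf D k '' Icc 0 1 = D.arcF k := by
  obtain ⟨h1, -, -⟩ := D.hab k hk
  have hp : 0 < D.b k + D.a := by linarith
  ext z
  constructor
  · rintro ⟨v, hv, rfl⟩
    exact ⟨_, ⟨by nlinarith [hv.1], by nlinarith [hv.2]⟩, rfl⟩
  · rintro ⟨t, ht, rfl⟩
    refine ⟨(t + D.a) / (D.b k + D.a), ⟨div_nonneg (by linarith [ht.1]) hp.le,
      (div_le_one hp).2 (by linarith [ht.2])⟩, ?_⟩
    unfold pf
    rw [div_mul_cancel₀ _ hp.ne']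
    congr 1
    ring

theorem pg_image {k : ℕ} (hk : k < D.N) : pg D k '' Icc 0 1 = D.arcG k := by
  obtain ⟨-, -, h1⟩ := D.hab k hk
  have hp : D.b' k - D.a < 0 := by linarith
  ext z
  constructor
  · rintro ⟨v, hv, rfl⟩
    exact ⟨_, ⟨by nlinarith [hv.2], by nlinarith [hv.1]⟩, rfl⟩
  · rintro ⟨t, ht, rfl⟩
    refine ⟨(t - D.a) / (D.b' k - D.a), ⟨div_nonneg_of_nonpos (by linarith [ht.2]) hp.le,
      (div_le_one_of_neg hp).2 (by linarith [ht.1])⟩, ?_⟩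
    unfold pg
    rw [div_mul_cancel₀ _ hp.ne]
    congr 1
    ring

theorem plate_disc (k : ℕ) (v : ℝ) {t : ℝ} (ht : t ∈ Icc (0 : ℝ) 1) :
    (1 - t) • pf D k v + t • pg D k v ∈ (D.σ k).disc :=
  (D.σ k).convex_disc ((D.σ k).circ_subset_disc ((D.σ k).pt_mem _))
    ((D.σ k).circ_subset_disc ((D.σ k).pt_mem _)) (by linarith [ht.2]) ht.1 (by ring)

theorem band_eq (k : ℕ) (w t : ℝ) :
    (1 - t) • qf D k w + t • qg D k w = D.T k ((1 - t) • mf w + t • mg w) :=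
  (aff_combo _ _ _ _).symm

theorem band_ball {k : ℕ} (hk : k + 1 < D.N) {w t : ℝ} (hw : w ∈ Icc (0 : ℝ) 38)
    (ht : t ∈ Icc (0 : ℝ) 1) :
    (1 - t) • qf D k w + t • qg D k w ∈ ball (D.x (k + 1)) D.δ := by
  rw [band_eq]
  exact D.hbox k hk _ (band_mem hw ht)

theorem plate_lt {k : ℕ} (hk : k < D.N) {v v' t t' : ℝ} (hv : v < v') (hv' : v' ≤ 1)
    (ht : t ∈ Icc (0 : ℝ) 1) (ht' : t' ∈ Icc (0 : ℝ) 1) :
    (1 - t) • pf D k v + t • pg D k v ≠ (1 - t') • pf D k v' + t' • pg D k v' := by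
  obtain ⟨h1, h2, h3⟩ := D.hab k hk
  intro e
  have hd := (D.σ k).chord_disjoint (α := -D.a + v * (D.b k + D.a))
    (α' := -D.a + v' * (D.b k + D.a)) (β' := D.a + v' * (D.b' k - D.a))
    (β := D.a + v * (D.b' k - D.a)) (by nlinarith) (by nlinarith) (by nlinarith)
  exact Set.disjoint_left.1 hd ⟨1 - t, t, by linarith [ht.2], ht.1, by ring, rfl⟩
    ⟨1 - t', t', by linarith [ht'.2], ht'.1, by ring, e.symm⟩

theorem plate_plate {k l : ℕ} (hk : k < D.N) (hl : l < D.N) {v v' t t' : ℝ}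
    (hv : v ∈ Icc (0 : ℝ) 1) (hv' : v' ∈ Icc (0 : ℝ) 1)
    (ht : t ∈ Icc (0 : ℝ) 1) (ht' : t' ∈ Icc (0 : ℝ) 1)
    (e : (1 - t) • pf D k v + t • pg D k v = (1 - t') • pf D l v' + t' • pg D l v') :
    k = l ∧ v = v' ∧ t = t' := by
  by_cases hkl : k = l
  · subst hkl
    rcases lt_trichotomy v v' with h | h | h
    · exact absurd e (plate_lt D hk h hv'.2 ht ht')
    · subst h
      refine ⟨rfl, rfl, combo_inj ?_ e⟩
      obtain ⟨h1, h2, h3⟩ := D.hab k hk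
      intro h
      have := (D.σ k).pt_injective h
      nlinarith [hv.2]
    · exact absurd e.symm (plate_lt D hk h hv.2 ht' ht)
  · exact absurd (e ▸ plate_disc D l v' ht' :
      (1 - t) • pf D k v + t • pg D k v ∈ (D.σ l).disc)
      (Set.disjoint_left.1 (D.hdisc k hk l hl hkl) (plate_disc D k v ht))

theorem slabR {k : ℕ} (hk : k + 1 < D.N) {v t : ℝ} (hv : v ∈ Icc (0 : ℝ) 1)
    (ht : t ∈ Icc (0 : ℝ) 1) :
    6 ≤ ell ((D.T k).symm ((1 - t) • pf D k v + t • pg D k v)) := by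
  obtain ⟨h1, h2, h3⟩ := D.hab k (by omega)
  obtain ⟨t1, t2, -, -⟩ := D.hT k hk
  have a1 : 6 ≤ ell ((D.T k).symm (pf D k v)) := by
    rcases eq_or_lt_of_le hv.2 with h | h
    · rw [h, pf_one, ← t1, AffineEquiv.symm_apply_apply, ell_mf0]
    · exact (D.hslabR k hk _ (Or.inl (by nlinarith))).le
  have a2 : 6 ≤ ell ((D.T k).symm (pg D k v)) := by
    rcases eq_or_lt_of_le hv.2 with h | h
    · rw [h, pg_one, ← t2, AffineEquiv.symm_apply_apply, ell_mg, ell_mf0]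
    · exact (D.hslabR k hk _ (Or.inr (by nlinarith))).le
  rw [aff_combo, ell_combo]
  nlinarith [ht.1, ht.2]

theorem slabL {k : ℕ} (hk : k + 1 < D.N) {v t : ℝ} (hv : v ∈ Icc (0 : ℝ) 1)
    (ht : t ∈ Icc (0 : ℝ) 1) :
    ell ((D.T k).symm ((1 - t) • pf D (k + 1) v + t • pg D (k + 1) v)) ≤ -4 := by
  obtain ⟨h1, h2, h3⟩ := D.hab (k + 1) hk
  obtain ⟨-, -, t1, t2⟩ := D.hT k hk
  have a1 : ell ((D.T k).symm (pf D (k + 1) v)) ≤ -4 := by
    rcases eq_or_lt_of_le hv.1 with h | h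
    · rw [← h, pf_zero, ← t1, AffineEquiv.symm_apply_apply, ell_mf38]
    · exact (D.hslabL k hk _ (by nlinarith) (by nlinarith [hv.2])).le
  have a2 : ell ((D.T k).symm (pg D (k + 1) v)) ≤ -4 := by
    rcases eq_or_lt_of_le hv.1 with h | h
    · rw [← h, pg_zero, ← t2, AffineEquiv.symm_apply_apply, ell_mg, ell_mf38]
    · exact (D.hslabL k hk _ (by nlinarith [hv.2]) (by nlinarith)).le
  rw [aff_combo, ell_combo]
  nlinarith [ht.1, ht.2]

theorem plate_band {k l : ℕ} (hk : k + 1 < D.N) (hl : l < D.N) {v w t t' : ℝ}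
    (hv : v ∈ Icc (0 : ℝ) 1) (hw : w ∈ Ioo (0 : ℝ) 38)
    (ht : t ∈ Icc (0 : ℝ) 1) (ht' : t' ∈ Icc (0 : ℝ) 1) :
    (1 - t) • pf D l v + t • pg D l v ≠ (1 - t') • qf D k w + t' • qg D k w := by
  intro e
  have hell : ell ((D.T k).symm ((1 - t) • pf D l v + t • pg D l v)) = ell (mf w) := by
    rw [e, band_eq, AffineEquiv.symm_apply_apply, ell_band]
  by_cases h1 : l = k
  · subst h1
    have := slabR D hk hv ht
    have := ell_mf_lt (u := w) ⟨hw.1, hw.2.le⟩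
    linarith
  by_cases h2 : l = k + 1
  · subst h2
    have := slabL D hk hv ht
    have := lt_ell_mf (u := w) ⟨hw.1.le, hw.2⟩
    linarith
  have hd := D.hball (k + 1) (by omega) hk l hl h2 (by omega)
  refine Set.disjoint_left.1 hd (band_ball D hk (Ioo_subset_Icc_self hw) ht') ?_
  rw [← e]
  exact plate_disc D l v ht

theorem band_band {k l : ℕ} (hk : k + 1 < D.N) (hl : l + 1 < D.N) {w w' t t' : ℝ}
    (hw : w ∈ Icc (0 : ℝ) 38) (hw' : w' ∈ Icc (0 : ℝ) 38)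
    (ht : t ∈ Icc (0 : ℝ) 1) (ht' : t' ∈ Icc (0 : ℝ) 1)
    (e : (1 - t) • qf D k w + t • qg D k w = (1 - t') • qf D l w' + t' • qg D l w') :
    k = l ∧ w = w' ∧ t = t' := by
  have b1 := band_ball D hk hw ht
  have b2 := band_ball D hl hw' ht'
  rw [← e] at b2
  rcases lt_trichotomy k l with h | h | h
  · exact absurd b2 (Set.disjoint_left.1
      (D.hballs (k + 1) (l + 1) (by omega) (by omega) hl) b1)
  · subst h
    rw [band_eq, band_eq] at e
    have e' := (D.T k).injective e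
    have := band_injOn (x₁ := (w, t)) ⟨hw, ht⟩ (x₂ := (w', t')) ⟨hw', ht'⟩ e'
    exact ⟨rfl, congrArg Prod.fst this, congrArg Prod.snd this⟩
  · exact absurd b1 (Set.disjoint_left.1
      (D.hballs (l + 1) (k + 1) (by omega) (by omega) hk) b2)

end DiscA

open DiscA in
/-- Paper, end of section 4: the ruled disc of a design. -/
theorem Design.exists_param (D : Design) : ∃ (n : ℕ) (F G : ℝ → E3), 0 < n ∧
    InjOn (fun q : ℝ × ℝ => (1 - q.2) • F q.1 + q.2 • G q.1) (Icc 0 (n : ℝ) ×ˢ Icc 0 1) ∧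
    D.K = F '' Icc 0 (n : ℝ) ∪ G '' Icc 0 (n : ℝ) ∪ segment ℝ (F 0) (G 0) ∪
      segment ℝ (F n) (G n) ∧
    ∀ j < n, RegOn F j ∧ RegOn G j := by
  obtain ⟨M, hM⟩ : ∃ M, D.N = M + 1 := ⟨D.N - 1, by have := D.hN; omega⟩
  have f0 : ∀ k < M, qf D k 0 = pf D k 1 := fun k hk => by
    rw [pf_one]; exact (D.hT k (by omega)).1
  have g0 : ∀ k < M, qg D k 0 = pg D k 1 := fun k hk => by
    rw [pg_one]; exact (D.hT k (by omega)).2.1
  have f1 : ∀ k < M, qf D k 38 = pf D (k + 1) 0 := fun k hk => by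
    rw [pf_zero]; exact (D.hT k (by omega)).2.2.1
  have g1 : ∀ k < M, qg D k 38 = pg D (k + 1) 0 := fun k hk => by
    rw [pg_zero]; exact (D.hT k (by omega)).2.2.2
  refine ⟨39 * M + 1, cat (pf D) (qf D), cat (pg D) (qg D), by omega, ?_, ?_, fun j hj => ?_⟩
  · rintro ⟨u, t⟩ ⟨hu, ht⟩ ⟨u', t'⟩ ⟨hu', ht'⟩ e
    dsimp only at hu ht hu' ht' e
    rcases decomp hu with ⟨k, hk, v, hv, rfl⟩ | ⟨k, hk, w, hw, rfl⟩ <;>
      rcases decomp hu' with ⟨l, hl, v', hv', rfl⟩ | ⟨l, hl, w', hw', rfl⟩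
    · rw [cat_plate _ _ _ hv, cat_plate _ _ _ hv, cat_plate _ _ _ hv', cat_plate _ _ _ hv'] at e
      obtain ⟨rfl, rfl, rfl⟩ := plate_plate D (by omega) (by omega) hv hv' ht ht' e
      rfl
    · rw [cat_plate _ _ _ hv, cat_plate _ _ _ hv,
        cat_band _ _ _ (f0 l hl) (f1 l hl) (Ioo_subset_Icc_self hw'),
        cat_band _ _ _ (g0 l hl) (g1 l hl) (Ioo_subset_Icc_self hw')] at e
      exact absurd e (plate_band D (by omega) (by omega) hv hw' ht ht')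
    · rw [cat_plate _ _ _ hv', cat_plate _ _ _ hv',
        cat_band _ _ _ (f0 k hk) (f1 k hk) (Ioo_subset_Icc_self hw),
        cat_band _ _ _ (g0 k hk) (g1 k hk) (Ioo_subset_Icc_self hw)] at e
      exact absurd e.symm (plate_band D (by omega) (by omega) hv' hw ht' ht)
    · rw [cat_band _ _ _ (f0 k hk) (f1 k hk) (Ioo_subset_Icc_self hw),
        cat_band _ _ _ (g0 k hk) (g1 k hk) (Ioo_subset_Icc_self hw),
        cat_band _ _ _ (f0 l hl) (f1 l hl) (Ioo_subset_Icc_self hw'),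
        cat_band _ _ _ (g0 l hl) (g1 l hl) (Ioo_subset_Icc_self hw')] at e
      obtain ⟨rfl, rfl, rfl⟩ := band_band D (by omega) (by omega) (Ioo_subset_Icc_self hw)
        (Ioo_subset_Icc_self hw') ht ht' e
      rfl
  · have z0 : (0 : ℝ) = 39 * ((0 : ℕ) : ℝ) + 0 := by simp
    have zn : ((39 * M + 1 : ℕ) : ℝ) = 39 * (M : ℝ) + 1 := by push_cast; ring
    have F0 : cat (pf D) (qf D) 0 = (D.σ 0).pt (-D.a) := by
      rw [← pf_zero, ← cat_plate (pf D) (qf D) 0 ⟨le_rfl, zero_le_one⟩, ← z0]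
    have G0' : cat (pg D) (qg D) 0 = (D.σ 0).pt D.a := by
      rw [← pg_zero, ← cat_plate (pg D) (qg D) 0 ⟨le_rfl, zero_le_one⟩, ← z0]
    have Fn : cat (pf D) (qf D) ((39 * M + 1 : ℕ) : ℝ) = (D.σ M).pt (D.b M) := by
      rw [zn, cat_plate _ _ _ ⟨zero_le_one, le_rfl⟩, pf_one]
    have Gn : cat (pg D) (qg D) ((39 * M + 1 : ℕ) : ℝ) = (D.σ M).pt (D.b' M) := by
      rw [zn, cat_plate _ _ _ ⟨zero_le_one, le_rfl⟩, pg_one]
    have hM' : D.N - 1 = M := by omega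
    rw [F0, G0', Fn, Gn]
    ext z
    simp only [Design.K, Design.chL, Design.chR, hM', mem_union, mem_ofPred_eq,
      cat_image _ _ M f0 f1, cat_image _ _ M g0 g1]
    have sf : ∀ k, qf D k '' Icc 0 38 = D.strF k := fun k => by
      unfold Design.strF; rw [image_image]; rfl
    have sg : ∀ k, qg D k '' Icc 0 38 = D.strG k := fun k => by
      unfold Design.strG; rw [image_image]; rfl
    constructor
    · rintro (((h | h) | ⟨k, hk, h | h⟩) | ⟨k, hk, h | h⟩)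
      · exact Or.inl (Or.inr h)
      · exact Or.inr h
      · exact Or.inl (Or.inl (Or.inl (Or.inl ⟨k, by omega, by rwa [pf_image D hk]⟩)))
      · exact Or.inl (Or.inl (Or.inr (Or.inl ⟨k, by omega, by rwa [pg_image D hk]⟩)))
      · exact Or.inl (Or.inl (Or.inl (Or.inr ⟨k, by omega, by rwa [sf]⟩)))
      · exact Or.inl (Or.inl (Or.inr (Or.inr ⟨k, by omega, by rwa [sg]⟩)))
    · rintro ((((⟨k, hk, h⟩ | ⟨k, hk, h⟩) | (⟨k, hk, h⟩ | ⟨k, hk, h⟩)) | h) | h)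
      · rw [pf_image D (by omega)] at h
        exact Or.inl (Or.inr ⟨k, by omega, Or.inl h⟩)
      · rw [sf] at h
        exact Or.inr ⟨k, by omega, Or.inl h⟩
      · rw [pg_image D (by omega)] at h
        exact Or.inl (Or.inr ⟨k, by omega, Or.inr h⟩)
      · rw [sg] at h
        exact Or.inr ⟨k, by omega, Or.inr h⟩
      · exact Or.inl (Or.inl (Or.inl h))
      · exact Or.inl (Or.inl (Or.inr h))
  · constructor
    · refine cat_reg _ _ M f0 f1 (fun k hk => ?_) (fun k hk i hi => ?_) hj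
      · obtain ⟨h1, -, -⟩ := D.hab k (by omega)
        exact reg_aff (D.σ k) _ _ (by linarith)
      · obtain ⟨A, B, hB, h⟩ := mf_affine hi
        refine ⟨D.T k A, (D.T k).linear B, fun h0 => hB ((D.T k).linear.map_eq_zero_iff.1 h0),
          fun w hw => ?_⟩
        unfold qf
        rw [h w hw, aff_line]
    · refine cat_reg _ _ M g0 g1 (fun k hk => ?_) (fun k hk i hi => ?_) hj
      · obtain ⟨-, -, h1⟩ := D.hab k (by omega)
        exact reg_aff (D.σ k) _ _ (by linarith)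
      · obtain ⟨A, B, hB, h⟩ := mg_affine hi
        refine ⟨D.T k A, (D.T k).linear B, fun h0 => hB ((D.T k).linear.map_eq_zero_iff.1 h0),
          fun w hw => ?_⟩
        unfold qg
        rw [h w hw, aff_line]

end Pool.Agent.P.MP_c51580_gt
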