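import Pool.Agent.P.MP_c51580_gt.Defs

namespace Pool.Agent.P.MP_c51580_gt

open Set Metric Filter Topology
open scoped RealInnerProductSpace

namespace DiscB

/-- A regular parametrisation. -/
def Rg (f : ℝ → E3) : Prop := ContDiff ℝ 1 f ∧ ∀ u, deriv f u ≠ 0

theorem Rg.aff {f : ℝ → E3} (h : Rg f) {a : ℝ} (b : ℝ) (ha : a ≠ 0) :
    Rg fun s => f (a * s + b) := by
  refine ⟨h.1.comp (by fun_prop), fun u => ?_⟩
  have h1 : HasDerivAt (fun s : ℝ => a * s + b) a u := by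
    simpa using ((hasDerivAt_id u).const_mul a).add_const b
  have h2 := ((h.1.differentiable one_ne_zero (a * u + b)).hasDerivAt).scomp u h1
  have h3 : deriv (fun s => f (a * s + b)) u = a • deriv f (a * u + b) := h2.deriv
  rw [h3]
  exact smul_ne_zero ha (h.2 _)

theorem rg_line {P Q : E3} (h : P ≠ Q) : Rg fun u : ℝ => (1 - u) • P + u • Q := by
  refine ⟨by fun_prop, fun u => ?_⟩
  have h1 : HasDerivAt (fun u : ℝ => (1 - u) • P + u • Q) ((-1 : ℝ) • P + (1 : ℝ) • Q) u :=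
    (((hasDerivAt_id u).const_sub 1).smul_const P).add ((hasDerivAt_id u).smul_const Q)
  rw [h1.deriv, neg_one_smul, one_smul, neg_add_eq_sub]
  exact sub_ne_zero.2 h.symm

theorem Rg.piece {f γ : ℝ → E3} (h : Rg f) {a b : ℝ} (hab : a < b) (e : EqOn γ f (Icc a b)) :
    ContDiffOn ℝ 1 γ (Icc a b) ∧ ∀ s ∈ Icc a b, derivWithin γ (Icc a b) s ≠ 0 := by
  refine ⟨h.1.contDiffOn.congr e, fun s hs => ?_⟩
  rw [derivWithin_congr e (e hs),
    (h.1.differentiable one_ne_zero s).derivWithin (uniqueDiffOn_Icc hab s hs)]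
  exact h.2 s

theorem cont_of_reg {F : ℝ → E3} : ∀ n : ℕ, (∀ j < n, RegOn F j) → ContinuousOn F (Icc 0 (n : ℝ))
  | 0, _ => by simp
  | n + 1, h => by
    have h1 := cont_of_reg n fun j hj => h j (by omega)
    obtain ⟨f, hf, -, e⟩ := h n (by omega)
    have h2 : ContinuousOn F (Icc (n : ℝ) (n + 1)) := hf.continuous.continuousOn.congr e
    have := h1.union_of_isClosed h2 isClosed_Icc isClosed_Icc
    rwa [Icc_union_Icc_eq_Icc (by positivity) (by linarith), ← Nat.cast_add_one] at this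

/-- Parametrisation of the boundary of the rectangle. -/
noncomputable def bd (N τ : ℝ) : ℝ × ℝ :=
  (max 0 (min τ (min N (2 * N + 1 - τ))), max 0 (min (τ - N) (min 1 (2 * N + 2 - τ))))

theorem bd_cont (N : ℝ) : Continuous (bd N) := by unfold bd; fun_prop

theorem bd1 {N τ : ℝ} (h0 : 0 ≤ τ) (h1 : τ ≤ N) : bd N τ = (τ, 0) := by
  unfold bd
  rw [min_eq_left (le_min h1 (by linarith)), max_eq_right h0,
    max_eq_left ((min_le_left _ _).trans (by linarith))]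

theorem bd2 {N τ : ℝ} (hN : 0 ≤ N) (h0 : N ≤ τ) (h1 : τ ≤ N + 1) : bd N τ = (N, τ - N) := by
  unfold bd
  rw [min_eq_left (show N ≤ 2 * N + 1 - τ by linarith), min_eq_right h0, max_eq_right hN,
    min_eq_left (le_min (by linarith) (by linarith)), max_eq_right (by linarith)]

theorem bd3 {N τ : ℝ} (h0 : N + 1 ≤ τ) (h1 : τ ≤ 2 * N + 1) : bd N τ = (2 * N + 1 - τ, 1) := by
  unfold bd
  rw [min_eq_right (show 2 * N + 1 - τ ≤ N by linarith), min_eq_right (by linarith),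
    max_eq_right (by linarith), min_eq_left (show (1 : ℝ) ≤ 2 * N + 2 - τ by linarith),
    min_eq_right (by linarith), max_eq_right zero_le_one]

theorem bd4 {N τ : ℝ} (hN : 0 ≤ N) (h0 : 2 * N + 1 ≤ τ) (h1 : τ ≤ 2 * N + 2) :
    bd N τ = (0, 2 * N + 2 - τ) := by
  unfold bd
  rw [max_eq_left ((min_le_right _ _).trans ((min_le_right _ _).trans (by linarith))),
    min_eq_right (show 2 * N + 2 - τ ≤ 1 by linarith), min_eq_right (by linarith),
    max_eq_right (by linarith)]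

theorem bd_cases {N τ : ℝ} (hN : 0 ≤ N) (h0 : 0 ≤ τ) (h1 : τ ≤ 2 * N + 2) :
    (τ ≤ N ∧ bd N τ = (τ, 0)) ∨ (N < τ ∧ τ ≤ N + 1 ∧ bd N τ = (N, τ - N)) ∨
      (N + 1 < τ ∧ τ ≤ 2 * N + 1 ∧ bd N τ = (2 * N + 1 - τ, 1)) ∨
      (2 * N + 1 < τ ∧ bd N τ = (0, 2 * N + 2 - τ)) := by
  rcases le_or_gt τ N with h | h
  · exact .inl ⟨h, bd1 h0 h⟩
  rcases le_or_gt τ (N + 1) with h2 | h2
  · exact .inr (.inl ⟨h, h2, bd2 hN h.le h2⟩)
  rcases le_or_gt τ (2 * N + 1) with h3 | h3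
  · exact .inr (.inr (.inl ⟨h2, h3, bd3 h2.le h3⟩))
  · exact .inr (.inr (.inr ⟨h3, bd4 hN h3.le h1⟩))

theorem bd_inj {N : ℝ} (hN : 0 < N) : InjOn (bd N) (Ico 0 (2 * N + 2)) := by
  intro a ha b hb e
  rcases bd_cases hN.le ha.1 ha.2.le with ⟨a1, a2⟩ | ⟨a0, a1, a2⟩ | ⟨a0, a1, a2⟩ | ⟨a1, a2⟩ <;>
  rcases bd_cases hN.le hb.1 hb.2.le with ⟨b1, b2⟩ | ⟨b0, b1, b2⟩ | ⟨b0, b1, b2⟩ | ⟨b1, b2⟩ <;>
  · rw [a2, b2, Prod.mk.injEq] at e
    have := ha.1; have := ha.2; have := hb.1; have := hb.2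
    linarith [e.1, e.2]

/-- The boundary of the rectangle. -/
def rim (N : ℝ) : Set (ℝ × ℝ) :=
  Icc 0 N ×ˢ ({0, 1} : Set ℝ) ∪ ({0, N} : Set ℝ) ×ˢ Icc (0 : ℝ) 1

theorem rim_sub {N : ℝ} (hN : 0 ≤ N) : rim N ⊆ Icc 0 N ×ˢ Icc 0 1 := by
  rintro ⟨a, b⟩ (⟨h1, rfl | rfl⟩ | ⟨rfl | rfl, h2⟩)
  · exact ⟨h1, le_rfl, zero_le_one⟩
  · exact ⟨h1, zero_le_one, le_rfl⟩
  · exact ⟨⟨le_rfl, hN⟩, h2⟩
  · exact ⟨⟨hN, le_rfl⟩, h2⟩

theorem bd_image {N : ℝ} (hN : 0 ≤ N) : bd N '' Icc 0 (2 * N + 2) = rim N := by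
  apply Subset.antisymm
  · rintro _ ⟨τ, h, rfl⟩
    rcases bd_cases hN h.1 h.2 with ⟨a1, a2⟩ | ⟨a0, a1, a2⟩ | ⟨a0, a1, a2⟩ | ⟨a1, a2⟩ <;> rw [a2]
    · exact .inl ⟨⟨h.1, a1⟩, .inl rfl⟩
    · exact .inr ⟨.inr rfl, by constructor <;> simp only <;> linarith⟩
    · exact .inl ⟨by constructor <;> simp only <;> linarith, .inr rfl⟩
    · exact .inr ⟨.inl rfl, by constructor <;> simp only <;> linarith [h.2]⟩
  · rintro ⟨a, b⟩ (⟨⟨h1, h2⟩, rfl | rfl⟩ | ⟨rfl | rfl, h1, h2⟩) <;> simp only at h1 h2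
    · exact ⟨a, ⟨h1, by linarith⟩, bd1 h1 h2⟩
    · exact ⟨2 * N + 1 - a, ⟨by linarith, by linarith⟩, by
        rw [bd3 (by linarith) (by linarith)]; simp⟩
    · exact ⟨2 * N + 2 - b, ⟨by linarith, by linarith⟩, by
        rw [bd4 hN (by linarith) (by linarith)]; simp⟩
    · exact ⟨a + b, ⟨by linarith, by linarith⟩, by
        rw [bd2 hN (by linarith) (by linarith)]; simp⟩

theorem rim_image (F G : ℝ → E3) (N : ℝ) :
    (fun q : ℝ × ℝ => (1 - q.2) • F q.1 + q.2 • G q.1) '' rim N =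
      F '' Icc 0 N ∪ G '' Icc 0 N ∪ segment ℝ (F 0) (G 0) ∪ segment ℝ (F N) (G N) := by
  rw [segment_eq_image, segment_eq_image]
  apply Subset.antisymm
  · rintro _ ⟨⟨a, b⟩, ⟨h1, rfl | rfl⟩ | ⟨rfl | rfl, h2⟩, rfl⟩
    · exact .inl (.inl (.inl ⟨a, h1, by simp⟩))
    · exact .inl (.inl (.inr ⟨a, h1, by simp⟩))
    · exact .inl (.inr ⟨b, h2, rfl⟩)
    · exact .inr ⟨b, h2, rfl⟩
  · rintro _ (((⟨a, h, rfl⟩ | ⟨a, h, rfl⟩) | ⟨b, h, rfl⟩) | ⟨b, h, rfl⟩)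
    · exact ⟨(a, 0), .inl ⟨h, .inl rfl⟩, by simp⟩
    · exact ⟨(a, 1), .inl ⟨h, .inr rfl⟩, by simp⟩
    · exact ⟨(0, b), .inr ⟨.inl rfl, h⟩, rfl⟩
    · exact ⟨(N, b), .inr ⟨.inr rfl, h⟩, rfl⟩

theorem unknot {N : ℝ} (hN : 0 < N) {Φ : ℝ × ℝ → E3} (hc : ContinuousOn Φ (Icc 0 N ×ˢ Icc 0 1))
    (hi : InjOn Φ (Icc 0 N ×ˢ Icc 0 1)) : Unknotted (Φ '' rim N) := by
  let e : EuclideanSpace ℝ (Fin 2) ≃L[ℝ] ℝ × ℝ :=
    (EuclideanSpace.equiv (Fin 2) ℝ).trans (ContinuousLinearEquiv.finTwoArrow ℝ ℝ)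
  set R : Set (ℝ × ℝ) := Icc 0 N ×ˢ Icc 0 1 with hR
  have hcl : closure (e ⁻¹' R) = e ⁻¹' R :=
    ((isClosed_Icc.prod isClosed_Icc).preimage e.continuous).closure_eq
  have hfr : frontier (e ⁻¹' R) = e ⁻¹' rim N := by
    have := e.toHomeomorph.preimage_frontier R
    rw [hR, frontier_prod_eq, closure_Icc, closure_Icc, frontier_Icc hN.le,
      frontier_Icc zero_le_one] at this
    exact this.symm
  have hint : (interior (e ⁻¹' R)).Nonempty := by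
    have := e.toHomeomorph.preimage_interior R
    rw [hR, interior_prod_eq, interior_Icc, interior_Icc] at this
    refine ⟨e.symm (N / 2, 1 / 2), this.subset ?_⟩
    change e (e.symm (N / 2, 1 / 2)) ∈ Ioo 0 N ×ˢ Ioo (0 : ℝ) 1
    rw [e.apply_symm_apply]
    exact ⟨⟨by linarith, by linarith⟩, by norm_num, by norm_num⟩
  have hb : Bornology.IsBounded (e ⁻¹' R) :=
    (e.toHomeomorph.isCompact_preimage.2 (isCompact_Icc.prod isCompact_Icc)).isBounded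
  obtain ⟨h, -, h2, h3⟩ := exists_homeomorph_image_interior_closure_frontier_eq_unitBall
    (((convex_Icc 0 N).prod (convex_Icc 0 1)).linear_preimage
      (e : EuclideanSpace ℝ (Fin 2) →ₗ[ℝ] ℝ × ℝ)) hint hb
  change h '' closure (e ⁻¹' R) = _ at h2
  change h '' frontier (e ⁻¹' R) = _ at h3
  rw [hcl] at h2
  rw [hfr] at h3
  have hm : MapsTo (fun p => e (h.symm p)) (closedBall 0 1) R := by
    rw [← h2]; rintro _ ⟨p, hp, rfl⟩; simpa using hp
  refine ⟨fun p => Φ (e (h.symm p)), hc.comp (by fun_prop) hm,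
    fun p hp q hq hpq => h.symm.injective (e.injective (hi (hm hp) (hm hq) hpq)), ?_⟩
  rw [← h3, image_image]
  simp only [Homeomorph.symm_apply_apply]
  rw [← image_image Φ e, image_preimage_eq _ e.surjective]

theorem not_circle {K : Set E3} {P Q : E3} (h : P ≠ Q) (hs : segment ℝ P Q ⊆ K) :
    ¬ IsCircle K := by
  rintro ⟨c, n, r, -, -, rfl⟩
  have h1 := (hs (left_mem_segment ℝ P Q)).2
  have h2 := (hs (right_mem_segment ℝ P Q)).2
  have h3 := (hs (midpoint_mem_segment P Q)).2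
  rw [dist_eq_norm] at h1 h2 h3
  have h4 := parallelogram_law_with_norm ℝ (P - c) (Q - c)
  have h5 : P - c + (Q - c) = (2 : ℝ) • (midpoint ℝ P Q - c) := by
    rw [midpoint_eq_smul_add, smul_sub, smul_smul, mul_invOf_self, one_smul, two_smul]; abel
  rw [h5, norm_smul, h1, h2, h3, Real.norm_two, sub_sub_sub_cancel_right] at h4
  exact h (sub_eq_zero.1 (norm_eq_zero.1 (by nlinarith [norm_nonneg (P - Q)])))

end DiscB

open DiscB in
/-- The boundary of an embedded ruled rectangle is an unknotted curve and no circle. -/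
theorem ruled_disc {n : ℕ} {F G : ℝ → E3} {K : Set E3} (hn : 0 < n)
    (hinj : InjOn (fun q : ℝ × ℝ => (1 - q.2) • F q.1 + q.2 • G q.1)
      (Icc 0 (n : ℝ) ×ˢ Icc 0 1))
    (hK : K = F '' Icc 0 (n : ℝ) ∪ G '' Icc 0 (n : ℝ) ∪ segment ℝ (F 0) (G 0) ∪
      segment ℝ (F n) (G n))
    (hreg : ∀ j < n, RegOn F j ∧ RegOn G j) :
    IsCurve K ∧ Unknotted K ∧ ¬ IsCircle K := by
  have hN : (0 : ℝ) < n := by exact_mod_cast hn
  have hF := cont_of_reg n fun j hj => (hreg j hj).1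
  have hG := cont_of_reg n fun j hj => (hreg j hj).2
  set Φ : ℝ × ℝ → E3 := fun q => (1 - q.2) • F q.1 + q.2 • G q.1 with hΦ
  have hc : ContinuousOn Φ (Icc 0 (n : ℝ) ×ˢ Icc 0 1) :=
    ((by fun_prop : ContinuousOn (fun q : ℝ × ℝ => 1 - q.2) _).smul
      (hF.comp continuousOn_fst fun _ h => h.1)).add
      (continuousOn_snd.smul (hG.comp continuousOn_fst fun _ h => h.1))
  have hne : ∀ a ∈ Icc (0 : ℝ) n, F a ≠ G a := fun a ha e => by
    have := @hinj (a, 0) ⟨ha, le_rfl, zero_le_one⟩ (a, 1) ⟨ha, zero_le_one, le_rfl⟩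
      (by simp [hΦ, e])
    simp at this
  have hK' : K = Φ '' rim n := by rw [hK, rim_image]
  refine ⟨?_, hK' ▸ unknot hN hc hinj,
    not_circle (hne 0 ⟨le_rfl, hN.le⟩) (hK ▸ subset_union_right.trans subset_union_left)⟩
  set M : ℝ := 2 * n + 2 with hM
  have hM0 : 0 < M := by positivity
  have hmem : ∀ s ∈ Icc (0 : ℝ) 1, bd n (M * s) ∈ Icc 0 (n : ℝ) ×ˢ Icc (0 : ℝ) 1 := fun s hs =>
    rim_sub hN.le (bd_image hN.le ▸ ⟨M * s, ⟨mul_nonneg hM0.le hs.1,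
      mul_le_of_le_one_right hM0.le hs.2⟩, rfl⟩)
  refine ⟨fun s => Φ (bd n (M * s)), 2 * n + 2, fun i => i / M, by omega, by simp, ?_, ?_,
    hc.comp ((bd_cont n).comp (by fun_prop)).continuousOn hmem, ?_, ?_, ?_, ?_⟩
  · push_cast; exact div_self hM0.ne'
  · intro i _
    push_cast
    exact div_lt_div_of_pos_right (by linarith) hM0
  · simp only [mul_zero, mul_one]
    rw [bd1 le_rfl hN.le, bd4 hN.le (by linarith) le_rfl, sub_self]
  · intro a ha b hb e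
    have h1 := hinj (hmem a (Ico_subset_Icc_self ha)) (hmem b (Ico_subset_Icc_self hb)) e
    exact mul_left_cancel₀ hM0.ne' (bd_inj hN
      ⟨mul_nonneg hM0.le ha.1, mul_lt_of_lt_one_right hM0 ha.2⟩
      ⟨mul_nonneg hM0.le hb.1, mul_lt_of_lt_one_right hM0 hb.2⟩ h1)
  · rw [hK', ← bd_image hN.le, image_image, ← image_image (fun τ => Φ (bd n τ)) fun s => M * s,
      image_mul_left_Icc hM0.le zero_le_one, mul_zero, mul_one]
  · intro i hi
    have hlt : (i : ℝ) / M < ((i + 1 : ℕ) : ℝ) / M := by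
      push_cast
      exact div_lt_div_of_pos_right (by linarith) hM0
    have hs : ∀ s ∈ Icc ((i : ℝ) / M) (((i + 1 : ℕ) : ℝ) / M), i ≤ M * s ∧ M * s ≤ i + 1 :=
      fun s h => ⟨by have := (div_le_iff₀ hM0).1 h.1; linarith,
        by have := (le_div_iff₀ hM0).1 h.2; push_cast at this; linarith⟩
    have hi0 : (0 : ℝ) ≤ i := Nat.cast_nonneg i
    rcases lt_trichotomy i n with h | rfl | h
    · obtain ⟨f, f1, f2, f3⟩ := (hreg i h).1
      have h' : (i : ℝ) + 1 ≤ n := by exact_mod_cast h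
      refine (Rg.aff ⟨f1, f2⟩ 0 hM0.ne').piece hlt fun s h1 => ?_
      obtain ⟨h2, h3⟩ := hs s h1
      simp only [bd1 (hi0.trans h2) (h3.trans h'), hΦ, sub_zero, one_smul, zero_smul, add_zero]
      exact f3 ⟨h2, h3⟩
    · refine ((rg_line (hne i ⟨hN.le, le_rfl⟩)).aff (-i) hM0.ne').piece hlt fun s h1 => ?_
      obtain ⟨h2, h3⟩ := hs s h1
      simp only [bd2 hN.le h2 h3, hΦ, sub_eq_add_neg]
    · rcases lt_or_ge i (2 * n + 1) with h4 | h4
      · obtain ⟨j, hj⟩ : ∃ j, j + i = 2 * n := ⟨2 * n - i, by omega⟩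
        obtain ⟨f, f1, f2, f3⟩ := (hreg j (by omega)).2
        have e1 : (j : ℝ) + i = 2 * n := by exact_mod_cast hj
        have e2 : (n : ℝ) + 1 ≤ i := by exact_mod_cast h
        have e3 : (0 : ℝ) ≤ j := Nat.cast_nonneg j
        refine (Rg.aff ⟨f1, f2⟩ (2 * n + 1) (neg_ne_zero.2 hM0.ne')).piece hlt fun s h1 => ?_
        obtain ⟨h2, h3⟩ := hs s h1
        simp only [bd3 (e2.trans h2) (show M * s ≤ 2 * n + 1 by linarith), hΦ, sub_self,
          one_smul, zero_smul, zero_add]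
        rw [show -M * s + (2 * n + 1) = 2 * n + 1 - M * s by ring]
        exact f3 ⟨by linarith, by linarith⟩
      · have e1 : (i : ℝ) = 2 * n + 1 := by exact_mod_cast (by omega : i = 2 * n + 1)
        refine ((rg_line (hne 0 ⟨le_rfl, hN.le⟩)).aff (2 * n + 2)
          (neg_ne_zero.2 hM0.ne')).piece hlt fun s h1 => ?_
        obtain ⟨h2, h3⟩ := hs s h1
        simp only [bd4 hN.le (e1 ▸ h2) (show M * s ≤ 2 * n + 2 by linarith), hΦ]
        rw [show -M * s + (2 * n + 2) = 2 * n + 2 - M * s by ring]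

theorem IsCurve.isConnected {K : Set E3} (h : IsCurve K) : IsConnected K := by
  obtain ⟨γ, -, -, -, -, -, -, h1, -, -, rfl, -⟩ := h
  exact (isConnected_Icc zero_le_one).image γ h1

end Pool.Agent.P.MP_c51580_gt
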