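import Pool.Agent.P.MP_c51580_gt.CircB
import Pool.Agent.P.MP_c51580_gt.ModelA
import Pool.Agent.P.MP_c51580_gt.ConnB

namespace Pool.Agent.P.MP_c51580_gt

open Set Metric Filter Topology
open scoped RealInnerProductSpace

namespace Null

theorem glue {X ι G : Type*} [TopologicalSpace X] [Group G] {c : X → X → G} (F : Finset ι)
    (W : ι → Set X) (t : ι → X → G) (hW : ∀ i ∈ F, IsClosed (W i))
    (ht : ∀ i ∈ F, Sec c (W i) (t i))
    (he : ∀ i ∈ F, ∀ j ∈ F, ∀ p ∈ W i, p ∈ W j → t i p = t j p) :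
    ∃ s, Sec c (⋃ i ∈ F, W i) s := by
  classical
  let s : X → G := fun p => if h : ∃ i ∈ F, p ∈ W i then t h.choose p else 1
  have hs : ∀ i ∈ F, Sec c (W i) s := fun i hi => (ht i hi).congr fun p hp => by
    have h : ∃ i ∈ F, p ∈ W i := ⟨i, hi, hp⟩
    simp only [s, dif_pos h]
    exact he i hi _ h.choose_spec.1 p hp h.choose_spec.2
  refine ⟨s, ?_⟩
  clear_value s
  clear ht he
  induction F using Finset.induction_on with
  | empty => intro x hx; simp at hx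
  | insert i F hi ih =>
    rw [Finset.set_biUnion_insert]
    exact Sec.union_closed (hW i (Finset.mem_insert_self _ _))
      (isClosed_biUnion_finset fun j hj => hW j (Finset.mem_insert_of_mem hj))
      (hs i (Finset.mem_insert_self _ _))
      (ih (fun j hj => hW j (Finset.mem_insert_of_mem hj))
        fun j hj => hs j (Finset.mem_insert_of_mem hj))

theorem ell_seg (T : E3 ≃ᵃ[ℝ] E3) {u v q : E3} (hq : q ∈ segment ℝ u v) :
    ∃ t : ℝ, 0 ≤ t ∧ t ≤ 1 ∧ ell (T.symm q) = (1 - t) * ell (T.symm u) + t * ell (T.symm v) := by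
  rw [segment_eq_image_lineMap] at hq
  obtain ⟨t, ht, rfl⟩ := hq
  refine ⟨t, ht.1, ht.2, ?_⟩
  rw [AffineEquiv.apply_lineMap, AffineMap.lineMap_apply_module, ell_combo]

theorem isClosed_seg (u v : E3) : IsClosed (segment ℝ u v) := by
  rw [segment_eq_image_lineMap]
  exact (isCompact_Icc.image AffineMap.lineMap_continuous).isClosed

theorem mf_mem {u : ℝ} (hu : u ∈ Icc (0 : ℝ) 38) : mf u ∈ Mbox := by
  simpa using band_mem hu (t := 0) (by simp)

theorem mg_mem {u : ℝ} (hu : u ∈ Icc (0 : ℝ) 38) : mg u ∈ Mbox := by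
  simpa using band_mem hu (t := 1) (by simp)

theorem ell_mg (u : ℝ) : ell (mg u) = ell (mf u) := by
  simpa using ell_band u 1

variable (D : Design)

theorem a_pos : 0 < D.a := by
  have := D.hab 0 (by have := D.hN; omega)
  linarith [this.1, this.2.1, this.2.2]

theorem pt_disc (σ : Sim) (t : ℝ) : σ.pt t ∈ σ.disc := σ.circ_subset_disc (σ.pt_mem t)

theorem chL_disc : D.chL ⊆ (D.σ 0).disc :=
  (D.σ 0).convex_disc.segment_subset (pt_disc _ _) (pt_disc _ _)

theorem chR_disc : D.chR ⊆ (D.σ (D.N - 1)).disc :=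
  (D.σ _).convex_disc.segment_subset (pt_disc _ _) (pt_disc _ _)

variable {D}

theorem arc_mem {k : ℕ} (hk : k < D.N) {p : E3} (hp : p ∈ D.arcF k ∪ D.arcG k) :
    ∃ t, -D.a ≤ t ∧ t ≤ D.a ∧ (t ≤ D.b k ∨ D.b' k ≤ t) ∧ p = (D.σ k).pt t := by
  have h := D.hab k hk
  rcases hp with ⟨t, ht, rfl⟩ | ⟨t, ht, rfl⟩
  · exact ⟨t, ht.1, by linarith [ht.2, h.2.1, h.2.2], Or.inl ht.2, rfl⟩
  · exact ⟨t, by linarith [ht.1, h.1, h.2.1], ht.2, Or.inr ht.1, rfl⟩

theorem arc_circ {k : ℕ} {p : E3} (hp : p ∈ D.arcF k ∪ D.arcG k) : p ∈ (D.σ k).circ := by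
  rcases hp with ⟨t, -, rfl⟩ | ⟨t, -, rfl⟩ <;> exact Sim.pt_mem _ _

theorem str_mem {k : ℕ} {p : E3} (hp : p ∈ D.strF k ∪ D.strG k) : (D.T k).symm p ∈ Mbox := by
  rcases hp with ⟨_, ⟨u, hu, rfl⟩, rfl⟩ | ⟨_, ⟨u, hu, rfl⟩, rfl⟩
  · rw [AffineEquiv.symm_apply_apply]; exact mf_mem hu
  · rw [AffineEquiv.symm_apply_apply]; exact mg_mem hu

theorem box_ball {k : ℕ} (hk : k + 1 < D.N) {q : E3} (hq : (D.T k).symm q ∈ Mbox) :
    q ∈ ball (D.x (k + 1)) D.δ := by
  simpa using D.hbox k hk _ hq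

theorem box_disc {k l : ℕ} (hk : k + 1 < D.N) (hl : l < D.N) {q : E3}
    (hq : (D.T k).symm q ∈ Mbox) (hd : q ∈ (D.σ l).disc) : l = k ∨ l = k + 1 := by
  by_contra h
  exact Set.disjoint_left.1 (D.hball (k + 1) (by omega) hk l hl (by omega) (by omega))
    (box_ball hk hq) hd

theorem box_chL {k : ℕ} (hk : k + 1 < D.N) {q : E3} (hq : (D.T k).symm q ∈ Mbox) :
    q ∉ D.chL := fun h => by
  obtain rfl : k = 0 := by
    have := box_disc hk (by omega) hq (chL_disc D h)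
    omega
  have h1 := D.hab 0 (by omega)
  obtain ⟨t, t0, t1, e⟩ := ell_seg (D.T 0) h
  have a1 := D.hslabR 0 hk _ (Or.inl h1.1)
  have a2 := D.hslabR 0 hk _ (Or.inr h1.2.2)
  have a3 := hq.2.1
  rcases le_total t (1 / 2) with h2 | h2 <;> nlinarith

theorem box_chR {k : ℕ} (hk : k + 1 < D.N) {q : E3} (hq : (D.T k).symm q ∈ Mbox) :
    q ∉ D.chR := fun h => by
  have e1 : D.N - 1 = k + 1 := by
    have := box_disc hk (by omega) hq (chR_disc D h)
    omega
  have h1 := D.hab (k + 1) hk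
  rw [Design.chR, e1] at h
  obtain ⟨t, t0, t1, e⟩ := ell_seg (D.T k) h
  have a1 := D.hslabL k hk _ h1.1 (h1.2.1.trans h1.2.2)
  have a2 := D.hslabL k hk _ (h1.1.trans h1.2.1) h1.2.2
  have a3 := hq.1
  rcases le_total t (1 / 2) with h2 | h2 <;> nlinarith

theorem box_box {k l : ℕ} (hk : k + 1 < D.N) (hl : l + 1 < D.N) {q : E3}
    (hq : (D.T k).symm q ∈ Mbox) (hq' : (D.T l).symm q ∈ Mbox) : k = l := by
  by_contra h
  rcases lt_or_gt_of_ne h with h | h
  · exact Set.disjoint_left.1 (D.hballs (k + 1) (l + 1) (by omega) (by omega) hl)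
      (box_ball hk hq) (box_ball hl hq')
  · exact Set.disjoint_left.1 (D.hballs (l + 1) (k + 1) (by omega) (by omega) hk)
      (box_ball hl hq') (box_ball hk hq)

theorem box_near {k : ℕ} (hk : k + 1 < D.N) {t : ℝ}
    (hq : (D.T k).symm ((D.σ k).pt t) ∈ Mbox) : D.b k ≤ t ∧ t ≤ D.b' k := by
  by_contra h
  rw [not_and_or, not_le, not_le] at h
  linarith [D.hslabR k hk t h, hq.2.1]

theorem box_far {k : ℕ} (hk : k + 1 < D.N) {t : ℝ}
    (hq : (D.T k).symm ((D.σ (k + 1)).pt t) ∈ Mbox) : t ≤ -D.a ∨ D.a ≤ t := by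
  by_contra h
  rw [not_or, not_le, not_le] at h
  linarith [D.hslabL k hk t h.1 h.2, hq.1]

variable (D)

/-- The part of the curve at the junction `j`. -/
def jn : ℕ → Set E3
  | 0 => D.chL
  | k + 1 => if k + 1 < D.N then D.strF k ∪ D.strG k else D.chR

/-- The arc through the point at infinity. -/
def far (k : ℕ) : Set E3 := {(D.σ k).ptInf} ∪ (D.σ k).pt '' {t | D.a ≤ |t|}

/-- The short arc. -/
def near (k : ℕ) : Set E3 := (D.σ k).pt '' Icc (D.b k) (D.b' k)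

variable {D}

theorem jn_cases {j : ℕ} (hj : j ≤ D.N) {p : E3} (hp : p ∈ jn D j) :
    (j = 0 ∧ p ∈ D.chL) ∨ (j = D.N ∧ p ∈ D.chR) ∨
      ∃ k, j = k + 1 ∧ k + 1 < D.N ∧ (D.T k).symm p ∈ Mbox := by
  rcases j with _ | k
  · exact Or.inl ⟨rfl, hp⟩
  · by_cases h : k + 1 < D.N
    · rw [jn, if_pos h] at hp
      exact Or.inr (Or.inr ⟨k, rfl, h, str_mem hp⟩)
    · rw [jn, if_neg h] at hp
      exact Or.inr (Or.inl ⟨by omega, hp⟩)

theorem jn_ball {j : ℕ} (hj : j ≤ D.N) : jn D j ⊆ ball (D.x j) D.δ := fun p hp => by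
  have hN := D.hN
  have ha := a_pos D
  rcases jn_cases hj hp with ⟨rfl, h⟩ | ⟨rfl, h⟩ | ⟨k, rfl, hk, h⟩
  · have h1 := (D.harcL 0 (by omega)).2
    exact (convex_ball _ _).segment_subset (h1 _ (by rw [abs_neg, abs_of_pos ha]))
      (h1 _ (by rw [abs_of_pos ha])) h
  · have h1 := D.harcR (D.N - 1) (by omega)
    have h2 := (D.hab (D.N - 1) (by omega)).2.1.le
    rw [show D.N - 1 + 1 = D.N by omega] at h1
    exact (convex_ball _ _).segment_subset (h1 _ ⟨le_rfl, h2⟩) (h1 _ ⟨h2, le_rfl⟩) h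
  · exact box_ball hk h

theorem jn_closed (j : ℕ) : IsClosed (jn D j) := by
  rcases j with _ | k
  · exact isClosed_seg _ _
  · rw [jn]
    split_ifs
    · have hT : Continuous (D.T k) := (D.T k).toAffineMap.continuous_of_finiteDimensional
      exact ((isCompact_Icc.image continuous_mf).image hT).isClosed.union
        ((isCompact_Icc.image continuous_mg).image hT).isClosed
    · exact isClosed_seg _ _

theorem arc_closed (k : ℕ) : IsClosed (D.arcF k ∪ D.arcG k) :=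
  (isCompact_Icc.image (D.σ k).contDiff_pt.continuous).isClosed.union
    (isCompact_Icc.image (D.σ k).contDiff_pt.continuous).isClosed

theorem disc_eq {k l : ℕ} (hk : k < D.N) (hl : l < D.N) {p : E3} (h₁ : p ∈ (D.σ k).disc)
    (h₂ : p ∈ (D.σ l).disc) : k = l := by
  by_contra h
  exact Set.disjoint_left.1 (D.hdisc k hk l hl h) h₁ h₂

theorem jn_jn {i j : ℕ} (hi : i ≤ D.N) (hj : j ≤ D.N) {p : E3} (h₁ : p ∈ jn D i)
    (h₂ : p ∈ jn D j) : i = j := by
  have hN := D.hN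
  rcases jn_cases hi h₁ with ⟨rfl, h⟩ | ⟨rfl, h⟩ | ⟨k, rfl, hk, h⟩ <;>
    rcases jn_cases hj h₂ with ⟨rfl, h'⟩ | ⟨e, h'⟩ | ⟨l, rfl, hl, h'⟩
  · rfl
  · have := disc_eq (by omega) (by omega) (chL_disc D h) (chR_disc D h')
    omega
  · exact (box_chL hl h' h).elim
  · have := disc_eq (by omega) (by omega) (chL_disc D h') (chR_disc D h)
    omega
  · exact e.symm
  · exact (box_chR hl h' h).elim
  · exact (box_chL hk h h').elim
  · exact (box_chR hk h h').elim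
  · rw [box_box hk hl h h']

theorem arc_jn {k j : ℕ} (hk : k < D.N) (hj : j ≤ D.N) {p : E3} (h₁ : p ∈ D.arcF k ∪ D.arcG k)
    (h₂ : p ∈ jn D j) : (j = k ∧ p ∈ far D k) ∨ (j = k + 1 ∧ p ∈ near D k) := by
  have hN := D.hN
  have ha := a_pos D
  have hc := arc_circ h₁
  have hd := (D.σ k).circ_subset_disc hc
  rcases jn_cases hj h₂ with ⟨rfl, h⟩ | ⟨rfl, h⟩ | ⟨l, rfl, hl, h⟩
  · obtain rfl := disc_eq hk (by omega) hd (chL_disc D h)
    refine Or.inl ⟨rfl, Or.inr ?_⟩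
    rcases Sim.chord_inter _ (Sim.pt_mem _ _) (Sim.pt_mem _ _) h hc with e | e
    · exact ⟨_, (by rw [abs_neg, abs_of_pos ha] : D.a ≤ |-D.a|), e.symm⟩
    · exact ⟨_, (by rw [abs_of_pos ha] : D.a ≤ |D.a|), e.symm⟩
  · obtain rfl := disc_eq hk (by omega) hd (chR_disc D h)
    refine Or.inr ⟨by omega, ?_⟩
    have h2 := (D.hab (D.N - 1) hk).2.1.le
    rcases Sim.chord_inter _ (Sim.pt_mem _ _) (Sim.pt_mem _ _) h hc with e | e
    · exact ⟨_, ⟨le_rfl, h2⟩, e.symm⟩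
    · exact ⟨_, ⟨h2, le_rfl⟩, e.symm⟩
  · obtain ⟨t, -, -, -, rfl⟩ := arc_mem hk h₁
    rcases box_disc hl hk h hd with rfl | rfl
    · exact Or.inr ⟨rfl, t, box_near hl h, rfl⟩
    · refine Or.inl ⟨rfl, Or.inr ⟨t, ?_, rfl⟩⟩
      rcases box_far hl h with e | e
      · exact le_abs.2 (Or.inr (le_neg.1 e))
      · exact le_abs.2 (Or.inl e)

theorem K_subset : D.K ⊆ ⋃ i ∈ (Finset.range D.N).disjSum (Finset.range (D.N + 1)),
    Sum.elim (fun k => D.arcF k ∪ D.arcG k) (jn D) i := by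
  have hN := D.hN
  rintro p (((h | h) | ⟨k, hk, h⟩) | ⟨k, hk, h⟩) <;> rw [mem_iUnion₂]
  · exact ⟨Sum.inr 0, by simp, h⟩
  · refine ⟨Sum.inr (D.N - 1 + 1), by simp; omega, ?_⟩
    rw [Sum.elim_inr, jn, if_neg (by omega)]
    exact h
  · exact ⟨Sum.inl k, by simpa using hk, h⟩
  · refine ⟨Sum.inr (k + 1), by simp; omega, ?_⟩
    rw [Sum.elim_inr, jn, if_pos hk]
    exact h

end Null

open Null

theorem Design.K_box (D : Design) {k : ℕ} (hk : k + 1 < D.N) {p : E3} (hp : p ∈ Obox)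
    (hK : D.T k p ∈ D.K) : p ∈ kn ∨ p ∈ mg '' Icc 0 38 := by
  have hq : (D.T k).symm (D.T k p) ∈ Mbox := by
    rw [AffineEquiv.symm_apply_apply]; exact Obox_subset hp
  have he := ell_Obox hp
  have e0 : ell (mf 0) = 6 := by simp [mf_zero, ell]
  have e1 : ell (mf 38) = -4 := by simp [mf_38, ell]
  obtain ⟨t1, t2, t3, t4⟩ := D.hT k hk
  rcases hK with ((h | h) | ⟨l, hl, h⟩) | ⟨l, hl, h⟩
  · exact (box_chL hk hq h).elim
  · exact (box_chR hk hq h).elim
  · exfalso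
    have hd := (D.σ l).circ_subset_disc (arc_circ h)
    obtain ⟨t, a1, a2, a3, e⟩ := arc_mem hl h
    rcases box_disc hk hl hq hd with rfl | rfl
    · have h2 := box_near hk (e ▸ hq)
      rcases a3 with a3 | a3
      · rw [le_antisymm a3 h2.1, ← t1] at e
        rw [(D.T l).injective e] at he
        linarith [he.2]
      · rw [le_antisymm h2.2 a3, ← t2] at e
        rw [(D.T l).injective e, ell_mg] at he
        linarith [he.2]
    · rcases box_far hk (e ▸ hq) with h2 | h2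
      · rw [le_antisymm h2 a1, ← t3] at e
        rw [(D.T k).injective e] at he
        linarith [he.1]
      · rw [le_antisymm a2 h2, ← t4] at e
        rw [(D.T k).injective e, ell_mg] at he
        linarith [he.1]
  · obtain rfl := box_box hk hl hq (str_mem h)
    rcases h with ⟨_, ⟨u, hu, rfl⟩, e⟩ | ⟨_, ⟨u, hu, rfl⟩, e⟩
    · obtain rfl := (D.T k).injective e
      exact Or.inl (mf_mem_kn hu hp)
    · exact Or.inr ⟨u, hu, (D.T k).injective e⟩

/-- Paper, L3. -/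
theorem Design.exists_sec (D : Design) {J₁ J₂ : Set E3}
    (hb : ∀ j ≤ D.N, Disjoint (J₁ ∪ J₂) (ball (D.x j) D.δ))
    (hU : ∀ k < D.N, U (D.σ k) J₁ ∧ U (D.σ k) J₂) {G : Type*} [Group G] {c : E3 → E3 → G}
    (hc : Flat c (J₁ ∪ J₂)ᶜ) : ∃ s, Sec c D.K s := by
  have hs : ∀ k < D.N, ∃ s, Sec c (D.σ k).circ s := fun k hk => by
    obtain ⟨κ, h1, h2, h3⟩ := exists_cap (D.σ k) (hU k hk).1 (hU k hk).2
    obtain ⟨s, h⟩ := exists_sec_convex (W := (J₁ ∪ J₂)ᶜ) (D.σ k).convex_disc h1.continuousOn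
      h2 hc
    refine ⟨s, (h.mono (D.σ k).circ_subset_disc).congr_conn fun x hx => ?_⟩
    filter_upwards [self_mem_nhdsWithin] with y hy
    rw [h3 x hx, h3 y hy]
  have hβ : ∀ j ≤ D.N, ∃ s, Sec c (ball (D.x j) D.δ) s := fun j hj =>
    exists_sec_convex (f := id) (W := (J₁ ∪ J₂)ᶜ) (convex_ball _ _) continuousOn_id
      (fun p hp h => Set.disjoint_left.1 (hb j hj) h hp) hc
  choose! s hs using hs
  choose! β hβ using hβ
  let h : ℕ → G := fun k => Nat.rec 1 (fun k g => (β (k + 1) ((D.σ k).pt (D.b k)))⁻¹ *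
    s k ((D.σ k).pt (D.b k)) * ((s k (D.σ k).ptInf)⁻¹ * β k (D.σ k).ptInf * g)) k
  let g : ℕ → G := fun k => (s k (D.σ k).ptInf)⁻¹ * β k (D.σ k).ptInf * h k
  have hfar : ∀ k < D.N, ∀ p ∈ far D k, s k p * g k = β k p * h k := fun k hk p hp => by
    have h1 : far D k ⊆ (D.σ k).circ := by
      rintro _ (rfl | ⟨t, -, rfl⟩)
      exacts [Sim.ptInf_mem _, Sim.pt_mem _ _]
    have h2 : far D k ⊆ ball (D.x k) D.δ := by
      rintro _ (rfl | ⟨t, ht, rfl⟩)
      exacts [(D.harcL k hk).1, (D.harcL k hk).2 t ht]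
    have h3 := Sec.unique ((D.σ k).isPreconnected_farArc (a_pos D)) ((hs k hk).mono h1)
      ((hβ k hk.le).mono h2) (Or.inl rfl) hp
    simp only [g]
    rw [h3, mul_assoc, mul_inv_cancel_left]
  have hnear : ∀ k < D.N, ∀ p ∈ near D k, s k p * g k = β (k + 1) p * h (k + 1) :=
    fun k hk p hp => by
    have h1 : near D k ⊆ (D.σ k).circ := by
      rintro _ ⟨t, -, rfl⟩
      exact Sim.pt_mem _ _
    have h2 : near D k ⊆ ball (D.x (k + 1)) D.δ := by
      rintro _ ⟨t, ht, rfl⟩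
      exact D.harcR k hk t ht
    have h3 := Sec.unique (isPreconnected_Icc.image _ (D.σ k).contDiff_pt.continuous.continuousOn)
      ((hβ (k + 1) hk).mono h2) ((hs k hk).mono h1)
      ⟨D.b k, ⟨le_rfl, (D.hab k hk).2.1.le⟩, rfl⟩ hp
    have h4 : h (k + 1) = (β (k + 1) ((D.σ k).pt (D.b k)))⁻¹ *
      s k ((D.σ k).pt (D.b k)) * g k := rfl
    rw [h4, h3, mul_assoc, mul_inv_cancel_left]
  have hmix : ∀ k < D.N, ∀ j ≤ D.N, ∀ p ∈ D.arcF k ∪ D.arcG k, p ∈ jn D j →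
      s k p * g k = β j p * h j := fun k hk j hj p h1 h2 => by
    rcases arc_jn hk hj h1 h2 with ⟨rfl, h3⟩ | ⟨rfl, h3⟩
    exacts [hfar _ hk p h3, hnear _ hk p h3]
  obtain ⟨S, hS⟩ := glue (c := c) ((Finset.range D.N).disjSum (Finset.range (D.N + 1)))
    (Sum.elim (fun k => D.arcF k ∪ D.arcG k) (jn D))
    (Sum.elim (fun k p => s k p * g k) (fun j p => β j p * h j))
    (by
      rintro (k | j) -
      exacts [arc_closed k, jn_closed j])
    (by
      rintro (k | j) hi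
      · exact ((hs k (by simpa using hi)).mono fun p hp => arc_circ hp).mul_const _
      · have hj : j ≤ D.N := by simpa [Nat.lt_succ_iff] using hi
        exact ((hβ j hj).mono (jn_ball hj)).mul_const _)
    (by
      rintro (k | i) hi (l | j) hj p h1 h2 <;>
        simp only [Finset.inl_mem_disjSum, Finset.inr_mem_disjSum, Finset.mem_range,
          Nat.lt_succ_iff, Sum.elim_inl, Sum.elim_inr] at hi hj h1 h2 ⊢
      · rw [disc_eq hi hj ((D.σ k).circ_subset_disc (arc_circ h1))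
          ((D.σ l).circ_subset_disc (arc_circ h2))]
      · exact hmix k hi j hj p h1 h2
      · exact (hmix l hj i hi p h2 h1).symm
      · rw [jn_jn hi hj h1 h2])
  exact ⟨S, hS.mono K_subset⟩

end Pool.Agent.P.MP_c51580_gt
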