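import Pool.Agent.P.MP_c51580_gt.ConnA

namespace Pool.Agent.P.MP_c51580_gt

open Set Metric Filter Topology
open scoped RealInnerProductSpace

namespace Std

theorem cont (i : Fin 3) : Continuous fun p : E3 => p i := by fun_prop

theorem closed1 : IsClosed ell1 :=
  (isClosed_eq (cont 2) continuous_const).inter
    (isClosed_eq (by have := cont 0; have := cont 1; fun_prop) continuous_const)

theorem closed2 : IsClosed ell2 :=
  (isClosed_eq (cont 0) continuous_const).inter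
    (isClosed_eq (by have := cont 1; have := cont 2; fun_prop) continuous_const)

theorem closed3 : IsClosed ell3 :=
  (isClosed_eq (cont 1) continuous_const).inter
    (isClosed_eq (by have := cont 0; have := cont 2; fun_prop) continuous_const)

theorem not12 {p : E3} (h₁ : p ∈ ell1) (h₂ : p ∈ ell2) : False := by
  obtain ⟨a, b⟩ := h₁
  obtain ⟨c, d⟩ := h₂
  rw [c] at b; rw [a] at d; nlinarith

theorem not23 {p : E3} (h₁ : p ∈ ell2) (h₂ : p ∈ ell3) : False := by
  obtain ⟨a, b⟩ := h₁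
  obtain ⟨c, d⟩ := h₂
  rw [c] at b; rw [a] at d; nlinarith

theorem not13 {p : E3} (h₁ : p ∈ ell1) (h₂ : p ∈ ell3) : False := by
  obtain ⟨a, b⟩ := h₁
  obtain ⟨c, d⟩ := h₂
  rw [c] at b; rw [a] at d; nlinarith

theorem sub_one {A : Set E3} (hA : IsPreconnected A) (hs : A ⊆ Bor) :
    A ⊆ ell1 ∨ A ⊆ ell2 ∨ A ⊆ ell3 := by
  have key := isPreconnected_iff_subset_of_disjoint_closed.1 hA
  rcases key (ell1 ∪ ell2) ell3 (closed1.union closed2) closed3 hs (by
      ext p
      simp only [mem_inter_iff, mem_union, mem_empty_iff_false, iff_false, not_and]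
      rintro - (h | h) h'
      · exact not13 h h'
      · exact not23 h h') with h | h
  · rcases key ell1 ell2 closed1 closed2 h (by
        ext p
        simp only [mem_inter_iff, mem_empty_iff_false, iff_false, not_and]
        rintro - h h'
        exact not12 h h') with h | h
    · exact Or.inl h
    · exact Or.inr (Or.inl h)
  · exact Or.inr (Or.inr h)

theorem pt1 : (!₂[1, 0, 0] : E3) ∈ ell1 := by simp [ell1]

theorem pt2 : (!₂[0, 1, 0] : E3) ∈ ell2 := by simp [ell2]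

/-- Matching of the components, when the third one lies in `ell3`. -/
theorem matching {A B C : Set E3} (hA : IsPreconnected A) (hB : IsPreconnected B)
    (hU : A ∪ B ∪ C = Bor) (hC : C ⊆ ell3) :
    C = ell3 ∧ ell1 ∪ ell2 ⊆ A ∪ B ∧ (A ⊆ ell1 ∨ A ⊆ ell2) ∧ (B ⊆ ell1 ∨ B ⊆ ell2) := by
  have h12 : ell1 ∪ ell2 ⊆ A ∪ B := by
    intro p hp
    have : p ∈ A ∪ B ∪ C := by rw [hU]; exact Or.inl hp
    rcases this with h | h
    · exact h
    · rcases hp with hp | hp
      · exact (not13 hp (hC h)).elim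
      · exact (not23 hp (hC h)).elim
  have hAs := sub_one hA (by rw [← hU]; exact fun p hp => Or.inl (Or.inl hp))
  have hBs := sub_one hB (by rw [← hU]; exact fun p hp => Or.inl (Or.inr hp))
  have q1 := h12 (Or.inl pt1)
  have q2 := h12 (Or.inr pt2)
  have hA' : A ⊆ ell1 ∨ A ⊆ ell2 := by
    rcases hAs with h | h | h
    · exact Or.inl h
    · exact Or.inr h
    · exfalso
      have r1 : (!₂[1, 0, 0] : E3) ∈ B := q1.resolve_left fun t => not13 pt1 (h t)
      have r2 : (!₂[0, 1, 0] : E3) ∈ B := q2.resolve_left fun t => not23 pt2 (h t)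
      rcases hBs with k | k | k
      · exact not12 (k r2) pt2
      · exact not12 pt1 (k r1)
      · exact not13 pt1 (k r1)
  have hB' : B ⊆ ell1 ∨ B ⊆ ell2 := by
    rcases hBs with h | h | h
    · exact Or.inl h
    · exact Or.inr h
    · exfalso
      have r1 : (!₂[1, 0, 0] : E3) ∈ A := q1.resolve_right fun t => not13 pt1 (h t)
      have r2 : (!₂[0, 1, 0] : E3) ∈ A := q2.resolve_right fun t => not23 pt2 (h t)
      rcases hA' with k | k
      · exact not12 (k r2) pt2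
      · exact not12 pt1 (k r1)
  refine ⟨hC.antisymm fun p hp => ?_, h12, hA', hB'⟩
  have : p ∈ A ∪ B ∪ C := by rw [hU]; exact Or.inr hp
  rcases this with (h | h) | h
  · rcases hA' with k | k
    · exact (not13 (k h) hp).elim
    · exact (not23 (k h) hp).elim
  · rcases hB' with k | k
    · exact (not13 (k h) hp).elim
    · exact (not23 (k h) hp).elim
  · exact h

/-- The cyclic permutation of the coordinates. -/
def rho : E3 ≃ₜ E3 where
  toFun p := !₂[p 2, p 0, p 1]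
  invFun q := !₂[q 1, q 2, q 0]
  left_inv p := by ext i; fin_cases i <;> simp
  right_inv q := by ext i; fin_cases i <;> simp
  continuous_toFun := by
    have := cont 0; have := cont 1; have := cont 2
    fun_prop
  continuous_invFun := by
    have := cont 0; have := cont 1; have := cont 2
    fun_prop

theorem rho1 {p : E3} : rho p ∈ ell2 ↔ p ∈ ell1 := by simp [rho, ell1, ell2]

theorem rho2 {p : E3} : rho p ∈ ell3 ↔ p ∈ ell2 := by simp [rho, ell2, ell3]

theorem rho3 {p : E3} : rho p ∈ ell1 ↔ p ∈ ell3 := by simp [rho, ell1, ell3]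

theorem rho_bor : rho '' Bor = Bor := by
  have : rho ⁻¹' Bor = Bor := by
    ext p
    simp only [Bor, mem_preimage, mem_union, rho1, rho2, rho3]
    tauto
  conv_lhs => rw [← this]
  exact image_preimage_eq _ rho.surjective

/-- A normalised homeomorphism, carrying `K` into `ell3`. -/
theorem normalise {J K : Set E3} (h : E3 ≃ₜ E3) (hK : IsPreconnected K)
    (hh : h '' (J ∪ K) = Bor) : ∃ g : E3 ≃ₜ E3, g '' (J ∪ K) = Bor ∧ g '' K ⊆ ell3 := by
  have hs : h '' K ⊆ Bor := by rw [← hh]; exact image_mono subset_union_right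
  have step : ∀ g : E3 ≃ₜ E3, g '' (J ∪ K) = Bor → (g.trans rho) '' (J ∪ K) = Bor := by
    intro g hg
    rw [show ⇑(g.trans rho) = rho ∘ g from rfl, image_comp, hg, rho_bor]
  rcases sub_one (hK.image h h.continuous.continuousOn) hs with k | k | k
  · refine ⟨(h.trans rho).trans rho, step _ (step _ hh), ?_⟩
    rintro _ ⟨p, hp, rfl⟩
    exact rho2.2 (rho1.2 (k (mem_image_of_mem h hp)))
  · refine ⟨h.trans rho, step _ hh, ?_⟩
    rintro _ ⟨p, hp, rfl⟩
    exact rho2.2 (k (mem_image_of_mem h hp))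
  · exact ⟨h, hh, k⟩

/-- A shear followed by a scaling; it carries `ell3` onto the unit circle. -/
noncomputable def phi (t : ℝ) : E3 ≃ₜ E3 where
  toFun p := !₂[p 2, p 0 / 2, p 1 + t * (1 - p 2 ^ 2 - p 0 ^ 2 / 4)]
  invFun q := !₂[2 * q 1, q 2 - t * (1 - q 0 ^ 2 - q 1 ^ 2), q 0]
  left_inv p := by
    ext i; fin_cases i
    · simp; ring
    · simp; ring
    · simp
  right_inv q := by
    ext i; fin_cases i
    · simp
    · simp
    · simp; ring
  continuous_toFun := by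
    have := cont 0; have := cont 1; have := cont 2
    fun_prop
  continuous_invFun := by
    have := cont 0; have := cont 1; have := cont 2
    fun_prop

theorem phi0 (t : ℝ) (p : E3) : phi t p 0 = p 2 := rfl

theorem phi1 (t : ℝ) (p : E3) : phi t p 1 = p 0 / 2 := rfl

theorem phi2 (t : ℝ) (p : E3) : phi t p 2 = p 1 + t * (1 - p 2 ^ 2 - p 0 ^ 2 / 4) := rfl

theorem phi_ell3 (t : ℝ) : phi t '' ell3 = S0 := by
  have : phi t ⁻¹' S0 = ell3 := by
    ext p
    simp only [S0, ell3, mem_preimage, mem_ofPred_eq, phi0, phi1, phi2]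
    constructor
    · rintro ⟨a, b⟩
      have e : 1 - p 2 ^ 2 - p 0 ^ 2 / 4 = 0 := by linarith
      rw [e] at a
      exact ⟨by linarith, by linarith⟩
    · rintro ⟨a, b⟩
      have e : 1 - p 2 ^ 2 - p 0 ^ 2 / 4 = 0 := by linarith
      rw [e, a]
      exact ⟨by ring, by linarith⟩
  rw [← this]
  exact image_preimage_eq _ (phi t).surjective

theorem phi_ell1 {p : E3} (hp : p ∈ ell1) : phi 4 p ∉ D0 := by
  obtain ⟨a, b⟩ := hp
  rintro ⟨c, -⟩
  rw [phi2, a] at c
  nlinarith [sq_nonneg (p 0), sq_nonneg (p 1 + 2), sq_nonneg (p 1 - 2), sq_nonneg (p 1)]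

theorem phi_ell2 {p : E3} (hp : p ∈ ell2) : phi 0 p ∉ D0 := by
  obtain ⟨a, b⟩ := hp
  rintro ⟨c, d⟩
  rw [phi2] at c
  rw [phi0, phi1, a] at d
  have e : p 1 = 0 := by linarith
  rw [e] at b
  nlinarith

theorem unlink {J K : Set E3} (g : E3 ≃ₜ E3) (hK : g '' K = ell3)
    (hJ : g '' J ⊆ ell1 ∨ g '' J ⊆ ell2) :
    ∃ h' : E3 ≃ₜ E3, h' '' K = S0 ∧ Disjoint (h' '' J) D0 := by
  rcases hJ with k | k
  · refine ⟨g.trans (phi 4), ?_, ?_⟩
    · rw [show ⇑(g.trans (phi 4)) = phi 4 ∘ g from rfl, image_comp, hK, phi_ell3]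
    rw [Set.disjoint_left]
    rintro _ ⟨p, hp, rfl⟩
    exact phi_ell1 (k (mem_image_of_mem g hp))
  · refine ⟨g.trans (phi 0), ?_, ?_⟩
    · rw [show ⇑(g.trans (phi 0)) = phi 0 ∘ g from rfl, image_comp, hK, phi_ell3]
    rw [Set.disjoint_left]
    rintro _ ⟨p, hp, rfl⟩
    exact phi_ell2 (k (mem_image_of_mem g hp))

/-! ### The connection -/

/-- The outside of `ell1` in its plane. -/
def Wa : Set E3 := {p | p 2 = 0 ∧ 1 ≤ p 0 ^ 2 + p 1 ^ 2 / 4}

/-- The inside of `ell2` in its plane. -/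
def Wb : Set E3 := {p | p 0 = 0 ∧ p 1 ^ 2 + p 2 ^ 2 / 4 ≤ 1}

theorem closedWa : IsClosed Wa := by
  have hc : Continuous fun p : E3 => p 0 ^ 2 + p 1 ^ 2 / 4 := by
    have := cont 0; have := cont 1; fun_prop
  exact (isClosed_eq (cont 2) continuous_const).inter (isClosed_le continuous_const hc)

theorem closedWb : IsClosed Wb := by
  have hc : Continuous fun p : E3 => p 1 ^ 2 + p 2 ^ 2 / 4 := by
    have := cont 1; have := cont 2; fun_prop
  exact (isClosed_eq (cont 0) continuous_const).inter (isClosed_le hc continuous_const)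

theorem notab {p : E3} (h₁ : p ∈ Wa) (h₂ : p ∈ Wb) : False := by
  obtain ⟨a, b⟩ := h₁
  obtain ⟨c, d⟩ := h₂
  rw [c] at b; rw [a] at d; nlinarith

/-- The jump function across the plane `p i = 0`. -/
noncomputable def sig (a : D3) (i : Fin 3) (p : E3) : D3 := if 0 ≤ p i then a else 1

theorem sig_const (a : D3) (i : Fin 3) {y : E3} (hy : y i ≠ 0) :
    ∀ᶠ z in 𝓝 y, sig a i z = sig a i y := by
  rcases lt_or_gt_of_ne hy with h | h
  · have : ∀ᶠ z in 𝓝 y, z i < 0 := (cont i).continuousAt.eventually (gt_mem_nhds h)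
    filter_upwards [this] with z hz
    simp [sig, not_le.2 hz, not_le.2 h]
  · have : ∀ᶠ z in 𝓝 y, 0 < z i := (cont i).continuousAt.eventually (lt_mem_nhds h)
    filter_upwards [this] with z hz
    simp [sig, hz.le, h.le]

def ga : D3 := DihedralGroup.sr 0

def gb : D3 := DihedralGroup.sr 1

theorem gab : ga * gb ≠ gb * ga := by decide

noncomputable def ca : E3 → E3 → D3 := wall (sig ga 2) Wa

noncomputable def cb : E3 → E3 → D3 := wall (sig gb 0) Wb

noncomputable def cc (x y : E3) : D3 := ca x y * cb x y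

theorem ca_not {x : E3} (hx : x ∉ Wa) (y : E3) : ca x y = 1 := by simp [ca, wall, hx]

theorem cb_not {x : E3} (hx : x ∉ Wb) (y : E3) : cb x y = 1 := by simp [cb, wall, hx]

theorem ca_mem {x : E3} (hx : x ∈ Wa) (y : E3) : ca x y = sig ga 2 y * (sig ga 2 x)⁻¹ := by
  simp [ca, wall, hx]

theorem cb_mem {x : E3} (hx : x ∈ Wb) (y : E3) : cb x y = sig gb 0 y * (sig gb 0 x)⁻¹ := by
  simp [cb, wall, hx]

theorem flat_ca : Flat ca (ell1 ∪ ell2)ᶜ := by
  refine flat_wall _ _ _ (fun x _ hx => closedWa.isOpen_compl.mem_nhds hx) ?_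
  intro x hx hw
  have h1 : 1 < x 0 ^ 2 + x 1 ^ 2 / 4 :=
    lt_of_le_of_ne hw.2 fun e => hx (Or.inl ⟨hw.1, e.symm⟩)
  have hc : Continuous fun p : E3 => p 0 ^ 2 + p 1 ^ 2 / 4 := by
    have := cont 0; have := cont 1; fun_prop
  filter_upwards [hc.continuousAt.eventually (lt_mem_nhds h1)] with y hy hn
  exact sig_const _ _ fun e => hn ⟨e, hy.le⟩

theorem flat_cb : Flat cb (ell1 ∪ ell2)ᶜ := by
  refine flat_wall _ _ _ (fun x _ hx => closedWb.isOpen_compl.mem_nhds hx) ?_
  intro x hx hw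
  have h1 : x 1 ^ 2 + x 2 ^ 2 / 4 < 1 :=
    lt_of_le_of_ne hw.2 fun e => hx (Or.inr ⟨hw.1, e⟩)
  have hc : Continuous fun p : E3 => p 1 ^ 2 + p 2 ^ 2 / 4 := by
    have := cont 1; have := cont 2; fun_prop
  filter_upwards [hc.continuousAt.eventually (gt_mem_nhds h1)] with y hy hn
  exact sig_const _ _ fun e => hn ⟨e, hy.le⟩

theorem flat_cc : Flat cc (ell1 ∪ ell2)ᶜ := by
  intro x hx
  by_cases hw : x ∈ Wa
  · have hb : x ∉ Wb := notab hw
    filter_upwards [flat_ca x hx, closedWb.isOpen_compl.mem_nhds hb] with y hy hyb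
    filter_upwards [hy] with z hz
    simp only [cc, cb_not hb, cb_not hyb, mul_one, hz]
  · filter_upwards [flat_cb x hx, closedWa.isOpen_compl.mem_nhds hw] with y hy hya
    filter_upwards [hy] with z hz
    simp only [cc, ca_not hw, ca_not hya, one_mul, hz]

/-- Along `ell3`, the second jump function is horizontal for `cb`. -/
theorem sec_b {x : E3} (hx : x ∈ ell3) : ∀ᶠ y in 𝓝 x, sig gb 0 y = cb x y * sig gb 0 x := by
  by_cases hb : x ∈ Wb
  · exact Eventually.of_forall fun y => by rw [cb_mem hb, inv_mul_cancel_right]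
  · have h0 : x 0 ≠ 0 := by
      intro e
      obtain ⟨a, b⟩ := hx
      refine hb ⟨e, ?_⟩
      rw [e] at b
      rw [a]
      nlinarith
    filter_upwards [sig_const gb 0 h0] with y hy
    rw [cb_not hb, one_mul, hy]

theorem mem_Wa {x : E3} (hx : x ∈ ell3) (h : x 2 = 0) : x ∈ Wa := by
  obtain ⟨a, b⟩ := hx
  refine ⟨h, ?_⟩
  rw [h] at b
  rw [a]
  nlinarith

theorem sec_up : Sec cc (ell3 ∩ {p | 0 ≤ p 2}) (sig gb 0) := by
  intro x hx
  filter_upwards [mem_nhdsWithin_of_mem_nhds (sec_b hx.1), self_mem_nhdsWithin] with y hy hy'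
  have e : ca x y = 1 := by
    by_cases hw : x ∈ Wa
    · have h1 : 0 ≤ y 2 := hy'.2
      have h2 : 0 ≤ x 2 := hx.2
      rw [ca_mem hw]
      simp [sig, h1, h2]
    · exact ca_not hw y
  rw [cc, e, one_mul]
  exact hy

theorem sec_down : Sec cc (ell3 ∩ {p | p 2 ≤ 0}) (fun p => sig ga 2 p * sig gb 0 p) := by
  intro x hx
  by_cases hw : x ∈ Wa
  · have hb : x ∉ Wb := notab hw
    filter_upwards [mem_nhdsWithin_of_mem_nhds (sec_b hx.1)] with y hy
    rw [cb_not hb, one_mul] at hy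
    rw [cc, cb_not hb, mul_one, ca_mem hw, hy]
    group
  · have h2 : x 2 ≠ 0 := fun e => hw (mem_Wa hx.1 e)
    have h3 : x 2 < 0 := lt_of_le_of_ne hx.2 h2
    have h4 : sig ga 2 x = 1 := by simp [sig, not_le.2 h3]
    filter_upwards [mem_nhdsWithin_of_mem_nhds (sec_b hx.1),
      mem_nhdsWithin_of_mem_nhds (sig_const ga 2 h2)] with y hy hy'
    rw [cc, ca_not hw, hy', h4, one_mul, one_mul, one_mul]
    exact hy

/-- The two closed arcs of `ell3`. -/
theorem arc (ε : ℝ) (hε : ε = 1 ∨ ε = -1) : IsPreconnected (ell3 ∩ {p | 0 ≤ ε * p 2}) := by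
  have hε2 : ε ^ 2 = 1 := by rcases hε with h | h <;> rw [h] <;> norm_num
  have hc : Continuous fun t : ℝ => (!₂[t, 0, ε * √(1 - t ^ 2 / 4)] : E3) := by fun_prop
  have := (isPreconnected_Icc (a := (-2 : ℝ)) (b := 2)).image _ hc.continuousOn
  convert this using 1
  ext p
  constructor
  · rintro ⟨⟨a, b⟩, c⟩
    have c' : 0 ≤ ε * p 2 := c
    refine ⟨p 0, ⟨by nlinarith [sq_nonneg (p 2)], by nlinarith [sq_nonneg (p 2)]⟩, ?_⟩
    have e : 1 - p 0 ^ 2 / 4 = (ε * p 2) ^ 2 := by rw [mul_pow, hε2]; linarith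
    ext i; fin_cases i
    · simp
    · simp [a]
    · show ε * √(1 - p 0 ^ 2 / 4) = p 2
      rw [e, Real.sqrt_sq c', ← mul_assoc, ← sq, hε2, one_mul]
  · rintro ⟨t, ⟨h1, h2⟩, rfl⟩
    have h3 : 0 ≤ 1 - t ^ 2 / 4 := by nlinarith
    refine ⟨⟨rfl, ?_⟩, ?_⟩
    · show (ε * √(1 - t ^ 2 / 4)) ^ 2 + t ^ 2 / 4 = 1
      rw [mul_pow, hε2, Real.sq_sqrt h3]; ring
    · show 0 ≤ ε * (ε * √(1 - t ^ 2 / 4))
      rw [← mul_assoc, ← sq, hε2, one_mul]
      exact Real.sqrt_nonneg _

theorem no_sec : ¬ ∃ s, Sec cc ell3 s := by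
  rintro ⟨s, hs⟩
  have hP : (!₂[2, 0, 0] : E3) ∈ ell3 := by simp [ell3]; norm_num
  have hQ : (!₂[-2, 0, 0] : E3) ∈ ell3 := by simp [ell3]; norm_num
  have a1 : IsPreconnected (ell3 ∩ {p : E3 | 0 ≤ p 2}) := by simpa using arc 1 (Or.inl rfl)
  have a2 : IsPreconnected (ell3 ∩ {p : E3 | p 2 ≤ 0}) := by simpa using arc (-1) (Or.inr rfl)
  have u1 := Sec.unique a1 sec_up (hs.mono inter_subset_left) (x := !₂[2, 0, 0])
    (y := !₂[-2, 0, 0]) ⟨hP, by simp⟩ ⟨hQ, by simp⟩
  have u2 := Sec.unique a2 sec_down (hs.mono inter_subset_left) (x := !₂[2, 0, 0])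
    (y := !₂[-2, 0, 0]) ⟨hP, by simp⟩ ⟨hQ, by simp⟩
  have e1 : sig gb 0 (!₂[2, 0, 0] : E3) = gb := by simp [sig]
  have e2 : sig gb 0 (!₂[-2, 0, 0] : E3) = 1 := by simp [sig]
  have e3 : sig ga 2 (!₂[2, 0, 0] : E3) = ga := by simp [sig]
  have e4 : sig ga 2 (!₂[-2, 0, 0] : E3) = ga := by simp [sig]
  simp only [e1, e2, e3, e4, inv_one, one_mul, mul_one] at u1 u2
  rw [← u1, ← mul_assoc, mul_left_inj, ← mul_inv_rev, inv_inj] at u2
  exact gab u2

end Std

/-- Paper, section 2. -/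
theorem std_side {J₁ J₂ K : Set E3} (h : E3 ≃ₜ E3) (hJ₁ : IsConnected J₁) (hJ₂ : IsConnected J₂)
    (hK : IsConnected K) (hh : h '' (J₁ ∪ J₂ ∪ K) = Bor) :
    (∃ c : E3 → E3 → D3, Flat c (J₁ ∪ J₂)ᶜ ∧ ¬ ∃ s, Sec c K s) ∧
    (∃ h' : E3 ≃ₜ E3, h' '' K = S0 ∧ Disjoint (h' '' J₁) D0) ∧
    (∃ h' : E3 ≃ₜ E3, h' '' K = S0 ∧ Disjoint (h' '' J₂) D0) := by
  obtain ⟨g, hg, hgK⟩ := Std.normalise h hK.isPreconnected hh
  rw [image_union, image_union] at hg
  obtain ⟨k3, k12, k1, k2⟩ := Std.matching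
    (hJ₁.isPreconnected.image g g.continuous.continuousOn)
    (hJ₂.isPreconnected.image g g.continuous.continuousOn) hg hgK
  refine ⟨⟨fun a b => Std.cc (g a) (g b), ?_, ?_⟩, Std.unlink g k3 k1, Std.unlink g k3 k2⟩
  · have ho : IsOpen (g ⁻¹' (ell1 ∪ ell2)ᶜ) :=
      (Std.closed1.union Std.closed2).isOpen_compl.preimage g.continuous
    refine (Std.flat_cc.comp ho g.continuous.continuousOn (mapsTo_preimage _ _)).mono ?_
    intro p hp hq
    have := k12 hq
    rw [← image_union, g.injective.mem_set_image] at this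
    exact hp this
  · rintro ⟨s, hs⟩
    refine Std.no_sec ⟨fun q => s (g.symm q), ?_⟩
    have hm : MapsTo g.symm ell3 K := by
      intro q hq
      rw [← k3] at hq
      obtain ⟨p, hp, rfl⟩ := hq
      simpa using hp
    simpa using hs.comp g.symm.continuous.continuousOn hm

end Pool.Agent.P.MP_c51580_gt
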