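import Pool.Agent.P.MP_c51580_gt.Bal
import Pool.Agent.P.MP_c51580_gt.Null
import Pool.Agent.P.MP_c51580_gt.Std
import Pool.Agent.P.MP_c51580_gt.DataA
import Pool.Agent.P.MP_c51580_gt.DataB
import Pool.Agent.P.MP_c51580_gt.DiscA
import Pool.Agent.P.MP_c51580_gt.DiscB

namespace Pool.Agent.P.MP_c51580_gt

open Set Metric Filter Topology
open scoped RealInnerProductSpace

namespace Design
variable (D : Design)

theorem strF_sub {k : ℕ} (hk : k + 1 < D.N) : D.strF k ⊆ D.K :=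
  fun _ hp => Or.inr ⟨k, hk, Or.inl hp⟩

theorem strG_sub {k : ℕ} (hk : k + 1 < D.N) : D.strG k ⊆ D.K :=
  fun _ hp => Or.inr ⟨k, hk, Or.inr hp⟩

theorem arc_sub {k : ℕ} (hk : k < D.N) : D.arcF k ∪ D.arcG k ⊆ D.K :=
  fun _ hp => Or.inl (Or.inr ⟨k, hk, hp⟩)

theorem chL_sub : D.chL ⊆ D.K := fun _ hp => Or.inl (Or.inl (Or.inl hp))

theorem chR_sub : D.chR ⊆ D.K := fun _ hp => Or.inl (Or.inl (Or.inr hp))

theorem strF_ball {k : ℕ} (hk : k + 1 < D.N) : D.strF k ⊆ ball (D.x (k + 1)) D.δ := by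
  rintro _ ⟨_, ⟨u, hu, rfl⟩, rfl⟩
  refine D.hbox k hk _ ?_
  simpa using band_mem hu (left_mem_Icc.2 zero_le_one)

theorem strG_ball {k : ℕ} (hk : k + 1 < D.N) : D.strG k ⊆ ball (D.x (k + 1)) D.δ := by
  rintro _ ⟨_, ⟨u, hu, rfl⟩, rfl⟩
  refine D.hbox k hk _ ?_
  simpa using band_mem hu (right_mem_Icc.2 zero_le_one)

theorem strF_pre (k : ℕ) : IsPreconnected (D.strF k) :=
  (isPreconnected_Icc.image _ continuous_mf.continuousOn).image _
    (D.T k).continuous_of_finiteDimensional.continuousOn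

theorem strG_pre (k : ℕ) : IsPreconnected (D.strG k) :=
  (isPreconnected_Icc.image _ continuous_mg.continuousOn).image _
    (D.T k).continuous_of_finiteDimensional.continuousOn

/-- The affine chart of a junction as a homeomorphism. -/
noncomputable def Th (k : ℕ) : E3 ≃ₜ E3 :=
  ⟨(D.T k).toEquiv, (D.T k).continuous_of_finiteDimensional,
    (D.T k).symm.continuous_of_finiteDimensional⟩

/-- Paper, L1. -/
theorem unlinked (τ : Sim) (h' : E3 ≃ₜ E3) (hK : h' '' D.K = S0)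
    (hJ : Disjoint (h' '' τ.circ) D0) {k : ℕ} (hk : k < D.N)
    (hl : Disjoint τ.circ (ball (D.x k) D.δ)) (hr : Disjoint τ.circ (ball (D.x (k + 1)) D.δ)) :
    U (D.σ k) τ.circ := by
  classical
  obtain ⟨t, ht, hat, hbal⟩ := balanced τ h' hK hJ
  have harg : ∀ j, Disjoint τ.circ (ball (D.x j) D.δ) → ∃ θ : E3 → ℝ,
      ContinuousOn θ (ball (D.x j) D.δ) ∧ ∀ p ∈ ball (D.x j) D.δ, IsArg (τ.G p) (θ p) :=
    fun j hj => exists_arg (convex_ball _ _) τ.continuous_G.continuousOn fun p hp h0 =>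
      disjoint_left.1 hj ((τ.G_eq_zero p).1 h0) hp
  have hconst : ∀ (j : ℕ) (θ : E3 → ℝ), ContinuousOn θ (ball (D.x j) D.δ) →
      (∀ p ∈ ball (D.x j) D.δ, IsArg (τ.G p) (θ p)) → ∀ V : Set E3, IsPreconnected V →
      V ⊆ D.K → V ⊆ ball (D.x j) D.δ → ∀ p ∈ V, ∀ q ∈ V, t p - θ p = t q - θ q :=
    fun j θ hθ ha V hV h1 h2 p hp q hq => arg_sub_const hV (ht.mono h1) (hθ.mono h2)
      (fun z hz => hat z (h1 hz)) (fun z hz => ha z (h2 hz)) hp hq
  have bal : ∀ j, j + 1 < D.N → ∀ θ : E3 → ℝ, ContinuousOn θ (ball (D.x (j + 1)) D.δ) →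
      (∀ p ∈ ball (D.x (j + 1)) D.δ, IsArg (τ.G p) (θ p)) →
      ∀ p ∈ D.strF j, ∀ q ∈ D.strG j, t p - θ p = t q - θ q := by
    intro j hj θ hθ ha p hp q hq
    have hO : (D.Th j) '' Obox ⊆ ball (D.x (j + 1)) D.δ := by
      rintro _ ⟨z, hz, rfl⟩
      exact D.hbox j hj z (Obox_subset hz)
    obtain ⟨z, hz, hn, hzK, e⟩ := hbal (D.Th j)
      (fun z => θ z + (t p - θ p)) ((hθ.mono hO).add continuousOn_const)
      (fun z hz => (ha z (hO hz)).add_sub (hat p (D.strF_sub hj hp)) (ha p (D.strF_ball hj hp)))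
      (by
        rintro _ ⟨⟨u, hu, rfl⟩, -⟩
        have h1 : D.T j (mf u) ∈ D.strF j :=
          ⟨_, ⟨u, ⟨hu.1, hu.2.trans (by norm_num)⟩, rfl⟩, rfl⟩
        refine ⟨D.strF_sub hj h1, ?_⟩
        have := hconst _ θ hθ ha _ (D.strF_pre j) (D.strF_sub hj) (D.strF_ball hj) p hp _ h1
        change t (D.T j (mf u)) = θ (D.T j (mf u)) + (t p - θ p)
        linarith)
    have h2 : D.T j z ∈ D.strG j := ⟨z, (D.K_box hj hz hzK).resolve_left hn, rfl⟩
    have := hconst _ θ hθ ha _ (D.strG_pre j) (D.strG_sub hj) (D.strG_ball hj) q hq _ h2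
    change t (D.T j z) = θ (D.T j z) + (t p - θ p) at e
    linarith
  obtain ⟨θL, hθL, haL⟩ := harg k hl
  obtain ⟨θR, hθR, haR⟩ := harg (k + 1) hr
  obtain ⟨h1, h2, h3⟩ := D.hab k hk
  have ha0 : 0 < D.a := by linarith
  have h038 : (0 : ℝ) ≤ 38 := by norm_num
  have hLm : (D.σ k).pt (-D.a) ∈ ball (D.x k) D.δ :=
    (D.harcL k hk).2 _ (by rw [abs_neg, abs_of_pos ha0])
  have hLp : (D.σ k).pt D.a ∈ ball (D.x k) D.δ := (D.harcL k hk).2 _ (by rw [abs_of_pos ha0])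
  have hRm : (D.σ k).pt (D.b k) ∈ ball (D.x (k + 1)) D.δ := D.harcR k hk _ ⟨le_rfl, h2.le⟩
  have hRp : (D.σ k).pt (D.b' k) ∈ ball (D.x (k + 1)) D.δ := D.harcR k hk _ ⟨h2.le, le_rfl⟩
  have eL : t ((D.σ k).pt (-D.a)) - θL ((D.σ k).pt (-D.a)) =
      t ((D.σ k).pt D.a) - θL ((D.σ k).pt D.a) := by
    rcases k with _ | j
    · exact hconst 0 θL hθL haL D.chL (convex_segment _ _).isPreconnected D.chL_sub
        ((convex_ball _ _).segment_subset hLm hLp) _ (left_mem_segment _ _ _) _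
        (right_mem_segment _ _ _)
    · obtain ⟨-, -, e1, e2⟩ := D.hT j hk
      rw [← e1, ← e2]
      exact bal j hk θL hθL haL _ ⟨_, ⟨38, right_mem_Icc.2 h038, rfl⟩, rfl⟩ _
        ⟨_, ⟨38, right_mem_Icc.2 h038, rfl⟩, rfl⟩
  have eR : t ((D.σ k).pt (D.b k)) - θR ((D.σ k).pt (D.b k)) =
      t ((D.σ k).pt (D.b' k)) - θR ((D.σ k).pt (D.b' k)) := by
    by_cases hk' : k + 1 < D.N
    · obtain ⟨e1, e2, -, -⟩ := D.hT k hk'
      rw [← e1, ← e2]
      exact bal k hk' θR hθR haR _ ⟨_, ⟨0, left_mem_Icc.2 h038, rfl⟩, rfl⟩ _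
        ⟨_, ⟨0, left_mem_Icc.2 h038, rfl⟩, rfl⟩
    · have e : D.N - 1 = k := by omega
      have hs := D.chR_sub
      rw [chR, e] at hs
      exact hconst (k + 1) θR hθR haR _ (convex_segment _ _).isPreconnected hs
        ((convex_ball _ _).segment_subset hRm hRp) _ (left_mem_segment _ _ _) _
        (right_mem_segment _ _ _)
  set σ := D.σ k with hσ
  set A : Set E3 := D.arcF k ∪ D.arcG k with hA
  set B : Set E3 := σ.pt '' Icc (D.b k) (D.b' k) with hB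
  set C : Set E3 := {σ.ptInf} ∪ σ.pt '' {s | D.a ≤ |s|} with hC
  set cL := t (σ.pt (-D.a)) - θL (σ.pt (-D.a)) with hcL
  set cR := t (σ.pt (D.b k)) - θR (σ.pt (D.b k)) with hcR
  have hpt : Continuous σ.pt := σ.contDiff_pt.continuous
  have cA : IsClosed A :=
    ((isCompact_Icc.image hpt).union (isCompact_Icc.image hpt)).isClosed
  have cB : IsClosed B := (isCompact_Icc.image hpt).isClosed
  have cC : IsClosed C := σ.isClosed_farArc ha0
  have hAK : A ⊆ D.K := D.arc_sub hk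
  have hBb : B ⊆ ball (D.x (k + 1)) D.δ := by
    rintro _ ⟨s, hs, rfl⟩; exact D.harcR k hk s hs
  have hCb : C ⊆ ball (D.x k) D.δ := by
    rintro _ (rfl | ⟨s, hs, rfl⟩)
    · exact (D.harcL k hk).1
    · exact (D.harcL k hk).2 s hs
  have hFm : σ.pt (-D.a) ∈ A := Or.inl ⟨_, ⟨le_rfl, h1.le⟩, rfl⟩
  have hFp : σ.pt (D.b k) ∈ A := Or.inl ⟨_, ⟨h1.le, le_rfl⟩, rfl⟩
  let Θ : E3 → ℝ := fun p => if p ∈ A then t p else if p ∈ B then θR p + cR else θL p + cL
  have eA : EqOn Θ t A := fun p hp => if_pos hp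
  have eB : EqOn Θ (fun p => θR p + cR) B := by
    rintro _ ⟨s, hs, rfl⟩
    by_cases h : σ.pt s ∈ A
    · rw [eA h]
      rcases h with ⟨s', hs', e⟩ | ⟨s', hs', e⟩
      · obtain rfl := σ.pt_injective e
        obtain rfl : s' = D.b k := le_antisymm hs'.2 hs.1
        simp only [hcR]; ring
      · obtain rfl := σ.pt_injective e
        obtain rfl : s' = D.b' k := le_antisymm hs.2 hs'.1
        simp only [eR]; ring
    · simp only [Θ, if_neg h, if_pos (show σ.pt s ∈ B from ⟨s, hs, rfl⟩)]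
  have eC : EqOn Θ (fun p => θL p + cL) C := by
    intro p hp
    by_cases h : p ∈ A
    · rw [eA h]
      rcases hp with rfl | ⟨s, hs, rfl⟩
      · rcases h with ⟨s', -, e⟩ | ⟨s', -, e⟩ <;> exact absurd e (σ.pt_ne_ptInf _)
      · have hs1 : D.a ≤ |s| := hs
        rcases h with ⟨s', hs', e⟩ | ⟨s', hs', e⟩
        · obtain rfl := σ.pt_injective e
          obtain rfl : s' = -D.a := by
            rcases le_abs.1 hs1 with h | h
            · linarith [hs'.2]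
            · linarith [hs'.1]
          simp only [hcL]; ring
        · obtain rfl := σ.pt_injective e
          obtain rfl : s' = D.a := by
            rcases le_abs.1 hs1 with h | h
            · linarith [hs'.2]
            · linarith [hs'.1]
          simp only [eL]; ring
    · have h' : p ∉ B := by
        rintro ⟨s', hs', e⟩
        rcases hp with rfl | ⟨s, hs, rfl⟩
        · exact σ.pt_ne_ptInf _ e
        · obtain rfl := σ.pt_injective e
          have hs1 : D.a ≤ |s'| := hs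
          rcases le_abs.1 hs1 with h | h <;> linarith [hs'.1, hs'.2]
      simp only [Θ, if_neg h, if_neg h']
  have hcov : σ.circ ⊆ A ∪ B ∪ C := by
    intro p hp
    rcases σ.mem_circ hp with rfl | ⟨s, rfl⟩
    · exact Or.inr (Or.inl rfl)
    · by_cases c1 : D.a ≤ |s|
      · exact Or.inr (Or.inr ⟨s, c1, rfl⟩)
      · rw [not_le, abs_lt] at c1
        rcases le_total s (D.b k) with c2 | c2
        · exact Or.inl (Or.inl (Or.inl ⟨s, ⟨c1.1.le, c2⟩, rfl⟩))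
        · rcases le_total s (D.b' k) with c3 | c3
          · exact Or.inl (Or.inr ⟨s, ⟨c2, c3⟩, rfl⟩)
          · exact Or.inl (Or.inl (Or.inr ⟨s, ⟨c3, c1.2.le⟩, rfl⟩))
  refine U_symm τ σ (U_of_arg τ σ (θ := Θ) ?_ ?_)
  · refine ContinuousOn.mono ?_ hcov
    refine (ContinuousOn.union_of_isClosed ((ht.mono hAK).congr eA)
      (((hθR.mono hBb).add continuousOn_const).congr eB) cA cB).union_of_isClosed
      (((hθL.mono hCb).add continuousOn_const).congr eC) (cA.union cB) cC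
  · intro p hp
    rcases hcov hp with (h | h) | h
    · rw [eA h]; exact hat p (hAK h)
    · rw [eB h]; exact (haR p (hBb h)).add_sub (hat _ (hAK hFp)) (haR _ hRm)
    · rw [eC h]; exact (haL p (hCb h)).add_sub (hat _ (hAK hFm)) (haL _ hLm)

/-- Paper, L2. -/
theorem misses (τ : Sim) (hτ : τ.r = D.R) (h' : E3 ≃ₜ E3) (hK : h' '' D.K = S0)
    (hJ : Disjoint (h' '' τ.circ) D0) {j : ℕ} (hj : j ≤ D.N) :
    Disjoint τ.circ (ball (D.x j) D.δ) := by
  by_contra h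
  obtain ⟨k, hk, h1, h2, h3⟩ := D.hhide j hj τ hτ h
  exact h3 (D.unlinked τ h' hK hJ hk h1 h2)

theorem not_forms (hK : IsConnected D.K) :
    ¬ FormsBorromean (bigCircle D.R) (bigCircle D.R) D.K := by
  rintro ⟨g₁, g₂, g₃, -, -, -, h, hh⟩
  obtain ⟨τ₁, r₁, e₁⟩ := isometry_circle (g₁.trans g₃.symm) D.hR
  obtain ⟨τ₂, r₂, e₂⟩ := isometry_circle (g₂.trans g₃.symm) D.hR
  have hh' : (g₃.toHomeomorph.trans h) '' (τ₁.circ ∪ τ₂.circ ∪ D.K) = Bor := by
    rw [← hh, ← e₁, ← e₂]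
    simp only [image_union, image_image, Homeomorph.trans_apply, IsometryEquiv.coe_toHomeomorph,
      IsometryEquiv.trans_apply, IsometryEquiv.apply_symm_apply]
  obtain ⟨⟨c, hc, hno⟩, ⟨h₁, k₁, j₁⟩, h₂, k₂, j₂⟩ :=
    std_side _ τ₁.isConnected_circ τ₂.isConnected_circ hK hh'
  have m₁ := fun j (hj : j ≤ D.N) => D.misses τ₁ r₁ h₁ k₁ j₁ hj
  have m₂ := fun j (hj : j ≤ D.N) => D.misses τ₂ r₂ h₂ k₂ j₂ hj
  refine hno (D.exists_sec (fun j hj => disjoint_union_left.2 ⟨m₁ j hj, m₂ j hj⟩)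
    (fun k hk => ⟨?_, ?_⟩) hc)
  · exact D.unlinked τ₁ h₁ k₁ j₁ hk (m₁ k hk.le) (m₁ (k + 1) hk)
  · exact D.unlinked τ₂ h₂ k₂ j₂ hk (m₂ k hk.le) (m₂ (k + 1) hk)

end Design

theorem main : ∃ C₁ C₂ C₃ : Set E3, IsCurve C₁ ∧ IsCurve C₂ ∧ IsCurve C₃ ∧
    Unknotted C₁ ∧ Unknotted C₂ ∧ Unknotted C₃ ∧ ¬ IsCircle C₃ ∧ ¬ FormsBorromean C₁ C₂ C₃ := by
  obtain ⟨P⟩ := exists_prim
  obtain ⟨D⟩ := design_of_prim P
  obtain ⟨n, F, G, hn, hinj, hK, hreg⟩ := D.exists_param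
  obtain ⟨h1, h2, h3⟩ := ruled_disc hn hinj hK hreg
  exact ⟨bigCircle D.R, bigCircle D.R, D.K, isCurve_bigCircle D.hR, isCurve_bigCircle D.hR, h1,
    unknotted_bigCircle D.hR, unknotted_bigCircle D.hR, h2, h3, D.not_forms h1.isConnected⟩

end Pool.Agent.P.MP_c51580_gt
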