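import Pool.Agent.P.MP_c51580_gt.ModelA
import Pool.Agent.P.MP_c51580_gt.ConnB

namespace Pool.Agent.P.MP_c51580_gt

open Set Metric Filter Topology
open scoped RealInnerProductSpace

/-! ### Vertical and horizontal retractions -/

noncomputable def mbZ (h : ℝ) (p : E3) : E3 := !₂[p 0, p 1, h]

noncomputable def mbY (h : ℝ) (p : E3) : E3 := !₂[p 0, h, p 2]

theorem mb_cont (i : Fin 3) : Continuous fun p : E3 => p i := by fun_prop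

theorem continuous_mbZ (h : ℝ) : Continuous (mbZ h) := by
  unfold mbZ; fun_prop

theorem mb_segZ {h : ℝ} {p q : E3} (hq : q ∈ segment ℝ p (mbZ h p)) :
    q 0 = p 0 ∧ q 1 = p 1 ∧ ((p 2 ≤ q 2 ∧ q 2 ≤ h) ∨ (h ≤ q 2 ∧ q 2 ≤ p 2)) := by
  obtain ⟨a, b, ha, hb, hab, rfl⟩ := hq
  obtain rfl : a = 1 - b := by linarith
  refine ⟨by simp [mbZ]; ring, by simp [mbZ]; ring, ?_⟩
  have e : ((1 - b) • p + b • mbZ h p) 2 = (1 - b) * p 2 + b * h := by simp [mbZ]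
  rw [e]
  rcases le_total (p 2) h with h1 | h1
  · left; constructor <;> nlinarith
  · right; constructor <;> nlinarith

theorem mb_segY {h : ℝ} {p q : E3} (hq : q ∈ segment ℝ p (mbY h p)) :
    q 0 = p 0 ∧ q 2 = p 2 ∧ ((p 1 ≤ q 1 ∧ q 1 ≤ h) ∨ (h ≤ q 1 ∧ q 1 ≤ p 1)) := by
  obtain ⟨a, b, ha, hb, hab, rfl⟩ := hq
  obtain rfl : a = 1 - b := by linarith
  refine ⟨by simp [mbY]; ring, by simp [mbY]; ring, ?_⟩
  have e : ((1 - b) • p + b • mbY h p) 1 = (1 - b) * p 1 + b * h := by simp [mbY]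
  rw [e]
  rcases le_total (p 1) h with h1 | h1
  · left; constructor <;> nlinarith
  · right; constructor <;> nlinarith

/-- A box, each side given by a convex set of reals. -/
def mbBox (A B C : Set ℝ) : Set E3 := {p | p 0 ∈ A ∧ p 1 ∈ B ∧ p 2 ∈ C}

theorem convex_mbBox {A B C : Set ℝ} (hA : Convex ℝ A) (hB : Convex ℝ B) (hC : Convex ℝ C) :
    Convex ℝ (mbBox A B C) := by
  intro p hp q hq a b ha hb hab
  exact ⟨by simpa using hA hp.1 hq.1 ha hb hab, by simpa using hB hp.2.1 hq.2.1 ha hb hab,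
    by simpa using hC hp.2.2 hq.2.2 ha hb hab⟩

theorem mb_mem_Shell {p : E3} : p ∈ Shell ↔
    (-1 < p 0 ∧ p 0 < 5 ∧ -1 < p 1 ∧ p 1 < 5 ∧ -1 < p 2 ∧ p 2 < 2) ∧
    (p 0 < 0 ∨ 4 < p 0 ∨ p 1 < 0 ∨ 4 < p 1 ∨ p 2 < 0 ∨ 1 < p 2) ∧ (p 1 ≠ 0 ∨ p 2 ≠ 0) := by
  simp only [Shell, Obox, Ibox, Set.mem_sdiff, mem_ofPred_eq, not_and_or, not_le, and_assoc]

theorem mb_Pp_seg : ∀ p ∈ Pp, segment ℝ p (mbZ (3 / 2) p) ⊆ Pp := by
  rintro p ⟨hp, h0⟩ q hq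
  obtain ⟨e0, e1, e2⟩ := mb_segZ hq
  simp only [mem_ofPred_eq] at h0
  rw [mb_mem_Shell] at hp
  obtain ⟨⟨a1, a2, a3, a4, a5, a6⟩, hI, -⟩ := hp
  have hq2 : 0 < q 2 ∧ q 2 < 2 ∧ (1 < p 2 → 1 < q 2) := by
    rcases e2 with e2 | e2
    · exact ⟨by linarith [e2.1], by linarith [e2.2], fun h => by linarith [e2.1]⟩
    · exact ⟨by linarith [e2.1], by linarith [e2.2], fun _ => by linarith [e2.1]⟩
  refine ⟨mb_mem_Shell.2 ⟨?_, ?_, Or.inr hq2.1.ne'⟩, hq2.1⟩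
  · rw [e0, e1]; exact ⟨a1, a2, a3, a4, by linarith [hq2.1], hq2.2.1⟩
  · rw [e0, e1]
    rcases hI with h | h | h | h | h | h
    · tauto
    · tauto
    · tauto
    · tauto
    · linarith
    · have := hq2.2.2 h; tauto

theorem mb_Pm_seg : ∀ p ∈ Pm, segment ℝ p (mbZ (-1 / 2) p) ⊆ Pm := by
  rintro p ⟨hp, h0⟩ q hq
  obtain ⟨e0, e1, e2⟩ := mb_segZ hq
  simp only [mem_ofPred_eq] at h0
  rw [mb_mem_Shell] at hp
  obtain ⟨⟨a1, a2, a3, a4, a5, a6⟩, hI, -⟩ := hp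
  have hp1 : p 2 < 1 := by rcases h0 with h | h <;> linarith [h]
  have hq2 : -1 < q 2 ∧ q 2 < 1 ∧ (p 2 < 0 → q 2 < 0) := by
    rcases e2 with e2 | e2
    · exact ⟨by linarith [e2.1], by linarith [e2.2], fun h => by linarith [e2.2]⟩
    · exact ⟨by linarith [e2.1], by linarith [e2.2], fun _ => by linarith [e2.2]⟩
  have h1 : q 2 < 0 ∨ (q 1 ≠ 0 ∧ q 2 < 1) := by
    rcases h0 with h | h
    · exact Or.inl (hq2.2.2 h)
    · exact Or.inr ⟨e1 ▸ h.1, hq2.2.1⟩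
  refine ⟨mb_mem_Shell.2 ⟨?_, ?_, ?_⟩, h1⟩
  · rw [e0, e1]; exact ⟨a1, a2, a3, a4, hq2.1, by linarith [hq2.2.1]⟩
  · rw [e0, e1]
    rcases hI with h | h | h | h | h | h
    · tauto
    · tauto
    · tauto
    · tauto
    · have := hq2.2.2 h; tauto
    · linarith
  · rcases h1 with h | h
    · exact Or.inr h.ne
    · exact Or.inl h.1

theorem mb_top_sub : mbBox (Ioo (-1) 5) (Ioo (-1) 5) {3 / 2} ⊆ Pp := by
  rintro p ⟨⟨a1, a2⟩, ⟨a3, a4⟩, a5⟩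
  have a5 : p 2 = 3 / 2 := a5
  refine ⟨mb_mem_Shell.2 ⟨⟨a1, a2, a3, a4, by linarith, by linarith⟩, ?_, Or.inr ?_⟩, ?_⟩
  · have : 1 < p 2 := by linarith
    tauto
  · rw [a5]; norm_num
  · show 0 < p 2
    linarith

theorem mb_bot_sub : mbBox (Ioo (-1) 5) (Ioo (-1) 5) {-1 / 2} ⊆ Pm := by
  rintro p ⟨⟨a1, a2⟩, ⟨a3, a4⟩, a5⟩
  have a5 : p 2 = -1 / 2 := a5
  have : p 2 < 0 := by linarith
  exact ⟨mb_mem_Shell.2 ⟨⟨a1, a2, a3, a4, by linarith, by linarith⟩, by tauto, Or.inr this.ne⟩,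
    Or.inl this⟩

theorem mb_maps (h : ℝ) : MapsTo (mbZ h) Obox (mbBox (Ioo (-1) 5) (Ioo (-1) 5) {h}) := by
  rintro p ⟨a1, a2, a3, a4, -⟩
  exact ⟨⟨by simpa [mbZ] using a1, by simpa [mbZ] using a2⟩,
    ⟨by simpa [mbZ] using a3, by simpa [mbZ] using a4⟩, by simp [mbZ]⟩

theorem mb_conv (h : ℝ) : Convex ℝ (mbBox (Ioo (-1) 5) (Ioo (-1) 5) {h}) :=
  convex_mbBox (convex_Ioo _ _) (convex_Ioo _ _) (convex_singleton _)

theorem mb_Pp_conn : IsPreconnected Pp :=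
  isPreconnected_retract mb_Pp_seg (mb_conv _).isPreconnected mb_top_sub
    fun _ hp => mb_maps _ hp.1.1.1

theorem mb_Pm_conn : IsPreconnected Pm :=
  isPreconnected_retract mb_Pm_seg (mb_conv _).isPreconnected mb_bot_sub
    fun _ hp => mb_maps _ hp.1.1.1

theorem mb_QN_conn : IsPreconnected QN := by
  refine isPreconnected_retract (π := mbY (9 / 2))
    (C := mbBox (Ioo (-1) 5) {9 / 2} (Ioo 0 1)) ?_
    (convex_mbBox (convex_Ioo _ _) (convex_singleton _) (convex_Ioo _ _)).isPreconnected ?_ ?_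
  · rintro p ⟨hp, b1, b2, b3⟩ q hq
    obtain ⟨e0, e2, e1⟩ := mb_segY hq
    rw [mb_mem_Shell] at hp
    obtain ⟨⟨a1, a2, a3, a4, a5, a6⟩, hI, -⟩ := hp
    have hq1 : 0 < q 1 ∧ q 1 < 5 ∧ (4 < p 1 → 4 < q 1) := by
      rcases e1 with e1 | e1
      · exact ⟨by linarith [e1.1], by linarith [e1.2], fun h => by linarith [e1.1]⟩
      · exact ⟨by linarith [e1.1], by linarith [e1.2], fun _ => by linarith [e1.1]⟩
    refine ⟨mb_mem_Shell.2 ⟨?_, ?_, Or.inl hq1.1.ne'⟩, e2 ▸ b1, e2 ▸ b2, hq1.1⟩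
    · rw [e0, e2]; exact ⟨a1, a2, by linarith [hq1.1], hq1.2.1, a5, a6⟩
    · rw [e0, e2]
      rcases hI with h | h | h | h | h | h
      · tauto
      · tauto
      · linarith
      · have := hq1.2.2 h; tauto
      · tauto
      · tauto
  · rintro p ⟨⟨a1, a2⟩, a3, a4, a5⟩
    have a3 : p 1 = 9 / 2 := a3
    have h4 : 4 < p 1 := by linarith
    have h0 : 0 < p 1 := by linarith
    exact ⟨mb_mem_Shell.2 ⟨⟨a1, a2, by linarith, by linarith, by linarith, by linarith⟩,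
      by tauto, Or.inl h0.ne'⟩, a4, a5, h0⟩
  · rintro p ⟨hp, b1, b2, -⟩
    obtain ⟨a1, a2, -⟩ := hp.1.1
    exact ⟨⟨by simpa [mbY] using a1, by simpa [mbY] using a2⟩, by simp [mbY],
      by simpa [mbY] using b1, by simpa [mbY] using b2⟩

theorem mb_QS_eq : QS = mbBox (Ioo (-1) 5) (Ioo (-1) 0) (Ioo 0 1) := by
  ext p
  constructor
  · rintro ⟨hp, b1, b2, b3⟩
    obtain ⟨a1, a2, a3, -⟩ := hp.1.1
    exact ⟨⟨a1, a2⟩, ⟨a3, b3⟩, b1, b2⟩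
  · rintro ⟨⟨a1, a2⟩, ⟨a3, a4⟩, a5, a6⟩
    exact ⟨mb_mem_Shell.2 ⟨⟨a1, a2, a3, by linarith, by linarith, by linarith⟩,
      by tauto, Or.inl a4.ne⟩, a5, a6, a4⟩

theorem mb_QS_conn : IsPreconnected QS := by
  rw [mb_QS_eq]
  exact (convex_mbBox (convex_Ioo _ _) (convex_Ioo _ _) (convex_Ioo _ _)).isPreconnected

theorem mb_QN_sub : QN ⊆ Pp ∩ Pm := Pp_inter_Pm ▸ subset_union_left

theorem mb_QS_sub : QS ⊆ Pp ∩ Pm := Pp_inter_Pm ▸ subset_union_right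

noncomputable def mbN : E3 := !₂[9 / 2, 1 / 2, 1 / 2]

noncomputable def mbS : E3 := !₂[9 / 2, -1 / 2, 1 / 2]

theorem mbN_mem : mbN ∈ QN := by
  refine ⟨mb_mem_Shell.2 ?_, ?_⟩ <;> simp [mbN] <;> norm_num

theorem mbS_mem : mbS ∈ QS := by
  refine ⟨mb_mem_Shell.2 ?_, ?_⟩ <;> simp [mbS] <;> norm_num

theorem mb_sec_Pm {G : Type*} [Group G] {c : E3 → E3 → G} (hc : Flat c Shell) :
    ∃ s, Sec c Pm s ∧ s mbN = 1 := by
  obtain ⟨s, hs⟩ := exists_sec_retract (continuous_mbZ _).continuousOn mb_Pm_seg (mb_conv _)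
    mb_bot_sub (fun _ hp => mb_maps _ hp.1.1.1) (hc.mono inter_subset_left)
  exact ⟨_, hs.mul_const (s mbN)⁻¹, by simp⟩

theorem shell_sec {G : Type*} [Group G] {c : E3 → E3 → G} (hc : Flat c Shell) :
    ∃ (up um : E3 → G) (m : G), Sec c Pp up ∧ Sec c Pm um ∧ (∀ p ∈ QN, up p = um p) ∧
      (∀ p ∈ QS, up p = um p * m) ∧
      ∀ H : Subgroup G, (∀ p ∈ Shell, ∀ᶠ q in 𝓝 p, c p q ∈ H) → m ∈ H := by
  obtain ⟨s, hs⟩ := exists_sec_retract (continuous_mbZ _).continuousOn mb_Pp_seg (mb_conv _)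
    mb_top_sub (fun _ hp => mb_maps _ hp.1.1.1) (hc.mono inter_subset_left)
  have hu := hs.mul_const (s mbN)⁻¹
  obtain ⟨um, hm, hm1⟩ := mb_sec_Pm hc
  obtain ⟨m, hk⟩ := Sec.exists_const mb_QS_conn (hm.mono fun p hp => (mb_QS_sub hp).2)
    (hu.mono fun p hp => (mb_QS_sub hp).1)
  refine ⟨_, um, m, hu, hm, ?_, hk, fun H hH => ?_⟩
  · exact Sec.eq_of_eq mb_QN_conn (hu.mono fun p hp => (mb_QN_sub hp).1)
      (hm.mono fun p hp => (mb_QN_sub hp).2) mbN_mem (by simp [hm1])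
  · have h1 := Sec.mem_subgroup H mb_Pp_conn (fun p hp => nhdsWithin_le_nhds (hH p hp.1)) hu
      (mb_QN_sub mbN_mem).1 (mb_QS_sub mbS_mem).1
    have h2 := Sec.mem_subgroup H mb_Pm_conn (fun p hp => nhdsWithin_le_nhds (hH p hp.1)) hm
      (mb_QN_sub mbN_mem).2 (mb_QS_sub mbS_mem).2
    rw [hk _ mbS_mem] at h1
    simp only [mul_inv_cancel, inv_one, mul_one, hm1] at h1 h2
    simpa using H.mul_mem (H.inv_mem h2) h1

/-! ### The lattice connection -/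

open DihedralGroup in
/-- Colour of the edge from `(i, j, 1)` to `(i, j + 1, 1)`. -/
def mbYe (i j : ℤ) : D3 :=
  if (i = 3 ∧ 0 ≤ j ∧ j ≤ 2) ∨ (i = 0 ∧ 0 ≤ j ∧ j ≤ 1) then sr 0
  else if i = 1 ∧ 1 ≤ j ∧ j ≤ 2 then sr 1
  else if (i = 4 ∧ 1 ≤ j ∧ j ≤ 3) ∨ (i = 2 ∧ 2 ≤ j ∧ j ≤ 3) then sr 2 else 1

open DihedralGroup in
/-- Colour of the edge from `(i, j, 0)` to `(i + 1, j, 0)`. -/
def mbXe (i j : ℤ) : D3 :=
  if (j = 0 ∧ (3 ≤ i ∨ i ≤ -1)) ∨ (j = 3 ∧ i = 2) ∨ (j = 2 ∧ i = 0) then sr 0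
  else if (j = 3 ∧ i = 1) ∨ (j = 1 ∧ 1 ≤ i ∧ i ≤ 2) then sr 1
  else if (j = 1 ∧ i = 3) ∨ (j = 4 ∧ 2 ≤ i ∧ i ≤ 3) ∨ (j = 2 ∧ i = 1) then sr 2 else 1

def mbD (a : Bool) : ℤ := if a then 1 else 0

def mbTr (i j k : ℤ) (a b : Bool) : D3 :=
  (if b = true ∧ k ≤ -1 then mbXe (i - mbD a) j else 1) *
    (if a = true ∧ k ≤ 0 then mbYe i j else 1)

noncomputable def mbCin (p q : E3) : D3 :=
  mbTr ⌊p 0⌋ ⌊p 1⌋ ⌊p 2⌋ (decide (⌊q 0⌋ < ⌊p 0⌋)) (decide (⌊q 1⌋ < ⌊p 1⌋))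

def mbSide (i v w : ℤ) : Prop := (w = v + 1 ∧ i = v) ∨ (w = v - 1 ∧ i = w)

instance (i v w : ℤ) : Decidable (mbSide i v w) := by unfold mbSide; infer_instance

def mbFix (s : Bool) (i v w : ℤ) : Prop := s = true ∧ i = v ∧ w = v

instance (s : Bool) (i v w : ℤ) : Decidable (mbFix s i v w) := by unfold mbFix; infer_instance

def mbOn (i j k : ℤ) (sx sy sz : Bool) (v w : ℤ × ℤ × ℤ) : Prop :=
  (sx = true ∧ sy = true ∧ sz = true ∧ i = v.1 ∧ j = v.2.1 ∧ k = v.2.2) ∨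
  (mbSide i v.1 w.1 ∧ mbFix sy j v.2.1 w.2.1 ∧ mbFix sz k v.2.2 w.2.2) ∨
  (mbFix sx i v.1 w.1 ∧ mbSide j v.2.1 w.2.1 ∧ mbFix sz k v.2.2 w.2.2) ∨
  (mbFix sx i v.1 w.1 ∧ mbFix sy j v.2.1 w.2.1 ∧ mbSide k v.2.2 w.2.2)

instance (i j k : ℤ) (sx sy sz : Bool) (v w : ℤ × ℤ × ℤ) : Decidable (mbOn i j k sx sy sz v w) := by
  unfold mbOn; infer_instance

def mbOK (s a b : Bool) : Bool := (!a || s) && (!b || (s && !a))

theorem mb_check : ∀ (i j : Fin 6) (k : Fin 3) (sx sy sz : Bool),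
    (∃ n : Fin 37, mbOn ((i : ℤ) - 1) ((j : ℤ) - 1) ((k : ℤ) - 1) sx sy sz (vtx n) (vtx (n + 1))) ∨
    ∀ a0 a1 a2 b0 b1 : Bool, mbOK sx a0 b0 = true → mbOK sy a1 b1 = true →
      mbOK sz a2 false = true →
      mbTr ((i : ℤ) - 1) ((j : ℤ) - 1) ((k : ℤ) - 1) (a0 || b0) (a1 || b1) =
        mbTr ((i : ℤ) - 1 - mbD a0) ((j : ℤ) - 1 - mbD a1) ((k : ℤ) - 1 - mbD a2) b0 b1 *
          mbTr ((i : ℤ) - 1) ((j : ℤ) - 1) ((k : ℤ) - 1) a0 a1 := by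
  decide +kernel

theorem mb_vtx : ∀ n : Fin 38, (vtx n).2.2 ≤ 1 ∧ (vtx (n + 1)).2.2 ≤ 1 ∧
    (((vtx (n + 1)).1 = (vtx n).1 ∧ (vtx (n + 1)).2.1 = (vtx n).2.1) ∨
      ((vtx (n + 1)).1 = (vtx n).1 ∧ (vtx (n + 1)).2.2 = (vtx n).2.2) ∨
      ((vtx (n + 1)).2.1 = (vtx n).2.1 ∧ (vtx (n + 1)).2.2 = (vtx n).2.2)) := by
  decide +kernel

/-- `s` is close to `t` relative to the integers. -/
def mbNear (t s : ℝ) : Prop :=
  (⌊s⌋ = ⌊t⌋ ∧ (s = ⌊s⌋ → t = ⌊t⌋)) ∨ (⌊s⌋ = ⌊t⌋ - 1 ∧ t = ⌊t⌋ ∧ s ≠ ⌊s⌋)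

theorem mb_near (t : ℝ) : ∀ᶠ s in 𝓝 t, mbNear t s := by
  by_cases h : t = ⌊t⌋
  · have hm : t ∈ Ioo ((⌊t⌋ : ℝ) - 1) (⌊t⌋ + 1) := ⟨by linarith, by linarith⟩
    filter_upwards [isOpen_Ioo.mem_nhds hm] with s hs
    rcases le_or_gt (⌊t⌋ : ℝ) s with h1 | h1
    · exact Or.inl ⟨Int.floor_eq_iff.2 ⟨h1, hs.2⟩, fun _ => h⟩
    · have e : ⌊s⌋ = ⌊t⌋ - 1 := Int.floor_eq_iff.2 ⟨by push_cast; exact hs.1.le, by simpa using h1⟩
      refine Or.inr ⟨e, h, fun h2 => ?_⟩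
      rw [e] at h2; push_cast at h2; linarith [hs.1]
  · have hm : t ∈ Ioo (⌊t⌋ : ℝ) (⌊t⌋ + 1) :=
      ⟨lt_of_le_of_ne (Int.floor_le t) (Ne.symm h), Int.lt_floor_add_one t⟩
    filter_upwards [isOpen_Ioo.mem_nhds hm] with s hs
    have e : ⌊s⌋ = ⌊t⌋ := Int.floor_eq_iff.2 ⟨hs.1.le, hs.2⟩
    refine Or.inl ⟨e, fun h2 => ?_⟩
    rw [e] at h2; linarith [hs.1]

theorem mb_near3 (p : E3) :
    ∀ᶠ q in 𝓝 p, mbNear (p 0) (q 0) ∧ mbNear (p 1) (q 1) ∧ mbNear (p 2) (q 2) :=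
  ((mb_cont 0).continuousAt.eventually (mb_near _)).and
    (((mb_cont 1).continuousAt.eventually (mb_near _)).and
      ((mb_cont 2).continuousAt.eventually (mb_near _)))

open Classical in
theorem mb_two {x y z : ℝ} (h1 : mbNear x y) (h2 : mbNear y z) :
    mbOK (decide (x = ⌊x⌋)) (decide (⌊y⌋ < ⌊x⌋)) (decide (⌊z⌋ < ⌊y⌋)) = true ∧
    ⌊y⌋ = ⌊x⌋ - mbD (decide (⌊y⌋ < ⌊x⌋)) ∧
    decide (⌊z⌋ < ⌊x⌋) = (decide (⌊y⌋ < ⌊x⌋) || decide (⌊z⌋ < ⌊y⌋)) := by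
  rcases h1 with ⟨e1, f1⟩ | ⟨e1, f1, g1⟩ <;> rcases h2 with ⟨e2, f2⟩ | ⟨e2, f2, g2⟩
  · simp [mbOK, mbD, e1, e2]
  · have := f1 f2
    simp only [mbOK, mbD, e2, e1, ← this]; simp
  · simp only [mbOK, mbD, e2, e1, ← f1]; simp
  · exact absurd f2 g1

theorem mb_mem_kn {p : E3} {n : ℕ} (hn : n < 37) {f : ℝ} (h0 : 0 ≤ f) (h1 : f ≤ 1)
    (e0 : p 0 = (vtx n).1 + f * ((vtx (n + 1)).1 - (vtx n).1))
    (e1 : p 1 = (vtx n).2.1 + f * ((vtx (n + 1)).2.1 - (vtx n).2.1))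
    (e2 : p 2 = (vtx n).2.2 + f * ((vtx (n + 1)).2.2 - (vtx n).2.2)) : p ∈ kn := by
  have hn' : (n : ℝ) + 1 ≤ 37 := by exact_mod_cast hn
  have hn0 : (0 : ℝ) ≤ n := Nat.cast_nonneg n
  refine ⟨n + f, ⟨by linarith, by linarith⟩, ?_⟩
  rw [mf_piece (j := n) ⟨by linarith, by linarith⟩]
  ext i
  fin_cases i
  · simp [toE, e0]
  · simp [toE, e1]
  · simp [toE, e2]

theorem mb_side {t : ℝ} {v w : ℤ} (h : mbSide ⌊t⌋ v w) :
    ∃ f : ℝ, 0 ≤ f ∧ f ≤ 1 ∧ t = v + f * (w - v) := by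
  have h0 := Int.floor_le t
  have h1 := Int.lt_floor_add_one t
  rcases h with ⟨rfl, e⟩ | ⟨rfl, e⟩
  · rw [e] at h0 h1
    exact ⟨t - v, by linarith, by linarith, by push_cast; ring⟩
  · rw [e] at h0 h1
    push_cast at h0 h1
    exact ⟨v - t, by linarith, by linarith, by push_cast; ring⟩

open Classical in
theorem mb_fix {t : ℝ} {v w : ℤ} (h : mbFix (decide (t = ⌊t⌋)) ⌊t⌋ v w) (f : ℝ) :
    t = v + f * (w - v) := by
  obtain ⟨h1, h2, h3⟩ := h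
  rw [h3, ← h2, ← of_decide_eq_true h1]; ring

open Classical in
theorem mb_on {p : E3} {n : ℕ} (hn : n < 37)
    (h : mbOn ⌊p 0⌋ ⌊p 1⌋ ⌊p 2⌋ (decide (p 0 = ⌊p 0⌋)) (decide (p 1 = ⌊p 1⌋))
      (decide (p 2 = ⌊p 2⌋)) (vtx n) (vtx (n + 1))) : p ∈ kn := by
  rcases h with ⟨a, b, c, d, e, f⟩ | ⟨a, b, c⟩ | ⟨a, b, c⟩ | ⟨a, b, c⟩
  · refine mb_mem_kn hn le_rfl zero_le_one ?_ ?_ ?_
    · rw [← d, ← of_decide_eq_true a]; ring
    · rw [← e, ← of_decide_eq_true b]; ring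
    · rw [← f, ← of_decide_eq_true c]; ring
  · obtain ⟨f, h0, h1, e⟩ := mb_side a
    exact mb_mem_kn hn h0 h1 e (mb_fix b f) (mb_fix c f)
  · obtain ⟨f, h0, h1, e⟩ := mb_side b
    exact mb_mem_kn hn h0 h1 (mb_fix a f) e (mb_fix c f)
  · obtain ⟨f, h0, h1, e⟩ := mb_side c
    exact mb_mem_kn hn h0 h1 (mb_fix a f) (mb_fix b f) e

theorem mb_fin {t : ℝ} {m : ℕ} (h0 : -1 < t) (h1 : t + 1 < m) :
    ∃ i : Fin m, ⌊t⌋ = (i : ℤ) - 1 := by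
  have a : -1 ≤ ⌊t⌋ := Int.le_floor.2 (by push_cast; linarith)
  have b : ⌊t⌋ < (m : ℤ) - 1 := Int.floor_lt.2 (by push_cast; linarith)
  exact ⟨⟨(⌊t⌋ + 1).toNat, by omega⟩, by simp only; omega⟩

theorem mb_flat : Flat mbCin (Obox \ kn) := by
  classical
  rintro x ⟨⟨a1, a2, a3, a4, a5, a6⟩, hx⟩
  obtain ⟨i, hi⟩ := mb_fin (m := 6) a1 (by push_cast; linarith)
  obtain ⟨j, hj⟩ := mb_fin (m := 6) a3 (by push_cast; linarith)
  obtain ⟨k, hk⟩ := mb_fin (m := 3) a5 (by push_cast; linarith)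
  have hc := mb_check i j k (decide (x 0 = ⌊x 0⌋)) (decide (x 1 = ⌊x 1⌋)) (decide (x 2 = ⌊x 2⌋))
  rw [← hi, ← hj, ← hk] at hc
  rcases hc with ⟨n, hn⟩ | hc
  · exact absurd (mb_on n.2 hn) hx
  filter_upwards [mb_near3 x] with y hy
  filter_upwards [mb_near3 y] with z hz
  obtain ⟨p0, q0, r0⟩ := mb_two hy.1 hz.1
  obtain ⟨p1, q1, r1⟩ := mb_two hy.2.1 hz.2.1
  obtain ⟨p2, q2, -⟩ := mb_two hy.2.2 hz.2.2
  have p2' : mbOK (decide (x 2 = ⌊x 2⌋)) (decide (⌊y 2⌋ < ⌊x 2⌋)) false = true := by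
    simp only [mbOK, Bool.and_eq_true] at p2 ⊢
    exact ⟨p2.1, by simp⟩
  have := hc _ _ _ _ _ p0 p1 p2'
  rw [← q0, ← q1, ← q2, ← r0, ← r1] at this
  exact this

theorem mb_kn {p : E3} (hp : p ∈ kn) : p 2 ≤ 1 ∧
    ((p 0 = ⌊p 0⌋ ∧ p 1 = ⌊p 1⌋) ∨ (p 0 = ⌊p 0⌋ ∧ p 2 = ⌊p 2⌋) ∨ (p 1 = ⌊p 1⌋ ∧ p 2 = ⌊p 2⌋)) := by
  obtain ⟨u, ⟨h0, h1⟩, rfl⟩ := hp
  have hn : ⌊u⌋₊ < 38 := (Nat.floor_lt h0).2 (by push_cast; linarith)
  obtain ⟨b1, b2, b3⟩ := mb_vtx ⟨_, hn⟩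
  simp only at b1 b2 b3
  have f0 : 0 ≤ u - ⌊u⌋₊ := by linarith [Nat.floor_le h0]
  have f1 : u - ⌊u⌋₊ ≤ 1 := by linarith [Nat.lt_floor_add_one u]
  set n := ⌊u⌋₊
  have e0 : mf u 0 = (vtx n).1 + (u - n) * ((vtx (n + 1)).1 - (vtx n).1) := by
    simp [mf, toE, n]
  have e1 : mf u 1 = (vtx n).2.1 + (u - n) * ((vtx (n + 1)).2.1 - (vtx n).2.1) := by
    simp [mf, toE, n]
  have e2 : mf u 2 = (vtx n).2.2 + (u - n) * ((vtx (n + 1)).2.2 - (vtx n).2.2) := by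
    simp [mf, toE, n]
  have key : ∀ (t : ℝ) (v w : ℤ), t = v + (u - n) * (w - v) → w = v → t = ⌊t⌋ := by
    rintro t v w rfl rfl; simp
  constructor
  · have c1 : ((vtx n).2.2 : ℝ) ≤ 1 := by exact_mod_cast b1
    have c2 : ((vtx (n + 1)).2.2 : ℝ) ≤ 1 := by exact_mod_cast b2
    rw [e2]; nlinarith
  · rcases b3 with h | h | h
    · exact Or.inl ⟨key _ _ _ e0 h.1, key _ _ _ e1 h.2⟩
    · exact Or.inr (Or.inl ⟨key _ _ _ e0 h.1, key _ _ _ e2 h.2⟩)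
    · exact Or.inr (Or.inr ⟨key _ _ _ e1 h.1, key _ _ _ e2 h.2⟩)

theorem mb_int {t s : ℝ} (h : mbNear t s) (h' : ⌊s⌋ < ⌊t⌋) : t = ⌊t⌋ := by
  rcases h with ⟨e, -⟩ | ⟨-, e, -⟩
  · omega
  · exact e

/-- The part of the box where the connection is trivial. -/
def mbU : Set E3 := Obox ∩ {p | 1 < p 2 ∨ (p 0 ≠ ⌊p 0⌋ ∧ p 1 ≠ ⌊p 1⌋)}

theorem mbU_sub : mbU ⊆ Obox \ kn := by
  rintro p ⟨hp, h⟩
  refine ⟨hp, fun hk => ?_⟩
  obtain ⟨h1, h2⟩ := mb_kn hk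
  rcases h with h | h
  · linarith
  · tauto

theorem mbU_conn : IsPreconnected mbU := by
  refine isPreconnected_retract (π := mbZ (3 / 2)) ?_ (mb_conv (3 / 2)).isPreconnected ?_
    fun _ hp => mb_maps _ hp.1
  · rintro p ⟨⟨a1, a2, a3, a4, a5, a6⟩, h⟩ q hq
    obtain ⟨e0, e1, e2⟩ := mb_segZ hq
    have hq2 : -1 < q 2 ∧ q 2 < 2 ∧ (1 < p 2 → 1 < q 2) := by
      rcases e2 with e2 | e2
      · exact ⟨by linarith [e2.1], by linarith [e2.2], fun h => by linarith [e2.1]⟩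
      · exact ⟨by linarith [e2.1], by linarith [e2.2], fun _ => by linarith [e2.1]⟩
    refine ⟨⟨e0 ▸ a1, e0 ▸ a2, e1 ▸ a3, e1 ▸ a4, hq2.1, hq2.2.1⟩, ?_⟩
    rcases h with h | h
    · exact Or.inl (hq2.2.2 h)
    · right; rw [e0, e1]; exact h
  · intro p hp
    have a5 : p 2 = 3 / 2 := hp.2.2
    exact ⟨(mb_top_sub hp).1.1.1, Or.inl (by linarith)⟩

theorem mbU_germ {p : E3} (hp : p ∈ mbU) : ∀ᶠ q in 𝓝 p, mbCin p q = 1 := by
  filter_upwards [mb_near3 p] with q hq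
  rcases hp.2 with h | h
  · have : 1 ≤ ⌊p 2⌋ := Int.le_floor.2 (by push_cast; linarith)
    simp only [mbCin, mbTr]
    rw [if_neg (by omega), if_neg (by omega), one_mul]
  · have h0 : ¬ ⌊q 0⌋ < ⌊p 0⌋ := fun h' => h.1 (mb_int hq.1 h')
    have h1 : ¬ ⌊q 1⌋ < ⌊p 1⌋ := fun h' => h.2 (mb_int hq.2.1 h')
    simp [mbCin, mbTr, h0, h1]

theorem mb_wall {φ : E3 → D3} {H : Subgroup D3}
    (h : ∀ p ∈ Obox \ kn, ∀ᶠ q in 𝓝 p, (φ q)⁻¹ * mbCin p q * φ p ∈ H) {p₀ : E3} (h₀ : p₀ ∈ mbU)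
    (i j : ℤ) (hi : 0 ≤ i ∧ i ≤ 4) (hj : 0 ≤ j ∧ j ≤ 3) : (φ p₀)⁻¹ * mbYe i j * φ p₀ ∈ H := by
  have hU : ∀ q ∈ mbU, (φ q)⁻¹ * φ p₀ ∈ H := by
    intro q hq
    have := Sec.mem_subgroup (c := fun x y => (φ y)⁻¹ * φ x) (s := fun x => (φ x)⁻¹) H mbU_conn
      (fun p hp => ?_) (fun p _ => Eventually.of_forall fun y => by group) h₀ hq
    · simpa using this
    · filter_upwards [nhdsWithin_le_nhds (h p (mbU_sub hp)), nhdsWithin_le_nhds (mbU_germ hp)]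
        with y e1 e2
      simpa [e2] using e1
  have i0 : (0 : ℝ) ≤ i := by exact_mod_cast hi.1
  have i1 : (i : ℝ) ≤ 4 := by exact_mod_cast hi.2
  have j0 : (0 : ℝ) ≤ j := by exact_mod_cast hj.1
  have j1 : (j : ℝ) ≤ 3 := by exact_mod_cast hj.2
  let γ : ℝ → E3 := fun t => !₂[i + t, j + 1 / 2, 1 / 2]
  have hγ : Continuous γ := by simp only [γ]; fun_prop
  have g0 : ∀ t, γ t 0 = i + t := fun t => by simp [γ]
  have g1 : ∀ t, γ t 1 = j + 1 / 2 := fun t => by simp [γ]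
  have g2 : ∀ t, γ t 2 = 1 / 2 := fun t => by simp [γ]
  have f1 : ⌊(j : ℝ) + 1 / 2⌋ = j := Int.floor_eq_iff.2 ⟨by linarith, by linarith⟩
  have f2 : ⌊(1 / 2 : ℝ)⌋ = 0 := Int.floor_eq_iff.2 ⟨by norm_num, by norm_num⟩
  have hO : ∀ t, -1 < t → t < 1 → γ t ∈ Obox := fun t a b => by
    simp only [Obox, mem_ofPred_eq, g0, g1, g2]
    exact ⟨by linarith, by linarith, by linarith, by linarith, by norm_num, by norm_num⟩
  have hw : γ 0 ∈ Obox \ kn := by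
    refine ⟨hO 0 (by norm_num) (by norm_num), fun hk => ?_⟩
    obtain ⟨-, h2⟩ := mb_kn hk
    rw [g1, g2, f1, f2] at h2
    rcases h2 with h2 | h2 | h2
    · linarith [h2.2]
    · have := h2.2; norm_num at this
    · linarith [h2.1]
  have hev := hγ.continuousAt.eventually (h _ hw)
  obtain ⟨ε, hε, hball⟩ := Metric.eventually_nhds_iff.1 hev
  obtain ⟨t, t0, t1, t2⟩ : ∃ t : ℝ, 0 < t ∧ t < 1 ∧ t < ε :=
    ⟨min (1 / 2) (ε / 2), by positivity, by linarith [min_le_left (1 / 2 : ℝ) (ε / 2)],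
      by linarith [min_le_right (1 / 2 : ℝ) (ε / 2)]⟩
  have fp : ⌊(i : ℝ) + t⌋ = i := Int.floor_eq_iff.2 ⟨by linarith, by linarith⟩
  have fm : ⌊(i : ℝ) + -t⌋ = i - 1 :=
    Int.floor_eq_iff.2 ⟨by push_cast; linarith, by push_cast; linarith⟩
  have up : γ t ∈ mbU := ⟨hO t (by linarith) t1, Or.inr ⟨by rw [g0, fp]; linarith,
    by rw [g1, f1]; linarith⟩⟩
  have um : γ (-t) ∈ mbU := ⟨hO (-t) (by linarith) (by linarith), Or.inr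
    ⟨by rw [g0, fm]; push_cast; linarith, by rw [g1, f1]; linarith⟩⟩
  have kp := hball (y := t) (by simpa [abs_of_pos t0] using t2)
  have km := hball (y := -t) (by simpa [abs_of_pos t0] using t2)
  have cp : mbCin (γ 0) (γ t) = 1 := by
    simp only [mbCin, g0, g1, g2, fp, f1, f2, add_zero, Int.floor_intCast]; simp [mbTr]
  have cm : mbCin (γ 0) (γ (-t)) = mbYe i j := by
    simp only [mbCin, g0, g1, g2, fm, f1, f2, add_zero, Int.floor_intCast]; simp [mbTr]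
  rw [cp] at kp
  rw [cm] at km
  have := H.mul_mem (H.mul_mem (H.mul_mem (H.inv_mem (hU _ um)) km) (H.inv_mem kp)) (hU _ up)
  convert this using 1
  group

theorem mb_K2 (φ : E3 → D3) (g : D3) :
    ¬ ∀ p ∈ Obox \ kn, ∀ᶠ q in 𝓝 p, (φ q)⁻¹ * mbCin p q * φ p ∈ Subgroup.zpowers g := by
  intro h
  have h₀ : (!₂[0, 0, 3 / 2] : E3) ∈ mbU := by
    refine ⟨?_, Or.inl ?_⟩ <;> simp [Obox] <;> norm_num
  obtain ⟨a, ha⟩ := mb_wall h h₀ 3 0 (by omega) (by omega)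
  obtain ⟨b, hb⟩ := mb_wall h h₀ 4 1 (by omega) (by omega)
  simp only at ha hb
  have hc : g ^ a * g ^ b = g ^ b * g ^ a := zpow_mul_comm g a b
  rw [ha, hb] at hc
  generalize φ !₂[0, 0, 3 / 2] = x at hc
  revert x
  decide +kernel

theorem mb_up : Sec mbCin Pp fun _ => 1 := by
  rintro p ⟨hp, h0⟩
  have h0 : 0 < p 2 := h0
  filter_upwards [nhdsWithin_le_nhds (mb_near3 p)] with q hq
  rw [mb_mem_Shell] at hp
  obtain ⟨⟨a1, a2, a3, a4, a5, a6⟩, hI, -⟩ := hp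
  have k0 : 0 ≤ ⌊p 2⌋ := Int.floor_nonneg.2 h0.le
  simp only [mbCin, mbTr]
  rw [if_neg (by omega), one_mul, mul_one]
  split_ifs with h
  · have e := mb_int hq.1 (of_decide_eq_true h.1)
    have k1 : p 2 < 1 := by
      have := Int.lt_floor_add_one (p 2)
      have h2 : (⌊p 2⌋ : ℝ) ≤ 0 := by exact_mod_cast h.2
      linarith
    have b1 : -1 < ⌊p 0⌋ := by
      have : ((-1 : ℤ) : ℝ) < ⌊p 0⌋ := by push_cast; linarith
      exact_mod_cast this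
    have b2 : ⌊p 0⌋ < 5 := Int.floor_lt.2 (by push_cast; linarith)
    have c1 : (0 : ℝ) ≤ ⌊p 0⌋ := by exact_mod_cast (by omega : 0 ≤ ⌊p 0⌋)
    have c2 : (⌊p 0⌋ : ℝ) ≤ 4 := by exact_mod_cast (by omega : ⌊p 0⌋ ≤ 4)
    have hj : ⌊p 1⌋ < 0 ∨ 4 ≤ ⌊p 1⌋ := by
      rcases hI with h | h | h | h | h | h
      · linarith
      · linarith
      · exact Or.inl (Int.floor_lt.2 (by simpa using h))
      · exact Or.inr (Int.le_floor.2 (by push_cast; linarith))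
      · linarith
      · linarith
    unfold mbYe
    rw [if_neg (by omega), if_neg (by omega), if_neg (by omega)]
  · rfl

/-- The region through which the holonomy of the shell is read off. -/
def mbA : Set E3 := Pm ∩ {p | 4 < p 0}

theorem mbA_conn : IsPreconnected mbA := by
  refine isPreconnected_retract (π := mbZ (-1 / 2))
    (C := mbBox (Ioo 4 5) (Ioo (-1) 5) {-1 / 2}) ?_
    (convex_mbBox (convex_Ioo _ _) (convex_Ioo _ _) (convex_singleton _)).isPreconnected ?_ ?_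
  · rintro p ⟨hp, h⟩ q hq
    exact ⟨mb_Pm_seg p hp hq, by rw [mem_ofPred_eq, (mb_segZ hq).1]; exact h⟩
  · rintro p ⟨⟨a1, a2⟩, a3, a4⟩
    exact ⟨mb_bot_sub ⟨⟨by linarith, a2⟩, a3, a4⟩, a1⟩
  · rintro p ⟨hp, h⟩
    obtain ⟨a, b, c⟩ := mb_maps (-1 / 2) hp.1.1.1
    exact ⟨⟨by simpa [mbZ] using h, a.2⟩, b, c⟩

open Classical in
theorem mbA_sec : Sec mbCin mbA fun p => if p 1 < 0 then DihedralGroup.sr 0 else 1 := by
  rintro p ⟨⟨hp, h1⟩, h4⟩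
  have h4 : 4 < p 0 := h4
  obtain ⟨a1, a2, a3, a4, a5, a6⟩ := hp.1.1
  have f0 : ⌊p 0⌋ = 4 := Int.floor_eq_iff.2 ⟨by push_cast; linarith, by push_cast; linarith⟩
  have hX : ∀ j : ℤ, j ≠ 0 → mbXe 4 j = 1 := fun j hj => by
    unfold mbXe
    rw [if_neg (by omega), if_neg (by omega), if_neg (by omega)]
  have hgen : ∀ᶠ q in 𝓝 p, mbCin p q =
      if ⌊q 1⌋ < ⌊p 1⌋ ∧ ⌊p 2⌋ ≤ -1 then mbXe 4 ⌊p 1⌋ else 1 := by
    filter_upwards [mb_near3 p] with q hq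
    have h0 : ¬ ⌊q 0⌋ < ⌊p 0⌋ := fun h' => by
      have := mb_int hq.1 h'
      rw [f0] at this; push_cast at this; linarith
    simp only [mbCin, mbTr, h0]
    simp [f0, mbD]
  rcases lt_trichotomy (p 1) 0 with h | h | h
  · have : ⌊p 1⌋ < 0 := Int.floor_lt.2 (by simpa using h)
    filter_upwards [nhdsWithin_le_nhds hgen,
      nhdsWithin_le_nhds ((mb_cont 1).continuousAt.eventually (gt_mem_nhds h))] with q e hq
    rw [e, hX _ this.ne]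
    simp [h, hq]
  · have h2 : p 2 < 0 := by
      rcases h1 with h1 | h1
      · exact h1
      · exact absurd h h1.1
    have k : ⌊p 2⌋ ≤ -1 := by
      have : ⌊p 2⌋ < 0 := Int.floor_lt.2 (by simpa using h2)
      omega
    filter_upwards [nhdsWithin_le_nhds hgen] with q e
    have e1 : ⌊q 1⌋ < 0 ↔ q 1 < 0 := by rw [Int.floor_lt]; simp
    rw [e, h]
    simp only [Int.floor_zero, e1, k, and_true, lt_self_iff_false, if_false, mul_one]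
    rfl
  · filter_upwards [nhdsWithin_le_nhds hgen, nhdsWithin_le_nhds (mb_near3 p),
      nhdsWithin_le_nhds ((mb_cont 1).continuousAt.eventually (lt_mem_nhds h))] with q e hn hq
    rw [e, if_neg h.le.not_gt, if_neg hq.le.not_gt, mul_one]
    split_ifs with h'
    · have := mb_int hn.2.1 h'.1
      refine (hX _ fun h0 => ?_).symm
      rw [h0] at this; push_cast at this; linarith
    · rfl

/-- Paper, section 5, lattice connection. -/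
theorem exists_cin : ∃ cin : E3 → E3 → D3, Flat cin (Obox \ kn) ∧
    (∀ (φ : E3 → D3) (g : D3),
      ¬ ∀ p ∈ Obox \ kn, ∀ᶠ q in 𝓝 p, (φ q)⁻¹ * cin p q * φ p ∈ Subgroup.zpowers g) ∧
    ∃ up um : E3 → D3, Sec cin Pp up ∧ Sec cin Pm um ∧ (∀ p ∈ QN, up p = um p) ∧
      ∀ p ∈ QS, up p = um p * DihedralGroup.sr 0 := by
  obtain ⟨um, hm, hm1⟩ := mb_sec_Pm (mb_flat.mono (Shell_eq ▸ sdiff_subset))
  refine ⟨mbCin, mb_flat, mb_K2, fun _ => 1, um, mb_up, hm, ?_, ?_⟩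
  · exact Sec.eq_of_eq mb_QN_conn (mb_up.mono fun p hp => (mb_QN_sub hp).1)
      (hm.mono fun p hp => (mb_QN_sub hp).2) mbN_mem hm1.symm
  · have hN : mbN ∈ mbA := ⟨(mb_QN_sub mbN_mem).2, by simp [mbN]; norm_num⟩
    have hS : mbS ∈ mbA := ⟨(mb_QS_sub mbS_mem).2, by simp [mbS]; norm_num⟩
    have e := Sec.eq_of_eq mbA_conn (hm.mono inter_subset_left) mbA_sec hN
      (by rw [hm1, if_neg (by simp [mbN])]) hS
    simp only at e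
    rw [if_pos (by simp [mbS]; norm_num)] at e
    exact Sec.eq_of_eq mb_QS_conn (mb_up.mono fun p hp => (mb_QS_sub hp).1)
      ((hm.mono fun p hp => (mb_QS_sub hp).2).mul_const _) mbS_mem (by rw [e]; decide)

end Pool.Agent.P.MP_c51580_gt
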