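import Pool.Agent.P.MP_c51580_gt.ConnB

namespace Pool.Agent.P.MP_c51580_gt

open Set Metric Filter Topology
open scoped RealInnerProductSpace

namespace ObsA

theorem cont (i : Fin 3) : Continuous fun p : E3 => p i := by fun_prop

theorem cont_sq : Continuous fun p : E3 => p 0 ^ 2 + p 1 ^ 2 := by fun_prop

theorem isClosed_S0 : IsClosed S0 :=
  (isClosed_eq (cont 2) continuous_const).inter (isClosed_eq cont_sq continuous_const)

theorem isClosed_D0 : IsClosed D0 :=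
  (isClosed_eq (cont 2) continuous_const).inter (isClosed_le cont_sq continuous_const)

theorem S0_sub : S0 ⊆ D0 := fun _ hp => ⟨hp.1, hp.2.le⟩

theorem isCompact_D0 : IsCompact D0 := by
  refine (isCompact_closedBall (0 : E3) 1).of_isClosed_subset isClosed_D0 fun p hp => ?_
  rw [mem_closedBall_zero_iff, EuclideanSpace.norm_eq, Real.sqrt_le_one,
    Fin.sum_univ_three]
  simp only [Real.norm_eq_abs, sq_abs]
  have h1 := hp.1
  have h2 := hp.2
  rw [h1]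
  linarith

theorem D0_sub {ε : ℝ} (hε : 0 < ε) : D0 ⊆ Neps ε := fun p hp =>
  ⟨by have := hp.2; nlinarith, by rw [hp.1]; simpa using hε⟩

theorem isOpen_N (ε : ℝ) : IsOpen (Neps ε) :=
  (isOpen_lt cont_sq continuous_const).inter (isOpen_lt (cont 2).abs continuous_const)

theorem convex_cyl (r ε : ℝ) : Convex ℝ {p : E3 | p 0 ^ 2 + p 1 ^ 2 < r ∧ |p 2| < ε} := by
  intro p hp q hq a b ha hb hab
  obtain ⟨h1, h2⟩ := hp
  obtain ⟨h3, h4⟩ := hq
  have hb' : b = 1 - a := by linarith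
  simp only [mem_ofPred_eq, PiLp.add_apply, PiLp.smul_apply, smul_eq_mul]
  rw [abs_lt] at h2 h4 ⊢
  have key : ∀ x y R : ℝ, x < R → y < R → a * x + b * y < R := fun x y R hx hy => by
    rcases ha.eq_or_lt with h | h
    · subst h; simp at hb'; simp [hb', hy]
    · have e1 := mul_lt_mul_of_pos_left hx h
      have e2 := mul_le_mul_of_nonneg_left hy.le hb
      have e3 : a * R + b * R = R := by rw [← add_mul, hab, one_mul]
      linarith
  refine ⟨lt_of_le_of_lt ?_ (key _ _ _ h1 h3), ?_, key _ _ _ h2.2 h4.2⟩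
  · have e1 := mul_nonneg (mul_nonneg ha hb) (sq_nonneg (p 0 - q 0))
    have e2 := mul_nonneg (mul_nonneg ha hb) (sq_nonneg (p 1 - q 1))
    subst hb'
    nlinarith
  · have := key (-p 2) (-q 2) ε (by linarith [h2.1]) (by linarith [h4.1])
    linarith

theorem convex_half (a : ℝ) : Convex ℝ {p : E3 | 0 < a * p 2} := by
  intro p hp q hq s t hs ht hst
  simp only [mem_ofPred_eq, PiLp.add_apply, PiLp.smul_apply, smul_eq_mul] at hp hq ⊢
  rcases hs.eq_or_lt with h | h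
  · subst h
    have : t = 1 := by linarith
    subst this
    simpa using hq
  · nlinarith [mul_pos h hp, mul_nonneg ht hq.le]

/-- the shell round the disc, cut along one side -/
def Ah (ε a : ℝ) : Set E3 := Neps ε ∩ {p | 0 < a * p 2 ∨ 1 < p 0 ^ 2 + p 1 ^ 2}

theorem isOpen_Ah (ε a : ℝ) : IsOpen (Ah ε a) :=
  (isOpen_N ε).inter ((isOpen_lt continuous_const ((cont 2).const_mul a)).union
    (isOpen_lt continuous_const cont_sq))

theorem sec_Ah {G : Type*} [Group G] {ε a : ℝ} (hε : 0 < ε) (ha : a = 1 ∨ a = -1)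
    {c : E3 → E3 → G} (hc : Flat c (Ah ε a)) : ∃ s, Sec c (Ah ε a) s := by
  have ha2 : a * a = 1 := by rcases ha with h | h <;> simp [h]
  have hab : |a * (ε / 2)| < ε := by
    rw [abs_lt]; rcases ha with h | h <;> subst h <;> constructor <;> linarith
  have hpos : 0 < a * (a * (ε / 2)) := by rw [← mul_assoc, ha2]; linarith
  refine exists_sec_retract (π := fun p => !₂[p 0, p 1, a * (ε / 2)])
    (C := Neps ε ∩ {p | 0 < a * p 2}) (by fun_prop) (fun p hp => ?_)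
    ((convex_cyl _ _).inter (convex_half a)) (fun p hp => ⟨hp.1, Or.inl hp.2⟩)
    (fun p hp => ⟨⟨by simpa using hp.1.1, by simpa using hab⟩, by simpa using hpos⟩) hc
  intro q hq
  have hπ : (!₂[p 0, p 1, a * (ε / 2)] : E3) ∈ Neps ε :=
    ⟨by simpa using hp.1.1, by simpa using hab⟩
  refine ⟨(convex_cyl _ _).segment_subset hp.1 hπ hq, ?_⟩
  rcases hp.2 with h | h
  · exact Or.inl ((convex_half a).segment_subset h (by simpa using hpos) hq)
  · obtain ⟨s, t, -, -, hst, rfl⟩ := hq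
    refine Or.inr ?_
    have e0 : s * p 0 + t * p 0 = p 0 := by rw [← add_mul, hst, one_mul]
    have e1 : s * p 1 + t * p 1 = p 1 := by rw [← add_mul, hst, one_mul]
    simpa [e0, e1] using h

theorem preconn_ring {ε : ℝ} (hε : 0 < ε) : IsPreconnected (Ah ε 1 ∩ Ah ε (-1)) := by
  have h0 : IsPreconnected (Ioo (1 : ℝ) (1 + ε) ×ˢ (univ : Set ℝ) ×ˢ Ioo (-ε) ε) :=
    isPreconnected_Ioo.prod (isPreconnected_univ.prod isPreconnected_Ioo)
  have h1 := h0.image (fun q : ℝ × ℝ × ℝ =>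
    (!₂[q.1 * Real.cos q.2.1, q.1 * Real.sin q.2.1, q.2.2] : E3)) (by fun_prop)
  suffices h : Ah ε 1 ∩ Ah ε (-1) = (fun q : ℝ × ℝ × ℝ =>
      (!₂[q.1 * Real.cos q.2.1, q.1 * Real.sin q.2.1, q.2.2] : E3)) ''
      (Ioo (1 : ℝ) (1 + ε) ×ˢ (univ : Set ℝ) ×ˢ Ioo (-ε) ε) by rwa [h]
  ext p
  constructor
  · rintro ⟨⟨⟨h2, h3⟩, h4⟩, -, h5⟩
    have h6 : 1 < p 0 ^ 2 + p 1 ^ 2 := by
      rcases h4 with h4 | h4
      · rcases h5 with h5 | h5
        · exfalso; linarith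
        · exact h5
      · exact h4
    set w : ℂ := ⟨p 0, p 1⟩ with hw
    have hn : ‖w‖ ^ 2 = p 0 ^ 2 + p 1 ^ 2 := by
      rw [Complex.sq_norm, Complex.normSq_apply]; simp [hw]; ring
    have hn0 := norm_nonneg w
    refine ⟨(‖w‖, w.arg, p 2), ⟨⟨by nlinarith, by nlinarith⟩, trivial, abs_lt.1 h3⟩, ?_⟩
    ext i
    fin_cases i
    · simp [hw]
    · simp [hw]
    · simp
  · rintro ⟨⟨r, θ, z⟩, ⟨⟨h2, h3⟩, -, h4⟩, rfl⟩
    have e : (r * Real.cos θ) ^ 2 + (r * Real.sin θ) ^ 2 = r ^ 2 := by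
      have := Real.cos_sq_add_sin_sq θ
      nlinarith
    simp only at h2 h3 h4
    have hN : (!₂[r * Real.cos θ, r * Real.sin θ, z] : E3) ∈ Neps ε :=
      ⟨by simp [e]; nlinarith, by simpa using abs_lt.2 h4⟩
    have hR : 1 < (r * Real.cos θ) ^ 2 + (r * Real.sin θ) ^ 2 := by rw [e]; nlinarith
    exact ⟨⟨hN, Or.inr (by simpa using hR)⟩, hN, Or.inr (by simpa using hR)⟩

theorem union_Ah (ε : ℝ) : Ah ε 1 ∪ Ah ε (-1) = Neps ε \ D0 := by
  ext p
  constructor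
  · rintro (⟨h, h1 | h1⟩ | ⟨h, h1 | h1⟩) <;> refine ⟨h, fun hd => ?_⟩
    · rw [hd.1] at h1; simp at h1
    · exact absurd hd.2 (not_le.2 h1)
    · rw [hd.1] at h1; simp at h1
    · exact absurd hd.2 (not_le.2 h1)
  · rintro ⟨h, hd⟩
    rcases lt_trichotomy (p 2) 0 with h1 | h1 | h1
    · exact Or.inr ⟨h, Or.inl (by linarith)⟩
    · exact Or.inl ⟨h, Or.inr (not_le.1 fun h2 => hd ⟨h1, h2⟩)⟩
    · exact Or.inl ⟨h, Or.inl (by linarith)⟩

theorem sec_shell {G : Type*} [Group G] {ε : ℝ} (hε : 0 < ε) {c : E3 → E3 → G}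
    (hc : Flat c (Neps ε \ D0)) : ∃ s, Sec c (Neps ε \ D0) s := by
  rw [← union_Ah] at hc ⊢
  exact exists_sec_union_of_preconnected (isOpen_Ah _ _) (isOpen_Ah _ _) (preconn_ring hε)
    (sec_Ah hε (Or.inl rfl) (hc.mono subset_union_left))
    (sec_Ah hε (Or.inr rfl) (hc.mono subset_union_right))

variable {Z : Type*} [TopologicalSpace Z] {G : Type*} [Group G]

theorem sec_pull (e : OpenPartialHomeomorph Z E3) {c : Z → Z → G} {V : Set E3} {s : E3 → G}
    (h : Sec (fun p q => c (e.symm p) (e.symm q)) V s) :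
    Sec c (e.source ∩ e ⁻¹' V) fun ξ => s (e ξ) := by
  have h1 := h.comp (f := e) (V := e.source ∩ e ⁻¹' V)
    (e.continuousOn.mono inter_subset_left) fun x hx => hx.2
  refine h1.congr_conn fun x hx => ?_
  filter_upwards [self_mem_nhdsWithin] with y hy
  simp only [e.left_inv hx.1, e.left_inv hy.1]

theorem closed_disc [T2Space Z] {ε : ℝ} (hε : 0 < ε) (e : OpenPartialHomeomorph Z E3)
    (ht : e.target = Neps ε) : IsClosed (e.source ∩ e ⁻¹' D0) := by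
  have h1 : D0 ⊆ e.target := ht ▸ D0_sub hε
  rw [← e.symm_image_eq_source_inter_preimage h1]
  exact (isCompact_D0.image_of_continuousOn (e.continuousOn_symm.mono h1)).isClosed

theorem symm_notMem (e : OpenPartialHomeomorph Z E3) {A : Set E3} {p : E3} (hp : p ∈ e.target)
    (hA : p ∉ A) : e.symm p ∉ e.source ∩ e ⁻¹' A := fun h =>
  hA (by have := h.2; rwa [mem_preimage, e.right_inv hp] at this)

end ObsA

open ObsA

/-- Paper, section 5, steps (iv) and (v) of Obs. -/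
theorem obs_abelian {Z : Type*} [TopologicalSpace Z] [T2Space Z] {G : Type*} [Group G]
    {Ω : Set Z} (hΩ : IsOpen Ω) (hsc : ∀ c : Z → Z → G, Flat c Ω → ∃ s, Sec c Ω s)
    {ε : ℝ} (hε : 0 < ε) (eN : OpenPartialHomeomorph Z E3) (hN : eN.source ⊆ Ω)
    (hNt : eN.target = Neps ε) {c : Z → Z → G}
    (hc : Flat c (Ω \ (eN.source ∩ eN ⁻¹' S0))) :
    ∃ (φ : Z → G) (g : G), ∀ ξ ∈ Ω \ (eN.source ∩ eN ⁻¹' S0),
      ∀ᶠ η in 𝓝 ξ, (φ η)⁻¹ * c ξ η * φ ξ ∈ Subgroup.zpowers g := by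
  classical
  have hΔ := closed_disc hε eN hNt
  set Δ := eN.source ∩ eN ⁻¹' D0 with hΔd
  have hU : IsOpen (Ω \ Δ) := hΩ.sdiff hΔ
  have hKΔ : eN.source ∩ eN ⁻¹' S0 ⊆ Δ := fun x hx => ⟨hx.1, S0_sub hx.2⟩
  have hcU : Flat c (Ω \ Δ) := hc.mono (sdiff_subset_sdiff_right hKΔ)
  have hsy : ∀ V ⊆ Neps ε, ContinuousOn eN.symm V := fun V hV =>
    eN.continuousOn_symm.mono (hNt ▸ hV)
  have hmD : MapsTo eN.symm (Neps ε \ D0) (Ω \ Δ) := fun p hp =>
    ⟨hN (eN.map_target (hNt ▸ hp.1)), symm_notMem eN (hNt ▸ hp.1) hp.2⟩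
  obtain ⟨s₁, hs₁⟩ := sec_shell hε
    (hcU.comp ((isOpen_N ε).sdiff isClosed_D0) (hsy _ sdiff_subset) hmD)
  have h1 : Sec c ((Ω \ Δ) ∩ eN.source) fun ξ => s₁ (eN ξ) :=
    (sec_pull eN hs₁).mono fun x hx =>
      ⟨hx.2, hNt ▸ eN.map_source hx.2, fun h => hx.1.2 ⟨hx.2, h⟩⟩
  obtain ⟨c', hc', e1, -⟩ := Flat.glue hU eN.open_source hcU
    (flat_of_fun (fun ξ => s₁ (eN ξ)) eN.source) fun x hx => h1.germ (hU.inter eN.open_source) hx
  obtain ⟨sU, hsU⟩ := hsc c' (hc'.mono fun x hx => by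
    by_cases h : x ∈ Δ
    · exact Or.inr h.1
    · exact Or.inl ⟨hx, h⟩)
  have hsU' : Sec c (Ω \ Δ) sU :=
    (hsU.mono sdiff_subset).congr_conn fun x hx => by rw [e1 x hx]
  set V : Set E3 := {p | p 0 ^ 2 + p 1 ^ 2 < 1 ∧ |p 2| < ε} with hV
  have hVN : V ⊆ Neps ε := fun p hp => ⟨by have := hp.1; nlinarith, hp.2⟩
  have hVo : IsOpen V :=
    (isOpen_lt cont_sq continuous_const).inter (isOpen_lt (cont 2).abs continuous_const)
  obtain ⟨sV, hsV⟩ := exists_sec_convex (convex_cyl 1 ε) (hsy V hVN)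
    (W := Ω \ (eN.source ∩ eN ⁻¹' S0)) (fun p hp => ⟨hN (eN.map_target (hNt ▸ hVN hp)),
      symm_notMem eN (hNt ▸ hVN hp) fun h => hp.1.ne h.2⟩) hc
  have hk : ∀ a : ℝ, ∃ k : G, ∀ p ∈ V, 0 < a * p 2 → sU (eN.symm p) = sV p * k := by
    intro a
    by_cases hne : (V ∩ {p : E3 | 0 < a * p 2}).Nonempty
    · obtain ⟨p₀, hp₀⟩ := hne
      have hsub : V ∩ {p : E3 | 0 < a * p 2} ⊆ Neps ε \ D0 := fun p hp =>
        ⟨hVN hp.1, fun h => by have := hp.2; rw [mem_ofPred_eq, h.1] at this; simp at this⟩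
      have h2 := hsU'.comp (hsy _ (hsub.trans sdiff_subset)) (hmD.mono_left hsub)
      refine ⟨(sV p₀)⁻¹ * sU (eN.symm p₀), fun p hp ha => ?_⟩
      have h3 := Sec.unique ((convex_cyl 1 ε).inter (convex_half a)).isPreconnected
        (hsV.mono inter_subset_left) h2 hp₀ ⟨hp, ha⟩
      rw [h3, mul_inv_cancel_left]
    · exact ⟨1, fun p hp ha => absurd ⟨p, hp, ha⟩ hne⟩
  obtain ⟨kp, hkp⟩ := hk 1
  obtain ⟨km, hkm⟩ := hk (-1)
  refine ⟨fun ξ => if ξ ∈ Δ then sV (eN ξ) * km else sU ξ, kp⁻¹ * km, fun ξ hξ => ?_⟩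
  by_cases hd : ξ ∈ Δ
  · have hξV : ξ ∈ eN.source ∩ eN ⁻¹' V := by
      refine ⟨hd.1, lt_of_le_of_ne hd.2.2 fun h => hξ.2 ⟨hd.1, hd.2.1, h⟩, ?_⟩
      rw [hd.2.1]; simpa using hε
    have ho : IsOpen (eN.source ∩ eN ⁻¹' V) := eN.isOpen_inter_preimage hVo
    filter_upwards [(sec_pull eN hsV).germ ho hξV, ho.mem_nhds hξV] with η h2 h3
    rw [h2, if_pos hd]
    by_cases hη : η ∈ Δ
    · rw [if_pos hη]
      simp [mul_assoc]
    · rw [if_neg hη]
      rcases lt_trichotomy (eN η 2) 0 with h | h | h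
      · have h4 := hkm _ h3.2 (by linarith)
        rw [eN.left_inv h3.1] at h4
        rw [h4]
        simp [mul_assoc]
      · exact absurd ⟨h3.1, h, h3.2.1.le⟩ hη
      · have h4 := hkp _ h3.2 (by linarith)
        rw [eN.left_inv h3.1] at h4
        rw [h4]
        simp [mul_assoc]
  · filter_upwards [hsU'.germ hU ⟨hξ.1, hd⟩, hΔ.isOpen_compl.mem_nhds hd] with η h2 h3
    rw [h2, if_neg hd, if_neg h3]
    simp

/-- Paper, section 5, steps (i) and (ii) of Obs: the wall connection of the disc. -/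
theorem exists_cout {Z : Type*} [TopologicalSpace Z] [T2Space Z] {G : Type*} [Group G]
    {ε : ℝ} (hε : 0 < ε) (eN : OpenPartialHomeomorph Z E3) (hNt : eN.target = Neps ε)
    {s : G} (hs : s ≠ 1) : ∃ c : Z → Z → G, Flat c (eN.source ∩ eN ⁻¹' S0)ᶜ ∧
      (∀ ξ η, c ξ η ∈ Subgroup.zpowers s) ∧
      ∀ W : Set Z, IsOpen W → (W ∩ (eN.source ∩ eN ⁻¹' S0)).Nonempty →
        ¬ ∃ t, Sec c (W \ (eN.source ∩ eN ⁻¹' S0)) t := by
  classical
  have hΔ := closed_disc hε eN hNt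
  set σ : Z → G := fun ξ => if 0 ≤ eN ξ 2 then s else 1 with hσ
  set Wl : Set Z := eN.source ∩ eN ⁻¹' {p | p 2 = 0 ∧ p 0 ^ 2 + p 1 ^ 2 < 1} with hWl
  refine ⟨wall σ Wl, flat_wall σ Wl _ (fun x hx hx' => ?_) (fun x _ hx => ?_), fun ξ η => ?_,
    fun W hW ⟨ξ₀, h0W, h0s, h0⟩ ⟨t, ht⟩ => hs ?_⟩
  · have : x ∉ eN.source ∩ eN ⁻¹' D0 := fun h => by
      rcases h.2.2.lt_or_eq with h1 | h1
      · exact hx' ⟨h.1, h.2.1, h1⟩
      · exact hx ⟨h.1, h.2.1, h1⟩
    filter_upwards [hΔ.isOpen_compl.mem_nhds this] with y hy h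
    exact hy ⟨h.1, h.2.1, h.2.2.le⟩
  · have ho : IsOpen (eN.source ∩ eN ⁻¹' {p | p 0 ^ 2 + p 1 ^ 2 < 1}) :=
      eN.isOpen_inter_preimage (isOpen_lt cont_sq continuous_const)
    filter_upwards [ho.mem_nhds ⟨hx.1, hx.2.2⟩] with y hy hyW
    have hc : ContinuousAt (fun z => eN z 2) y :=
      (cont 2).continuousAt.comp (eN.continuousAt hy.1)
    rcases lt_trichotomy (eN y 2) 0 with h | h | h
    · filter_upwards [hc.eventually (gt_mem_nhds h)] with z hz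
      simp only [hσ, if_neg (not_le.2 h), if_neg (not_le.2 hz)]
    · exact absurd ⟨hy.1, h, hy.2⟩ hyW
    · filter_upwards [hc.eventually (lt_mem_nhds h)] with z hz
      simp only [hσ, if_pos h.le, if_pos hz.le]
  · have hm : ∀ z, σ z ∈ Subgroup.zpowers s := fun z => by
      simp only [hσ]
      split_ifs
      · exact Subgroup.mem_zpowers s
      · exact one_mem _
    unfold wall
    split_ifs
    · exact mul_mem (hm _) (inv_mem (hm _))
    · exact one_mem _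
  · set p₀ := eN ξ₀ with hp₀
    have h01 : p₀ 2 = 0 := h0.1
    have h02 : p₀ 0 ^ 2 + p₀ 1 ^ 2 = 1 := h0.2
    let Γ : ℝ × ℝ → E3 := fun q => !₂[(1 + q.1) * p₀ 0, (1 + q.1) * p₀ 1, q.2]
    have hΓ : Continuous Γ := by fun_prop
    have hΓ0 : Γ 0 = p₀ := by
      ext i; fin_cases i <;> simp [Γ, h01]
    have ho : IsOpen (eN.target ∩ eN.symm ⁻¹' W) := eN.isOpen_inter_preimage_symm hW
    have hm0 : (0 : ℝ × ℝ) ∈ Γ ⁻¹' (eN.target ∩ eN.symm ⁻¹' W) := by
      rw [mem_preimage, hΓ0]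
      exact ⟨eN.map_source h0s, by rw [mem_preimage, hp₀, eN.left_inv h0s]; exact h0W⟩
    obtain ⟨r, hr, hball⟩ := Metric.isOpen_iff.1 (ho.preimage hΓ) 0 hm0
    obtain ⟨ρ, hρ, hρ1, hρr⟩ : ∃ ρ : ℝ, 0 < ρ ∧ ρ ≤ 1 ∧ ρ < r :=
      ⟨min 1 (r / 2), by positivity, min_le_left _ _, (min_le_right _ _).trans_lt (by linarith)⟩
    let γ : ℝ → E3 := fun τ => Γ (ρ * (1 / 2 - τ ^ 2), ρ * (τ * (1 - τ ^ 2)))
    have hγc : Continuous γ := hΓ.comp (by fun_prop)
    have hγ2 : ∀ τ, γ τ 2 = ρ * (τ * (1 - τ ^ 2)) := fun τ => by simp [γ, Γ]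
    have hγr : ∀ τ, γ τ 0 ^ 2 + γ τ 1 ^ 2 = (1 + ρ * (1 / 2 - τ ^ 2)) ^ 2 := fun τ => by
      have e0 : γ τ 0 = (1 + ρ * (1 / 2 - τ ^ 2)) * p₀ 0 := by simp [γ, Γ]
      have e1 : γ τ 1 = (1 + ρ * (1 / 2 - τ ^ 2)) * p₀ 1 := by simp [γ, Γ]
      rw [e0, e1, mul_pow, mul_pow, ← mul_add, h02, mul_one]
    have hγm : ∀ τ ∈ Icc (-1 : ℝ) 1, γ τ ∈ eN.target ∩ eN.symm ⁻¹' W := fun τ hτ => by
      refine hball ?_
      have a1 : τ ^ 2 ≤ 1 := by nlinarith [hτ.1, hτ.2]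
      have a2 : |1 / 2 - τ ^ 2| ≤ 1 := abs_le.2 ⟨by linarith, by nlinarith⟩
      have a3 : |τ * (1 - τ ^ 2)| ≤ 1 :=
        abs_le.2 ⟨by nlinarith [hτ.1, hτ.2], by nlinarith [hτ.1, hτ.2]⟩
      rw [mem_ball_zero_iff, Prod.norm_def, max_lt_iff, Real.norm_eq_abs, Real.norm_eq_abs,
        abs_mul, abs_mul ρ, abs_of_pos hρ]
      constructor <;> nlinarith
    have hz : ∀ τ, γ τ 2 = 0 → τ = 0 ∨ τ ^ 2 = 1 := fun τ h => by
      rw [hγ2] at h
      rcases mul_eq_zero.1 ((mul_eq_zero.1 h).resolve_left hρ.ne') with h | h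
      · exact Or.inl h
      · exact Or.inr (by linarith)
    let g : ℝ → Z := fun τ => eN.symm (γ τ)
    have hg : ∀ τ ∈ Icc (-1 : ℝ) 1, eN (g τ) = γ τ := fun τ hτ => eN.right_inv (hγm τ hτ).1
    have hS := ht.comp (f := g) (V := Icc (-1) 1)
      (eN.continuousOn_symm.comp hγc.continuousOn fun τ hτ => (hγm τ hτ).1) fun τ hτ => by
        refine ⟨(hγm τ hτ).2, symm_notMem eN (hγm τ hτ).1 fun h => ?_⟩
        have h2 := h.2
        rw [hγr] at h2
        rcases hz τ h.1 with h3 | h3 <;> rw [h3] at h2 <;> nlinarith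
    have hoff : ∀ τ ∈ Ioo (-1 : ℝ) 1, ∀ y, wall σ Wl (g τ) y = 1 := fun τ hτ y => by
      refine if_neg (symm_notMem eN (hγm τ (Ioo_subset_Icc_self hτ)).1 fun h => ?_)
      have h2 := h.2
      rw [hγr] at h2
      rcases hz τ h.1 with h3 | h3
      · rw [h3] at h2; nlinarith
      · nlinarith [hτ.1, hτ.2]
    have hon : ∀ τ ∈ Icc (-1 : ℝ) 1, τ ^ 2 = 1 → ∀ y, wall σ Wl (g τ) y = σ y * s⁻¹ := by
      intro τ hτ h2 y
      have h3 : γ τ 2 = 0 := by rw [hγ2, h2]; simp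
      have h4 : g τ ∈ Wl := by
        refine ⟨eN.map_target (hγm τ hτ).1, ?_⟩
        rw [mem_preimage, hg τ hτ]
        refine ⟨h3, ?_⟩
        rw [hγr, h2]
        nlinarith
      have h5 : σ (g τ) = s := by simp only [hσ, hg τ hτ, h3, le_refl, if_true]
      unfold wall
      rw [if_pos h4, h5]
    have u1 : Sec (fun a b => wall σ Wl (g a) (g b)) (Icc 0 1) fun _ => 1 := fun a ha => by
      filter_upwards [self_mem_nhdsWithin] with b hb
      rcases ha.2.lt_or_eq with h | h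
      · rw [hoff a ⟨by linarith [ha.1], h⟩, one_mul]
      · have hb' : b ∈ Icc (-1 : ℝ) 1 := ⟨by linarith [hb.1], hb.2⟩
        have h5 : 0 ≤ γ b 2 := by
          rw [hγ2]
          exact mul_nonneg hρ.le (mul_nonneg hb.1 (by nlinarith [hb.1, hb.2]))
        rw [hon a ⟨by linarith [ha.1], ha.2⟩ (by rw [h]; norm_num)]
        simp only [hσ, hg b hb', if_pos h5, mul_inv_cancel, mul_one]
    have u2 : Sec (fun a b => wall σ Wl (g a) (g b)) (Icc (-1) 0)
        fun τ => if τ = -1 then s else 1 := fun a ha => by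
      rcases ha.1.lt_or_eq with h | h
      · filter_upwards [nhdsWithin_le_nhds (lt_mem_nhds h)] with b hb
        rw [hoff a ⟨h, by linarith [ha.2]⟩, if_neg (ne_of_gt hb), if_neg h.ne', one_mul]
      · filter_upwards [self_mem_nhdsWithin,
          nhdsWithin_le_nhds (gt_mem_nhds (show a < 0 by linarith))] with b hb hb0
        have hb' : b ∈ Icc (-1 : ℝ) 1 := ⟨hb.1, by linarith [hb.2]⟩
        rw [hon a ⟨ha.1, by linarith [ha.2]⟩ (by rw [← h]; norm_num), if_pos h.symm,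
          inv_mul_cancel_right]
        simp only [hσ, hg b hb', hγ2]
        rcases hb.1.lt_or_eq with h6 | h6
        · have h7 : ρ * (b * (1 - b ^ 2)) < 0 :=
            mul_neg_of_pos_of_neg hρ (mul_neg_of_neg_of_pos hb0 (by nlinarith))
          rw [if_neg h6.ne', if_neg (not_le.2 h7)]
        · rw [if_pos h6.symm, if_pos (by rw [← h6]; norm_num)]
    have v1 := Sec.unique isPreconnected_Icc u1
      (hS.mono (Icc_subset_Icc_left (by norm_num))) (left_mem_Icc.2 zero_le_one)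
      (right_mem_Icc.2 zero_le_one)
    have v2 := Sec.unique isPreconnected_Icc u2
      (hS.mono (Icc_subset_Icc_right (by norm_num))) (left_mem_Icc.2 (by norm_num))
      (right_mem_Icc.2 (by norm_num))
    have e : g (-1) = g 1 := by simp [g, γ]
    simp only [if_true, if_neg (show (0 : ℝ) ≠ -1 by norm_num), inv_one, one_mul, e] at v1 v2
    rw [v1] at v2
    simpa using v2

end Pool.Agent.P.MP_c51580_gt
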