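import Pool.Agent.P.MP_c51580_gt.ObsA
import Pool.Agent.P.MP_c51580_gt.ModelB

namespace Pool.Agent.P.MP_c51580_gt

open Set Metric Filter Topology
open scoped RealInnerProductSpace

theorem ob_zpowers {m : D3} (h : m ∈ Subgroup.zpowers (DihedralGroup.sr 0 : D3)) :
    m = 1 ∨ m = DihedralGroup.sr 0 := by
  obtain ⟨k, rfl⟩ := h
  have h2 : (DihedralGroup.sr 0 : D3) ^ (2 : ℤ) = 1 := by decide
  obtain ⟨j, rfl | rfl⟩ := Int.even_or_odd' k
  · left; simp only [zpow_mul, h2, one_zpow]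
  · right; simp only [zpow_add, zpow_mul, h2, one_zpow, zpow_one, one_mul]

/-- Two connections on the shell with the same holonomy differ by a gauge. -/
theorem ob_gauge {G : Type*} [Group G] {c c' : E3 → E3 → G} {up um tp tm : E3 → G} {m : G}
    (h1 : Sec c Pp up) (h2 : Sec c Pm um) (h3 : ∀ p ∈ QN, up p = um p)
    (h4 : ∀ p ∈ QS, up p = um p * m) (k1 : Sec c' Pp tp) (k2 : Sec c' Pm tm)
    (k3 : ∀ p ∈ QN, tp p = tm p) (k4 : ∀ p ∈ QS, tp p = tm p * m) :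
    ∃ φ : E3 → G, ∀ p ∈ Shell, ∀ᶠ q in 𝓝 p, φ q * c p q * (φ p)⁻¹ = c' p q := by
  obtain ⟨φ, e1, e2⟩ := exists_glue_fun (s₁ := fun p => tp p * (up p)⁻¹)
    (s₂ := fun p => tm p * (um p)⁻¹) (W₁ := Pp) (W₂ := Pm) (by
      intro p hp
      rw [Pp_inter_Pm] at hp
      rcases hp with hp | hp
      · simp only [h3 p hp, k3 p hp]
      · simp only [h4 p hp, k4 p hp]; group)
  refine ⟨φ, fun p hp => ?_⟩
  rw [← Pp_union_Pm] at hp
  rcases hp with hp | hp
  · filter_upwards [Sec.germ isOpen_Pp h1 hp, Sec.germ isOpen_Pp k1 hp, isOpen_Pp.mem_nhds hp]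
      with q a b hq
    rw [a, b, e1 hq, e1 hp]; group
  · filter_upwards [Sec.germ isOpen_Pm h2 hp, Sec.germ isOpen_Pm k2 hp, isOpen_Pm.mem_nhds hp]
      with q a b hq
    rw [a, b, e2 hq, e2 hp]; group

/-- Paper, section 5, Proposition Obs. -/
theorem obs {Z : Type*} [TopologicalSpace Z] [T2Space Z] {Ω : Set Z} (hΩ : IsOpen Ω)
    (hsc : ∀ c : Z → Z → D3, Flat c Ω → ∃ s, Sec c Ω s) {ε : ℝ} (hε : 0 < ε)
    (eN eB : OpenPartialHomeomorph Z E3) (hN : eN.source ⊆ Ω) (hNt : eN.target = Neps ε)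
    (hB : eB.source ⊆ Ω) (hBt : eB.target = Obox)
    (hK : ∀ ξ ∈ eB.source, (ξ ∈ eN.source ∧ eN ξ ∈ S0) ↔ eB ξ ∈ kn) : False := by
  set K : Set Z := eN.source ∩ eN ⁻¹' S0 with hKdef
  obtain ⟨cout, hout, hsub, hno⟩ := exists_cout hε eN hNt
    (s := (DihedralGroup.sr 0 : D3)) (by decide)
  obtain ⟨cin, hin, hK2, up, um, h1, h2, h3, h4⟩ := exists_cin
  have hSO : Shell ⊆ Obox \ kn := Shell_eq ▸ sdiff_subset
  have hcs : ContinuousOn eB.symm Obox := hBt ▸ eB.continuousOn_symm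
  have hsrc : ∀ p ∈ Obox, eB.symm p ∈ eB.source := fun p hp => eB.map_target (hBt ▸ hp)
  have hri : ∀ p ∈ Obox, eB (eB.symm p) = p := fun p hp => eB.right_inv (hBt ▸ hp)
  have htg : ∀ ξ ∈ eB.source, eB ξ ∈ Obox := fun ξ hξ => hBt ▸ eB.map_source hξ
  have hoff : ∀ p ∈ Obox \ kn, eB.symm p ∉ K := fun p hp hk =>
    hp.2 (hri p hp.1 ▸ (hK _ (hsrc p hp.1)).1 hk)
  -- pull the wall connection back to the shell
  have hcS : Flat (fun p q => cout (eB.symm p) (eB.symm q)) Shell :=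
    hout.comp isOpen_Shell (hcs.mono fun p hp => (hSO hp).1) fun p hp => hoff p (hSO hp)
  obtain ⟨tp, tm, m, k1, k2, k3, k4, k5⟩ := shell_sec hcS
  have hm := ob_zpowers (k5 _ fun p _ => Eventually.of_forall fun q => hsub _ _)
  -- the part of the sheet outside the inner box
  let W : Set Z := eB.source ∩ eB ⁻¹' Iboxᶜ
  have hW : IsOpen W := eB.isOpen_inter_preimage isCompact_Ibox.isClosed.isOpen_compl
  have hWS : ∀ ξ ∈ W \ K, eB ξ ∈ Shell := fun ξ hξ => by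
    rw [Shell_eq]
    exact ⟨⟨htg ξ hξ.1.1, fun hk => hξ.2 ((hK ξ hξ.1.1).2 hk)⟩, hξ.1.2⟩
  rcases hm with rfl | rfl
  · obtain ⟨t, ht, -⟩ := exists_sec_union_open isOpen_Pp isOpen_Pm k1 k2 (by
      intro p hp
      rw [Pp_inter_Pm] at hp
      rcases hp with hp | hp
      · exact k3 p hp
      · simpa using k4 p hp)
    rw [Pp_union_Pm] at ht
    have hp : (!₂[9 / 2, 0, 0] : E3) ∈ Obox := by simp [Obox]; norm_num
    have hp' : (!₂[9 / 2, 0, 0] : E3) ∉ Ibox := by simp [Ibox]; norm_num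
    refine hno W hW ⟨eB.symm !₂[9 / 2, 0, 0], ⟨hsrc _ hp, ?_⟩, ?_⟩ ⟨_,
      (ht.comp (eB.continuousOn.mono fun ξ hξ => hξ.1.1) hWS).congr_conn fun ξ hξ => ?_⟩
    · rw [mem_preimage, hri _ hp]; exact hp'
    · refine (hK _ (hsrc _ hp)).2 ?_
      rw [hri _ hp]; exact (kn_shell hp hp').2 (by simp)
    · filter_upwards [self_mem_nhdsWithin] with η hη
      simp only [eB.left_inv hξ.1.1, eB.left_inv hη.1.1]
  obtain ⟨φ, hφ⟩ := ob_gauge h1 h2 h3 h4 k1 k2 k3 k4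
  -- glue
  have hS0 : IsCompact S0 := by
    refine Metric.isCompact_of_isClosed_isBounded ?_ ?_
    · exact (isClosed_eq (mb_cont 2) continuous_const).inter
        (isClosed_eq (by fun_prop) continuous_const)
    · refine (isBounded_closedBall (x := (0 : E3)) (r := 1)).subset fun p hp => ?_
      rw [mem_closedBall_zero_iff, EuclideanSpace.norm_eq, Real.sqrt_le_one,
        Fin.sum_univ_three]
      simp only [Real.norm_eq_abs, sq_abs]
      rw [hp.1, hp.2]; norm_num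
  have hS0N : S0 ⊆ eN.target := by
    rintro p ⟨a, b⟩
    rw [hNt]
    exact ⟨by nlinarith, by simpa [a] using hε⟩
  have hKc : IsClosed K := by
    have : K = eN.symm '' S0 := (eN.symm_image_eq_source_inter_preimage hS0N).symm
    rw [this]
    exact (hS0.image_of_continuousOn (eN.continuousOn_symm.mono hS0N)).isClosed
  have hIc : IsClosed (eB.symm '' Ibox) :=
    (isCompact_Ibox.image_of_continuousOn (hcs.mono Ibox_subset)).isClosed
  have o₁ : IsOpen (eB.source \ K) := eB.open_source.sdiff hKc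
  have o₂ : IsOpen ((Ω \ K) \ eB.symm '' Ibox) := (hΩ.sdiff hKc).sdiff hIc
  have hmap : MapsTo eB (eB.source \ K) (Obox \ kn) := fun ξ hξ =>
    ⟨htg ξ hξ.1, fun hk => hξ.2 ((hK ξ hξ.1).2 hk)⟩
  have f₁ := (hin.gauge φ).comp o₁ (eB.continuousOn.mono sdiff_subset) hmap
  obtain ⟨c, hc, g₁, -⟩ := Flat.glue o₁ o₂ f₁ (hout.mono fun ξ hξ => hξ.1.2) (by
    rintro ξ ⟨hξ, hξ'⟩
    have hξS : eB ξ ∈ Shell := hWS ξ ⟨⟨hξ.1, fun hI => hξ'.2 ⟨_, hI, eB.left_inv hξ.1⟩⟩, hξ.2⟩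
    filter_upwards [(eB.continuousAt hξ.1).eventually (hφ _ hξS),
      eB.open_source.mem_nhds hξ.1] with η e hη
    rw [e, eB.left_inv hξ.1, eB.left_inv hη])
  have hc' : Flat c (Ω \ K) := hc.mono fun ξ hξ => by
    by_cases h : ξ ∈ eB.source
    · exact Or.inl ⟨h, hξ.2⟩
    · refine Or.inr ⟨hξ, ?_⟩
      rintro ⟨p, hp, rfl⟩
      exact h (hsrc p (Ibox_subset hp))
  obtain ⟨ψ, g, hψ⟩ := obs_abelian hΩ hsc hε eN hN hNt hc'
  refine hK2 (fun q => (φ q)⁻¹ * ψ (eB.symm q)) g fun p hp => ?_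
  have hev := (hcs.continuousAt (isOpen_Obox.mem_nhds hp.1)).eventually
    (hψ _ ⟨hB (hsrc p hp.1), hoff p hp⟩)
  filter_upwards [hev, isOpen_Obox.mem_nhds hp.1] with q e hq
  rw [g₁ _ ⟨hsrc p hp.1, hoff p hp⟩] at e
  simp only [hri p hp.1, hri q hq] at e
  convert e using 1
  group

end Pool.Agent.P.MP_c51580_gt
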