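import Mathlib

/-!
Definitions used in the statement: curves, unknots, circles, the standard Borromean rings.
-/

namespace Pool.Agent.P.MP_c51580_gt

open Set Metric
open scoped RealInnerProductSpace

/-- Euclidean 3-space. -/
abbrev E3 : Type := EuclideanSpace ℝ (Fin 3)

/-- A piecewise `C¹` simple closed curve: the image of a closed path `γ` on `[0,1]`, injective on
`[0,1)`, which is `C¹` with nowhere vanishing derivative on each interval of a finite partition. -/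
def IsCurve (C : Set E3) : Prop :=
  ∃ (γ : ℝ → E3) (n : ℕ) (t : ℕ → ℝ), 0 < n ∧ t 0 = 0 ∧ t n = 1 ∧ (∀ i < n, t i < t (i + 1)) ∧
    ContinuousOn γ (Icc 0 1) ∧ γ 0 = γ 1 ∧ InjOn γ (Ico 0 1) ∧ γ '' Icc 0 1 = C ∧
    ∀ i < n, ContDiffOn ℝ 1 γ (Icc (t i) (t (i + 1))) ∧
      ∀ s ∈ Icc (t i) (t (i + 1)), derivWithin γ (Icc (t i) (t (i + 1))) s ≠ 0

/-- `C` bounds an embedded disc. -/
def Unknotted (C : Set E3) : Prop :=
  ∃ f : EuclideanSpace ℝ (Fin 2) → E3, ContinuousOn f (closedBall 0 1) ∧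
    InjOn f (closedBall 0 1) ∧ f '' sphere 0 1 = C

/-- A round circle of some radius in some plane. -/
def IsCircle (C : Set E3) : Prop :=
  ∃ (c n : E3) (r : ℝ), ‖n‖ = 1 ∧ 0 < r ∧ C = {p | ⟪p - c, n⟫ = 0 ∧ dist p c = r}

/-- The ellipse with semi-axes 1, 2 in the plane `z = 0`. -/
def ell1 : Set E3 := {p | p 2 = 0 ∧ p 0 ^ 2 + p 1 ^ 2 / 4 = 1}

/-- The ellipse with semi-axes 1, 2 in the plane `x = 0`. -/
def ell2 : Set E3 := {p | p 0 = 0 ∧ p 1 ^ 2 + p 2 ^ 2 / 4 = 1}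

/-- The ellipse with semi-axes 1, 2 in the plane `y = 0`. -/
def ell3 : Set E3 := {p | p 1 = 0 ∧ p 2 ^ 2 + p 0 ^ 2 / 4 = 1}

/-- The standard Borromean rings: three mutually perpendicular ellipses. -/
def Bor : Set E3 := ell1 ∪ ell2 ∪ ell3

/-- The three curves can be moved by isometries to pairwise disjoint positions whose union is
carried onto the standard Borromean rings by a homeomorphism of the space. -/
def FormsBorromean (C₁ C₂ C₃ : Set E3) : Prop :=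
  ∃ g₁ g₂ g₃ : E3 ≃ᵢ E3, Disjoint (g₁ '' C₁) (g₂ '' C₂) ∧ Disjoint (g₁ '' C₁) (g₃ '' C₃) ∧
    Disjoint (g₂ '' C₂) (g₃ '' C₃) ∧
    ∃ h : E3 ≃ₜ E3, h '' (g₁ '' C₁ ∪ g₂ '' C₂ ∪ g₃ '' C₃) = Bor

end Pool.Agent.P.MP_c51580_gt
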